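import Pool.Agent.ARK.Ldf
import Pool.Agent.NDC.Krk
import Pool.Agent.NDC.Psd
import Pool.Agent.NDC.Tlm

/-!
ARK module Kms (size 2): kernels.
PROOF. `levi_eq_sum` (CYF/Comm): `levi w z a b = ∑ k, ∑ l, a k * conj (b l) * LM w z k l`. `ker_iff`: take `b = e l` (`CYF.e` is
`Pi.single`). `levi_km`: `= ∑ l, conj (b l) * ∑ k, a k * LM w z k l`. `levi_km'`: conjugate, `LM_conj` (CYF/Comm). `km_of_re`: `lm_psd` (NDC/Psd),
`psd_ker` (NDC/Krk; `lm_apply`). `km_add`, `km_smul`, `km_sum`: linearity. `ker_chg`: `lm_w_chg` or `η.compat`: `levi (η.w j) (ph z) (Dφ a) (Dφ b) = levi (η.w i) z a b`,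
and `Dφ` is bijective (`ph_ph`, chain rule; see the proofs in NDC/Hol, /team-store/ndc_Hol.lean, or CYF).
-/

open scoped ContDiff ComplexConjugate Topology ComplexOrder
open Complex MeasureTheory Matrix

namespace Pool.Agent.ARK

open Pool.Agent.CYF Pool.Agent.NDC

variable {n : ℕ} {X : Type*} [TopologicalSpace X] {ι : Type*} {A : Mfd n X ι}
  {w : E n → ℝ} {U : Set (E n)} {z : E n}

private theorem Kms_sum (hU : IsOpen U) (hw : ContDiffOn ℝ ∞ w U) (hz : z ∈ U) (a b : E n) :
    levi w z a b = ∑ l, conj (b l) * ∑ k, a k * LM w z k l := by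
  rw [levi_eq_sum (hw.contDiffAt (hU.mem_nhds hz)), Finset.sum_comm]
  refine Finset.sum_congr rfl fun l _ => ?_
  rw [Finset.mul_sum]
  refine Finset.sum_congr rfl fun k _ => ?_
  ring

theorem ker_iff (η : Form A) {i : ι} (hz : z ∈ (A.c i).target) (a : E n) :
    Ker η i z a ↔ KM (η.w i) z a := by
  constructor
  · intro h l
    have h1 := h (e l)
    rw [Kms_sum (A.c i).open_target (η.smooth i) hz, Finset.sum_eq_single l] at h1
    · simpa [e] using h1
    · intro l' _ hl'
      simp [e, hl']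
    · intro hl
      exact absurd (Finset.mem_univ l) hl
  · intro h b
    rw [Kms_sum (A.c i).open_target (η.smooth i) hz]
    exact Finset.sum_eq_zero fun l _ => by rw [h l, mul_zero]

theorem levi_km (hU : IsOpen U) (hw : ContDiffOn ℝ ∞ w U) (hz : z ∈ U) {a : E n}
    (ha : KM w z a) (b : E n) : levi w z a b = 0 := by
  rw [Kms_sum hU hw hz]
  exact Finset.sum_eq_zero fun l _ => by rw [ha l, mul_zero]

private theorem Kms_conj (hU : IsOpen U) (hw : ContDiffOn ℝ ∞ w U) (hz : z ∈ U) {a : E n}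
    (ha : KM w z a) (k : Fin n) : ∑ l, conj (a l) * LM w z k l = 0 := by
  have h1 := congrArg conj (ha k)
  rw [map_zero, map_sum] at h1
  rw [← h1]
  refine Finset.sum_congr rfl fun l _ => ?_
  rw [map_mul, LM_conj hU hw hz]

theorem levi_km' (hU : IsOpen U) (hw : ContDiffOn ℝ ∞ w U) (hz : z ∈ U) {a : E n}
    (ha : KM w z a) (b : E n) : levi w z b a = 0 := by
  rw [levi_eq_sum (hw.contDiffAt (hU.mem_nhds hz))]
  refine Finset.sum_eq_zero fun k _ => ?_
  have h1 := Kms_conj hU hw hz ha k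
  calc ∑ l, b k * conj (a l) * LM w z k l = b k * ∑ l, conj (a l) * LM w z k l := by
        rw [Finset.mul_sum]
        exact Finset.sum_congr rfl fun l _ => by ring
    _ = 0 := by rw [h1, mul_zero]

theorem km_conj (hU : IsOpen U) (hw : ContDiffOn ℝ ∞ w U) (hz : z ∈ U) {a : E n}
    (ha : KM w z a) (k : Fin n) : ∑ l, conj (a l) * LM w z k l = 0 :=
  Kms_conj hU hw hz ha k

theorem km_of_re (hU : IsOpen U) (hw : ContDiffOn ℝ ∞ w U) (hz : z ∈ U)
    (hp : ∀ b : E n, 0 ≤ (levi w z b b).re) {a : E n}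
    (ha : (∑ k, ∑ l, a k * conj (a l) * LM w z k l).re = 0) : KM w z a :=
  (psd_ker (lm_psd hU hw hz hp) a).1 ha

theorem km_add {a b : E n} (ha : KM w z a) (hb : KM w z b) : KM w z (a + b) := by
  intro l
  have h1 := ha l
  have h2 := hb l
  calc ∑ k, (a + b) k * LM w z k l = ∑ k, a k * LM w z k l + ∑ k, b k * LM w z k l := by
        rw [← Finset.sum_add_distrib]
        exact Finset.sum_congr rfl fun k _ => by rw [Pi.add_apply, add_mul]
    _ = 0 := by rw [h1, h2, add_zero]

theorem km_smul {a : E n} (c : ℂ) (ha : KM w z a) : KM w z (c • a) := by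
  intro l
  calc ∑ k, (c • a) k * LM w z k l = c * ∑ k, a k * LM w z k l := by
        rw [Finset.mul_sum]
        exact Finset.sum_congr rfl fun k _ => by rw [Pi.smul_apply, smul_eq_mul, mul_assoc]
    _ = 0 := by rw [ha l, mul_zero]

theorem km_sum {κ : Type*} (s : Finset κ) (c : κ → ℂ) (v : κ → E n) (h : ∀ i ∈ s, KM w z (v i)) :
    KM w z (∑ i ∈ s, c i • v i) := by
  classical
  induction s using Finset.induction_on with
  | empty =>
    intro l
    simp
  | insert x s hx ih =>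
    rw [Finset.sum_insert hx]
    exact km_add (km_smul _ (h x (Finset.mem_insert_self x s)))
      (ih fun i hi => h i (Finset.mem_insert_of_mem hi))

private theorem Kms_rank (η : Form A) {i j : ι} (hz : z ∈ Uo A i j) :
    (lm (η.w i) z).rank ≤ (lm (η.w j) (ph A i j z)).rank := by
  rw [lm_w_chg η hz]
  exact (Matrix.rank_mul_le_left _ _).trans (Matrix.rank_mul_le_right _ _)

theorem full_ph (η : Form A) {ν : ℕ} {i j : ι} (hz : z ∈ Uo A i j) :
    Full η ν i z ↔ Full η ν j (ph A i j z) := by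
  have h1 := Kms_rank η hz
  have h2 := Kms_rank η (ph_mem_Uo hz)
  rw [ph_ph hz] at h2
  have h3 : (lm (η.w i) z).rank = (lm (η.w j) (ph A i j z)).rank := le_antisymm h1 h2
  unfold Full
  rw [h3]
  exact and_congr_left fun _ => ⟨fun _ => ph_mem hz, fun _ => hz.1⟩

private theorem Kms_inv {i j : ι} (hz : z ∈ Uo A i j) (a : E n) :
    fderiv ℂ (ph A j i) (ph A i j z) (fderiv ℂ (ph A i j) z a) = a := by
  have hd1 : DifferentiableAt ℂ (ph A i j) z :=
    ((contDiffOn_ph A i j).contDiffAt ((isOpen_Uo A i j).mem_nhds hz)).differentiableAt (by simp)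
  have hd2 : DifferentiableAt ℂ (ph A j i) (ph A i j z) :=
    ((contDiffOn_ph A j i).contDiffAt ((isOpen_Uo A j i).mem_nhds (ph_mem_Uo hz))).differentiableAt
      (by simp)
  have h1 : fderiv ℂ (ph A j i ∘ ph A i j) z
      = (fderiv ℂ (ph A j i) (ph A i j z)).comp (fderiv ℂ (ph A i j) z) := fderiv_comp z hd2 hd1
  have h2 : (ph A j i ∘ ph A i j) =ᶠ[𝓝 z] id := by
    filter_upwards [(isOpen_Uo A i j).mem_nhds hz] with y hy
    exact ph_ph hy
  rw [h2.fderiv_eq, fderiv_id] at h1
  have h3 := congrArg (fun L => L a) h1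
  exact h3.symm

theorem km_ph (η : Form A) {i j : ι} (hz : z ∈ Uo A i j) (a : E n) :
    KM (η.w i) z a ↔ KM (η.w j) (ph A i j z) (fderiv ℂ (ph A i j) z a) := by
  rw [← ker_iff η hz.1, ← ker_iff η (ph_mem hz)]
  constructor
  · intro h b
    have hz' := ph_mem_Uo hz
    have h1 := η.compat j i (ph A i j z) hz'.1 hz'.2 (fderiv ℂ (ph A i j) z a) b
    rw [← h1]
    have h2 := h (fderiv ℂ (ph A j i) (ph A i j z) b)
    have h3 : levi (η.w i) (ph A j i (ph A i j z))
        (fderiv ℂ (ph A j i) (ph A i j z) (fderiv ℂ (ph A i j) z a))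
        (fderiv ℂ (ph A j i) (ph A i j z) b) = 0 := by
      rw [ph_ph hz, Kms_inv hz]
      exact h2
    exact h3
  · intro h b
    rw [← η.compat i j z hz.1 hz.2 a b]
    exact h (fderiv ℂ (ph A i j) z b)

end Pool.Agent.ARK
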