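import Pool.Agent.CYF.Comm

/-!
ARK module Lmn: the Levi form at a local extremum (proved; copied from CYF/LpxMax).
-/

open scoped ContDiff ComplexConjugate Topology ComplexOrder
open Complex

namespace Pool.Agent.ARK

open Pool.Agent.CYF

variable {n : ℕ}

private theorem Lmn_snd_nonpos {f : E n → ℝ} {x : E n} (hf : ContDiffAt ℝ ∞ f x) (hm : IsLocalMax f x)
    (w : E n) : fderiv ℝ (fderiv ℝ f) x w w ≤ 0 := by
  by_contra hcon
  push Not at hcon
  have hd : ∀ᶠ y in 𝓝 x, DifferentiableAt ℝ f y := by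
    have h1 : ∀ᶠ y in 𝓝 x, ContDiffAt ℝ 1 f y :=
      (hf.of_le (m := 1) (by exact_mod_cast le_top)).eventually (by simp)
    filter_upwards [h1] with y hy
    exact hy.differentiableAt (by simp)
  have hd2 : DifferentiableAt ℝ (fderiv ℝ f) x :=
    (hf.fderiv_right (m := ∞) (by simp)).differentiableAt (by simp)
  let γ : ℝ → E n := fun s => x + s • w
  have hγ : ∀ s, HasDerivAt γ w s := by
    intro s
    have h := ((hasDerivAt_id s).smul_const w).const_add x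
    simpa [γ] using h
  have hγ0 : γ 0 = x := by simp [γ]
  have hγc : Filter.Tendsto γ (𝓝 0) (𝓝 x) := by
    have h := (hγ 0).continuousAt.tendsto
    rwa [hγ0] at h
  let g : ℝ → ℝ := fun s => f (γ s)
  have hg1 : deriv g =ᶠ[𝓝 0] fun s => fderiv ℝ f (γ s) w := by
    filter_upwards [hγc.eventually hd] with s hs
    exact (hs.hasFDerivAt.comp_hasDerivAt s (hγ s)).deriv
  have hg2 : deriv (deriv g) 0 = fderiv ℝ (fderiv ℝ f) x w w := by
    rw [hg1.deriv_eq]
    have h1 : HasDerivAt (fun s => fderiv ℝ f (γ s)) (fderiv ℝ (fderiv ℝ f) x w) 0 := by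
      have h2 : HasFDerivAt (fderiv ℝ f) (fderiv ℝ (fderiv ℝ f) x) (γ 0) := by
        rw [hγ0]; exact hd2.hasFDerivAt
      exact h2.comp_hasDerivAt 0 (hγ 0)
    have h3 := h1.clm_apply (hasDerivAt_const (0 : ℝ) w)
    simpa using h3.deriv
  have hgmax : IsLocalMax g 0 := by
    have h1 : ∀ᶠ s in 𝓝 (0 : ℝ), f (γ s) ≤ f x := hγc.eventually hm
    filter_upwards [h1] with s hs
    change f (γ s) ≤ f (γ 0)
    rw [hγ0]
    exact hs
  have hg0 : deriv g 0 = 0 := hgmax.deriv_eq_zero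
  have hgc : ContinuousAt g 0 := by
    have h1 : ContinuousAt f (γ 0) := by
      rw [hγ0]; exact hf.continuousAt
    exact h1.comp (hγ 0).continuousAt
  have hgmin : IsLocalMin g 0 := isLocalMin_of_deriv_deriv_pos (by rw [hg2]; exact hcon) hg0 hgc
  have hconst : g =ᶠ[𝓝 0] fun _ => g 0 := by
    filter_upwards [hgmax, hgmin] with s h1 h2
    exact le_antisymm h1 h2
  have h1 : deriv g =ᶠ[𝓝 0] fun _ => 0 := by
    have h2 := hconst.eventuallyEq_nhds
    filter_upwards [h2] with s hs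
    rw [hs.deriv_eq]
    simp
  have h2 : deriv (deriv g) 0 = 0 := by
    rw [h1.deriv_eq]
    simp
  rw [h2] at hg2
  linarith

private theorem Lmn_fderiv2_ofReal {f : E n → ℝ} {x : E n} (hf : ContDiffAt ℝ ∞ f x) (v w : E n) :
    fderiv ℝ (fderiv ℝ fun y => (f y : ℂ)) x v w = (fderiv ℝ (fderiv ℝ f) x v w : ℂ) := by
  have hd : ∀ᶠ y in 𝓝 x, DifferentiableAt ℝ f y := by
    have h1 : ∀ᶠ y in 𝓝 x, ContDiffAt ℝ 1 f y :=
      (hf.of_le (m := 1) (by exact_mod_cast le_top)).eventually (by simp)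
    filter_upwards [h1] with y hy
    exact hy.differentiableAt (by simp)
  have hd2 : DifferentiableAt ℝ (fderiv ℝ f) x :=
    (hf.fderiv_right (m := ∞) (by simp)).differentiableAt (by simp)
  have h1 : fderiv ℝ (fun y => (f y : ℂ)) =ᶠ[𝓝 x] fun y => Complex.ofRealCLM.comp (fderiv ℝ f y) := by
    filter_upwards [hd] with y hy
    exact (Complex.ofRealCLM.hasFDerivAt.comp y hy.hasFDerivAt).fderiv
  rw [h1.fderiv_eq]
  have h2 : HasFDerivAt (fun y => Complex.ofRealCLM.comp (fderiv ℝ f y))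
      ((ContinuousLinearMap.compL ℝ (E n) ℝ ℂ Complex.ofRealCLM).comp
        (fderiv ℝ (fderiv ℝ f) x)) x :=
    (ContinuousLinearMap.compL ℝ (E n) ℝ ℂ Complex.ofRealCLM).hasFDerivAt.comp x hd2.hasFDerivAt
  rw [h2.fderiv]
  rfl

private theorem Lmn_levi_eq {f : E n → ℂ} {x : E n} (hf : ContDiffAt ℝ ∞ f x) (v : E n) :
    d10 (fun y => d01 f y v) x v =
      (fderiv ℝ (fderiv ℝ f) x v v + fderiv ℝ (fderiv ℝ f) x (I • v) (I • v)) / 4 := by
  rw [d10, fderiv_d01 hf, fderiv_d01 hf, symm2 hf (I • v) v]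
  have hI : (I : ℂ) * I = -1 := I_mul_I
  linear_combination (-(fderiv ℝ (fderiv ℝ f) x (I • v) (I • v)) / 4) * hI

theorem levi_max {f : E n → ℝ} {x : E n} (hf : ContDiffAt ℝ ∞ f x)
    (hm : IsLocalMax f x) (v : E n) : (levi f x v v).re ≤ 0 := by
  have hc : ContDiffAt ℝ ∞ (fun y => (f y : ℂ)) x :=
    Complex.ofRealCLM.contDiff.contDiffAt.comp x hf
  unfold levi
  rw [Lmn_levi_eq hc, Lmn_fderiv2_ofReal hf, Lmn_fderiv2_ofReal hf]
  have h1 := Lmn_snd_nonpos hf hm v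
  have h2 := Lmn_snd_nonpos hf hm (I • v)
  have h3 : ((((fderiv ℝ (fderiv ℝ f) x v v : ℝ) : ℂ) +
      ((fderiv ℝ (fderiv ℝ f) x (I • v) (I • v) : ℝ) : ℂ)) / 4) =
      (((fderiv ℝ (fderiv ℝ f) x v v + fderiv ℝ (fderiv ℝ f) x (I • v) (I • v)) / 4 : ℝ) : ℂ) := by
    push_cast
    ring
  rw [h3, Complex.ofReal_re]
  linarith


private theorem Lmn_snd_nonneg {f : E n → ℝ} {x : E n} (hf : ContDiffAt ℝ ∞ f x) (hm : IsLocalMin f x)
    (w : E n) : 0 ≤ fderiv ℝ (fderiv ℝ f) x w w := by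
  have h1 := Lmn_snd_nonpos (f := fun y => -f y) hf.neg hm.neg w
  have h2 : fderiv ℝ (fun y => -f y) = fun y => -fderiv ℝ f y := by
    funext y
    exact fderiv_neg
  rw [h2] at h1
  have h3 : fderiv ℝ (fun y => -fderiv ℝ f y) x = -fderiv ℝ (fderiv ℝ f) x := fderiv_neg
  rw [h3] at h1
  simpa using h1

theorem levi_min {f : E n → ℝ} {x : E n} (hf : ContDiffAt ℝ ∞ f x)
    (hm : IsLocalMin f x) (v : E n) : 0 ≤ (levi f x v v).re := by
  have hc : ContDiffAt ℝ ∞ (fun y => (f y : ℂ)) x :=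
    Complex.ofRealCLM.contDiff.contDiffAt.comp x hf
  unfold levi
  rw [Lmn_levi_eq hc, Lmn_fderiv2_ofReal hf, Lmn_fderiv2_ofReal hf]
  have h1 := Lmn_snd_nonneg hf hm v
  have h2 := Lmn_snd_nonneg hf hm (I • v)
  have h3 : ((((fderiv ℝ (fderiv ℝ f) x v v : ℝ) : ℂ) +
      ((fderiv ℝ (fderiv ℝ f) x (I • v) (I • v) : ℝ) : ℂ)) / 4) =
      (((fderiv ℝ (fderiv ℝ f) x v v + fderiv ℝ (fderiv ℝ f) x (I • v) (I • v)) / 4 : ℝ) : ℂ) := by
    push_cast
    ring
  rw [h3, Complex.ofReal_re]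
  linarith

/-- the first derivative at a local minimum -/
theorem d10_min {f : E n → ℝ} {x : E n} (hf : ContDiffAt ℝ ∞ f x) (hm : IsLocalMin f x)
    (v : E n) : d10 (cx f) x v = 0 := by
  have h1 : fderiv ℝ f x = 0 := hm.fderiv_eq_zero
  have hd : DifferentiableAt ℝ f x := hf.differentiableAt (by simp)
  have h2 : fderiv ℝ (cx f) x = 0 := by
    have h3 : HasFDerivAt (cx f) (Complex.ofRealCLM.comp (fderiv ℝ f x)) x :=
      Complex.ofRealCLM.hasFDerivAt.comp x hd.hasFDerivAt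
    rw [h3.fderiv, h1]
    simp
  unfold d10
  rw [h2]
  simp

end Pool.Agent.ARK
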