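import Pool.Agent.ARK.Cls
import Pool.Agent.ARK.Kms
import Pool.Agent.ARK.Lmn

/-!
ARK module Blk (size 4): the block inequality.
PROOF. If `x = 0` the number is `levi w z c c` (`levi_eq_sum`). Otherwise choose `k0` with `x k0 ≠ 0`; `α k y = a k + (y k0 - z k0) / x k0 * c k` is holomorphic (affine) in `y`,
`α k z = a k`, `d10 (α k) y x = c k`, `d01 (α k) y x = 0`, `d01 (conj ∘ α k) y x = conj (c k)`, `d10 (conj ∘ α k) y x = 0` (`d10_of_diff`, `d01_of_diff`, `d10_conj`, `d01_conj`).
`φ y = levi w y (α y) (α y) = ∑ k, ∑ l, α k y * conj (α l y) * LM w y k l` is smooth on `U`, real (`LM_conj`), `≥ 0` (`hp`), and `φ z = 0` (`KM`). So `fun y => (φ y).re` has a local minimum at `z` and `0 ≤ (levi (fun y => (φ y).re) z x x).re` (`levi_min`, module Lmn);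
`levi (fun y => (φ y).re) z x x = d10 (fun y => d01 φ y x) z x` since `φ` is real on `U` (`d10_congr`, `d01_congr`). The product rule (`d01_mul`, `d10_mul`, `d10_sum` of CYF/Base) gives
`d01 φ y x = ∑ ∑ (α k * conj (c l) * LM + α k * conj (α l) * d01 LM y x)` and
`levi φ z x x = ∑ ∑ (c k * conj (c l) * LM + c k * conj (a l) * d01 LM_kl z x + a k * conj (c l) * d10 LM_kl z x + a k * conj (a l) * d10 (d01 LM_kl · x) z x)`; now `cls1`, `cls2`, `cls3`.
-/

open scoped ContDiff ComplexConjugate Topology ComplexOrder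
open Complex MeasureTheory Matrix

namespace Pool.Agent.ARK

open Pool.Agent.CYF Pool.Agent.NDC

variable {n : ℕ} {w : E n → ℝ} {U : Set (E n)} {z : E n}

private theorem Blk_term (hU : IsOpen U) (hz : z ∈ U) {M α β : E n → ℂ} (hM : ContDiffOn ℝ ∞ M U)
    (hα : ContDiff ℝ ∞ α) (hβ : ContDiff ℝ ∞ β) {x : E n} {p q : ℂ}
    (h1 : ∀ y, d10 α y x = p) (h2 : ∀ y, d01 α y x = 0) (h3 : ∀ y, d10 β y x = 0)
    (h4 : ∀ y, d01 β y x = q) :
    d10 (fun y => d01 (fun y' => α y' * β y' * M y') y x) z x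
      = p * q * M z + p * β z * d01 M z x + α z * q * d10 M z x
        + α z * β z * d10 (fun y => d01 M y x) z x := by
  have dα : ∀ y, DifferentiableAt ℝ α y := fun y => hα.differentiable (by simp) y
  have dβ : ∀ y, DifferentiableAt ℝ β y := fun y => hβ.differentiable (by simp) y
  have dM : ∀ y ∈ U, DifferentiableAt ℝ M y := fun y hy => diffAt_of hU hM hy
  have dN : DifferentiableAt ℝ (fun y => d01 M y x) z :=
    diffAt_of hU (contDiffOn_d01 hU hM x) hz
  have e1 : ∀ y ∈ U, d01 (fun y' => α y' * β y' * M y') y x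
      = α y * (q * M y + β y * d01 M y x) := by
    intro y hy
    rw [d01_mul (f := fun y' => α y' * β y') (g := M) ((dα y).fun_mul (dβ y)) (dM y hy),
      d01_mul (dα y) (dβ y), h2, h4]
    ring
  rw [d10_congr (g := fun y => α y * (q * M y + β y * d01 M y x))
    (Filter.eventually_of_mem (hU.mem_nhds hz) e1)]
  have d1 : DifferentiableAt ℝ (fun y => q * M y) z := (dM z hz).const_mul q
  have d2 : DifferentiableAt ℝ (fun y => β y * d01 M y x) z := (dβ z).fun_mul dN
  rw [d10_mul (f := α) (g := fun y => q * M y + β y * d01 M y x) (dα z) (d1.fun_add d2),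
    d10_add d1 d2, d10_const_mul (dM z hz) q, d10_mul (g := fun y => d01 M y x) (dβ z) dN, h1, h3]
  ring

private theorem Blk_aff {x : E n} {k0 : Fin n} (hx : x k0 ≠ 0) (z : E n) (a c : ℂ) :
    ContDiff ℝ ∞ (fun y : E n => a + (y k0 - z k0) / x k0 * c) ∧
      (∀ y, d10 (fun y : E n => a + (y k0 - z k0) / x k0 * c) y x = c) ∧
      (∀ y, d01 (fun y : E n => a + (y k0 - z k0) / x k0 * c) y x = 0) := by
  have hd : ∀ y : E n, HasFDerivAt (𝕜 := ℂ) (fun y : E n => a + (y k0 - z k0) / x k0 * c)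
      ((c / x k0) • (ContinuousLinearMap.proj k0 : E n →L[ℂ] ℂ)) y := by
    intro y
    have h1 : HasFDerivAt (𝕜 := ℂ) (fun y : E n => y k0)
        (ContinuousLinearMap.proj k0 : E n →L[ℂ] ℂ) y :=
      (ContinuousLinearMap.proj k0 : E n →L[ℂ] ℂ).hasFDerivAt
    have h2 := ((h1.sub_const (z k0)).const_mul (c / x k0)).const_add a
    have e : (fun y : E n => a + (y k0 - z k0) / x k0 * c)
        = fun y : E n => a + c / x k0 * (y k0 - z k0) := by
      funext y
      ring
    rw [e]
    exact h2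
  have hc : ContDiff ℝ ∞ (fun y : E n => a + (y k0 - z k0) / x k0 * c) := by
    have h1 : ContDiff ℝ ∞ (fun y : E n => y k0) := contDiff_apply ℝ ℂ k0
    exact contDiff_const.add (((h1.sub contDiff_const).div_const _).mul contDiff_const)
  refine ⟨hc, fun y => ?_, fun y => ?_⟩
  · rw [d10_of_diff (hd y).differentiableAt, (hd y).fderiv]
    change (c / x k0) * x k0 = c
    field_simp
  · exact d01_of_diff (hd y).differentiableAt x

private theorem Blk_conj {α : E n → ℂ} {x : E n} {p : ℂ} (hα : ContDiff ℝ ∞ α)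
    (h1 : ∀ y, d10 α y x = p) (h2 : ∀ y, d01 α y x = 0) :
    ContDiff ℝ ∞ (fun y => conj (α y)) ∧ (∀ y, d10 (fun y => conj (α y)) y x = 0) ∧
      (∀ y, d01 (fun y => conj (α y)) y x = conj p) := by
  have dα : ∀ y, DifferentiableAt ℝ α y := fun y => hα.differentiable (by simp) y
  have hc : ContDiff ℝ ∞ (fun y => conj (α y)) := by
    have h : (fun y => conj (α y)) = fun y => Complex.conjCLE (α y) := by
      funext y
      simp
    rw [h]
    exact Complex.conjCLE.contDiff.comp hα
  refine ⟨hc, fun y => ?_, fun y => ?_⟩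
  · rw [d10_conj (dα y), h2, map_zero]
  · rw [d01_conj (dα y), h1]

private theorem Blk_real (hU : IsOpen U) (hw : ContDiffOn ℝ ∞ w U) {y : E n} (hy : y ∈ U)
    (b : E n) : (((∑ k, ∑ l, b k * conj (b l) * LM w y k l).re : ℝ) : ℂ)
      = ∑ k, ∑ l, b k * conj (b l) * LM w y k l := by
  rw [← Complex.conj_eq_iff_re, map_sum, Finset.sum_comm]
  refine Finset.sum_congr rfl fun k _ => ?_
  rw [map_sum]
  refine Finset.sum_congr rfl fun l _ => ?_
  rw [map_mul, map_mul, Complex.conj_conj, LM_conj hU hw hy]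
  ring

theorem blk (hU : IsOpen U) (hw : ContDiffOn ℝ ∞ w U) (hp : ∀ y ∈ U, ∀ b : E n,
    0 ≤ (levi w y b b).re) (hz : z ∈ U) {a : E n} (ha : KM w z a) (x c : E n) :
    0 ≤ (∑ k, ∑ l, (c k * conj (c l) * LM w z k l + x k * conj (c l) * Mt w z a k l
      + c k * conj (x l) * Mb w z a k l + x k * conj (x l) * Mtt w z a k l)).re := by
  have hwz : ∀ y ∈ U, ContDiffAt ℝ ∞ w y := fun y hy => hw.contDiffAt (hU.mem_nhds hy)
  by_cases hx : x = 0
  · have h := hp z hz c
    rw [levi_eq_sum (hwz z hz)] at h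
    have e : (∑ k, ∑ l, (c k * conj (c l) * LM w z k l + x k * conj (c l) * Mt w z a k l
      + c k * conj (x l) * Mb w z a k l + x k * conj (x l) * Mtt w z a k l))
      = ∑ k, ∑ l, c k * conj (c l) * LM w z k l := by
      refine Finset.sum_congr rfl fun k _ => Finset.sum_congr rfl fun l _ => ?_
      rw [hx]
      simp
    rw [e]
    exact h
  obtain ⟨k0, hk0⟩ : ∃ k0, x k0 ≠ 0 := by
    by_contra hcon
    push Not at hcon
    exact hx (funext hcon)
  let α : Fin n → E n → ℂ := fun k y => a k + (y k0 - z k0) / x k0 * c k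
  have hα : ∀ k, ContDiff ℝ ∞ (α k) := fun k => (Blk_aff hk0 z (a k) (c k)).1
  have hα1 : ∀ k y, d10 (α k) y x = c k := fun k => (Blk_aff hk0 z (a k) (c k)).2.1
  have hα2 : ∀ k y, d01 (α k) y x = 0 := fun k => (Blk_aff hk0 z (a k) (c k)).2.2
  have hβ : ∀ k, ContDiff ℝ ∞ (fun y => conj (α k y)) :=
    fun k => (Blk_conj (hα k) (hα1 k) (hα2 k)).1
  have hβ1 : ∀ k y, d10 (fun y => conj (α k y)) y x = 0 :=
    fun k => (Blk_conj (hα k) (hα1 k) (hα2 k)).2.1
  have hβ2 : ∀ k y, d01 (fun y => conj (α k y)) y x = conj (c k) :=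
    fun k => (Blk_conj (hα k) (hα1 k) (hα2 k)).2.2
  have hαz : ∀ k, α k z = a k := by
    intro k
    simp [α]
  have hLM : ∀ k l, ContDiffOn ℝ ∞ (fun y => LM w y k l) U := fun k l => contDiffOn_LM hU hw k l
  let φ : E n → ℂ := fun y => ∑ k, ∑ l, α k y * conj (α l y) * LM w y k l
  have hT : ∀ k l, ContDiffOn ℝ ∞ (fun y => α k y * conj (α l y) * LM w y k l) U :=
    fun k l => (((hα k).mul (hβ l)).contDiffOn).mul (hLM k l)
  have hφ : ContDiffOn ℝ ∞ φ U := by
    refine ContDiffOn.sum fun k _ => ContDiffOn.sum fun l _ => hT k l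
  have hreal : ∀ y ∈ U, (((φ y).re : ℝ) : ℂ) = φ y := fun y hy =>
    Blk_real hU hw hy (fun k => α k y)
  have hpos : ∀ y ∈ U, 0 ≤ (φ y).re := by
    intro y hy
    have h := hp y hy (fun k => α k y)
    rw [levi_eq_sum (hwz y hy)] at h
    exact h
  have hφz : φ z = 0 := by
    have h : φ z = ∑ l, conj (a l) * ∑ k, a k * LM w z k l := by
      simp only [φ, hαz, Finset.mul_sum]
      rw [Finset.sum_comm]
      refine Finset.sum_congr rfl fun l _ => Finset.sum_congr rfl fun k _ => ?_
      ring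
    rw [h]
    refine Finset.sum_eq_zero fun l _ => ?_
    rw [ha l, mul_zero]
  have hmin : IsLocalMin (fun y => (φ y).re) z := by
    filter_upwards [hU.mem_nhds hz] with y hy
    rw [hφz]
    exact hpos y hy
  have hcd : ContDiffAt ℝ ∞ (fun y => (φ y).re) z :=
    Complex.reCLM.contDiff.contDiffAt.comp z (hφ.contDiffAt (hU.mem_nhds hz))
  have hmain := levi_min hcd hmin x
  have e1 : levi (fun y => (φ y).re) z x x = d10 (fun y => d01 φ y x) z x := by
    unfold levi
    refine d10_congr ?_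
    filter_upwards [hU.mem_nhds hz] with y hy
    refine d01_congr ?_
    filter_upwards [hU.mem_nhds hy] with y' hy'
    exact hreal y' hy'
  have dT : ∀ k l, ∀ y ∈ U, DifferentiableAt ℝ (fun y => α k y * conj (α l y) * LM w y k l) y :=
    fun k l y hy => diffAt_of hU (hT k l) hy
  have dT1 : ∀ k l, DifferentiableAt ℝ
      (fun y => d01 (fun y' => α k y' * conj (α l y') * LM w y' k l) y x) z :=
    fun k l => diffAt_of hU (contDiffOn_d01 hU (hT k l) x) hz
  have e2 : d10 (fun y => d01 φ y x) z x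
      = ∑ k, ∑ l, d10 (fun y => d01 (fun y' => α k y' * conj (α l y') * LM w y' k l) y x) z x := by
    have h1 : ∀ y ∈ U, d01 φ y x
        = ∑ k, ∑ l, d01 (fun y' => α k y' * conj (α l y') * LM w y' k l) y x := by
      intro y hy
      rw [d01_sum Finset.univ (fun k y' => ∑ l, α k y' * conj (α l y') * LM w y' k l)
        (fun k _ => DifferentiableAt.fun_sum fun l _ => dT k l y hy)]
      refine Finset.sum_congr rfl fun k _ => ?_
      rw [d01_sum Finset.univ (fun l y' => α k y' * conj (α l y') * LM w y' k l)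
        (fun l _ => dT k l y hy)]
    rw [d10_congr (Filter.eventually_of_mem (hU.mem_nhds hz) h1)]
    rw [d10_sum Finset.univ
      (fun k y => ∑ l, d01 (fun y' => α k y' * conj (α l y') * LM w y' k l) y x)
        (fun k _ => DifferentiableAt.fun_sum fun l _ => dT1 k l)]
    refine Finset.sum_congr rfl fun k _ => ?_
    rw [d10_sum Finset.univ
      (fun l y => d01 (fun y' => α k y' * conj (α l y') * LM w y' k l) y x)
        (fun l _ => dT1 k l)]
  have e3 : ∀ k l, d10 (fun y => d01 (fun y' => α k y' * conj (α l y') * LM w y' k l) y x) z x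
      = c k * conj (c l) * LM w z k l + c k * conj (a l) * d01 (fun y => LM w y k l) z x
        + a k * conj (c l) * d10 (fun y => LM w y k l) z x
        + a k * conj (a l) * d10 (fun y => d01 (fun y' => LM w y' k l) y x) z x := by
    intro k l
    have h := Blk_term hU hz (hLM k l) (hα k) (hβ l) (hα1 k) (hα2 k) (hβ1 l) (hβ2 l)
    simp only [hαz] at h
    exact h
  have s1 : ∑ k, ∑ l, a k * conj (c l) * d10 (fun y => LM w y k l) z x
      = ∑ k, ∑ l, x k * conj (c l) * Mt w z a k l := by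
    rw [Finset.sum_comm]
    rw [Finset.sum_comm (f := fun k l => x k * conj (c l) * Mt w z a k l)]
    refine Finset.sum_congr rfl fun l _ => ?_
    have h := congrArg (fun t => conj (c l) * t) (cls1 hU hw hz a x l)
    simp only [Finset.mul_sum] at h
    calc _ = ∑ k, conj (c l) * (a k * d10 (fun y => LM w y k l) z x) :=
          Finset.sum_congr rfl fun k _ => by ring
      _ = _ := h
      _ = _ := Finset.sum_congr rfl fun k _ => by ring
  have s2 : ∑ k, ∑ l, c k * conj (a l) * d01 (fun y => LM w y k l) z x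
      = ∑ k, ∑ l, c k * conj (x l) * Mb w z a k l := by
    refine Finset.sum_congr rfl fun k _ => ?_
    have h := congrArg (fun t => c k * t) (cls2 hU hw hz a x k)
    simp only [Finset.mul_sum] at h
    calc _ = ∑ l, c k * (conj (a l) * d01 (fun y => LM w y k l) z x) :=
          Finset.sum_congr rfl fun l _ => by ring
      _ = _ := h
      _ = _ := Finset.sum_congr rfl fun l _ => by ring
  have s3 := cls3 hU hw hz a x
  have e4 : levi (fun y => (φ y).re) z x x
      = ∑ k, ∑ l, (c k * conj (c l) * LM w z k l + x k * conj (c l) * Mt w z a k l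
      + c k * conj (x l) * Mb w z a k l + x k * conj (x l) * Mtt w z a k l) := by
    rw [e1, e2]
    simp only [e3, Finset.sum_add_distrib]
    rw [s1, s2, s3]
    ring
  rw [← e4]
  exact hmain

end Pool.Agent.ARK
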