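import Pool.Agent.ARK.Ctr
import Pool.Agent.ARK.Kms
import Pool.Agent.NDC.Tlm
import Pool.Agent.NDC.Enn

/-!
ARK module Glf (size 4): the global functions `fA`, `fB`.
PROOF. `W = lm (om.w i) z` is positive definite (`lm_posDef`), `W⁻¹` too, `M = lm (η.w i) z` positive semidefinite (`lm_psd`). `nA_eq`: `nac`, where `(dp W M).coeff ν` is real (its imaginary part is zero: `dp W M` has real coefficients, see the formula in
/team-store/ndc_Enn.lean or `qco` / `nac`; `W.det` is real positive), so `ctr ..` is real: `ν! (dp W M).coeff ν = W.det * nA`. `nA_nonneg`: `dp_coeff_nonneg` (NDC/Enn). `nA_pos`: `rank = ν`: if `ν = r + 1` and the coefficient were zero then `rank ≤ r` (`rank_of_coeff`); if `ν = 0` the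
coefficient is `det W` (`dp_eval` at 0 or `Polynomial.coeff_zero_eq_eval_zero`). `nA_zero`: `dp_coeff_zero`: rank `< ν` gives coefficient zero. `nB_nonneg`: `ctr_nonneg`.
`nA_chg`, `nB_chg`: `T = Tm (ph A i j) z`, `det T ≠ 0` (see the proof in NDC/Dns or Hol: `ph_ph`, chain rule), `lm_w_chg` for `η` and `om`: `M_i = Tᵀ M_j T̄`, `W_i = Tᵀ W_j T̄`, `inv_chg`: `W_j⁻¹ = T̄ W_i⁻¹ Tᵀ`, `ctr_chg` with `det_triple` (`S = T.map conj`). For `nB`:
`v i K z = g ∑ L, (∏ a, T (L a) (K a)) * v j L (φ z)` since `fderiv ℂ φ z (e (K a)) (L a) = T (L a) (K a)` (`TT`), so `v i K * conj (v i L) = ‖g‖² ∑ P, ∑ Q, ..`, and `‖g‖² exp (-(m w_i)) = exp (-(m w_j))`.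
`vt_fA`: as in Tgl: `fA x = nA (ix A x)`, `nA_chg` from the chart `ix A x`. `Sm_fA`: the entries of `(lm (om.w i) z)⁻¹ = (det)⁻¹ • adjugate` are smooth on the target (`contDiffOn_det`, `contDiffOn_adj` in NDC/Adj; `contDiffOn_LM`), minors of `lm (η.w i)` are smooth (`Matrix.det_apply'`),
the real part of a smooth function is smooth (`Complex.reCLM`).
-/

open scoped ContDiff ComplexConjugate Topology ComplexOrder
open Complex MeasureTheory Matrix

namespace Pool.Agent.ARK

open Pool.Agent.CYF Pool.Agent.NDC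

variable {n : ℕ} {X : Type*} [TopologicalSpace X] {ι : Type*} {A : Mfd n X ι}

private theorem Glf_det {U : Set (E n)} {q : ℕ} {G : E n → Matrix (Fin q) (Fin q) ℂ}
    (hG : ∀ i j, ContDiffOn ℝ ∞ (fun y => G y i j) U) :
    ContDiffOn ℝ ∞ (fun y => (G y).det) U := by
  simp only [Matrix.det_apply']
  refine ContDiffOn.sum fun σ _ => ?_
  refine contDiffOn_const.mul ?_
  exact contDiffOn_prod fun a _ => hG _ _

private theorem Glf_inv {U : Set (E n)} {G : E n → Matrix (Fin n) (Fin n) ℂ}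
    (hG : ∀ i j, ContDiffOn ℝ ∞ (fun y => G y i j) U) (h0 : ∀ y ∈ U, (G y).det ≠ 0)
    (k l : Fin n) : ContDiffOn ℝ ∞ (fun y => (G y)⁻¹ k l) U := by
  have h1 : ContDiffOn ℝ ∞ (fun y => (G y).adjugate k l) U := by
    simp only [Matrix.adjugate_apply]
    refine Glf_det fun a b => ?_
    by_cases h : a = l
    · subst h
      simp only [Matrix.updateRow_self]
      exact contDiffOn_const
    · simp only [Matrix.updateRow_ne h]
      exact hG a b
  have h2 : ContDiffOn ℝ ∞ (fun y => ((G y).det)⁻¹ * (G y).adjugate k l) U :=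
    ((Glf_det hG).inv h0).mul h1
  refine h2.congr fun y _ => ?_
  rw [Matrix.inv_def, Ring.inverse_eq_inv']
  simp [Matrix.smul_apply]

private theorem Glf_ctr {U : Set (E n)} {q : ℕ} {N : E n → Matrix (Fin n) (Fin n) ℂ}
    {Φ : E n → (Fin q → Fin n) → (Fin q → Fin n) → ℂ}
    (hN : ∀ i j, ContDiffOn ℝ ∞ (fun y => N y i j) U)
    (hΦ : ∀ K L, ContDiffOn ℝ ∞ (fun y => Φ y K L) U) :
    ContDiffOn ℝ ∞ (fun y => ctr (N y) (Φ y)) U := by
  unfold ctr
  refine ContDiffOn.sum fun K _ => ContDiffOn.sum fun L _ => ?_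
  exact (hΦ K L).mul (contDiffOn_prod fun a _ => hN _ _)

private theorem Glf_posDef {om : Form A} (hom : om.Positive) {i : ι} {z : E n}
    (hz : z ∈ (A.c i).target) : (lm (om.w i) z).PosDef :=
  lm_posDef (A.c i).open_target (om.smooth i) hz (hom i z hz)

private theorem Glf_psd {η : Form A} (hη : η.Semipositive) {i : ι} {z : E n}
    (hz : z ∈ (A.c i).target) : (lm (η.w i) z).PosSemidef :=
  lm_psd (A.c i).open_target (η.smooth i) hz (hη i z hz)

/-- the polynomial `dp W M` is real -/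
private theorem Glf_dp_real {W M : Matrix (Fin n) (Fin n) ℂ} (hW : W.IsHermitian)
    (hM : M.IsHermitian) (k : ℕ) : conj ((dp W M).coeff k) = (dp W M).coeff k := by
  have key : ∀ {B : Matrix (Fin n) (Fin n) ℂ}, B.IsHermitian → B.map conj = Bᵀ := by
    intro B hB
    ext a b
    rw [Matrix.map_apply, Matrix.transpose_apply]
    exact (hB.apply b a)
  have h1 : (dp W M).map (starRingEnd ℂ) = dp W M := by
    have h2 : (dp W M).map (starRingEnd ℂ)
        = Polynomial.mapRingHom (starRingEnd ℂ) (dp W M) := rfl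
    rw [h2]
    unfold dp
    rw [RingHom.map_det, ← Matrix.det_transpose]
    congr 1
    ext a b
    have hMt : conj (M b a) = M a b := hM.apply a b
    have hWt : conj (W b a) = W a b := hW.apply a b
    simp [hMt, hWt]
  have h3 := congrArg (fun p => Polynomial.coeff p k) h1
  simpa [Polynomial.coeff_map] using h3

private theorem Glf_det_real {W : Matrix (Fin n) (Fin n) ℂ} (hW : W.PosDef) :
    0 < W.det.re ∧ W.det.im = 0 := by
  have h := hW.det_pos
  rw [Complex.lt_def] at h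
  exact ⟨h.1, h.2.symm⟩

theorem nA_eq {η om : Form A} (hη : η.Semipositive) (hom : om.Positive) (ν : ℕ) {i : ι} {z : E n}
    (hz : z ∈ (A.c i).target) :
    ((ν.factorial : ℕ) : ℂ) * (dp (lm (om.w i) z) (lm (η.w i) z)).coeff ν
      = (lm (om.w i) z).det * (nA η om ν i z : ℂ) := by
  have hW := Glf_posDef hom hz
  have hM := Glf_psd hη hz
  have h1 := nac (ν := ν) hW hM
  have h2 := Glf_det_real hW
  have h3 := Glf_dp_real hW.isHermitian hM.isHermitian ν
  have h4 : ((dp (lm (om.w i) z) (lm (η.w i) z)).coeff ν).im = 0 := Complex.conj_eq_iff_im.1 h3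
  have h5 : (ctr (lm (om.w i) z)⁻¹
      (fun K L : Fin ν → Fin n => ((lm (η.w i) z).submatrix K L).det)).im = 0 := by
    have h6 := congrArg Complex.im h1
    rw [Complex.mul_im, Complex.mul_im, h4, h2.2] at h6
    simp only [Complex.natCast_im, Complex.natCast_re, mul_zero, zero_mul, add_zero] at h6
    have h7 : (lm (om.w i) z).det.re ≠ 0 := h2.1.ne'
    rcases mul_eq_zero.1 h6.symm with h8 | h8
    · exact absurd h8 h7
    · exact h8
  rw [h1]
  congr 1
  unfold nA
  apply Complex.ext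
  · simp
  · rw [h5]
    simp

private theorem Glf_nA_re {η om : Form A} (hη : η.Semipositive) (hom : om.Positive) (ν : ℕ) {i : ι}
    {z : E n} (hz : z ∈ (A.c i).target) :
    (ν.factorial : ℝ) * ((dp (lm (om.w i) z) (lm (η.w i) z)).coeff ν).re
      = (lm (om.w i) z).det.re * nA η om ν i z := by
  have h1 := congrArg Complex.re (nA_eq hη hom ν hz)
  rw [Complex.mul_re, Complex.mul_re] at h1
  simpa using h1

theorem nA_nonneg {η om : Form A} (hη : η.Semipositive) (hom : om.Positive) (ν : ℕ) {i : ι}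
    {z : E n} (hz : z ∈ (A.c i).target) : 0 ≤ nA η om ν i z := by
  have hW := Glf_posDef hom hz
  have hM := Glf_psd hη hz
  have h1 := Glf_nA_re hη hom ν hz
  have h2 := (Glf_det_real hW).1
  have h3 := dp_coeff_nonneg hW hM ν
  have h4 : 0 ≤ (lm (om.w i) z).det.re * nA η om ν i z := by
    rw [← h1]
    positivity
  exact nonneg_of_mul_nonneg_right h4 h2

theorem nA_pos {η om : Form A} (hη : η.Semipositive) (hom : om.Positive) {ν : ℕ} {i : ι}
    {z : E n} (hz : Full η ν i z) : 0 < nA η om ν i z := by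
  have hz1 := hz.1
  have hW := Glf_posDef hom hz1
  have hM := Glf_psd hη hz1
  have h1 := Glf_nA_re hη hom ν hz1
  have h2 := (Glf_det_real hW).1
  refine lt_of_le_of_ne (nA_nonneg hη hom ν hz1) fun h0 => ?_
  rw [← h0, mul_zero] at h1
  have h3 : ((dp (lm (om.w i) z) (lm (η.w i) z)).coeff ν).re = 0 := by
    have h4 : (ν.factorial : ℝ) ≠ 0 := by exact_mod_cast ν.factorial_ne_zero
    rcases mul_eq_zero.1 h1 with h5 | h5
    · exact absurd h5 h4
    · exact h5
  have hr : (lm (η.w i) z).rank = ν := hz.2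
  cases ν with
  | zero =>
    have h6 : (dp (lm (om.w i) z) (lm (η.w i) z)).coeff 0 = (lm (om.w i) z).det := by
      unfold dp
      exact Polynomial.coeff_det_X_add_C_zero _ _
    rw [h6] at h3
    exact absurd h3 h2.ne'
  | succ r =>
    have h6 := rank_of_coeff hW hM h3
    omega

theorem nB_nonneg {η om : Form A} (hom : om.Positive) {ν : ℕ} (m : ℝ)
    (v : ι → (Fin ν → Fin n) → E n → ℂ) {i : ι} {z : E n} (hz : z ∈ (A.c i).target) :
    0 ≤ nB η om m v i z := by
  have hW := Glf_posDef hom hz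
  unfold nB
  exact mul_nonneg (ctr_nonneg hW.inv.posSemidef (fun K => v i K z)).1 (Real.exp_pos _).le

private theorem Glf_det_ne {om : Form A} (hom : om.Positive) {i j : ι} {z : E n}
    (hz : z ∈ Uo A i j) : (Tm (ph A i j) z).det ≠ 0 := by
  intro h0
  have h1 := (Glf_det_real (Glf_posDef hom (Uo_subset i j hz))).1
  rw [lm_w_chg om hz, Matrix.det_mul, Matrix.det_mul, Matrix.det_transpose, h0] at h1
  simp at h1

private theorem Glf_inv_chg {om : Form A} (hom : om.Positive) {i j : ι} {z : E n}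
    (hz : z ∈ Uo A i j) : (lm (om.w j) (ph A i j z))⁻¹
      = (Tm (ph A i j) z).map conj * (lm (om.w i) z)⁻¹ * (Tm (ph A i j) z)ᵀ := by
  refine inv_chg (lm_w_chg om hz) (Glf_det_ne hom hz) ?_
  intro h0
  have h1 := (Glf_det_real (Glf_posDef hom (ph_mem hz))).1
  rw [h0] at h1
  simp at h1

private theorem Glf_nA_chg {η om : Form A} (hom : om.Positive) (ν : ℕ) {i j : ι} {z : E n}
    (hz : z ∈ Uo A i j) : nA η om ν i z = nA η om ν j (ph A i j z) := by
  unfold nA
  congr 1
  refine ctr_chg (Glf_inv_chg hom hz) fun K L => ?_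
  rw [lm_w_chg η hz, det_triple]
  refine Finset.sum_congr rfl fun P _ => Finset.sum_congr rfl fun Q _ => ?_
  simp only [Matrix.map_apply]

private theorem Glf_ctr_smul {q : ℕ} (N : Matrix (Fin n) (Fin n) ℂ)
    (Φ : (Fin q → Fin n) → (Fin q → Fin n) → ℂ) (c : ℂ) :
    ctr N (fun K L => c * Φ K L) = c * ctr N Φ := by
  unfold ctr
  rw [Finset.mul_sum]
  refine Finset.sum_congr rfl fun K _ => ?_
  rw [Finset.mul_sum]
  refine Finset.sum_congr rfl fun L _ => ?_
  ring

private theorem Glf_nB_chg {η om : Form A} (hom : om.Positive) {ν : ℕ} {m : ℝ}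
    {v : ι → (Fin ν → Fin n) → E n → ℂ} (hv : IsForm η ν m v) {i j : ι} {z : E n}
    (hz : z ∈ Uo A i j) : nB η om m v i z = nB η om m v j (ph A i j z) := by
  obtain ⟨g, hg, hK⟩ := hv.trans i j z hz.1 hz.2
  have hg' : ‖g‖ ^ 2 * Real.exp (-(m * η.w i z)) = Real.exp (-(m * η.w j (ph A i j z))) := hg
  have h2 : g * conj g = ((‖g‖ ^ 2 : ℝ) : ℂ) := by
    rw [Complex.mul_conj, Complex.normSq_eq_norm_sq]
  have h1 : ctr (lm (om.w i) z)⁻¹ (fun K L : Fin ν → Fin n => v i K z * conj (v i L z))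
      = ctr (lm (om.w j) (ph A i j z))⁻¹ (fun K L : Fin ν → Fin n =>
        ((‖g‖ ^ 2 : ℝ) : ℂ) * (v j K (ph A i j z) * conj (v j L (ph A i j z)))) := by
    refine ctr_chg (Glf_inv_chg hom hz) fun K L => ?_
    have hK' : ∀ K : Fin ν → Fin n, v i K z = g * ∑ P : Fin ν → Fin n,
        (∏ a, (Tm (ph A i j) z) (P a) (K a)) * v j P (ph A i j z) := hK
    rw [hK' K, hK' L, ← h2, map_mul, map_sum]
    have e1 : (g * ∑ P : Fin ν → Fin n, (∏ a, (Tm (ph A i j) z) (P a) (K a))
          * v j P (ph A i j z)) * (conj g * ∑ Q : Fin ν → Fin n,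
            conj ((∏ a, (Tm (ph A i j) z) (Q a) (L a)) * v j Q (ph A i j z)))
        = (g * conj g) * ((∑ P : Fin ν → Fin n, (∏ a, (Tm (ph A i j) z) (P a) (K a))
          * v j P (ph A i j z)) * (∑ Q : Fin ν → Fin n,
            conj ((∏ a, (Tm (ph A i j) z) (Q a) (L a)) * v j Q (ph A i j z)))) := by ring
    rw [e1, Finset.sum_mul_sum, Finset.mul_sum]
    refine Finset.sum_congr rfl fun P _ => ?_
    rw [Finset.mul_sum]
    refine Finset.sum_congr rfl fun Q _ => ?_
    rw [map_mul, map_prod]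
    ring
  unfold nB
  rw [h1, Glf_ctr_smul, Complex.re_ofReal_mul, ← hg']
  ring

theorem vt_fA {η om : Form A} (hη : η.Semipositive) (hom : om.Positive) (ν : ℕ) {i : ι} {z : E n}
    (hz : z ∈ (A.c i).target) : vt A (fA η om ν) i z = nA η om ν i z := by
  have hx : (A.c i).symm z ∈ (A.c i).source := (A.c i).map_target hz
  have hU := mem_Uo (A := A) (mem_ix A ((A.c i).symm z)) hx
  have h1 := Glf_nA_chg (η := η) hom ν hU
  rw [ph_chart (mem_ix A ((A.c i).symm z)), (A.c i).right_inv hz] at h1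
  exact h1

theorem vt_fB {η om : Form A} (hom : om.Positive) {ν : ℕ} {m : ℝ}
    {v : ι → (Fin ν → Fin n) → E n → ℂ} (hv : IsForm η ν m v) {i : ι} {z : E n}
    (hz : z ∈ (A.c i).target) : vt A (fB η om m v) i z = nB η om m v i z := by
  have hx : (A.c i).symm z ∈ (A.c i).source := (A.c i).map_target hz
  have hU := mem_Uo (A := A) (mem_ix A ((A.c i).symm z)) hx
  have h1 := Glf_nB_chg (η := η) hom hv hU
  rw [ph_chart (mem_ix A ((A.c i).symm z)), (A.c i).right_inv hz] at h1
  exact h1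

private theorem Glf_inv_smooth {om : Form A} (hom : om.Positive) (i : ι) (k l : Fin n) :
    ContDiffOn ℝ ∞ (fun z => (lm (om.w i) z)⁻¹ k l) (A.c i).target := by
  refine Glf_inv (G := fun z => lm (om.w i) z)
    (fun k l => contDiffOn_LM (A.c i).open_target (om.smooth i) k l) (fun z hz h0 => ?_) k l
  have h1 := (Glf_det_real (Glf_posDef hom hz)).1
  rw [h0] at h1
  simp at h1

theorem Sm_fA {η om : Form A} (hη : η.Semipositive) (hom : om.Positive) (ν : ℕ) :
    Sm A (fA η om ν) := by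
  intro i
  have h1 : ContDiffOn ℝ ∞ (fun z => ctr (lm (om.w i) z)⁻¹
      (fun K L : Fin ν → Fin n => ((lm (η.w i) z).submatrix K L).det)) (A.c i).target :=
    Glf_ctr (Glf_inv_smooth hom i) fun K L => Glf_det fun a b =>
      contDiffOn_LM (A.c i).open_target (η.smooth i) (K a) (L b)
  have h2 : ContDiffOn ℝ ∞ (fun z => nA η om ν i z) (A.c i).target :=
    Complex.reCLM.contDiff.comp_contDiffOn h1
  exact h2.congr fun z hz => vt_fA hη hom ν hz

theorem Sm_fB {η om : Form A} (hom : om.Positive) {ν : ℕ} {m : ℝ}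
    {v : ι → (Fin ν → Fin n) → E n → ℂ} (hv : IsForm η ν m v) : Sm A (fB η om m v) := by
  intro i
  have hvs : ∀ K, ContDiffOn ℝ ∞ (fun z => v i K z) (A.c i).target := fun K =>
    (hv.hol i K).restrict_scalars ℝ
  have h1 : ContDiffOn ℝ ∞ (fun z => ctr (lm (om.w i) z)⁻¹
      (fun K L : Fin ν → Fin n => v i K z * conj (v i L z))) (A.c i).target :=
    Glf_ctr (Glf_inv_smooth hom i) fun K L =>
      (hvs K).mul (Complex.conjCLE.contDiff.comp_contDiffOn (hvs L))
  have h2 : ContDiffOn ℝ ∞ (fun z => (ctr (lm (om.w i) z)⁻¹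
      (fun K L : Fin ν → Fin n => v i K z * conj (v i L z))).re) (A.c i).target :=
    Complex.reCLM.contDiff.comp_contDiffOn h1
  have h3 : ContDiffOn ℝ ∞ (fun z => Real.exp (-(m * η.w i z))) (A.c i).target :=
    (contDiffOn_const.mul (η.smooth i)).neg.exp
  exact (h2.mul h3).congr fun z hz => vt_fB hom hv hz

end Pool.Agent.ARK
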