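import Pool.Agent.ARK.Ldf

/-!
ARK module Lgm (size 3): the Levi form of `log g` and of `log (1 + u)`.
PROOF. `g > 0` smooth on `U`. `pk_log`: `fderiv ℝ (cx (log g)) = (g z)⁻¹ • fderiv ℝ (cx g)` (`HasFDerivAt.log`, `Complex.ofRealCLM`; see `Cmp_fderiv` in /team-store/ndc_Cmp.lean and `Lgk_Db_log`, CYF/Lgk.lean). `LM_log'`: differentiate `pb l (cx log g) = (cx g)⁻¹ * pb l (cx g)`
on `U` by `pk k`: `d10_mul`, derivative of the inverse, and `pb l (cx g) = conj (pk l (cx g))` (`pk_cx` in CYF/Comm). `levi_log`: `levi_eq_sum` (for `log g` and `g`), `d10_eq_sum`: `∑ k l, a k * conj (a l) * (..)`.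
`levi_one_add`: `levi_log` for `1 + u` (`LM` and `pk` of `1 + u` are those of `u`: `LM_add` or directly), so `levi (log (1 + u)) z a a = levi u z a a / (1 + u z) - |d10 (cx u) z a|² / (1 + u z)²`.
`log1p_pos`: if `levi (log u) z a a = 0` and `u z > 0` then `levi u z a a * u z = |d10 (cx u) z a|²` and the number is `|d10 u|² / (u (1 + u)²)`. `log1p_zero`: at a minimum `u z = 0`, `d10 (cx u) z a = 0` (`d10_min`) and `levi u z a a` has real part `≥ 0` (`levi_min`), module Lmn.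
-/

open scoped ContDiff ComplexConjugate Topology ComplexOrder
open Complex MeasureTheory Matrix

namespace Pool.Agent.ARK

open Pool.Agent.CYF Pool.Agent.NDC

variable {n : ℕ} {U : Set (E n)} {z : E n} {g u : E n → ℝ}

private theorem Lgm_fd {Φ : ℝ → ℝ} {l : E n → ℝ} {φ : ℝ} (hl : DifferentiableAt ℝ l z)
    (hΦ : HasDerivAt Φ φ (l z)) (v : E n) :
    fderiv ℝ (cx (fun y => Φ (l y))) z v = (φ : ℂ) * fderiv ℝ (cx l) z v := by
  have h1 : HasFDerivAt (fun y => Φ (l y)) (φ • fderiv ℝ l z) z :=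
    hΦ.comp_hasFDerivAt z hl.hasFDerivAt
  have h2 : HasFDerivAt (cx (fun y => Φ (l y)))
      (Complex.ofRealCLM.comp (φ • fderiv ℝ l z)) z :=
    (Complex.ofRealCLM.hasFDerivAt).comp z h1
  have h3 : HasFDerivAt (cx l) (Complex.ofRealCLM.comp (fderiv ℝ l z)) z :=
    (Complex.ofRealCLM.hasFDerivAt).comp z hl.hasFDerivAt
  rw [h2.fderiv, h3.fderiv]
  simp

private theorem Lgm_d10 {Φ : ℝ → ℝ} {l : E n → ℝ} {φ : ℝ} (hl : DifferentiableAt ℝ l z)
    (hΦ : HasDerivAt Φ φ (l z)) (a : E n) :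
    d10 (cx (fun y => Φ (l y))) z a = (φ : ℂ) * d10 (cx l) z a := by
  unfold d10
  rw [Lgm_fd hl hΦ, Lgm_fd hl hΦ]
  ring

private theorem Lgm_d01 {Φ : ℝ → ℝ} {l : E n → ℝ} {φ : ℝ} (hl : DifferentiableAt ℝ l z)
    (hΦ : HasDerivAt Φ φ (l z)) (a : E n) :
    d01 (cx (fun y => Φ (l y))) z a = (φ : ℂ) * d01 (cx l) z a := by
  unfold d01
  rw [Lgm_fd hl hΦ, Lgm_fd hl hΦ]
  ring

private theorem Lgm_dr (hU : IsOpen U) (hg : ContDiffOn ℝ ∞ g U) (hz : z ∈ U) :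
    DifferentiableAt ℝ g z := (hg.contDiffAt (hU.mem_nhds hz)).differentiableAt (by simp)

theorem pk_log (hU : IsOpen U) (hg : ContDiffOn ℝ ∞ g U) (h0 : ∀ y ∈ U, 0 < g y) (hz : z ∈ U)
    (k : Fin n) : pk k (cx (fun y => Real.log (g y))) z = pk k (cx g) z / (g z : ℂ) := by
  unfold pk
  rw [Lgm_d10 (Lgm_dr hU hg hz) (Real.hasDerivAt_log (h0 z hz).ne')]
  push_cast
  rw [div_eq_inv_mul]

theorem LM_log' (hU : IsOpen U) (hg : ContDiffOn ℝ ∞ g U) (h0 : ∀ y ∈ U, 0 < g y) (hz : z ∈ U)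
    (k l : Fin n) : LM (fun y => Real.log (g y)) z k l
      = LM g z k l / (g z : ℂ) - pk k (cx g) z * conj (pk l (cx g) z) / ((g z : ℂ)) ^ 2 := by
  have h1 : pb l (cx (fun y => Real.log (g y))) =ᶠ[𝓝 z]
      fun y => cx (fun x => (g x)⁻¹) y * pb l (cx g) y := by
    filter_upwards [hU.mem_nhds hz] with y hy
    exact Lgm_d01 (Lgm_dr hU hg hy) (Real.hasDerivAt_log (h0 y hy).ne') (e l)
  have hc : ContDiffOn ℝ ∞ (cx (fun x => (g x)⁻¹)) U :=
    contDiffOn_cx (hg.inv fun y hy => (h0 y hy).ne')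
  have hcg := contDiffOn_cx hg
  have d1 := diffAt_of hU hc hz
  have d2 := diffAt_of hU (contDiffOn_pb hU hcg l) hz
  have h2 : pb l (cx g) z = conj (pk l (cx g) z) := by
    rw [pk_cx (diffAt_of hU hcg hz), Complex.conj_conj]
  have h4 : pk k (fun y => cx (fun x => (g x)⁻¹) y * pb l (cx g) y) z
      = pk k (cx (fun x => (g x)⁻¹)) z * pb l (cx g) z
        + cx (fun x => (g x)⁻¹) z * pk k (pb l (cx g)) z := d10_mul d1 d2
  have h5 : pk k (cx (fun x => (g x)⁻¹)) z = ((-(g z ^ 2)⁻¹ : ℝ) : ℂ) * pk k (cx g) z :=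
    Lgm_d10 (Lgm_dr hU hg hz) (hasDerivAt_inv (h0 z hz).ne') (e k)
  have h6 : cx (fun x => (g x)⁻¹) z = (g z : ℂ)⁻¹ := by simp [cx]
  rw [LM_eq, pk_congr h1, h4, h5, h6, LM_eq, h2]
  have hne : (g z : ℂ) ≠ 0 := by exact_mod_cast (h0 z hz).ne'
  push_cast
  field_simp
  ring

theorem levi_log (hU : IsOpen U) (hg : ContDiffOn ℝ ∞ g U) (h0 : ∀ y ∈ U, 0 < g y) (hz : z ∈ U)
    (a : E n) : levi (fun y => Real.log (g y)) z a a
      = levi g z a a / (g z : ℂ) - ((‖d10 (cx g) z a‖ ^ 2 : ℝ) : ℂ) / ((g z : ℂ)) ^ 2 := by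
  have hgz : ContDiffAt ℝ ∞ g z := hg.contDiffAt (hU.mem_nhds hz)
  have hc : ContDiffAt ℝ ∞ (fun y => Real.log (g y)) z := hgz.log (h0 z hz).ne'
  have hn : ((‖d10 (cx g) z a‖ ^ 2 : ℝ) : ℂ) = d10 (cx g) z a * conj (d10 (cx g) z a) := by
    rw [Complex.mul_conj, Complex.normSq_eq_norm_sq]
  rw [hn, levi_eq_sum hc, levi_eq_sum hgz, d10_eq_sum, map_sum, Finset.sum_mul_sum,
    Finset.sum_div, Finset.sum_div, ← Finset.sum_sub_distrib]
  refine Finset.sum_congr rfl fun k _ => ?_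
  rw [Finset.sum_div, Finset.sum_div, ← Finset.sum_sub_distrib]
  refine Finset.sum_congr rfl fun j _ => ?_
  rw [LM_log' hU hg h0 hz, map_mul]
  ring

private theorem Lgm_id (u : E n → ℝ) (hu : DifferentiableAt ℝ u z) (v : E n) :
    fderiv ℝ (cx (fun y => 1 + u y)) z v = fderiv ℝ (cx u) z v := by
  have h := Lgm_fd (Φ := fun t => 1 + t) (φ := 1) hu ((hasDerivAt_id (u z)).const_add 1) v
  rw [h]
  simp

theorem levi_one_add (hU : IsOpen U) (hu : ContDiffOn ℝ ∞ u U) (h0 : ∀ y ∈ U, 0 ≤ u y)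
    (hz : z ∈ U) (a : E n) : levi (fun y => Real.log (1 + u y)) z a a
      = levi u z a a / ((1 + u z : ℝ) : ℂ)
        - ((‖d10 (cx u) z a‖ ^ 2 : ℝ) : ℂ) / (((1 + u z : ℝ) : ℂ)) ^ 2 := by
  have hg : ContDiffOn ℝ ∞ (fun y => 1 + u y) U := contDiffOn_const.add hu
  have hp : ∀ y ∈ U, 0 < (fun y => 1 + u y) y := fun y hy => by
    have := h0 y hy
    simp only
    linarith
  rw [levi_log hU hg hp hz a]
  have e1 : d10 (cx (fun y => 1 + u y)) z a = d10 (cx u) z a := by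
    unfold d10
    rw [Lgm_id u (Lgm_dr hU hu hz), Lgm_id u (Lgm_dr hU hu hz)]
  have e2 : levi (fun y => 1 + u y) z a a = levi u z a a := by
    unfold levi
    apply d10_congr
    filter_upwards [hU.mem_nhds hz] with y hy
    unfold d01
    have h1 := Lgm_id u (Lgm_dr hU hu hy)
    unfold cx at h1
    rw [h1, h1]
  rw [e1, e2]

theorem log1p_pos (hU : IsOpen U) (hu : ContDiffOn ℝ ∞ u U) (h0 : ∀ y ∈ U, 0 < u y)
    (hz : z ∈ U) {a : E n} (h : levi (fun y => Real.log (u y)) z a a = 0) :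
    levi (fun y => Real.log (1 + u y)) z a a
      = ((‖d10 (cx u) z a‖ ^ 2 / (u z * (1 + u z) ^ 2) : ℝ) : ℂ) := by
  rw [levi_log hU hu h0 hz] at h
  rw [levi_one_add hU hu (fun y hy => (h0 y hy).le) hz]
  have hp := h0 z hz
  have hne : (u z : ℂ) ≠ 0 := by exact_mod_cast hp.ne'
  have hne1 : ((1 + u z : ℝ) : ℂ) ≠ 0 := by
    have : (1 + u z : ℝ) ≠ 0 := by linarith
    exact_mod_cast this
  have h2 : levi u z a a = ((‖d10 (cx u) z a‖ ^ 2 : ℝ) : ℂ) / (u z : ℂ) := by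
    field_simp at h
    rw [eq_div_iff hne]
    linear_combination h
  rw [h2]
  push_cast at hne1 ⊢
  field_simp
  ring

end Pool.Agent.ARK
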