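import Pool.Agent.ARK.Qco
import Pool.Agent.ARK.Glf
import Pool.Agent.ARK.Lgm
import Pool.Agent.CYF.Grd
import Pool.Agent.NDC.Adj

/-!
ARK module Bnd (size 5): the densities of `log (g + δ)`: bound independent of `δ`, and the limit `δ → 0`.
PROOF. Let `W = lm (om.w i) z`, `M = lm (η.w i) z`, `G = vt A g i`. `LM_log'` for `G + δ > 0` (`LM`, `pk` of `G + δ` are those of `G`; `vt A (fun x => log (g x + δ)) i = fun y => log (G y + δ)` is `rfl`):
`LM (..) z k l = LM G z k l / (G z + δ) - pk k (cx G) z * conj (pk l (cx G) z) / (G z + δ)²`. `qco`: `lt ν W M B = Λ ∑ i', ∑ k l, v i' k * conj (v i' l) * B k l` with `Λ = (dp W M).coeff ν = det W * nA / ν!` (`nA_eq`).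
`lt_bound`: let `K` be compact in the target. On `K`: `‖LM G z k l‖ ≤ C` (continuity), `∑ k, ‖pk k (cx G) z‖² ≤ C * G z` (`grad_bound`, CYF/Grd.lean; `G ≥ 0` on the target), `‖det W‖ ≤ C`, and `∑ k, ‖v i' k‖² ≤ C` since `∑ k l, v k conj (v l) W k l` has real part `≤ 1` and `W ≥ c > 0` on `K`
(the continuous function `(z, x) ↦ (∑ k l, x k conj (x l) LM (om.w i) z k l).re` is positive on `K ×` unit sphere, so it has a positive minimum `c`; homogeneity; see `norm` arguments in Pool/Agent/CYF/Kka or NDC). So `‖lt ..‖ ≤ Λ * C' * (1 / (G + δ) + G / (G + δ)²) ≤ C'' * nA / (G + δ) ≤ C''` as `nA = vt A (fA ..) i z ≤ G z` (`vt_fA`, `hle`)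
(`|∑ k, v k * pk k|² ≤ (∑ |v k|²)(∑ |pk k|²)`: Cauchy-Schwarz, or cruder bounds of finite sums).
`lt_lim`: `lt ν W M B` is a fixed linear function of the entries of `B` (finite sum), and the entries converge to those of `LL A g i z` (`G z > 0`, `δ_k = 1 / (k + 1) → 0`: `tendsto_one_div_add_atTop_nhds_zero_nat`).
`lt_null`: rank `< ν`: `lt_zero` (module Qco).
-/

open scoped ContDiff ComplexConjugate Topology ComplexOrder
open Complex MeasureTheory Matrix

namespace Pool.Agent.ARK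

open Pool.Agent.CYF Pool.Agent.NDC

variable {n : ℕ} {X : Type*} [TopologicalSpace X] {ι : Type*} {A : Mfd n X ι}

private theorem Bnd_d01_add (f : E n → ℂ) (c : ℂ) (z b : E n) :
    d01 (fun y => f y + c) z b = d01 f z b := by
  unfold d01
  rw [fderiv_add_const]

private theorem Bnd_d10_add (f : E n → ℂ) (c : ℂ) (z b : E n) :
    d10 (fun y => f y + c) z b = d10 f z b := by
  unfold d10
  rw [fderiv_add_const]

private theorem Bnd_cx_add (G : E n → ℝ) (δ : ℝ) :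
    cx (fun y => G y + δ) = fun y => cx G y + (δ : ℂ) := by
  funext y
  simp [cx]

private theorem Bnd_pk_add (G : E n → ℝ) (δ : ℝ) (z : E n) (k : Fin n) :
    pk k (cx (fun y => G y + δ)) z = pk k (cx G) z := by
  rw [Bnd_cx_add]
  exact Bnd_d10_add _ _ _ _

private theorem Bnd_LM_add (G : E n → ℝ) (δ : ℝ) (z : E n) (k l : Fin n) :
    LM (fun y => G y + δ) z k l = LM G z k l := by
  rw [LM_eq, LM_eq, Bnd_cx_add]
  have h : pb l (fun y => cx G y + (δ : ℂ)) = pb l (cx G) := by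
    funext y
    exact Bnd_d01_add _ _ _ _
  rw [h]

/-- the entries of the Levi matrix of `log (g + δ)` -/
private theorem Bnd_entry {g : X → ℝ} (hg : Sm A g) (h0 : ∀ x, 0 ≤ g x) {δ : ℝ} (hδ : 0 < δ)
    {i : ι} {z : E n} (hz : z ∈ (A.c i).target) (k l : Fin n) :
    lm (vt A (fun x => Real.log (g x + δ)) i) z k l
      = LM (vt A g i) z k l / ((vt A g i z + δ : ℝ) : ℂ)
        - pk k (cx (vt A g i)) z * conj (pk l (cx (vt A g i)) z)
          / (((vt A g i z + δ : ℝ) : ℂ)) ^ 2 := by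
  have h1 : ContDiffOn ℝ ∞ (fun y => vt A g i y + δ) (A.c i).target :=
    (hg i).add contDiffOn_const
  have h2 : ∀ y ∈ (A.c i).target, 0 < vt A g i y + δ := fun y _ =>
    add_pos_of_nonneg_of_pos (h0 _) hδ
  have h3 := LM_log' (A.c i).open_target h1 h2 hz k l
  rw [Bnd_LM_add, Bnd_pk_add, Bnd_pk_add] at h3
  exact h3

theorem Sm_log {g : X → ℝ} (hg : Sm A g) (h0 : ∀ x, 0 ≤ g x) {δ : ℝ} (hδ : 0 < δ) :
    Sm A (fun x => Real.log (g x + δ)) := by
  intro i
  have h1 : ContDiffOn ℝ ∞ (fun y => vt A g i y + δ) (A.c i).target :=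
    (hg i).add contDiffOn_const
  exact h1.log fun y _ => (add_pos_of_nonneg_of_pos (h0 _) hδ).ne'

private theorem Bnd_pos {om : Form A} (hom : om.Positive) (i : ι) {K : Set (E n)}
    (hK : IsCompact K) (hKs : K ⊆ (A.c i).target) :
    ∃ c : ℝ, 0 < c ∧ ∀ z ∈ K, ∀ a : E n,
      c * ∑ k, ‖a k‖ ^ 2 ≤ (∑ k, ∑ l, a k * conj (a l) * LM (om.w i) z k l).re := by
  have hle : ∀ z ∈ K, ∀ a : E n,
      (∑ k, ∑ l, a k * conj (a l) * LM (om.w i) z k l) = levi (om.w i) z a a := by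
    intro z hz a
    exact (levi_eq_sum ((om.smooth i).contDiffAt ((A.c i).open_target.mem_nhds (hKs hz)))
      a a).symm
  set S : Set (E n) := Metric.sphere 0 1 with hS
  have hSc : IsCompact S := isCompact_sphere _ _
  have hcont : ContinuousOn (fun p : E n × E n =>
      (∑ k, ∑ l, p.2 k * conj (p.2 l) * LM (om.w i) p.1 k l).re) (K ×ˢ S) := by
    refine Complex.continuous_re.comp_continuousOn ?_
    refine continuousOn_finsetSum _ fun k _ => continuousOn_finsetSum _ fun l _ => ?_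
    have h1 : ContinuousOn (fun y => LM (om.w i) y k l) (A.c i).target :=
      (contDiffOn_LM (A.c i).open_target (om.smooth i) k l).continuousOn
    have h2 : ContinuousOn (fun p : E n × E n => LM (om.w i) p.1 k l) (K ×ˢ S) :=
      h1.comp continuousOn_fst fun p hp => hKs hp.1
    have h3 : Continuous (fun p : E n × E n => p.2 k * conj (p.2 l)) := by
      fun_prop
    exact h3.continuousOn.mul h2
  have key : ∃ c' : ℝ, 0 < c' ∧ ∀ z ∈ K, ∀ a ∈ S,
      c' ≤ (∑ k, ∑ l, a k * conj (a l) * LM (om.w i) z k l).re := by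
    by_cases hne : (K ×ˢ S).Nonempty
    · obtain ⟨p, hp, hmin⟩ := (hK.prod hSc).exists_isMinOn hne hcont
      refine ⟨_, ?_, fun z hz a ha => hmin (a := (z, a)) ⟨hz, ha⟩⟩
      change 0 < (∑ k, ∑ l, p.2 k * conj (p.2 l) * LM (om.w i) p.1 k l).re
      rw [hle p.1 hp.1 p.2]
      refine hom i p.1 (hKs hp.1) p.2 fun h => ?_
      have h4 : p.2 ∈ S := hp.2
      rw [h, hS] at h4
      simp at h4
    · exact ⟨1, one_pos, fun z hz a ha => absurd ⟨(z, a), hz, ha⟩ hne⟩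
  obtain ⟨c', hc', hmin⟩ := key
  have hn : (0 : ℝ) < (n : ℝ) + 1 := by positivity
  refine ⟨c' / (n + 1), by positivity, fun z hz a => ?_⟩
  by_cases ha : a = 0
  · subst ha
    simp
  · have hr : 0 < ‖a‖ := norm_pos_iff.2 ha
    set r : ℝ := ‖a‖ with hrdef
    set b : E n := fun k => ((r⁻¹ : ℝ) : ℂ) * a k with hb
    have hbS : b ∈ S := by
      have h5 : b = ((r⁻¹ : ℝ) : ℂ) • a := by
        funext k
        simp [hb]
      rw [hS, mem_sphere_zero_iff_norm, h5, norm_smul, Complex.norm_real, Real.norm_eq_abs,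
        abs_of_pos (inv_pos.2 hr)]
      exact inv_mul_cancel₀ hr.ne'
    have h6 := hmin z hz b hbS
    have hab : ∀ k, a k = (r : ℂ) * b k := by
      intro k
      simp only [hb]
      rw [← mul_assoc, ← Complex.ofReal_mul, mul_inv_cancel₀ hr.ne']
      simp
    have h7 : (∑ k, ∑ l, a k * conj (a l) * LM (om.w i) z k l)
        = ((r ^ 2 : ℝ) : ℂ) * ∑ k, ∑ l, b k * conj (b l) * LM (om.w i) z k l := by
      rw [Finset.mul_sum]
      refine Finset.sum_congr rfl fun k _ => ?_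
      rw [Finset.mul_sum]
      refine Finset.sum_congr rfl fun l _ => ?_
      rw [hab k, hab l, map_mul, Complex.conj_ofReal]
      push_cast
      ring
    rw [h7, Complex.re_ofReal_mul]
    have h8 : ∑ k, ‖a k‖ ^ 2 ≤ n * r ^ 2 := by
      calc ∑ k, ‖a k‖ ^ 2 ≤ ∑ _k : Fin n, r ^ 2 := by
            refine Finset.sum_le_sum fun k _ => ?_
            exact pow_le_pow_left₀ (norm_nonneg _) (norm_le_pi_norm a k) 2
        _ = n * r ^ 2 := by simp
    have h9 : c' / (n + 1) * ∑ k, ‖a k‖ ^ 2 ≤ c' / (n + 1) * (n * r ^ 2) :=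
      mul_le_mul_of_nonneg_left h8 (by positivity)
    have h10 : c' / (n + 1) * (n * r ^ 2) ≤ r ^ 2 * c' := by
      rw [div_mul_eq_mul_div, div_le_iff₀ hn]
      nlinarith [mul_pos hc' (pow_pos hr 2)]
    have h11 : r ^ 2 * c' ≤ r ^ 2 * (∑ k, ∑ l, b k * conj (b l) * LM (om.w i) z k l).re :=
      mul_le_mul_of_nonneg_left h6 (by positivity)
    linarith

/-- a continuous function is bounded on a compact set, by a nonnegative number -/
private theorem Bnd_bd {f : E n → ℂ} {K T : Set (E n)} (hK : IsCompact K) (hKT : K ⊆ T)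
    (hf : ContinuousOn f T) : ∃ C : ℝ, 0 ≤ C ∧ ∀ z ∈ K, ‖f z‖ ≤ C := by
  obtain ⟨C, hC⟩ := hK.exists_bound_of_continuousOn (hf.mono hKT)
  exact ⟨max C 0, le_max_right _ _, fun z hz => (hC z hz).trans (le_max_left _ _)⟩

private theorem Bnd_LM_bd {w : E n → ℝ} {K T : Set (E n)} (hT : IsOpen T) (hK : IsCompact K)
    (hKT : K ⊆ T) (hw : ContDiffOn ℝ ∞ w T) :
    ∃ C : ℝ, 0 ≤ C ∧ ∀ z ∈ K, ∀ k l, ‖LM w z k l‖ ≤ C := by
  have h : ∀ p : Fin n × Fin n, ∃ C : ℝ, 0 ≤ C ∧ ∀ z ∈ K, ‖LM w z p.1 p.2‖ ≤ C := fun p =>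
    Bnd_bd hK hKT (contDiffOn_LM hT hw p.1 p.2).continuousOn
  choose C h0 hC using h
  refine ⟨∑ p, C p, Finset.sum_nonneg fun p _ => h0 p, fun z hz k l => ?_⟩
  exact (hC (k, l) z hz).trans
    (Finset.single_le_sum (f := C) (fun p _ => h0 p) (Finset.mem_univ (k, l)))

private theorem Bnd_num {a b s : ℝ} (h1 : a ^ 2 ≤ s) (h2 : b ^ 2 ≤ s) : a * b ≤ s := by
  nlinarith [sq_nonneg (a - b)]

theorem lt_bound {η om : Form A} (hη : η.Semipositive) (hom : om.Positive) {ν : ℕ}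
    (hν : η.RankLE ν) {g : X → ℝ} (hg : Sm A g) (h0 : ∀ x, 0 ≤ g x) (hle : ∀ x, fA η om ν x ≤ g x)
    (i : ι) {K : Set (E n)} (hK : IsCompact K) (hKs : K ⊆ (A.c i).target) :
    ∃ C : ℝ, ∀ δ : ℝ, 0 < δ → ∀ z ∈ K,
      ‖lt ν (lm (om.w i) z) (lm (η.w i) z) (lm (vt A (fun x => Real.log (g x + δ)) i) z)‖ ≤ C := by
  have hT := (A.c i).open_target
  obtain ⟨C1, hC1, hb1⟩ := Bnd_LM_bd hT hK hKs (hg i)
  obtain ⟨C2, hC2, hb2⟩ := grad_bound hT (hg i) (fun z _ => h0 _) hK hKs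
  have hdet : ContinuousOn (fun z => (lm (om.w i) z).det) (A.c i).target := by
    have h := contDiffOn_det (G := fun y => lm (om.w i) y) (U := (A.c i).target)
      (fun k l => contDiffOn_LM hT (om.smooth i) k l)
    exact h.continuousOn
  obtain ⟨C3, hC3, hb3⟩ := Bnd_bd hK hKs hdet
  obtain ⟨c, hc, hb4⟩ := Bnd_pos hom i hK hKs
  refine ⟨C3 * (n * (n * (n * (c⁻¹ * (C1 + C2))))), fun δ hδ z hz => ?_⟩
  have hzT := hKs hz
  have hW : (lm (om.w i) z).PosDef := lm_posDef hT (om.smooth i) hzT (hom i z hzT)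
  have hM : (lm (η.w i) z).PosSemidef := lm_psd hT (η.smooth i) hzT (hη i z hzT)
  obtain ⟨Λ, v, hΛ, hco, _, hlt, hnorm, _⟩ := qco hW hM (hν i z hzT)
  rw [hlt]
  set G : ℝ := vt A g i z with hG
  have hG0 : 0 ≤ G := h0 _
  have hGδ : 0 < G + δ := by linarith
  -- the bound for `Λ`
  have hnA := nA_eq hη hom ν hzT
  rw [hco] at hnA
  have hnA0 := nA_nonneg hη hom ν hzT
  have hnAG : nA η om ν i z ≤ G := by
    rw [← vt_fA hη hom ν hzT]
    exact hle _
  have hΛb : Λ ≤ C3 * G := by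
    have h1 : ‖((ν.factorial : ℕ) : ℂ) * (Λ : ℂ)‖ = ν.factorial * Λ := by
      rw [norm_mul, Complex.norm_natCast, Complex.norm_real, Real.norm_eq_abs, abs_of_nonneg hΛ]
    have h2 : ‖(lm (om.w i) z).det * (nA η om ν i z : ℂ)‖ ≤ C3 * G := by
      rw [norm_mul, Complex.norm_real, Real.norm_eq_abs, abs_of_nonneg hnA0]
      exact mul_le_mul (hb3 z hz) hnAG hnA0 hC3
    rw [← hnA, h1] at h2
    have h3 : (1 : ℝ) ≤ (ν.factorial : ℝ) := by
      exact_mod_cast Nat.one_le_iff_ne_zero.2 (Nat.factorial_ne_zero ν)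
    nlinarith
  -- the vectors
  have hv : ∀ j k, ‖v j k‖ ^ 2 ≤ c⁻¹ := by
    intro j k
    have h1 := hb4 z hz (v j)
    have h2 := hnorm j
    have h3 : (∑ k, ∑ l, v j k * conj (v j l) * lm (om.w i) z k l)
        = ∑ k, ∑ l, v j k * conj (v j l) * LM (om.w i) z k l := rfl
    rw [h3] at h2
    have h4 : ‖v j k‖ ^ 2 ≤ ∑ k, ‖v j k‖ ^ 2 :=
      Finset.single_le_sum (f := fun k => ‖v j k‖ ^ 2) (fun k _ => by positivity)
        (Finset.mem_univ k)
    rw [← one_div, le_div_iff₀ hc]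
    nlinarith
  have hpk : ∀ k, ‖pk k (cx (vt A g i)) z‖ ^ 2 ≤ C2 * G := by
    intro k
    exact (Finset.single_le_sum (f := fun k => ‖pk k (cx (vt A g i)) z‖ ^ 2)
      (fun k _ => by positivity) (Finset.mem_univ k)).trans (hb2 z hz)
  -- the entries
  have hB : ∀ k l, ‖lm (vt A (fun x => Real.log (g x + δ)) i) z k l‖
      ≤ (C1 + C2) / (G + δ) := by
    intro k l
    rw [Bnd_entry hg h0 hδ hzT k l]
    have hn : ‖((vt A g i z + δ : ℝ) : ℂ)‖ = G + δ := by
      rw [Complex.norm_real, Real.norm_eq_abs, abs_of_pos hGδ]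
    have h1 : ‖LM (vt A g i) z k l / ((vt A g i z + δ : ℝ) : ℂ)‖ ≤ C1 / (G + δ) := by
      rw [norm_div, hn]
      exact div_le_div_of_nonneg_right (hb1 z hz k l) hGδ.le
    have h2 : ‖pk k (cx (vt A g i)) z * conj (pk l (cx (vt A g i)) z)
        / (((vt A g i z + δ : ℝ) : ℂ)) ^ 2‖ ≤ C2 / (G + δ) := by
      rw [norm_div, norm_mul, norm_pow, hn, RCLike.norm_conj]
      have h3 : ‖pk k (cx (vt A g i)) z‖ * ‖pk l (cx (vt A g i)) z‖ ≤ C2 * G :=
        Bnd_num (hpk k) (hpk l)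
      rw [div_le_div_iff₀ (by positivity) hGδ]
      have h4 : C2 * G ≤ C2 * (G + δ) := mul_le_mul_of_nonneg_left (by linarith) hC2
      have h5 : ‖pk k (cx (vt A g i)) z‖ * ‖pk l (cx (vt A g i)) z‖ * (G + δ)
          ≤ C2 * (G + δ) * (G + δ) := mul_le_mul_of_nonneg_right (h3.trans h4) hGδ.le
      calc _ ≤ C2 * (G + δ) * (G + δ) := h5
        _ = C2 * (G + δ) ^ 2 := by ring
    calc _ ≤ _ := norm_sub_le _ _
      _ ≤ C1 / (G + δ) + C2 / (G + δ) := add_le_add h1 h2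
      _ = (C1 + C2) / (G + δ) := by ring
  have hD0 : 0 ≤ (C1 + C2) / (G + δ) := by positivity
  have hcc : 0 ≤ c⁻¹ := (inv_pos.2 hc).le
  have hsum : ‖∑ j, ∑ k, ∑ l, v j k * conj (v j l)
      * lm (vt A (fun x => Real.log (g x + δ)) i) z k l‖
      ≤ n * (n * (n * (c⁻¹ * ((C1 + C2) / (G + δ))))) := by
    refine (norm_sum_le_of_le _ (f := fun j => ∑ k, ∑ l, v j k * conj (v j l)
      * lm (vt A (fun x => Real.log (g x + δ)) i) z k l)
      (n := fun _ => n * (n * (c⁻¹ * ((C1 + C2) / (G + δ))))) fun j _ => ?_).trans (by simp)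
    refine (norm_sum_le_of_le _ (f := fun k => ∑ l, v j k * conj (v j l)
      * lm (vt A (fun x => Real.log (g x + δ)) i) z k l)
      (n := fun _ => n * (c⁻¹ * ((C1 + C2) / (G + δ)))) fun k _ => ?_).trans (by simp)
    refine (norm_sum_le_of_le _ (f := fun l => v j k * conj (v j l)
      * lm (vt A (fun x => Real.log (g x + δ)) i) z k l)
      (n := fun _ => c⁻¹ * ((C1 + C2) / (G + δ))) fun l _ => ?_).trans (by simp)
    rw [norm_mul, norm_mul, RCLike.norm_conj]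
    exact mul_le_mul (Bnd_num (hv j k) (hv j l)) (hB k l)
      (norm_nonneg _) hcc
  rw [norm_mul, Complex.norm_real, Real.norm_eq_abs, abs_of_nonneg hΛ]
  have hfin : Λ * (n * (n * (n * (c⁻¹ * ((C1 + C2) / (G + δ))))))
      ≤ C3 * (n * (n * (n * (c⁻¹ * (C1 + C2))))) := by
    have h1 : Λ * (n * (n * (n * (c⁻¹ * ((C1 + C2) / (G + δ))))))
        = (Λ / (G + δ)) * (n * (n * (n * (c⁻¹ * (C1 + C2))))) := by
      field_simp
    rw [h1]
    refine mul_le_mul_of_nonneg_right ?_ (by positivity)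
    rw [div_le_iff₀ hGδ]
    nlinarith [mul_nonneg hC3 hδ.le]
  exact (mul_le_mul_of_nonneg_left hsum hΛ).trans hfin

theorem lt_lim (η om : Form A) (ν : ℕ) {g : X → ℝ} (hg : Sm A g) (h0 : ∀ x, 0 ≤ g x) {i : ι}
    {z : E n} (hz : z ∈ (A.c i).target) (hp : 0 < vt A g i z) :
    Filter.Tendsto (fun k : ℕ => lt ν (lm (om.w i) z) (lm (η.w i) z)
        (lm (vt A (fun x => Real.log (g x + 1 / ((k : ℝ) + 1))) i) z)) Filter.atTop
      (𝓝 (lt ν (lm (om.w i) z) (lm (η.w i) z) (LL A g i z))) := by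
  have hcont : Continuous (fun B : Matrix (Fin n) (Fin n) ℂ =>
      lt ν (lm (om.w i) z) (lm (η.w i) z) B) := by
    unfold lt
    refine continuous_finsetSum _ fun a _ => continuous_const.mul ?_
    exact (continuous_const.matrix_mul continuous_id).matrix_trace
  refine (hcont.tendsto _).comp ?_
  refine tendsto_pi_nhds.2 fun k => tendsto_pi_nhds.2 fun l => ?_
  have hδ : ∀ m : ℕ, (0 : ℝ) < 1 / ((m : ℝ) + 1) := fun m => by positivity
  have h1 : (fun m : ℕ => lm (vt A (fun x => Real.log (g x + 1 / ((m : ℝ) + 1))) i) z k l)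
      = fun m : ℕ => LM (vt A g i) z k l / ((vt A g i z + 1 / ((m : ℝ) + 1) : ℝ) : ℂ)
        - pk k (cx (vt A g i)) z * conj (pk l (cx (vt A g i)) z)
          / (((vt A g i z + 1 / ((m : ℝ) + 1) : ℝ) : ℂ)) ^ 2 := by
    funext m
    exact Bnd_entry hg h0 (hδ m) hz k l
  have h2 : Filter.Tendsto (fun m : ℕ => vt A g i z + 1 / ((m : ℝ) + 1)) Filter.atTop
      (𝓝 (vt A g i z)) := by
    have h := (tendsto_one_div_add_atTop_nhds_zero_nat (𝕜 := ℝ)).const_add (vt A g i z)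
    simpa using h
  have h3 : Filter.Tendsto (fun m : ℕ => ((vt A g i z + 1 / ((m : ℝ) + 1) : ℝ) : ℂ)) Filter.atTop
      (𝓝 ((vt A g i z : ℝ) : ℂ)) := (Complex.continuous_ofReal.tendsto _).comp h2
  have hne : ((vt A g i z : ℝ) : ℂ) ≠ 0 := by
    exact_mod_cast hp.ne'
  change Filter.Tendsto (fun m : ℕ =>
    lm (vt A (fun x => Real.log (g x + 1 / ((m : ℝ) + 1))) i) z k l) Filter.atTop
    (𝓝 (LL A g i z k l))
  rw [h1]
  have h4 : LL A g i z k l = LM (vt A g i) z k l / (vt A g i z : ℂ)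
      - pk k (cx (vt A g i)) z * conj (pk l (cx (vt A g i)) z) / ((vt A g i z : ℂ)) ^ 2 := rfl
  rw [h4]
  exact (tendsto_const_nhds.div h3 hne).sub
    (tendsto_const_nhds.div (h3.pow 2) (pow_ne_zero 2 hne))

end Pool.Agent.ARK
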