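import Pool.Agent.ARK.Main3

/-!
ARK: flow boxes of level sets.
-/

open scoped ContDiff Topology

namespace Pool.Agent.ARK

open Pool.Agent.CYF Pool.Agent.NDC

theorem box_abs {V W : Type*} [NormedAddCommGroup V] [NormedSpace ℝ V] [FiniteDimensional ℝ V]
    [NormedAddCommGroup W] [NormedSpace ℝ W] [FiniteDimensional ℝ W] {O : Set V} (hO : IsOpen O)
    {F : V → W} (hF : ContDiffOn ℝ ∞ F O) {z : V}
    (hz : z ∈ O) (hs : Function.Surjective (fderiv ℝ F z)) :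
    ∃ B : Set V, IsOpen B ∧ z ∈ B ∧ B ⊆ O ∧ ∀ y₁ ∈ B, ∀ y₂ ∈ B, F y₁ = F y₂ →
      (∃ C : Set V, IsPreconnected C ∧ y₁ ∈ C ∧ y₂ ∈ C ∧ C ⊆ O ∧ ∀ c ∈ C, F c = F y₁) ∧
      ∀ N ∈ 𝓝 y₂, ∀ᶠ y' in 𝓝 y₁, ∃ y'' ∈ N, ∃ C : Set V, IsPreconnected C ∧ y' ∈ C ∧ y'' ∈ C ∧
        C ⊆ O ∧ ∀ c ∈ C, F c = F y' := by
  have hFz : ContDiffAt ℝ ∞ F z := hF.contDiffAt (hO.mem_nhds hz)
  obtain ⟨π, hπ⟩ := (fderiv ℝ F z).ker_closedComplemented_of_finiteDimensional_range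
  have hinj : Function.Injective ((fderiv ℝ F z).prod π) := by
    intro x y hxy
    have h0 : (fderiv ℝ F z).prod π (x - y) = 0 := by rw [map_sub, hxy, sub_self]
    have h1 : fderiv ℝ F z (x - y) = 0 := congrArg Prod.fst h0
    have h2 : π (x - y) = 0 := congrArg Prod.snd h0
    have h3 := hπ ⟨x - y, h1⟩
    have h4 : (x - y : V) = 0 := by
      have := congrArg Subtype.val (h3.symm.trans h2)
      simpa using this
    exact sub_eq_zero.1 h4
  have hsurj : Function.Surjective ((fderiv ℝ F z).prod π) := by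
    rintro ⟨a, b⟩
    obtain ⟨x, hx⟩ := hs a
    refine ⟨x + ((b - π x : (fderiv ℝ F z).ker) : V), ?_⟩
    have hb : fderiv ℝ F z ((b - π x : (fderiv ℝ F z).ker) : V) = 0 := (b - π x).2
    have hp : π ((b - π x : (fderiv ℝ F z).ker) : V) = b - π x := hπ _
    ext1
    · change fderiv ℝ F z (x + ((b - π x : (fderiv ℝ F z).ker) : V)) = a
      rw [map_add, hb, add_zero, hx]
    · change π (x + ((b - π x : (fderiv ℝ F z).ker) : V)) = b
      rw [map_add, hp]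
      abel
  let e : V ≃L[ℝ] W × (fderiv ℝ F z).ker :=
    (LinearEquiv.ofBijective ((fderiv ℝ F z).prod π).toLinearMap
      ⟨hinj, hsurj⟩).toContinuousLinearEquiv
  have he : (e : V →L[ℝ] W × (fderiv ℝ F z).ker) = (fderiv ℝ F z).prod π := by
    ext x <;> rfl
  let Φ : V → W × (fderiv ℝ F z).ker := fun y => (F y, π y)
  have hΦ : ContDiffAt ℝ ∞ Φ z := hFz.prodMk π.contDiff.contDiffAt
  have hd : HasFDerivAt Φ (e : V →L[ℝ] W × (fderiv ℝ F z).ker) z := by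
    rw [he]
    have hFd : HasFDerivAt F (fderiv ℝ F z) z := (hFz.differentiableAt (by simp)).hasFDerivAt
    exact hFd.prodMk π.hasFDerivAt
  let P := hΦ.toOpenPartialHomeomorph Φ hd (by simp)
  have hzs : z ∈ P.source := hΦ.mem_toOpenPartialHomeomorph_source hd (by simp)
  have hzt : Φ z ∈ P.target := hΦ.image_mem_toOpenPartialHomeomorph_target hd (by simp)
  have hψz : P.symm (Φ z) = z := P.left_inv hzs
  have e1 : ∀ᶠ w in 𝓝 (Φ z), w ∈ P.target := P.open_target.mem_nhds hzt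
  have e3 : ∀ᶠ w in 𝓝 (Φ z), P.symm w ∈ O := by
    have : Filter.Tendsto P.symm (𝓝 (Φ z)) (𝓝 (P.symm (Φ z))) :=
      (P.symm.continuousAt (by simpa using hzt))
    rw [hψz] at this
    exact this (hO.mem_nhds hz)
  obtain ⟨ε, hε, hball⟩ := Metric.eventually_nhds_iff_ball.1 (e1.and e3)
  have hPc : ContinuousOn Φ P.source := P.continuousOn
  have hmem : ∀ a ∈ Metric.ball (F z) ε, ∀ b ∈ Metric.ball (π z) ε,
      (a, b) ∈ Metric.ball (Φ z) ε := by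
    intro a ha b hb
    rw [Metric.mem_ball] at ha hb ⊢
    exact max_lt ha hb
  have hcomp : ∀ y, Φ y ∈ Metric.ball (Φ z) ε → F y ∈ Metric.ball (F z) ε ∧
      π y ∈ Metric.ball (π z) ε := by
    intro y hy
    rw [Metric.mem_ball] at hy ⊢
    exact ⟨lt_of_le_of_lt (le_max_left _ _) hy,
      lt_of_le_of_lt (le_max_right (dist (F y) (F z)) (dist (π y) (π z))) hy⟩
  set B : Set V := (P.source ∩ Φ ⁻¹' Metric.ball (Φ z) ε) ∩ O with hB
  have hBo : IsOpen B := (hPc.isOpen_inter_preimage P.open_source Metric.isOpen_ball).inter hO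
  -- the plaques
  have plaque : ∀ a ∈ Metric.ball (F z) ε, ∀ b₁ ∈ Metric.ball (π z) ε,
      ∀ b₂ ∈ Metric.ball (π z) ε, ∃ C : Set V, IsPreconnected C ∧ P.symm (a, b₁) ∈ C ∧
        P.symm (a, b₂) ∈ C ∧ C ⊆ O ∧ ∀ c ∈ C, F c = a := by
    intro a ha b₁ hb₁ b₂ hb₂
    refine ⟨(fun b => P.symm (a, b)) '' Metric.ball (π z) ε, ?_, ⟨b₁, hb₁, rfl⟩, ⟨b₂, hb₂, rfl⟩,
      ?_, ?_⟩
    · refine (convex_ball (π z) ε).isPreconnected.image _ ?_
      intro b hb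
      have h1 : ContinuousAt P.symm (a, b) := P.symm.continuousAt (by
        have := (hball _ (hmem a ha b hb)).1
        simpa using this)
      have h2 : ContinuousAt (fun b : (fderiv ℝ F z).ker => ((a, b) : W × (fderiv ℝ F z).ker)) b :=
        (Continuous.prodMk_right a).continuousAt
      exact (ContinuousAt.comp (f := fun b : (fderiv ℝ F z).ker => (a, b)) h1 h2).continuousWithinAt
    · rintro _ ⟨b, hb, rfl⟩
      exact (hball _ (hmem a ha b hb)).2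
    · rintro _ ⟨b, hb, rfl⟩
      have h1 : Φ (P.symm (a, b)) = (a, b) := P.right_inv (hball _ (hmem a ha b hb)).1
      exact congrArg Prod.fst h1
  have hleft : ∀ y ∈ B, P.symm (F y, π y) = y := fun y hy => P.left_inv hy.1.1
  refine ⟨B, hBo, ⟨⟨hzs, Metric.mem_ball_self hε⟩, hz⟩, fun y hy => hy.2, ?_⟩
  intro y₁ h₁ y₂ h₂ h12
  have c1 := hcomp y₁ h₁.1.2
  have c2 := hcomp y₂ h₂.1.2
  constructor
  · obtain ⟨C, hC1, hC2, hC3, hC4, hC5⟩ := plaque (F y₁) c1.1 (π y₁) c1.2 (π y₂) c2.2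
    rw [hleft y₁ h₁] at hC2
    rw [h12, hleft y₂ h₂] at hC3
    exact ⟨C, hC1, hC2, hC3, hC4, hC5⟩
  · intro N hN
    have h3 : Filter.Tendsto (fun y' => P.symm (F y', π y₂)) (𝓝 y₁) (𝓝 y₂) := by
      have h4 : ContinuousAt P.symm (F y₁, π y₂) := P.symm.continuousAt (by
        have := (hball _ (hmem _ c1.1 _ c2.2)).1
        simpa using this)
      have h5 : ContinuousAt (fun y' => ((F y', π y₂) : W × (fderiv ℝ F z).ker)) y₁ :=
        ((hF.continuousOn).continuousAt (hO.mem_nhds h₁.2)).prodMk continuousAt_const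
      have h6 : ContinuousAt (fun y' => P.symm (F y', π y₂)) y₁ :=
        ContinuousAt.comp (f := fun y' => ((F y', π y₂) : W × (fderiv ℝ F z).ker)) h4 h5
      have h7 : P.symm (F y₁, π y₂) = y₂ := by rw [h12, hleft y₂ h₂]
      have h8 := h6.tendsto
      rwa [h7] at h8
    filter_upwards [h3 hN, hBo.mem_nhds h₁] with y' hy' hyB
    have c3 := hcomp y' hyB.1.2
    obtain ⟨C, hC1, hC2, hC3, hC4, hC5⟩ := plaque (F y') c3.1 (π y') c3.2 (π y₂) c2.2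
    rw [hleft y' hyB] at hC2
    exact ⟨_, hy', C, hC1, hC2, hC3, hC4, hC5⟩

variable {n : ℕ} {X : Type*} [TopologicalSpace X] {ι : Type*} {A : Mfd n X ι} {N : ℕ}

/-- the component of the level set -/
def Tc (u : Fin N → X → ℝ) (x : X) : Set X := connectedComponentIn {y | ∀ j, u j y = u j x} x

theorem mem_Tc (u : Fin N → X → ℝ) (x : X) : x ∈ Tc u x := mem_connectedComponentIn fun _ => rfl

theorem Tc_level {u : Fin N → X → ℝ} {x y : X} (hy : y ∈ Tc u x) (j : Fin N) : u j y = u j x :=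
  connectedComponentIn_subset _ _ hy j

theorem Tc_eq {u : Fin N → X → ℝ} {x y : X} (hy : y ∈ Tc u x) : Tc u y = Tc u x := comp_same hy

theorem Tc_of_conn {u : Fin N → X → ℝ} {x y : X} {C : Set X} (hC : IsPreconnected C) (hx : x ∈ C)
    (hy : y ∈ C) (hL : ∀ c ∈ C, ∀ j, u j c = u j x) : y ∈ Tc u x :=
  hC.subset_connectedComponentIn hx (fun c hc => hL c hc) hy

theorem box {u : Fin N → X → ℝ} (hu : ∀ j, Sm A (u j)) {y : X} {i : ι} (hi : y ∈ (A.c i).source)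
    (hind : LinearIndependent ℝ (fun j => fderiv ℝ (vt A (u j) i) (A.c i y))) :
    ∃ B : Set X, IsOpen B ∧ y ∈ B ∧ ∀ y₁ ∈ B, ∀ y₂ ∈ B, (∀ j, u j y₁ = u j y₂) →
      y₂ ∈ Tc u y₁ ∧ ∀ M ∈ 𝓝 y₂, ∀ᶠ y' in 𝓝 y₁, ∃ y'' ∈ M, y'' ∈ Tc u y' := by
  have hO := (A.c i).open_target
  have hz : A.c i y ∈ (A.c i).target := (A.c i).map_source hi
  let F : E n → (Fin N → ℝ) := fun y j => vt A (u j) i y
  have hF : ContDiffOn ℝ ∞ F (A.c i).target := contDiffOn_pi.2 fun j => hu j i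
  have hsur : Function.Surjective (fderiv ℝ F (A.c i y)) := by
    intro b
    obtain ⟨v, hv⟩ := real_surj hind b
    refine ⟨v, ?_⟩
    funext j
    have hdj : ∀ j, DifferentiableAt ℝ (fun y => vt A (u j) i y) (A.c i y) :=
      fun j => ((hu j i).contDiffAt (hO.mem_nhds hz)).differentiableAt (by simp)
    have h0 : fderiv ℝ F (A.c i y)
        = ContinuousLinearMap.pi fun j => fderiv ℝ (fun y => vt A (u j) i y) (A.c i y) :=
      fderiv_pi hdj
    rw [h0]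
    exact hv j
  obtain ⟨B, hB, hyB, hBO, hb⟩ := box_abs hO hF hz hsur
  have hBs : IsOpen ((A.c i).source ∩ A.c i ⁻¹' B) := (A.c i).isOpen_inter_preimage hB
  have hconn : ∀ {y₁ y₂ : X}, y₁ ∈ (A.c i).source → y₂ ∈ (A.c i).source → ∀ C : Set (E n),
      IsPreconnected C → A.c i y₁ ∈ C → A.c i y₂ ∈ C → C ⊆ (A.c i).target →
      (∀ c ∈ C, F c = F (A.c i y₁)) → y₂ ∈ Tc u y₁ := by
    intro y₁ y₂ h₁ h₂ C hC1 hC2 hC3 hC4 hC5
    refine Tc_of_conn (hC1.image _ ((A.c i).continuousOn_symm.mono hC4))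
      ⟨_, hC2, (A.c i).left_inv h₁⟩ ⟨_, hC3, (A.c i).left_inv h₂⟩ ?_
    rintro _ ⟨c, hc, rfl⟩ j
    have h6 := congrFun (hC5 c hc) j
    have h7 : vt A (u j) i c = vt A (u j) i (A.c i y₁) := h6
    rw [vt_chart h₁] at h7
    exact h7
  refine ⟨(A.c i).source ∩ A.c i ⁻¹' B, hBs, ⟨hi, hyB⟩, ?_⟩
  rintro y₁ ⟨h₁s, h₁B⟩ y₂ ⟨h₂s, h₂B⟩ h12
  have hF12 : F (A.c i y₁) = F (A.c i y₂) := by
    funext j
    show vt A (u j) i (A.c i y₁) = vt A (u j) i (A.c i y₂)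
    rw [vt_chart h₁s, vt_chart h₂s, h12 j]
  obtain ⟨⟨C, hC1, hC2, hC3, hC4, hC5⟩, h3⟩ := hb _ h₁B _ h₂B hF12
  refine ⟨hconn h₁s h₂s C hC1 hC2 hC3 hC4 hC5, fun M hM => ?_⟩
  have h4 : (A.c i).target ∩ (A.c i).symm ⁻¹' M ∈ 𝓝 (A.c i y₂) := by
    refine Filter.inter_mem (hO.mem_nhds ((A.c i).map_source h₂s)) ?_
    refine (A.c i).continuousAt_symm ((A.c i).map_source h₂s) ?_
    rwa [(A.c i).left_inv h₂s]
  have h5 := ((A.c i).continuousAt h₁s).eventually (h3 _ h4)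
  filter_upwards [h5, (A.c i).open_source.mem_nhds h₁s] with y' h6 h7
  obtain ⟨y'', hy'', C, hC1, hC2, hC3, hC4, hC5⟩ := h6
  refine ⟨(A.c i).symm y'', hy''.2, hconn h7 ((A.c i).map_target hy''.1) C hC1 hC2 ?_ hC4 hC5⟩
  rwa [(A.c i).right_inv hy''.1]

/-- leaves through points close to a point of a leaf come close to every other point of the leaf -/
theorem sat {η : Form A} {ν : ℕ} {u : Fin N → X → ℝ} (hu : ∀ j, Sm A (u j)) {x : X}
    (hx : x ∈ Qs η ν u) {M : Set X} (hM : M ∈ 𝓝 x) {y : X} (hy : y ∈ Tc u x) :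
    ∀ᶠ y' in 𝓝 y, ∃ y'' ∈ M, y'' ∈ Tc u y' := by
  classical
  let R : X → Prop := fun y => ∀ᶠ y' in 𝓝 y, ∃ y'' ∈ M, y'' ∈ Tc u y'
  have hRx : R x := by
    filter_upwards [hM] with y' hy'
    exact ⟨y', hy', mem_Tc u y'⟩
  have key : ∀ y₁ y₂ : X, (∀ L ∈ 𝓝 y₂, ∀ᶠ y' in 𝓝 y₁, ∃ y'' ∈ L, y'' ∈ Tc u y') → R y₂ → R y₁ := by
    intro y₁ y₂ h hR
    filter_upwards [h _ hR] with y' hy'
    obtain ⟨y'', ⟨y3, h3, h4⟩, h5⟩ := hy'
    rw [Tc_eq h5] at h4
    exact ⟨y3, h3, h4⟩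
  have hxL : x ∈ {y | ∀ j, u j y = u j x} := fun _ => rfl
  have h1 : ∀ y ∈ connectedComponentIn {y | ∀ j, u j y = u j x} x,
      (fun y => if R y then (1 : ℝ) else 0) y = (fun y => if R y then (1 : ℝ) else 0) x := by
    refine comp_const hxL fun y hy => ?_
    obtain ⟨B, hB, hyB, hb⟩ := box hu (mem_ix A y) (hx y hy _ (mem_ix A y)).2
    filter_upwards [hB.mem_nhds hyB] with y₁ hy₁ hL
    have hlev : ∀ j, u j y₁ = u j y := by
      intro j
      have e2 : u j y = u j x := connectedComponentIn_subset _ _ hy j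
      rw [hL j, e2]
    have h2 := (hb y₁ hy₁ y hyB hlev).2
    have h3 := (hb y hyB y₁ hy₁ fun j => (hlev j).symm).2
    have h4 : R y₁ ↔ R y := ⟨key y y₁ h3, key y₁ y h2⟩
    simp only [h4]
  have h2 := h1 y hy
  simp only [if_pos hRx] at h2
  by_contra hR
  have hR' : ¬ R y := hR
  rw [if_neg hR'] at h2
  exact zero_ne_one h2

end Pool.Agent.ARK
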