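import Pool.Agent.ARK.Ldf

/-!
ARK module Cls (size 3): closedness of the form.
PROOF. `LM w y k l = pk k (pb l (cx w)) y` (`LM_eq`). `pk_LM`: `pk p (LM · k l) = pk p (pk k (pb l (cx w))) = pk k (pk p (pb l (cx w)))` by `pk_pk_comm`
(CYF/Comm) for `f = pb l (cx w)` (smooth on `U`: `contDiffOn_pb`, `contDiffOn_cx`). `pb_LM`: `pb q (pk k (pb l (cx w))) = pk k (pb q (pb l (cx w)))
= pk k (pb l (pb q (cx w)))` (`pk_pb_comm` near `z`, `pb_pb_comm` near `z` and `pk_congr`). `d10_eq_sum`, `d01_eq_sum` (CYF/Base): `d10 f z a = ∑ k, a k * pk k f z`,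
`d01 f z b = ∑ k, conj (b k) * pb k f z`; in `Mtt` and `cls3` the inner function is `y ↦ ∑ q, conj (a q) * pb q (LM · k l) y` on `U` (`d10_congr`), so
`d10 (fun y => d01 (LM · k l) y x) z x = ∑ p, ∑ q, x p * conj (x q) * pk p (pb q (LM · k l)) z`, and
`pk p (pb q (pk k (pb l (cx w)))) = pk k (pb l (pk p (pb q (cx w))))`: use `pb_LM` (on `U`) and `pk_LM`: `pk p (pb q LM_kl) = pk p (pb l LM_kq) = pb l (pk p LM_kq) = pb l (pk k LM_pq)
= pk k (pb l LM_pq)`. Then exchange the sums (`Finset.sum_comm`). `Mb_conj`: `LM_conj` on `U` and `d01_conj` / `d10_conj` (CYF/Base). `Mtt_conj`: same twice, `pk_pb_comm` / `d10_d01_comm`.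
-/

open scoped ContDiff ComplexConjugate Topology ComplexOrder
open Complex MeasureTheory Matrix

namespace Pool.Agent.ARK

open Pool.Agent.CYF Pool.Agent.NDC

variable {n : ℕ} {w : E n → ℝ} {U : Set (E n)} {z : E n}

private theorem Cls_smLM (hU : IsOpen U) (hw : ContDiffOn ℝ ∞ w U) (k l : Fin n) :
    ContDiffOn ℝ ∞ (fun y => LM w y k l) U :=
  contDiffOn_pk hU (contDiffOn_pb hU (contDiffOn_cx hw) l) k

private theorem Cls_at {f : E n → ℂ} (hU : IsOpen U) (hf : ContDiffOn ℝ ∞ f U) (hz : z ∈ U) :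
    ContDiffAt ℝ ∞ f z := hf.contDiffAt (hU.mem_nhds hz)

private theorem Cls_ev {f g : E n → ℂ} (hU : IsOpen U) (hz : z ∈ U) (h : ∀ y ∈ U, f y = g y) :
    f =ᶠ[𝓝 z] g := Filter.eventuallyEq_of_mem (hU.mem_nhds hz) h

theorem pk_LM (hU : IsOpen U) (hw : ContDiffOn ℝ ∞ w U) (hz : z ∈ U) (p k l : Fin n) :
    pk p (fun y => LM w y k l) z = pk k (fun y => LM w y p l) z := by
  have h1 := Cls_at hU (contDiffOn_pb hU (contDiffOn_cx hw) l) hz
  exact pk_pk_comm h1 p k

theorem pb_LM (hU : IsOpen U) (hw : ContDiffOn ℝ ∞ w U) (hz : z ∈ U) (q k l : Fin n) :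
    pb q (fun y => LM w y k l) z = pb l (fun y => LM w y k q) z := by
  have hc := contDiffOn_cx hw
  have hb := fun l => contDiffOn_pb hU hc l
  have h1 : pb q (pk k (pb l (cx w))) z = pk k (pb q (pb l (cx w))) z :=
    (pk_pb_comm (Cls_at hU (hb l) hz) k q).symm
  have h2 : pb l (pk k (pb q (cx w))) z = pk k (pb l (pb q (cx w))) z :=
    (pk_pb_comm (Cls_at hU (hb q) hz) k l).symm
  have h3 : pk k (pb q (pb l (cx w))) z = pk k (pb l (pb q (cx w))) z :=
    pk_congr (Cls_ev hU hz fun y hy => pb_pb_comm (Cls_at hU hc hy) q l)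
  show pb q (pk k (pb l (cx w))) z = pb l (pk k (pb q (cx w))) z
  rw [h1, h2, h3]

theorem cls1 (hU : IsOpen U) (hw : ContDiffOn ℝ ∞ w U) (hz : z ∈ U) (a x : E n) (l : Fin n) :
    ∑ k, a k * d10 (fun y => LM w y k l) z x = ∑ k, x k * Mt w z a k l := by
  simp only [Mt, d10_eq_sum, Finset.mul_sum]
  rw [Finset.sum_comm]
  refine Finset.sum_congr rfl fun p _ => Finset.sum_congr rfl fun k _ => ?_
  rw [pk_LM hU hw hz p k l]
  ring

theorem cls2 (hU : IsOpen U) (hw : ContDiffOn ℝ ∞ w U) (hz : z ∈ U) (a x : E n) (k : Fin n) :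
    ∑ l, conj (a l) * d01 (fun y => LM w y k l) z x = ∑ l, conj (x l) * Mb w z a k l := by
  simp only [Mb, d01_eq_sum, Finset.mul_sum]
  rw [Finset.sum_comm]
  refine Finset.sum_congr rfl fun q _ => Finset.sum_congr rfl fun l _ => ?_
  rw [pb_LM hU hw hz q k l]
  ring

private theorem Cls_two (hU : IsOpen U) (hw : ContDiffOn ℝ ∞ w U) (hz : z ∈ U) (b x : E n)
    (k l : Fin n) : d10 (fun y => d01 (fun y' => LM w y' k l) y b) z x
      = ∑ p, ∑ q, x p * conj (b q) * pk p (pb q (fun y => LM w y k l)) z := by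
  rw [d10_eq_sum]
  refine Finset.sum_congr rfl fun p _ => ?_
  have h1 : (fun y => d01 (fun y' => LM w y' k l) y b)
      = fun y => ∑ q, conj (b q) * pb q (fun y => LM w y k l) y := by
    funext y; exact d01_eq_sum _ _ _
  have hd : ∀ q, DifferentiableAt ℝ (pb q (fun y => LM w y k l)) z := fun q =>
    diffAt_of hU (contDiffOn_pb hU (Cls_smLM hU hw k l) q) hz
  have h2 : pk p (fun y => ∑ q, conj (b q) * pb q (fun y => LM w y k l) y) z
      = ∑ q, conj (b q) * pk p (pb q (fun y => LM w y k l)) z := by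
    unfold pk
    rw [d10_sum Finset.univ (fun q y => conj (b q) * pb q (fun y => LM w y k l) y)
      (fun q _ => (differentiableAt_const _).mul (hd q))]
    exact Finset.sum_congr rfl fun q _ => d10_const_mul (hd q) _
  rw [h1, h2, Finset.mul_sum]
  refine Finset.sum_congr rfl fun q _ => ?_
  ring

private theorem Cls_sw (hU : IsOpen U) (hw : ContDiffOn ℝ ∞ w U) (hz : z ∈ U)
    (p q k l : Fin n) : pk p (pb q (fun y => LM w y k l)) z
      = pk k (pb l (fun y => LM w y p q)) z := by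
  have h1 : pk p (pb q (fun y => LM w y k l)) z = pk p (pb l (fun y => LM w y k q)) z :=
    pk_congr (Cls_ev hU hz fun y hy => pb_LM hU hw hy q k l)
  have h2 : pk p (pb l (fun y => LM w y k q)) z = pb l (pk p (fun y => LM w y k q)) z :=
    pk_pb_comm (Cls_at hU (Cls_smLM hU hw k q) hz) p l
  have h3 : pb l (pk p (fun y => LM w y k q)) z = pb l (pk k (fun y => LM w y p q)) z :=
    pb_congr (Cls_ev hU hz fun y hy => pk_LM hU hw hy p k q)
  have h4 : pk k (pb l (fun y => LM w y p q)) z = pb l (pk k (fun y => LM w y p q)) z :=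
    pk_pb_comm (Cls_at hU (Cls_smLM hU hw p q) hz) k l
  rw [h1, h2, h3, h4]

theorem cls3 (hU : IsOpen U) (hw : ContDiffOn ℝ ∞ w U) (hz : z ∈ U) (a x : E n) :
    ∑ k, ∑ l, a k * conj (a l) * d10 (fun y => d01 (fun y' => LM w y' k l) y x) z x
      = ∑ k, ∑ l, x k * conj (x l) * Mtt w z a k l := by
  simp only [Mtt, Cls_two hU hw hz]
  have hL : ∑ k, ∑ l, a k * conj (a l)
        * ∑ p, ∑ q, x p * conj (x q) * pk p (pb q (fun y => LM w y k l)) z
      = ∑ k, ∑ l, ∑ p, ∑ q, a k * conj (a l) * x p * conj (x q)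
          * pk p (pb q (fun y => LM w y k l)) z := by
    refine Finset.sum_congr rfl fun k _ => Finset.sum_congr rfl fun l _ => ?_
    rw [Finset.mul_sum]
    refine Finset.sum_congr rfl fun p _ => ?_
    rw [Finset.mul_sum]
    refine Finset.sum_congr rfl fun q _ => ?_
    ring
  have hR : ∑ k, ∑ l, x k * conj (x l)
        * ∑ p, ∑ q, a p * conj (a q) * pk p (pb q (fun y => LM w y k l)) z
      = ∑ k, ∑ l, ∑ p, ∑ q, x k * conj (x l) * a p * conj (a q)
          * pk p (pb q (fun y => LM w y k l)) z := by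
    refine Finset.sum_congr rfl fun k _ => Finset.sum_congr rfl fun l _ => ?_
    rw [Finset.mul_sum]
    refine Finset.sum_congr rfl fun p _ => ?_
    rw [Finset.mul_sum]
    refine Finset.sum_congr rfl fun q _ => ?_
    ring
  rw [hL, hR]
  have e1 : ∀ F : Fin n → Fin n → Fin n → Fin n → ℂ,
      ∑ k, ∑ l, ∑ p, ∑ q, F k l p q = ∑ p, ∑ q, ∑ k, ∑ l, F k l p q := by
    intro F
    have s1 : ∀ k, ∑ l, ∑ p, ∑ q, F k l p q = ∑ p, ∑ q, ∑ l, F k l p q := by
      intro k
      rw [Finset.sum_comm]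
      exact Finset.sum_congr rfl fun p _ => Finset.sum_comm
    rw [Finset.sum_congr rfl fun k _ => s1 k, Finset.sum_comm]
    exact Finset.sum_congr rfl fun p _ => Finset.sum_comm
  rw [e1]
  refine Finset.sum_congr rfl fun p _ => Finset.sum_congr rfl fun q _ =>
    Finset.sum_congr rfl fun k _ => Finset.sum_congr rfl fun l _ => ?_
  rw [Cls_sw hU hw hz p q k l]
  ring

theorem Mb_conj (hU : IsOpen U) (hw : ContDiffOn ℝ ∞ w U) (hz : z ∈ U) (a : E n) (k l : Fin n) :
    Mb w z a k l = conj (Mt w z a l k) := by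
  unfold Mb Mt
  rw [← d01_conj (diffAt_of hU (Cls_smLM hU hw l k) hz)]
  exact d01_congr (Cls_ev hU hz fun y hy => (LM_conj hU hw hy l k).symm)

theorem Mtt_conj (hU : IsOpen U) (hw : ContDiffOn ℝ ∞ w U) (hz : z ∈ U) (a : E n)
    (k l : Fin n) : conj (Mtt w z a l k) = Mtt w z a k l := by
  unfold Mtt
  have hs := Cls_smLM hU hw l k
  have hd : DifferentiableAt ℝ (fun y => d01 (fun x => LM w x l k) y a) z :=
    diffAt_of hU (contDiffOn_d01 hU hs a) hz
  rw [← d01_conj hd]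
  have h1 : d01 (fun y => conj (d01 (fun x => LM w x l k) y a)) z a
      = d01 (fun y => d10 (fun x => LM w x k l) y a) z a := by
    refine d01_congr (Cls_ev hU hz fun y hy => ?_)
    show conj (d01 (fun x => LM w x l k) y a) = d10 (fun x => LM w x k l) y a
    rw [← d10_conj (diffAt_of hU hs hy)]
    exact d10_congr (Cls_ev hU hy fun y' hy' => LM_conj hU hw hy' l k)
  rw [h1]
  exact (d10_d01_comm (Cls_at hU (Cls_smLM hU hw k l) hz) a a).symm

end Pool.Agent.ARK
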