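import Mathlib

/-!
ARK module Dms (size 2): determinants of products of rectangular matrices, expanded over all index functions.
PROOF. `det_mul_sum`: `det` of a transpose (`Matrix.det_transpose`), then multilinearity of the determinant in the rows of `Rᵀ * Pᵀ`: row `b` is `∑ l, R l b • (Pᵀ l)`; `Matrix.detRowAlternating`, `MultilinearMap.map_sum`, `MultilinearMap.map_smul_univ`. Other proof:
expand the determinant over permutations (`Matrix.det_apply'`), `∏ b, ∑ l, ... = ∑ L, ∏ b, ...` (`Finset.prod_univ_sum`, `Fintype.piFinset_univ`), exchange the sums.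
`det_triple`: apply `det_mul_sum` to `(Aᵀ M) * B` (columns) and to the transpose (rows).
-/

open scoped ComplexConjugate
open Complex Matrix

namespace Pool.Agent.ARK

theorem det_mul_sum {ν n : ℕ} (P : Matrix (Fin ν) (Fin n) ℂ) (R : Matrix (Fin n) (Fin ν) ℂ) :
    (P * R).det = ∑ L : Fin ν → Fin n, (P.submatrix id L).det * ∏ b, R (L b) b := by
  classical
  rw [Matrix.det_apply']
  have h1 : ∀ σ : Equiv.Perm (Fin ν), (∏ i, (P * R) (σ i) i)
      = ∑ L : Fin ν → Fin n, (∏ i, P (σ i) (L i)) * ∏ b, R (L b) b := by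
    intro σ
    simp only [Matrix.mul_apply]
    rw [Finset.prod_univ_sum, Fintype.piFinset_univ]
    refine Finset.sum_congr rfl (fun L _ => ?_)
    rw [Finset.prod_mul_distrib]
  simp only [h1, Finset.mul_sum]
  rw [Finset.sum_comm]
  refine Finset.sum_congr rfl (fun L _ => ?_)
  rw [Matrix.det_apply', Finset.sum_mul]
  refine Finset.sum_congr rfl (fun σ _ => ?_)
  simp only [Matrix.submatrix_apply, id_eq]
  ring

theorem det_triple {ν n : ℕ} (T M S : Matrix (Fin n) (Fin n) ℂ) (K L : Fin ν → Fin n) :
    ((Tᵀ * M * S).submatrix K L).det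
      = ∑ P : Fin ν → Fin n, ∑ Q : Fin ν → Fin n,
        (∏ a, T (P a) (K a)) * (∏ a, S (Q a) (L a)) * (M.submatrix P Q).det := by
  classical
  have e1 : (Tᵀ * M * S).submatrix K L = ((Tᵀ * M).submatrix K id) * (S.submatrix id L) := by
    ext a b
    simp [Matrix.mul_apply]
  rw [e1, det_mul_sum]
  have e2 : ∀ Q : Fin ν → Fin n, (((Tᵀ * M).submatrix K id).submatrix id Q).det
      = ∑ P : Fin ν → Fin n, (M.submatrix P Q).det * ∏ a, T (P a) (K a) := by
    intro Q
    have e3 : (((Tᵀ * M).submatrix K id).submatrix id Q) = ((M.submatrix id Q)ᵀ * (T.submatrix id K))ᵀ := by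
      ext a b
      simp only [Matrix.submatrix_apply, Matrix.mul_apply, Matrix.transpose_apply, id_eq]
      exact Finset.sum_congr rfl (fun l _ => mul_comm _ _)
    rw [e3, Matrix.det_transpose, det_mul_sum]
    refine Finset.sum_congr rfl (fun P _ => ?_)
    congr 1
    rw [← Matrix.det_transpose]
    rfl
  simp only [e2, Finset.sum_mul]
  rw [Finset.sum_comm]
  refine Finset.sum_congr rfl (fun P _ => Finset.sum_congr rfl (fun Q _ => ?_))
  simp only [Matrix.submatrix_apply, id_eq]
  ring

end Pool.Agent.ARK
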