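import Pool.Agent.ARK.Ldf
import Pool.Agent.ARK.Dms
import Pool.Agent.NDC.Sdg

/-!
ARK module Ctr (size 3): the contraction `ctr`.
PROOF. `ctr_chg`: insert `hΦ`, exchange sums: `ctr N Φ = ∑ P, ∑ Q, Φ' P Q * ∑ K, ∑ L, ∏ a, (T (P a) (K a) * conj (T (Q a) (L a)) * N (L a) (K a))` and
`∑ K, ∑ L, ∏ a, h a (K a) (L a) = ∏ a, ∑ k, ∑ l, h a k l` (`Finset.prod_univ_sum` twice; `cbi_prod` in /team-store/cye_Cbi.lean), `N' (Q a) (P a) = ∑ l, ∑ k, conj (T (Q a) l) * N l k * T (P a) k` (`Matrix.mul_apply`).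
`ctr_nonneg`: `N = R * Rᴴ` (positive semidefinite), `∏ a, N (L a) (K a) = ∑ I, ∏ a, R (L a) (I a) * conj (R (K a) (I a))`, so the number is `∑ I, |∑ K, v K * conj (∏ a, R (K a) (I a))|²`.
`inv_chg`: `W = Tᵀ W' T̄` with `det T ≠ 0`, `det W' ≠ 0`: `T̄ W⁻¹ Tᵀ = W'⁻¹`.
`nac`: `simdiag`: `W = Qᴴ Q`, `M = Qᴴ D Q`. With `T = Q.map conj` (so `Tᵀ = Qᴴ`, `T.map conj = Q`): `M = Tᵀ D T̄`, `det_triple` gives `hΦ` for `Φ' P R = (D.submatrix P R).det`, and `N' = Q W⁻¹ Qᴴ = 1`. `ctr 1 Φ' = ∑ P, (D.submatrix P P).det` (`∏ a, 1 (L a) (K a)` is `1` if `K = L`, else `0`)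
`= ∑ P injective, ∏ a, d (P a)` (if `P` is not injective two rows are equal; if it is, the submatrix is diagonal) `= ν! * ∑ T ∈ powersetCard ν univ, ∏ j ∈ T, d j` (`Finset.sum_fiberwise` over the image, or `Fintype.card_perm`; the injective functions with image `T` are `ν!` many), and
`(dp W M).coeff ν = det W * ∑ T ∈ powersetCard ν, ∏ j ∈ T, d j` (as in /team-store/ndc_Enn.lean). Another way for the last step: both sides are the coefficient of `X^ν`; or `Matrix.det_one_add_smul`-like expansions (`Matrix.charpoly_coeff` by principal minors, if present in Mathlib).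
-/

open scoped ContDiff ComplexConjugate Topology ComplexOrder
open Complex MeasureTheory Matrix

namespace Pool.Agent.ARK

open Pool.Agent.CYF Pool.Agent.NDC

variable {n : ℕ}

private theorem Ctr_prod {q m : ℕ} (g : Fin q → Fin m → Fin m → ℂ) :
    ∑ I : Fin q → Fin m, ∑ K : Fin q → Fin m, ∏ l, g l (I l) (K l)
      = ∏ l, ∑ p, ∑ q, g l p q := by
  rw [Finset.prod_univ_sum, Fintype.piFinset_univ]
  refine Finset.sum_congr rfl fun I _ => ?_
  rw [Finset.prod_univ_sum, Fintype.piFinset_univ]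

private theorem Ctr_swap {α β γ δ : Type*} [Fintype α] [Fintype β] [Fintype γ] [Fintype δ]
    (F : α → β → γ → δ → ℂ) :
    ∑ K, ∑ L, ∑ P, ∑ Q, F K L P Q = ∑ P, ∑ Q, ∑ L, ∑ K, F K L P Q := by
  calc ∑ K, ∑ L, ∑ P, ∑ Q, F K L P Q
      = ∑ L, ∑ K, ∑ P, ∑ Q, F K L P Q := Finset.sum_comm
    _ = ∑ x : β × α, ∑ y : γ × δ, F x.2 x.1 y.1 y.2 := by
        simp only [Fintype.sum_prod_type]
    _ = ∑ y : γ × δ, ∑ x : β × α, F x.2 x.1 y.1 y.2 := Finset.sum_comm
    _ = ∑ P, ∑ Q, ∑ L, ∑ K, F K L P Q := by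
        simp only [Fintype.sum_prod_type]

theorem ctr_chg {q : ℕ} {T N N' : Matrix (Fin n) (Fin n) ℂ} (h : N' = T.map conj * N * Tᵀ)
    {Φ Φ' : (Fin q → Fin n) → (Fin q → Fin n) → ℂ}
    (hΦ : ∀ K L, Φ K L = ∑ P, ∑ Q, (∏ a, T (P a) (K a)) * (∏ a, conj (T (Q a) (L a))) * Φ' P Q) :
    ctr N Φ = ctr N' Φ' := by
  have hN : ∀ P Q : Fin q → Fin n, ∏ a, N' (Q a) (P a)
      = ∑ L : Fin q → Fin n, ∑ K : Fin q → Fin n,
        ∏ a, (conj (T (Q a) (L a)) * N (L a) (K a) * T (P a) (K a)) := by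
    intro P Q
    rw [Ctr_prod (fun a l k => conj (T (Q a) l) * N l k * T (P a) k)]
    refine Finset.prod_congr rfl fun a _ => ?_
    rw [h, Matrix.mul_apply, Finset.sum_comm]
    refine Finset.sum_congr rfl fun k _ => ?_
    rw [Matrix.mul_apply, Finset.sum_mul]
    refine Finset.sum_congr rfl fun l _ => ?_
    rw [Matrix.transpose_apply, Matrix.map_apply]
  unfold ctr
  have h1 : ∀ K L : Fin q → Fin n, Φ K L * ∏ a, N (L a) (K a)
      = ∑ P : Fin q → Fin n, ∑ Q : Fin q → Fin n,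
        Φ' P Q * ∏ a, (conj (T (Q a) (L a)) * N (L a) (K a) * T (P a) (K a)) := by
    intro K L
    rw [hΦ, Finset.sum_mul]
    refine Finset.sum_congr rfl fun P _ => ?_
    rw [Finset.sum_mul]
    refine Finset.sum_congr rfl fun Q _ => ?_
    rw [Finset.prod_mul_distrib, Finset.prod_mul_distrib]
    ring
  simp only [h1]
  rw [Ctr_swap]
  refine Finset.sum_congr rfl fun P _ => Finset.sum_congr rfl fun Q _ => ?_
  rw [hN P Q, Finset.mul_sum]
  refine Finset.sum_congr rfl fun L _ => ?_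
  rw [Finset.mul_sum]

private theorem Ctr_prod1 {q m : ℕ} (g : Fin q → Fin m → ℂ) :
    ∏ l, ∑ p, g l p = ∑ I : Fin q → Fin m, ∏ l, g l (I l) := by
  rw [Finset.prod_univ_sum, Fintype.piFinset_univ]

theorem ctr_nonneg {q : ℕ} {N : Matrix (Fin n) (Fin n) ℂ} (hN : N.PosSemidef)
    (v : (Fin q → Fin n) → ℂ) :
    0 ≤ (ctr N (fun K L => v K * conj (v L))).re ∧ (ctr N (fun K L => v K * conj (v L))).im = 0 := by
  obtain ⟨Q, d, -, hd, -, h0⟩ := simdiag (W := 1) Matrix.PosDef.one hN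
  obtain ⟨R, hR⟩ : ∃ R : Matrix (Fin n) (Fin n) ℂ, ∀ l k, N l k = ∑ i, conj (R i l) * R i k := by
    refine ⟨Matrix.of fun i k => ((Real.sqrt (d i) : ℝ) : ℂ) * Q i k, fun l k => ?_⟩
    rw [h0, Matrix.mul_apply]
    refine Finset.sum_congr rfl fun i _ => ?_
    rw [Matrix.mul_diagonal, Matrix.conjTranspose_apply, Matrix.of_apply, Matrix.of_apply, map_mul,
      Complex.conj_ofReal]
    have h2 : ((d i : ℝ) : ℂ) = ((Real.sqrt (d i) : ℝ) : ℂ) * ((Real.sqrt (d i) : ℝ) : ℂ) := by
      rw [← Complex.ofReal_mul, Real.mul_self_sqrt (hd i)]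
    rw [h2]
    change conj (Q i l) * _ * _ = _
    ring
  have hP : ∀ K L : Fin q → Fin n, ∏ a, N (L a) (K a)
      = ∑ I : Fin q → Fin n, (∏ a, R (I a) (K a)) * conj (∏ a, R (I a) (L a)) := by
    intro K L
    simp only [hR]
    rw [Ctr_prod1 (fun a i => conj (R i (L a)) * R i (K a))]
    refine Finset.sum_congr rfl fun I _ => ?_
    rw [Finset.prod_mul_distrib, map_prod]
    ring
  have hc : ctr N (fun K L => v K * conj (v L))
      = ((∑ I : Fin q → Fin n, Complex.normSq (∑ K, v K * ∏ a, R (I a) (K a)) : ℝ) : ℂ) := by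
    unfold ctr
    have h1 : ∀ K L : Fin q → Fin n, v K * conj (v L) * ∏ a, N (L a) (K a)
        = ∑ I : Fin q → Fin n, (v K * ∏ a, R (I a) (K a)) * conj (v L * ∏ a, R (I a) (L a)) := by
      intro K L
      rw [hP, Finset.mul_sum]
      refine Finset.sum_congr rfl fun I _ => ?_
      rw [map_mul (starRingEnd ℂ)]
      ring
    simp only [h1]
    have h2 : ∀ K : Fin q → Fin n, ∑ L : Fin q → Fin n, ∑ I : Fin q → Fin n,
        (v K * ∏ a, R (I a) (K a)) * conj (v L * ∏ a, R (I a) (L a))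
        = ∑ I : Fin q → Fin n, ∑ L : Fin q → Fin n,
          (v K * ∏ a, R (I a) (K a)) * conj (v L * ∏ a, R (I a) (L a)) :=
      fun K => Finset.sum_comm
    simp only [h2]
    rw [Finset.sum_comm, Complex.ofReal_sum]
    refine Finset.sum_congr rfl fun I _ => ?_
    rw [← Complex.mul_conj, map_sum, Finset.sum_mul_sum]
  rw [hc]
  exact ⟨by
    rw [Complex.ofReal_re]
    exact Finset.sum_nonneg fun I _ => Complex.normSq_nonneg _, Complex.ofReal_im _⟩

theorem inv_chg {T W W' : Matrix (Fin n) (Fin n) ℂ} (h : W = Tᵀ * W' * T.map conj)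
    (hT : T.det ≠ 0) (hW : W'.det ≠ 0) : W'⁻¹ = T.map conj * W⁻¹ * Tᵀ := by
  have h1 : (T.map conj).det = conj T.det := by
    exact (RingHom.map_det (starRingEnd ℂ) T).symm
  have h2 : IsUnit (T.map conj).det := by
    rw [h1]
    exact isUnit_iff_ne_zero.2 ((map_ne_zero _).2 hT)
  have h3 : IsUnit (Tᵀ).det := by
    rw [Matrix.det_transpose]
    exact isUnit_iff_ne_zero.2 hT
  rw [h, Matrix.mul_inv_rev, Matrix.mul_inv_rev, ← Matrix.mul_assoc, ← Matrix.mul_assoc,
    Matrix.mul_nonsing_inv _ h2, Matrix.one_mul, Matrix.mul_assoc, Matrix.nonsing_inv_mul _ h3,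
    Matrix.mul_one]

private theorem Ctr_coeff (d : Fin n → ℝ) (k : ℕ) :
    (∏ i, (1 + Polynomial.C ((d i : ℝ) : ℂ) * Polynomial.X)).coeff k
      = ∑ t ∈ Finset.powersetCard k (Finset.univ : Finset (Fin n)), ∏ i ∈ t, ((d i : ℝ) : ℂ) := by
  rw [Finset.prod_one_add, Polynomial.finsetSum_coeff, Finset.powersetCard_eq_filter,
    Finset.sum_filter]
  refine Finset.sum_congr rfl fun t _ => ?_
  rw [Finset.prod_mul_distrib, Finset.prod_const, ← map_prod, Polynomial.coeff_C_mul_X_pow]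
  by_cases h : t.card = k
  · rw [if_pos h.symm, if_pos h]
  · rw [if_neg (fun h' => h h'.symm), if_neg h]

private theorem Ctr_dp {W M Q : Matrix (Fin n) (Fin n) ℂ} {d : Fin n → ℝ} (h1 : W = Qᴴ * Q)
    (h2 : M = Qᴴ * Matrix.diagonal (fun i => ((d i : ℝ) : ℂ)) * Q) :
    dp W M = Polynomial.C W.det
      * ∏ i, (1 + Polynomial.C ((d i : ℝ) : ℂ) * Polynomial.X) := by
  have h3 : (Polynomial.X : Polynomial ℂ) • M.map Polynomial.C + W.map Polynomial.C
      = (Qᴴ).map Polynomial.C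
        * Matrix.diagonal (fun i => 1 + Polynomial.C ((d i : ℝ) : ℂ) * Polynomial.X)
        * Q.map Polynomial.C := by
    have h4 : Matrix.diagonal (fun i => 1 + Polynomial.C ((d i : ℝ) : ℂ) * Polynomial.X)
        = (Polynomial.X : Polynomial ℂ)
            • (Matrix.diagonal (fun i => ((d i : ℝ) : ℂ))).map Polynomial.C
          + (1 : Matrix (Fin n) (Fin n) (Polynomial ℂ)) := by
      ext i j
      by_cases hij : i = j
      · subst hij
        simp [Matrix.smul_apply]
        ring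
      · simp [Matrix.smul_apply, Matrix.diagonal_apply_ne _ hij, Matrix.one_apply_ne hij]
    rw [h4, Matrix.mul_add, Matrix.add_mul, Matrix.mul_one, Matrix.mul_smul, Matrix.smul_mul,
      h1, h2, Matrix.map_mul, Matrix.map_mul, Matrix.map_mul]
  unfold dp
  rw [h3, Matrix.det_mul, Matrix.det_mul, Matrix.det_diagonal]
  have h5 : ((Qᴴ).map Polynomial.C).det = Polynomial.C (Qᴴ).det :=
    (RingHom.map_det (Polynomial.C : ℂ →+* Polynomial ℂ) Qᴴ).symm
  have h6 : (Q.map Polynomial.C).det = Polynomial.C Q.det :=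
    (RingHom.map_det (Polynomial.C : ℂ →+* Polynomial ℂ) Q).symm
  rw [h5, h6, h1, Matrix.det_mul, map_mul]
  ring

private theorem Ctr_fib {ν : ℕ} (δ : Fin n → ℂ) (t : Finset (Fin n)) (ht : t.card = ν) :
    ∑ K ∈ (Finset.univ.filter fun K : Fin ν → Fin n => Function.Injective K).filter
        (fun K => Finset.univ.image K = t), ∏ a, δ (K a)
      = (ν.factorial : ℂ) * ∏ i ∈ t, δ i := by
  have h1 : ∀ K ∈ (Finset.univ.filter fun K : Fin ν → Fin n => Function.Injective K).filter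
        (fun K => Finset.univ.image K = t), ∏ a, δ (K a) = ∏ i ∈ t, δ i := by
    intro K hK
    rw [Finset.mem_filter, Finset.mem_filter] at hK
    rw [← hK.2, Finset.prod_image (fun a _ b _ h => hK.1.2 h)]
  rw [Finset.sum_congr rfl h1, Finset.sum_const, nsmul_eq_mul]
  congr 2
  have h2 : (Finset.univ : Finset (Equiv.Perm (Fin ν))).card = ν.factorial := by
    rw [Finset.card_univ, Fintype.card_perm, Fintype.card_fin]
  rw [← h2]
  symm
  refine Finset.card_bij (fun σ _ => fun a => t.orderEmbOfFin ht (σ a)) ?_ ?_ ?_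
  · intro σ _
    rw [Finset.mem_filter, Finset.mem_filter]
    refine ⟨⟨Finset.mem_univ _, fun a b h => σ.injective ((t.orderEmbOfFin ht).injective h)⟩, ?_⟩
    ext x
    rw [Finset.mem_image]
    constructor
    · rintro ⟨a, _, rfl⟩
      exact Finset.orderEmbOfFin_mem t ht (σ a)
    · intro hx
      have h3 : x ∈ Set.range (t.orderEmbOfFin ht) := by
        rw [Finset.range_orderEmbOfFin]
        exact hx
      obtain ⟨b, hb⟩ := h3
      exact ⟨σ.symm b, Finset.mem_univ _, by rw [Equiv.apply_symm_apply, hb]⟩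
  · intro σ _ τ _ h
    ext a
    exact congrArg Fin.val ((t.orderEmbOfFin ht).injective (congrFun h a))
  · intro K hK
    rw [Finset.mem_filter, Finset.mem_filter] at hK
    have h3 : ∀ a, ∃ b, t.orderEmbOfFin ht b = K a := by
      intro a
      have h4 : K a ∈ Set.range (t.orderEmbOfFin ht) := by
        rw [Finset.range_orderEmbOfFin, ← hK.2]
        simp
      exact h4
    choose f hf using h3
    have h5 : Function.Injective f := by
      intro a b h
      apply hK.1.2
      rw [← hf a, ← hf b, h]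
    refine ⟨Equiv.ofBijective f (Finite.injective_iff_bijective.1 h5), Finset.mem_univ _, ?_⟩
    funext a
    exact hf a

private theorem Ctr_diag {ν : ℕ} (δ : Fin n → ℂ) :
    ∑ K : Fin ν → Fin n, ((Matrix.diagonal δ).submatrix K K).det
      = (ν.factorial : ℂ)
        * ∑ t ∈ Finset.powersetCard ν (Finset.univ : Finset (Fin n)), ∏ i ∈ t, δ i := by
  have h1 : ∀ K : Fin ν → Fin n, ((Matrix.diagonal δ).submatrix K K).det
      = if Function.Injective K then ∏ a, δ (K a) else 0 := by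
    intro K
    by_cases h : Function.Injective K
    · rw [if_pos h, Matrix.submatrix_diagonal δ K h, Matrix.det_diagonal]
      rfl
    · rw [if_neg h]
      unfold Function.Injective at h
      push Not at h
      obtain ⟨a, b, hab, hne⟩ := h
      refine Matrix.det_zero_of_row_eq hne ?_
      funext c
      rw [Matrix.submatrix_apply, Matrix.submatrix_apply, hab]
  simp only [h1]
  rw [← Finset.sum_filter, Finset.mul_sum,
    ← Finset.sum_fiberwise_of_maps_to (s := Finset.univ.filter fun K : Fin ν → Fin n =>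
      Function.Injective K) (t := Finset.powersetCard ν (Finset.univ : Finset (Fin n)))
      (g := fun K => Finset.univ.image K)]
  · refine Finset.sum_congr rfl fun t ht => ?_
    exact Ctr_fib δ t (Finset.mem_powersetCard.1 ht).2
  · intro K hK
    rw [Finset.mem_filter] at hK
    rw [Finset.mem_powersetCard]
    refine ⟨Finset.subset_univ _, ?_⟩
    rw [Finset.card_image_of_injective _ hK.2, Finset.card_univ, Fintype.card_fin]

theorem nac {ν : ℕ} {W M : Matrix (Fin n) (Fin n) ℂ} (hW : W.PosDef) (hM : M.PosSemidef) :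
    ((ν.factorial : ℕ) : ℂ) * (dp W M).coeff ν
      = W.det * ctr W⁻¹ (fun K L : Fin ν → Fin n => (M.submatrix K L).det) := by
  obtain ⟨Q, d, hQ, hd, h1, h2⟩ := simdiag hW hM
  have hT1 : (Q.map conj)ᵀ = Qᴴ := rfl
  have hT2 : (Q.map conj).map conj = Q := by
    ext i j
    rw [Matrix.map_apply, Matrix.map_apply, Complex.conj_conj]
  have hT3 : (Q.map conj).det ≠ 0 := by
    have h : (Q.map conj).det = conj Q.det := (RingHom.map_det (starRingEnd ℂ) Q).symm
    rw [h]
    exact (map_ne_zero _).2 hQ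
  have h3 : (1 : Matrix (Fin n) (Fin n) ℂ)⁻¹ = (Q.map conj).map conj * W⁻¹ * (Q.map conj)ᵀ := by
    refine inv_chg ?_ hT3 (by rw [Matrix.det_one]; exact one_ne_zero)
    rw [hT1, hT2, Matrix.mul_one]
    exact h1
  rw [inv_one] at h3
  have h4 : ctr W⁻¹ (fun K L : Fin ν → Fin n => (M.submatrix K L).det)
      = ctr 1 (fun K L : Fin ν → Fin n =>
        ((Matrix.diagonal (fun i => ((d i : ℝ) : ℂ))).submatrix K L).det) := by
    refine ctr_chg h3 fun K L => ?_
    have h5 := det_triple (Q.map conj) (Matrix.diagonal (fun i => ((d i : ℝ) : ℂ)))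
      ((Q.map conj).map conj) K L
    rw [hT1] at h5
    have h8 : M = (Qᴴ * Matrix.diagonal fun i => ((d i : ℝ) : ℂ))
        * (Q.map conj).map conj := by
      rw [hT2]
      exact h2
    rw [← h8] at h5
    rw [h5]
    rfl
  have h6 : ctr 1 (fun K L : Fin ν → Fin n =>
        ((Matrix.diagonal (fun i => ((d i : ℝ) : ℂ))).submatrix K L).det)
      = ∑ K : Fin ν → Fin n,
        ((Matrix.diagonal (fun i => ((d i : ℝ) : ℂ))).submatrix K K).det := by
    unfold ctr
    refine Finset.sum_congr rfl fun K _ => ?_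
    rw [Finset.sum_eq_single K]
    · have h9 : ∏ a, (1 : Matrix (Fin n) (Fin n) ℂ) (K a) (K a) = 1 :=
        Finset.prod_eq_one fun a _ => Matrix.one_apply_eq _
      rw [h9, mul_one]
    · intro L _ hL
      have h7 : ∃ a, L a ≠ K a := by
        by_contra h8
        push Not at h8
        exact hL (funext h8)
      obtain ⟨a, ha⟩ := h7
      have h9 : ∏ a, (1 : Matrix (Fin n) (Fin n) ℂ) (L a) (K a) = 0 :=
        Finset.prod_eq_zero (Finset.mem_univ a) (Matrix.one_apply_ne ha)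
      rw [h9, mul_zero]
    · intro h
      exact absurd (Finset.mem_univ K) h
  rw [h4, h6, Ctr_diag, Ctr_dp h1 h2, Polynomial.coeff_C_mul, Ctr_coeff]
  ring

end Pool.Agent.ARK
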