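import Pool.Agent.NDC.Defs

/-!
ARK: holomorphic tensors on compact Kähler manifolds are parallel along the kernel of a semipositive
closed (1,1)-form. Definitions used in the final statement. Complex manifolds `Mfd`, smooth closed
real (1,1)-forms `Form` with local potentials, `Semipositive`, `Positive`, `RankLE` are those of
`Pool.Agent.NDC.Defs`.
-/

open scoped ContDiff ComplexConjugate
open Complex

namespace Pool.Agent.ARK

open Pool.Agent.CYF Pool.Agent.NDC

variable {n : ℕ} {X : Type*} [TopologicalSpace X] {ι : Type*} {A : Mfd n X ι}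

/-- The rank of `η` is equal to `ν` at the point `z` of the chart `i`. -/
def Full (η : Form A) (ν : ℕ) (i : ι) (z : E n) : Prop :=
  z ∈ (A.c i).target ∧ (lm (η.w i) z).rank = ν

/-- The vector `a` lies in the kernel of `η` at the point `z` of the chart `i`. -/
def Ker (η : Form A) (i : ι) (z a : E n) : Prop :=
  ∀ b : E n, levi (η.w i) z a b = 0

/-- Near the point `z` of the chart `i` the kernel of `η` is a holomorphic subbundle of the tangent
bundle: it is spanned by holomorphic vector fields that are linearly independent at every point. -/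
def HolKer (η : Form A) (i : ι) (z : E n) : Prop :=
  ∃ O : Set (E n), IsOpen O ∧ z ∈ O ∧ O ⊆ (A.c i).target ∧
    ∃ (d : ℕ) (ξ : Fin d → E n → E n), (∀ k, DifferentiableOn ℂ (ξ k) O) ∧
      ∀ y ∈ O, LinearIndependent ℂ (fun k => ξ k y) ∧
        ∀ a : E n, Ker η i y a ↔ a ∈ Submodule.span ℂ (Set.range fun k => ξ k y)

/-- `τ` is a holomorphic section of the tensor product of `T^(⊗p)` (`T` the holomorphic tangent
bundle) with the `m`-th power of the hermitian line bundle with weights `w i` (and curvature `η`) and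
with a unitary flat line bundle: it has holomorphic components `τ i K`, `K : Fin p → Fin n`, in every
chart, and a change of charts acts by its derivative on all `p` factors and by a number `g` which is
an isometry for the weights. -/
structure IsTensor (η : Form A) (p : ℕ) (m : ℝ) (τ : ι → (Fin p → Fin n) → E n → ℂ) : Prop where
  hol : ∀ i K, ContDiffOn ℂ ∞ (τ i K) (A.c i).target
  trans : ∀ i j z, z ∈ (A.c i).target → (A.c i).symm z ∈ (A.c j).source →
    ∃ g : ℂ, ‖g‖ ^ 2 * Real.exp (-(m * η.w j ((A.c j ∘ (A.c i).symm) z)))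
        = Real.exp (-(m * η.w i z)) ∧
      ∀ K, τ j K ((A.c j ∘ (A.c i).symm) z)
        = g * ∑ L, (∏ a, fderiv ℂ (A.c j ∘ (A.c i).symm) z (e (L a)) (K a)) * τ i L z

/-- The component with index `L` of `exp (-m w) η^(⊗p)(τ, ·)`, an antilinear form in the second
argument: `exp (-m w) ∑_K (∏_a w_(K_a, L̄_a)) τ_K`. It depends only on the class of `τ` in
`(T / ker η)^(⊗p) ⊗ L^m` and determines it. -/
noncomputable def low (w : E n → ℝ) {p : ℕ} (m : ℝ) (τ : (Fin p → Fin n) → E n → ℂ)
    (L : Fin p → Fin n) (z : E n) : ℂ :=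
  (∑ K : Fin p → Fin n, (∏ a, levi w z (e (K a)) (e (L a))) * τ K z) * Real.exp (-(m * w z))

/-- The square of the norm of the class of `τ` in `(T / ker η)^(⊗p) ⊗ L^m`, for the metrics given by
`η` and by the weight: `exp (-m w) ∑_(K, L) (∏_a w_(K_a, L̄_a)) τ_K conj (τ_L)`. -/
noncomputable def nrm (w : E n → ℝ) {p : ℕ} (m : ℝ) (τ : (Fin p → Fin n) → E n → ℂ) (z : E n) :
    ℝ :=
  (∑ L : Fin p → Fin n, low w m τ L z * conj (τ L z)).re

/-- The class of `τ` in `(T_z / ker η_z)^(⊗p)` is not contained in `N'^(⊗p)` for any proper subspace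
`N'` of `T_z / ker η_z`: a vector `b` such that all contractions of `τ` in one factor with `η(·, b)`
are zero in `(T_z / ker η_z)^(⊗(p-1))` lies in the kernel of `η`. -/
def Spread (η : Form A) (i : ι) (z : E n) {p : ℕ} (m : ℝ) (τ : (Fin p → Fin n) → E n → ℂ) :
    Prop :=
  ∀ b : E n, (∀ (q : Fin p) (L : Fin p → Fin n),
    ∑ l, conj (b l) * low (η.w i) m τ (Function.update L q l) z = 0) → Ker η i z b

/-- `v` is a holomorphic differential form of degree `q` with values in the `m`-th power of the
hermitian line bundle with weights `w i` (and curvature `η`) and in a unitary flat line bundle: it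
has holomorphic components `v i J = v(e_(J_1), ..., e_(J_q))`, alternating in `J`, in every chart,
and it is pulled back by changes of charts, up to a number `g` which is an isometry for the
weights. -/
structure IsForm (η : Form A) (q : ℕ) (m : ℝ) (v : ι → (Fin q → Fin n) → E n → ℂ) : Prop where
  hol : ∀ i J, ContDiffOn ℂ ∞ (v i J) (A.c i).target
  alt : ∀ i J (σ : Equiv.Perm (Fin q)), ∀ z ∈ (A.c i).target,
    v i (J ∘ σ) z = ((Equiv.Perm.sign σ : ℤ) : ℂ) * v i J z
  trans : ∀ i j z, z ∈ (A.c i).target → (A.c i).symm z ∈ (A.c j).source →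
    ∃ g : ℂ, ‖g‖ ^ 2 * Real.exp (-(m * η.w i z))
        = Real.exp (-(m * η.w j ((A.c j ∘ (A.c i).symm) z))) ∧
      ∀ J, v i J z = g * ∑ L, (∏ a, fderiv ℂ (A.c j ∘ (A.c i).symm) z (e (J a)) (L a))
        * v j L ((A.c j ∘ (A.c i).symm) z)

/-- The form `v` of degree `ν` is killed by the vectors in the kernel of `η`, at all points where the
rank of `η` is `ν`. -/
def Horizontal (η : Form A) (ν : ℕ) (v : ι → (Fin ν → Fin n) → E n → ℂ) : Prop :=
  ∀ i z, Full η ν i z → ∀ a, Ker η i z a → ∀ (J : Fin ν → Fin n) (q : Fin ν),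
    ∑ l, a l * v i (Function.update J q l) z = 0

/-- The square of the norm of a horizontal form `v` of degree `ν`, as a form on the space
`T / ker η` of dimension `ν`, for the metrics given by `η` and by the weight:
`exp (-m w) |v_J|² / det (w_(J_a, J̄_b))`, for any `J` for which the denominator is not zero. -/
noncomputable def vn (w : E n → ℝ) {ν : ℕ} (m : ℝ) (v : (Fin ν → Fin n) → E n → ℂ)
    (J : Fin ν → Fin n) (z : E n) : ℝ :=
  ‖v J z‖ ^ 2 * Real.exp (-(m * w z)) / (((lm w z).submatrix J J).det).re

end Pool.Agent.ARK
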