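import Pool.Agent.ARK.Defs

/-!
ARK: functions that are constant along the kernel of a semipositive form. Definition used in the
final statement.
-/

open scoped ContDiff ComplexConjugate
open Complex

namespace Pool.Agent.ARK

open Pool.Agent.CYF Pool.Agent.NDC

variable {n : ℕ} {X : Type*} [TopologicalSpace X] {ι : Type*} {A : Mfd n X ι}

/-- `u` is a smooth real function on `X`, and its derivatives in the directions of the kernel of `η`
are zero at all points where the rank of `η` is `ν`. -/
structure KerConst (η : Form A) (ν : ℕ) (u : X → ℝ) : Prop where
  smooth : ∀ i, ContDiffOn ℝ ∞ (fun z => u ((A.c i).symm z)) (A.c i).target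
  ker : ∀ i z, Full η ν i z → ∀ a, Ker η i z a →
    d10 (fun y => (u ((A.c i).symm y) : ℂ)) z a = 0

end Pool.Agent.ARK
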