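import Mathlib

/-!
ARK module Fac (size 3): factorisation of a positive semidefinite matrix of rank `ν`.
PROOF. Spectral theorem: `M = U * diagonal d * Uᴴ`, `d i ≥ 0` (`Matrix.PosSemidef.eigenvalues_nonneg`,
`Matrix.IsHermitian.spectral_theorem`), `ν = M.rank = #{i | d i ≠ 0}` (`Matrix.IsHermitian.rank_eq_card_non_zero_eigs`). Let
`φ : Fin ν ≃ {i // d i ≠ 0}`, `R k s = U k (φ s) * √(d (φ s))`, `S s k = (√(d (φ s)))⁻¹ * conj (U k (φ s))`: `S * R = 1` since `Uᴴ U = 1`, `R * Rᴴ = M`.
Other proof: `M = Bᴴ B` (`Matrix.posSemidef_iff_eq_conjTranspose_mul_self`) and an orthonormal basis of the range.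
`J`: the rows of `R` span `ℂ^ν` (because `S R = 1`: rank `ν`, `Matrix.rank_eq_finrank_span_row`), so `ν` of them are linearly independent
(`exists_linearIndependent` / `exists_linearIndependent'`, cardinality `ν = finrank`), `Matrix.linearIndependent_rows_iff_isUnit`.
Other proof: by `det (S R) = ∑_J ...` (Cauchy-Binet, module Dms: `det (S * R) = ∑ L, det (S.submatrix id L) * ∏ ...` shows that some product is not zero; apply it
to `Rᵀ Sᵀ` to get `∑ L, det (Rᵀ.submatrix id L) * ∏ ... = 1`, so some `det (Rᵀ.submatrix id L) ≠ 0`).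
`minor_fac`: `(R * Rᴴ).submatrix K L = (R.submatrix K id) * (R.submatrix L id)ᴴ`, `Matrix.det_mul`, `Matrix.det_conjTranspose`.
-/

open scoped ContDiff ComplexConjugate Topology ComplexOrder
open Complex Matrix

namespace Pool.Agent.ARK

private lemma Fac_rows {n ν : ℕ} (R : Matrix (Fin n) (Fin ν) ℂ) (S : Matrix (Fin ν) (Fin n) ℂ)
    (h : S * R = 1) : ∃ J : Fin ν → Fin n, (R.submatrix J id).det ≠ 0 := by
  -- span of the rows is everything
  have hspan : Submodule.span ℂ (Set.range (fun k : Fin n => R k)) = ⊤ := by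
    rw [eq_top_iff]
    intro v _
    have hv : v = ∑ k, (∑ s, v s * S s k) • R k := by
      have h1 : v ᵥ* (S * R) = v := by rw [h, Matrix.vecMul_one]
      rw [← Matrix.vecMul_vecMul] at h1
      conv_lhs => rw [← h1]
      ext t
      simp [Matrix.vecMul, dotProduct, Finset.sum_apply]
    rw [hv]
    exact Submodule.sum_mem _ (fun k _ => Submodule.smul_mem _ _
      (Submodule.subset_span ⟨k, rfl⟩))
  obtain ⟨κ, a, ha, hsp, hli⟩ := exists_linearIndependent' ℂ (fun k : Fin n => R k)
  have : Finite κ := Finite.of_injective a ha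
  have : Fintype κ := Fintype.ofFinite κ
  have hb : ⊤ ≤ Submodule.span ℂ (Set.range ((fun k : Fin n => R k) ∘ a)) := by
    rw [hsp, hspan]
  let b := Module.Basis.mk hli hb
  have hcard : Fintype.card κ = ν := by
    have := Module.finrank_eq_card_basis b
    rw [Module.finrank_fin_fun] at this
    exact this.symm
  let e : Fin ν ≃ κ := (Fintype.equivFinOfCardEq hcard).symm
  refine ⟨fun s => a (e s), ?_⟩
  have hli2 : LinearIndependent ℂ (R.submatrix (fun s => a (e s)) id).row := by
    have := hli.comp e e.injective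
    exact this
  have hu := Matrix.linearIndependent_rows_iff_isUnit.1 hli2
  exact ((Matrix.isUnit_iff_isUnit_det _).1 hu).ne_zero

theorem fac {n ν : ℕ} {M : Matrix (Fin n) (Fin n) ℂ} (hM : M.PosSemidef) (hr : M.rank = ν) :
    ∃ (R : Matrix (Fin n) (Fin ν) ℂ) (S : Matrix (Fin ν) (Fin n) ℂ) (J : Fin ν → Fin n),
      M = R * Rᴴ ∧ S * R = 1 ∧ (R.submatrix J id).det ≠ 0 := by
  classical
  have hH := hM.1
  set d : Fin n → ℝ := hH.eigenvalues with hd
  have hcard : Fintype.card {i // d i ≠ 0} = ν := by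
    rw [← hr, hH.rank_eq_card_non_zero_eigs]
  let φ : Fin ν ≃ {i // d i ≠ 0} := (Fintype.equivFinOfCardEq hcard).symm
  set V : Matrix (Fin n) (Fin n) ℂ := (hH.eigenvectorUnitary : Matrix (Fin n) (Fin n) ℂ) with hV
  have hVV : Vᴴ * V = 1 := by
    have := Unitary.coe_star_mul_self hH.eigenvectorUnitary
    simpa [Matrix.star_eq_conjTranspose] using this
  have hd0 : ∀ i, 0 ≤ d i := hM.eigenvalues_nonneg
  have hsp : M = V * Matrix.diagonal (fun i => (d i : ℂ)) * Vᴴ := by
    have h0 := hH.spectral_theorem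
    rw [Unitary.conjStarAlgAut_apply] at h0
    exact h0
  let R : Matrix (Fin n) (Fin ν) ℂ := fun k s => V k (φ s) * (Real.sqrt (d (φ s)) : ℂ)
  let S : Matrix (Fin ν) (Fin n) ℂ := fun s k => ((Real.sqrt (d (φ s)) : ℂ))⁻¹ * conj (V k (φ s))
  have hSR : S * R = 1 := by
    ext s t
    have h1 := congrFun (congrFun hVV (φ s)) (φ t)
    rw [Matrix.mul_apply] at h1 ⊢
    simp only [Matrix.conjTranspose_apply] at h1
    have h2 : ∑ j, S s j * R j t = ((Real.sqrt (d (φ s)) : ℂ))⁻¹ * (Real.sqrt (d (φ t)) : ℂ)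
        * ∑ j, star (V j (φ s)) * V j (φ t) := by
      rw [Finset.mul_sum]
      refine Finset.sum_congr rfl fun j _ => ?_
      simp only [S, R]
      rw [starRingEnd_apply]
      ring
    rw [h2, h1]
    by_cases hst : s = t
    · subst hst
      rw [Matrix.one_apply_eq, Matrix.one_apply_eq, mul_one, inv_mul_cancel₀]
      have : d (φ s) ≠ 0 := (φ s).2
      have h3 : 0 < d (φ s) := lt_of_le_of_ne (hd0 _) (Ne.symm this)
      exact_mod_cast (Real.sqrt_pos.2 h3).ne'
    · rw [Matrix.one_apply_ne hst, Matrix.one_apply_ne, mul_zero]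
      intro h
      exact hst (φ.injective (Subtype.ext h))
  have hRR : M = R * Rᴴ := by
    rw [hsp]
    ext k l
    rw [Matrix.mul_apply, Matrix.mul_apply]
    simp only [Matrix.mul_diagonal, Matrix.conjTranspose_apply]
    have h1 : ∀ j, d j = 0 → V k j * (d j : ℂ) * star (V l j) = 0 := by
      intro j hj
      rw [hj]; simp
    have h2 : ∑ j, V k j * (d j : ℂ) * star (V l j)
        = ∑ j : {i // d i ≠ 0}, V k j * (d j : ℂ) * star (V l j) := by
      rw [← Finset.sum_subtype (s := Finset.univ.filter (fun i => d i ≠ 0)) (p := fun i => d i ≠ 0)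
        (by intro x; simp) (fun j => V k j * (d j : ℂ) * star (V l j))]
      rw [Finset.sum_filter]
      refine Finset.sum_congr rfl fun j _ => ?_
      split_ifs with h
      · rfl
      · exact h1 j (not_not.1 h)
    rw [h2, ← Equiv.sum_comp φ]
    refine Finset.sum_congr rfl fun s _ => ?_
    simp only [R, star_mul']
    have h3 : (star (Real.sqrt (d (φ s)) : ℂ)) = (Real.sqrt (d (φ s)) : ℂ) := by
      rw [← starRingEnd_apply]; exact Complex.conj_ofReal _
    rw [h3]
    have h4 : ((Real.sqrt (d (φ s)) : ℂ)) * (Real.sqrt (d (φ s)) : ℂ) = (d (φ s) : ℂ) := by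
      rw [← Complex.ofReal_mul, Real.mul_self_sqrt (hd0 _)]
    rw [← h4]
    ring
  obtain ⟨J, hJ⟩ := Fac_rows R S hSR
  exact ⟨R, S, J, hRR, hSR, hJ⟩

theorem minor_fac {n ν : ℕ} (R : Matrix (Fin n) (Fin ν) ℂ) (K L : Fin ν → Fin n) :
    ((R * Rᴴ).submatrix K L).det = (R.submatrix K id).det * conj (R.submatrix L id).det := by
  have h : (R * Rᴴ).submatrix K L = (R.submatrix K id) * (R.submatrix L id)ᴴ := by
    ext i j
    simp [Matrix.mul_apply]
  rw [h, Matrix.det_mul, Matrix.det_conjTranspose]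
  rfl

/-- a minor of size `ν` that is not zero -/
theorem exJ {n ν : ℕ} {M : Matrix (Fin n) (Fin n) ℂ} (hM : M.PosSemidef) (hr : M.rank = ν) :
    ∃ J : Fin ν → Fin n, (M.submatrix J J).det ≠ 0 := by
  obtain ⟨R, S, J, h1, h2, h3⟩ := fac hM hr
  refine ⟨J, ?_⟩
  rw [h1, minor_fac]
  exact mul_ne_zero h3 ((map_ne_zero _).2 h3)

end Pool.Agent.ARK
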