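import Pool.Agent.ARK.Kms
import Pool.Agent.ARK.Fac
import Pool.Agent.CYF.Dca

/-!
ARK module Kfr (size 5): smooth frames of the kernel.
PROOF. Let `N y = (lm w y).submatrix J J`, `det (N z) ≠ 0`; `J` is injective (otherwise two rows of `N z` are equal,
`Matrix.det_zero_of_row_eq`). `O = {y ∈ U | det (N y) ≠ 0}` is open (continuity of the entries, `contDiffOn_LM` in NDC/Glo). Put
`c k i y = ∑ j, LM w y k (J j) * (N y)⁻¹ j i` (smooth on `O`: adjugate / determinant, both polynomials in the entries, see NDC/Adj for the technique),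
`ξ k y = e k - ∑ i, c k i y • e (J i)`. `off`: clear. `ker`: let `r l = LM w y k l - ∑ i, c k i y * LM w y (J i) l`; then `r (J j) = 0` for all `j`
(`Matrix.nonsing_inv_mul`). The rank of `M = lm w y` is `≤ ν` and the rows `J i` are linearly independent (`N y` invertible), so the row space
(dimension `rank ≤ ν`: `Matrix.rank_eq_finrank_span_row`) is spanned by them: row `k` is `∑ i, b i • row (J i)`; so `r = ∑ i, (b i - c k i) • row (J i)`, and `r (J j) = 0`
gives `b = c` and `r = 0`. `uniq`: if `a` is zero off the range of `J` then `∑ i, a (J i) * N y i j = 0` (`J` injective), so `a (J i) = 0`.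
`span`: `a - ∑ k, a k • ξ k y` is in the kernel (`km_sum`, `km_add`) and vanishes off the range of `J` (`off`), use `uniq`.
`isOpen_full`: near a point with rank `ν` some minor `det (submatrix J J)` is not zero (`exJ`, `lm_psd`), it stays so nearby, and then the rank is `≥ ν`
(`Matrix.rank_submatrix_le` type results, or: the rows `J i` are linearly independent), and `≤ ν` by `hν`.
`rank_full`: same.
-/

open scoped ContDiff ComplexConjugate Topology ComplexOrder
open Complex MeasureTheory Matrix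

namespace Pool.Agent.ARK

open Pool.Agent.CYF Pool.Agent.NDC

variable {n : ℕ} {X : Type*} [TopologicalSpace X] {ι : Type*} {A : Mfd n X ι}
  {w : E n → ℝ} {U : Set (E n)} {z : E n}

section kfrAux

private theorem kfr_li {m ν : ℕ} {M : Matrix (Fin m) (Fin m) ℂ} {J : Fin ν → Fin m}
    (hJ : (M.submatrix J J).det ≠ 0) : LinearIndependent ℂ (fun i : Fin ν => M (J i)) := by
  have hN : LinearIndependent ℂ (M.submatrix J J).row :=
    Matrix.linearIndependent_rows_iff_isUnit.mpr
      ((Matrix.isUnit_iff_isUnit_det _).mpr (isUnit_iff_ne_zero.mpr hJ))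
  exact LinearIndependent.of_comp (LinearMap.funLeft ℂ ℂ J) hN

private theorem kfr_rank {m ν : ℕ} {M : Matrix (Fin m) (Fin m) ℂ} {J : Fin ν → Fin m}
    (hJ : (M.submatrix J J).det ≠ 0) : ν ≤ M.rank := by
  rw [Matrix.rank_eq_finrank_span_row]
  have h1 := finrank_span_eq_card (kfr_li hJ)
  rw [Fintype.card_fin] at h1
  rw [← h1]
  refine Submodule.finrank_mono (Submodule.span_mono ?_)
  rintro _ ⟨i, rfl⟩
  exact ⟨J i, rfl⟩

private theorem kfr_inj {m ν : ℕ} {M : Matrix (Fin m) (Fin m) ℂ} {J : Fin ν → Fin m}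
    (hJ : (M.submatrix J J).det ≠ 0) : Function.Injective J := by
  intro i i' h
  by_contra hne
  refine hJ (Matrix.det_zero_of_row_eq hne ?_)
  funext j
  simp only [Matrix.submatrix_apply, h]

private theorem kfr_row {m ν : ℕ} {M : Matrix (Fin m) (Fin m) ℂ} (hr : M.rank ≤ ν)
    {J : Fin ν → Fin m} (hJ : (M.submatrix J J).det ≠ 0) (k l : Fin m) :
    M k l = ∑ i, (∑ j, M k (J j) * (M.submatrix J J)⁻¹ j i) * M (J i) l := by
  have hsp : Submodule.span ℂ (Set.range fun i : Fin ν => M (J i)) =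
      Submodule.span ℂ (Set.range M.row) := by
    refine Submodule.eq_of_le_of_finrank_le (Submodule.span_mono ?_) ?_
    · rintro _ ⟨i, rfl⟩
      exact ⟨J i, rfl⟩
    · rw [finrank_span_eq_card (kfr_li hJ), Fintype.card_fin, ← Matrix.rank_eq_finrank_span_row]
      exact hr
  have hk : M k ∈ Submodule.span ℂ (Set.range fun i : Fin ν => M (J i)) := by
    rw [hsp]
    exact Submodule.subset_span ⟨k, rfl⟩
  obtain ⟨b, hb⟩ := (Submodule.mem_span_range_iff_exists_fun ℂ).1 hk
  have hb' : ∀ l, M k l = ∑ i, b i * M (J i) l := by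
    intro l
    rw [← hb]
    simp [Finset.sum_apply]
  have hc : ∀ i, (∑ j, M k (J j) * (M.submatrix J J)⁻¹ j i) = b i := by
    intro i
    have h1 : (fun j => M k (J j)) = Matrix.vecMul b (M.submatrix J J) := by
      funext j
      rw [hb' (J j)]
      simp [Matrix.vecMul, dotProduct]
    have h2 : (∑ j, M k (J j) * (M.submatrix J J)⁻¹ j i) =
        Matrix.vecMul (fun j => M k (J j)) (M.submatrix J J)⁻¹ i := by
      simp [Matrix.vecMul, dotProduct]
    rw [h2, h1, Matrix.vecMul_vecMul, Matrix.mul_nonsing_inv _ (isUnit_iff_ne_zero.mpr hJ),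
      Matrix.vecMul_one]
  rw [hb' l]
  exact Finset.sum_congr rfl fun i _ => by rw [hc i]

private theorem kfr_det {m ν : ℕ} {U : Set (E m)} {G : E m → Matrix (Fin ν) (Fin ν) ℂ}
    (hG : ∀ i j, ContDiffOn ℝ ∞ (fun y => G y i j) U) :
    ContDiffOn ℝ ∞ (fun y => (G y).det) U := by
  simp only [Matrix.det_apply']
  refine ContDiffOn.sum fun σ _ => ?_
  refine contDiffOn_const.mul ?_
  exact contDiffOn_prod fun i _ => hG _ _

private theorem kfr_adj {m ν : ℕ} {U : Set (E m)} {G : E m → Matrix (Fin ν) (Fin ν) ℂ}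
    (hG : ∀ i j, ContDiffOn ℝ ∞ (fun y => G y i j) U) (l k : Fin ν) :
    ContDiffOn ℝ ∞ (fun y => (G y).adjugate l k) U := by
  simp only [Matrix.adjugate_apply]
  refine kfr_det fun i j => ?_
  simp only [Matrix.updateRow_apply]
  split_ifs
  · exact contDiffOn_const
  · exact hG i j

private theorem kfr_invs {m ν : ℕ} {U : Set (E m)} {G : E m → Matrix (Fin ν) (Fin ν) ℂ}
    (hG : ∀ i j, ContDiffOn ℝ ∞ (fun y => G y i j) U) (hd : ∀ y ∈ U, (G y).det ≠ 0)
    (l k : Fin ν) : ContDiffOn ℝ ∞ (fun y => (G y)⁻¹ l k) U := by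
  have h1 : (fun y => (G y)⁻¹ l k) = fun y => ((G y).det)⁻¹ * (G y).adjugate l k := by
    funext y
    rw [Matrix.inv_def, Ring.inverse_eq_inv]
    simp [Matrix.smul_apply]
  rw [h1]
  exact ((kfr_det hG).inv hd).mul (kfr_adj hG l k)

end kfrAux

theorem kfr (hU : IsOpen U) (hw : ContDiffOn ℝ ∞ w U) {ν : ℕ} (hr : ∀ y ∈ U, (lm w y).rank ≤ ν)
    (hz : z ∈ U) {J : Fin ν → Fin n} (hJ : ((lm w z).submatrix J J).det ≠ 0) :
    ∃ (O : Set (E n)) (ξ : Fin n → E n → E n), z ∈ O ∧ O ⊆ U ∧ Frame w J O ξ := by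
  classical
  have hinj : Function.Injective J := kfr_inj hJ
  have hLM : ∀ k l, ContDiffOn ℝ ∞ (fun y => LM w y k l) U := fun k l => contDiffOn_LM hU hw k l
  have hN : ∀ i j, ContDiffOn ℝ ∞ (fun y => (lm w y).submatrix J J i j) U := fun i j =>
    hLM (J i) (J j)
  have hdet : ContDiffOn ℝ ∞ (fun y => ((lm w y).submatrix J J).det) U := kfr_det hN
  set O : Set (E n) := U ∩ (fun y => ((lm w y).submatrix J J).det) ⁻¹' {0}ᶜ with hO
  have hOo : IsOpen O := hdet.continuousOn.isOpen_inter_preimage hU isOpen_compl_singleton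
  have hOU : O ⊆ U := Set.inter_subset_left
  have hOd : ∀ y ∈ O, ((lm w y).submatrix J J).det ≠ 0 := fun y hy => hy.2
  set c : Fin n → Fin ν → E n → ℂ := fun k i y =>
    ∑ j, LM w y k (J j) * ((lm w y).submatrix J J)⁻¹ j i with hc
  set ξ : Fin n → E n → E n := fun k y l =>
    (if l = k then 1 else 0) - ∑ i, c k i y * (if l = J i then 1 else 0) with hξ
  have hcs : ∀ k i, ContDiffOn ℝ ∞ (fun y => c k i y) O := by
    intro k i
    refine ContDiffOn.sum fun j _ => ?_
    exact ((hLM k (J j)).mono hOU).mul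
      (kfr_invs (fun i j => (hN i j).mono hOU) hOd j i)
  have hrow : ∀ y ∈ O, ∀ k l, LM w y k l = ∑ i, c k i y * LM w y (J i) l := by
    intro y hy k l
    exact kfr_row (hr y (hOU hy)) (hOd y hy) k l
  have hker : ∀ y ∈ O, ∀ k, KM w y (ξ k y) := by
    intro y hy k l
    show ∑ m, ((if m = k then (1 : ℂ) else 0) - ∑ i, c k i y * (if m = J i then 1 else 0)) *
      LM w y m l = 0
    simp only [sub_mul, Finset.sum_sub_distrib, Finset.sum_mul]
    rw [Finset.sum_comm]
    have h1 : ∑ m, (if m = k then (1 : ℂ) else 0) * LM w y m l = LM w y k l := by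
      simp
    have h2 : ∀ i, ∑ m, c k i y * (if m = J i then (1 : ℂ) else 0) * LM w y m l =
        c k i y * LM w y (J i) l := by
      intro i
      rw [Finset.sum_eq_single (J i)]
      · simp
      · intro m _ hm
        simp [hm]
      · intro h
        exact absurd (Finset.mem_univ _) h
    rw [h1, Finset.sum_congr rfl fun i _ => h2 i, hrow y hy k l, sub_self]
  have hoff : ∀ y ∈ O, ∀ k l, l ∉ Set.range J → ξ k y l = if l = k then 1 else 0 := by
    intro y _ k l hl
    show (if l = k then (1 : ℂ) else 0) - ∑ i, c k i y * (if l = J i then 1 else 0) = _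
    have h1 : ∑ i, c k i y * (if l = J i then (1 : ℂ) else 0) = 0 := by
      refine Finset.sum_eq_zero fun i _ => ?_
      rw [if_neg fun h => hl ⟨i, h.symm⟩, mul_zero]
    rw [h1, sub_zero]
  have huniq : ∀ y ∈ O, ∀ a : E n, KM w y a → (∀ l, l ∉ Set.range J → a l = 0) → a = 0 := by
    intro y hy a ha h0
    have h1 : ∀ l, ∑ i, a (J i) * LM w y (J i) l = 0 := by
      intro l
      have h2 := ha l
      rw [← h2]
      have h3 : ∑ i, a (J i) * LM w y (J i) l =
          ∑ k ∈ Finset.univ.image J, a k * LM w y k l := by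
        rw [Finset.sum_image fun i _ j _ h => hinj h]
      rw [h3]
      refine Finset.sum_subset (Finset.subset_univ _) fun k _ hk => ?_
      rw [h0 k, zero_mul]
      rintro ⟨i, rfl⟩
      exact hk (Finset.mem_image_of_mem _ (Finset.mem_univ _))
    have h4 := Fintype.linearIndependent_iff.1 (kfr_li (hOd y hy)) (fun i => a (J i)) (by
      funext l
      have h5 := h1 l
      simpa [Finset.sum_apply, lm_apply] using h5)
    funext l
    by_cases hl : l ∈ Set.range J
    · obtain ⟨i, rfl⟩ := hl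
      exact h4 i
    · exact h0 l hl
  refine ⟨O, ξ, ⟨hz, hJ⟩, hOU, ⟨hOo, hinj, hOd, ?_, hker, hoff, ?_, huniq⟩⟩
  · intro k l
    refine contDiffOn_const.sub ?_
    refine ContDiffOn.sum fun i _ => ?_
    exact (hcs k i).mul contDiffOn_const
  · intro y hy a ha
    have h1 : KM w y (∑ k, a k • ξ k y) :=
      km_sum Finset.univ a (fun k => ξ k y) fun k _ => hker y hy k
    have h2 : KM w y (a + (-1 : ℂ) • ∑ k, a k • ξ k y) := km_add ha (km_smul _ h1)
    have h3 := huniq y hy _ h2 (by
      intro l hl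
      have h4 : (∑ k, a k • ξ k y) l = a l := by
        rw [Finset.sum_apply]
        have h5 : ∀ k, (a k • ξ k y) l = a k * (if l = k then 1 else 0) := by
          intro k
          rw [Pi.smul_apply, smul_eq_mul, hoff y hy k l hl]
        rw [Finset.sum_congr rfl fun k _ => h5 k]
        simp
      rw [Pi.add_apply, Pi.smul_apply, h4]
      simp)
    have h6 : a = (1 : ℂ) • ∑ k, a k • ξ k y := by
      have h7 := congrArg (fun b => b + (1 : ℂ) • ∑ k, a k • ξ k y) h3
      simp only [zero_add] at h7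
      rw [← h7, neg_smul, one_smul]
      abel
    rw [one_smul] at h6
    exact h6

/-- a restriction of a frame is a frame -/
theorem Frame.mono {ν : ℕ} {J : Fin ν → Fin n} {O O' : Set (E n)} {ξ : Fin n → E n → E n}
    (h : Frame w J O ξ) (hO : IsOpen O') (hs : O' ⊆ O) : Frame w J O' ξ :=
  ⟨hO, h.inj, fun y hy => h.det_ne y (hs hy), fun k l => (h.smooth k l).mono hs,
    fun y hy => h.ker y (hs hy), fun y hy => h.off y (hs hy), fun y hy => h.span y (hs hy),
    fun y hy => h.uniq y (hs hy)⟩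

theorem rank_full {ν : ℕ} {M : Matrix (Fin n) (Fin n) ℂ} (hr : M.rank ≤ ν) {J : Fin ν → Fin n}
    (hJ : (M.submatrix J J).det ≠ 0) : M.rank = ν :=
  le_antisymm hr (kfr_rank hJ)

theorem isOpen_full {η : Form A} (hη : η.Semipositive) {ν : ℕ} (hν : η.RankLE ν) (i : ι) :
    IsOpen {z | Full η ν i z} := by
  rw [isOpen_iff_mem_nhds]
  rintro z ⟨hz, hzr⟩
  obtain ⟨J, hJ⟩ := exJ (lm_psd (A.c i).open_target (η.smooth i) hz (hη i z hz)) hzr
  obtain ⟨O, ξ, hzO, hOU, hF⟩ := kfr (A.c i).open_target (η.smooth i) (hν i) hz hJ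
  refine Filter.mem_of_superset (hF.isOpen.mem_nhds hzO) ?_
  intro y hy
  exact ⟨hOU hy, rank_full (hν i y (hOU hy)) (hF.det_ne y hy)⟩

end Pool.Agent.ARK
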