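import Pool.Agent.ARK.Lvs
import Pool.Agent.ARK.Kfr
import Pool.Agent.NDC.Krl

/-!
ARK: the real two-form `Im levi`, closedness; the set of maximal rank along regular level sets.
-/

open scoped ContDiff ComplexConjugate Topology ComplexOrder
open Complex MeasureTheory Matrix

namespace Pool.Agent.ARK

open Pool.Agent.CYF Pool.Agent.NDC

variable {n : ℕ} {X : Type*} [TopologicalSpace X] {ι : Type*} {A : Mfd n X ι} {w : E n → ℝ}
  {U : Set (E n)} {z : E n}

/-- multiplication by `i` as a real linear map -/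
noncomputable def Jc (n : ℕ) : E n →L[ℝ] E n := ContinuousLinearMap.lsmul ℝ ℂ I

theorem Jc_apply (a : E n) : Jc n a = I • a := rfl

/-- second derivative -/
noncomputable def D2w (w : E n → ℝ) (z : E n) : E n →L[ℝ] E n →L[ℝ] ℝ := fderiv ℝ (fderiv ℝ w) z

/-- the imaginary part of the Levi form -/
noncomputable def Bw (w : E n → ℝ) (z : E n) : E n →L[ℝ] E n →L[ℝ] ℝ :=
  (4⁻¹ : ℝ) • (((ContinuousLinearMap.compL ℝ (E n) (E n) ℝ).flip (Jc n)).comp (D2w w z)
    - (D2w w z).comp (Jc n))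

theorem Bw_apply (w : E n → ℝ) (z a b : E n) :
    Bw w z a b = (D2w w z a (I • b) - D2w w z (I • a) b) / 4 := by
  simp only [Bw, _root_.smul_apply, _root_.sub_apply, ContinuousLinearMap.comp_apply,
    ContinuousLinearMap.flip_apply, ContinuousLinearMap.compL_apply, smul_eq_mul, Jc_apply]
  ring

theorem D2w_symm (hU : IsOpen U) (hw : ContDiffOn ℝ ∞ w U) (hz : z ∈ U) (a b : E n) :
    D2w w z a b = D2w w z b a := by
  have h2 : (2 : WithTop ℕ∞) ≤ ∞ := WithTop.coe_le_coe.2 (le_top : (2 : ℕ∞) ≤ ⊤)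
  have h5 : IsSymmSndFDerivAt ℝ w z :=
    ((hw.contDiffAt (hU.mem_nhds hz)).of_le h2).isSymmSndFDerivAt (by simp)
  exact h5 a b

theorem contDiffOn_D2w (hU : IsOpen U) (hw : ContDiffOn ℝ ∞ w U) : ContDiffOn ℝ ∞ (D2w w) U :=
  (hw.fderiv_of_isOpen (m := ∞) hU (by simp)).fderiv_of_isOpen (m := ∞) hU (by simp)

theorem contDiffOn_Bw (hU : IsOpen U) (hw : ContDiffOn ℝ ∞ w U) : ContDiffOn ℝ ∞ (Bw w) U :=
  ((contDiffOn_const.clm_comp (contDiffOn_D2w hU hw)).sub
    ((contDiffOn_D2w hU hw).clm_comp contDiffOn_const)).const_smul (4⁻¹ : ℝ)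

theorem Bw_anti (hU : IsOpen U) (hw : ContDiffOn ℝ ∞ w U) (hz : z ∈ U) (a b : E n) :
    Bw w z a b = - Bw w z b a := by
  rw [Bw_apply, Bw_apply, D2w_symm hU hw hz a (I • b), D2w_symm hU hw hz (I • a) b]
  ring

theorem Bw_closed (hU : IsOpen U) (hw : ContDiffOn ℝ ∞ w U) (hz : z ∈ U) (x v y : E n) :
    fderiv ℝ (Bw w) z x v y + fderiv ℝ (Bw w) z v y x + fderiv ℝ (Bw w) z y x v = 0 := by
  have hBd : HasFDerivAt (Bw w) (fderiv ℝ (Bw w) z) z :=
    (((contDiffOn_Bw hU hw).contDiffAt (hU.mem_nhds hz)).differentiableAt (by simp)).hasFDerivAt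
  have hDd : HasFDerivAt (D2w w) (fderiv ℝ (D2w w) z) z :=
    (((contDiffOn_D2w hU hw).contDiffAt (hU.mem_nhds hz)).differentiableAt (by simp)).hasFDerivAt
  have hev : ∀ (B : E n → E n →L[ℝ] E n →L[ℝ] ℝ) (B' : E n →L[ℝ] E n →L[ℝ] E n →L[ℝ] ℝ),
      HasFDerivAt B B' z → ∀ a b, HasFDerivAt (fun y' => B y' a b) ((B'.flip a).flip b) z := by
    intro B B' hB a b
    refine ((hB.clm_apply (hasFDerivAt_const a z)).clm_apply
      (hasFDerivAt_const b z)).congr_fderiv ?_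
    ext w
    simp
  have h1 : ∀ x a b, fderiv ℝ (Bw w) z x a b
      = (fderiv ℝ (D2w w) z x a (I • b) - fderiv ℝ (D2w w) z x (I • a) b) / 4 := by
    intro x a b
    have e1 := hev _ _ hBd a b
    have e2 := ((hev _ _ hDd a (I • b)).sub (hev _ _ hDd (I • a) b)).const_smul (4⁻¹ : ℝ)
    have e3 : (fun y' => Bw w y' a b)
        = (4⁻¹ : ℝ) • ((fun y' => D2w w y' a (I • b)) - fun y' => D2w w y' (I • a) b) := by
      funext y'
      rw [Bw_apply w y' a b]
      simp only [Pi.smul_apply, Pi.sub_apply, smul_eq_mul]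
      ring
    rw [e3] at e1
    have e4 := congrArg (fun L => L x) (e1.unique e2)
    simp only [_root_.smul_apply, _root_.sub_apply, ContinuousLinearMap.flip_apply,
      smul_eq_mul] at e4
    rw [e4]
    ring
  have h2 : (2 : WithTop ℕ∞) ≤ ∞ := WithTop.coe_le_coe.2 (le_top : (2 : ℕ∞) ≤ ⊤)
  have s1 : ∀ a b, fderiv ℝ (D2w w) z a b = fderiv ℝ (D2w w) z b a := by
    intro a b
    have h5 : IsSymmSndFDerivAt ℝ (fderiv ℝ w) z :=
      (((hw.fderiv_of_isOpen hU (by simp)).contDiffAt (hU.mem_nhds hz)).of_le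
        h2).isSymmSndFDerivAt (by simp)
    exact h5 a b
  have s2 : ∀ x a b, fderiv ℝ (D2w w) z x a b = fderiv ℝ (D2w w) z x b a := by
    intro x a b
    have e1 := hev _ _ hDd a b
    have e2 := hev _ _ hDd b a
    have e3 : (fun y' => D2w w y' a b) =ᶠ[𝓝 z] fun y' => D2w w y' b a := by
      filter_upwards [hU.mem_nhds hz] with y' hy'
      exact D2w_symm hU hw hy' a b
    exact congrArg (fun L => L x) ((e1.congr_of_eventuallyEq e3.symm).unique e2)
  have t : ∀ x v y, fderiv ℝ (D2w w) z x v y = fderiv ℝ (D2w w) z v y x := by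
    intro x v y
    rw [s1 x v, s2]
  rw [h1, h1, h1, t x v (I • y), t x (I • v) y, s2 y (I • x) v, ← t (I • x) v y]
  have r1 : fderiv ℝ (D2w w) z v y (I • x) = fderiv ℝ (D2w w) z (I • x) v y := (t (I • x) v y).symm
  have r2 : fderiv ℝ (D2w w) z y v (I • x) = fderiv ℝ (D2w w) z (I • x) v y := by
    rw [s1 y v]
    exact r1
  have r3 : fderiv ℝ (D2w w) z (I • v) y x = fderiv ℝ (D2w w) z y x (I • v) := t (I • v) y x
  have r4 : fderiv ℝ (D2w w) z v (I • y) x = fderiv ℝ (D2w w) z v (I • y) x := rfl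
  rw [r2, r3]
  ring

private theorem Lvb_cx (hU : IsOpen U) (hw : ContDiffOn ℝ ∞ w U) (hz : z ∈ U) (a b : E n) :
    fderiv ℝ (fderiv ℝ (cx w)) z a b = ((D2w w z a b : ℝ) : ℂ) := by
  have hcw : ContDiffOn ℝ ∞ (cx w) U := contDiffOn_cx hw
  have h1 : HasFDerivAt (fderiv ℝ (cx w)) (fderiv ℝ (fderiv ℝ (cx w)) z) z :=
    (((hcw.fderiv_of_isOpen (m := ∞) hU (by simp)).contDiffAt
      (hU.mem_nhds hz)).differentiableAt (by simp)).hasFDerivAt
  have h2 : HasFDerivAt (fderiv ℝ w) (D2w w z) z :=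
    (((hw.fderiv_of_isOpen (m := ∞) hU (by simp)).contDiffAt
      (hU.mem_nhds hz)).differentiableAt (by simp)).hasFDerivAt
  have h3 : HasFDerivAt (fun y => fderiv ℝ (cx w) y b)
      ((fderiv ℝ (fderiv ℝ (cx w)) z).flip b) z := by
    refine (h1.clm_apply (hasFDerivAt_const b z)).congr_fderiv ?_
    ext v
    simp
  have h4 : HasFDerivAt (fun y => fderiv ℝ w y b) ((D2w w z).flip b) z := by
    refine (h2.clm_apply (hasFDerivAt_const b z)).congr_fderiv ?_
    ext v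
    simp
  have h5 := Complex.ofRealCLM.hasFDerivAt.comp z h4
  have h6 : (fun y => fderiv ℝ (cx w) y b) =ᶠ[𝓝 z] (Complex.ofRealCLM ∘ fun y => fderiv ℝ w y b) := by
    filter_upwards [hU.mem_nhds hz] with y hy
    have h7 : HasFDerivAt w (fderiv ℝ w y) y :=
      ((hw.contDiffAt (hU.mem_nhds hy)).differentiableAt (by simp)).hasFDerivAt
    have h8 : HasFDerivAt (cx w) (Complex.ofRealCLM.comp (fderiv ℝ w y)) y :=
      Complex.ofRealCLM.hasFDerivAt.comp y h7
    rw [h8.fderiv]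
    rfl
  have h9 := (h3.congr_of_eventuallyEq h6.symm).unique h5
  exact congrArg (fun L => L a) h9

theorem levi_eq_D2 (hU : IsOpen U) (hw : ContDiffOn ℝ ∞ w U) (hz : z ∈ U) (a b : E n) :
    levi w z a b = (((D2w w z a b + D2w w z (I • a) (I • b)) / 4 : ℝ) : ℂ)
      + I * ((Bw w z a b : ℝ) : ℂ) := by
  have hcw : ContDiffAt ℝ ∞ (cx w) z := (contDiffOn_cx hw).contDiffAt (hU.mem_nhds hz)
  have h0 : levi w z a b = d10 (fun y => d01 (cx w) y b) z a := rfl
  rw [h0, d10, fderiv_d01 hcw, fderiv_d01 hcw, Lvb_cx hU hw hz, Lvb_cx hU hw hz, Lvb_cx hU hw hz,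
    Lvb_cx hU hw hz, Bw_apply]
  push_cast
  have hI : (I : ℂ) * I = -1 := I_mul_I
  linear_combination (-(D2w w z (I • a) (I • b) : ℂ) / 4) * hI

theorem levi_im (hU : IsOpen U) (hw : ContDiffOn ℝ ∞ w U) (hz : z ∈ U) (a b : E n) :
    (levi w z a b).im = Bw w z a b := by
  rw [levi_eq_D2 hU hw hz]
  simp

theorem levi_smul_right (w : E n → ℝ) (z a b : E n) (c : ℂ) (hU : IsOpen U)
    (hw : ContDiffOn ℝ ∞ w U) (hz : z ∈ U) : levi w z a (c • b) = conj c * levi w z a b := by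
  rw [levi_eq_sum (hw.contDiffAt (hU.mem_nhds hz)), levi_eq_sum (hw.contDiffAt (hU.mem_nhds hz)),
    Finset.mul_sum]
  refine Finset.sum_congr rfl fun k _ => ?_
  rw [Finset.mul_sum]
  refine Finset.sum_congr rfl fun l _ => ?_
  simp only [Pi.smul_apply, smul_eq_mul, map_mul]
  ring

/-- the kernel of the real two-form is the kernel of the Levi form -/
theorem Bw_ker (hU : IsOpen U) (hw : ContDiffOn ℝ ∞ w U) (hz : z ∈ U) (a : E n) :
    (∀ b, Bw w z a b = 0) ↔ ∀ b, levi w z a b = 0 := by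
  constructor
  · intro h b
    have h1 := levi_im hU hw hz a b
    have h2 := levi_im hU hw hz a (I • b)
    rw [levi_smul_right w z a b I hU hw hz, h] at h2
    rw [h] at h1
    apply Complex.ext
    · simpa using h2
    · simpa using h1
  · intro h b
    rw [← levi_im hU hw hz, h]
    rfl

end Pool.Agent.ARK
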