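import Pool.Agent.ARK.DefsC
import Pool.Agent.ARK.Lvb
import Pool.Agent.NDC.Lcr
import Pool.Agent.NDC.Aex

/-!
ARK: level sets of `2 ν` independent functions that are constant along the kernel of `η` are, where
they meet the set of points of rank `ν`, compact leaves.
-/

open scoped ContDiff ComplexConjugate Topology ComplexOrder
open Complex MeasureTheory Matrix

namespace Pool.Agent.ARK

open Pool.Agent.CYF Pool.Agent.NDC

variable {n : ℕ} {X : Type*} [TopologicalSpace X] {ι : Type*} {A : Mfd n X ι} {w : E n → ℝ}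
  {U : Set (E n)} {z : E n} {η : Form A} {ν : ℕ}

/-- the kernel of the Levi form as a subspace -/
noncomputable def kerS (w : E n → ℝ) (z : E n) : Submodule ℂ (E n) :=
  LinearMap.ker (Matrix.mulVecLin (lm w z)ᵀ)

theorem mem_kerS (w : E n → ℝ) (z a : E n) : a ∈ kerS w z ↔ KM w z a := by
  unfold kerS
  rw [LinearMap.mem_ker, Matrix.mulVecLin_apply, Matrix.mulVec_transpose]
  exact funext_iff

theorem kerS_dim (w : E n → ℝ) (z : E n) : n ≤ Module.finrank ℂ (kerS w z) + (lm w z).rank :=
  ker_dim le_rfl _ fun a ha => (mem_kerS w z a).2 ha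

theorem KerConst.sm {u : X → ℝ} (hu : KerConst η ν u) : Sm A u := hu.smooth

theorem KerConst.fderiv_zero {u : X → ℝ} (hu : KerConst η ν u) {i : ι} (hz : Full η ν i z)
    {a : E n} (ha : Ker η i z a) : fderiv ℝ (vt A u i) z a = 0 := by
  have h1 : d10 (cx (vt A u i)) z a = 0 := hu.ker i z hz a ha
  have h7 : HasFDerivAt (vt A u i) (fderiv ℝ (vt A u i) z) z :=
    (((hu.smooth i).contDiffAt ((A.c i).open_target.mem_nhds hz.1)).differentiableAt
      (by simp)).hasFDerivAt
  have h8 : HasFDerivAt (cx (vt A u i)) (Complex.ofRealCLM.comp (fderiv ℝ (vt A u i) z)) z :=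
    Complex.ofRealCLM.hasFDerivAt.comp z h7
  rw [d10, h8.fderiv] at h1
  have h2 := congrArg Complex.re h1
  simpa using h2

theorem Full.ker_iff_real [T2Space X] {u : Fin (2 * ν) → X → ℝ} (hu : ∀ j, KerConst η ν (u j))
    {i : ι} (hz : Full η ν i z) (hind : LinearIndependent ℝ (fun j => fderiv ℝ (vt A (u j) i) z))
    (a : E n) : (∀ j, fderiv ℝ (vt A (u j) i) z a = 0) ↔ Ker η i z a := by
  constructor
  · intro h
    have h1 := kerS_dim (η.w i) z
    rw [hz.2] at h1
    have h2 := real_ker_le hind h1 (fun v hv j => (hu j).fderiv_zero hz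
      ((ker_iff η hz.1 v).2 ((mem_kerS _ _ _).1 hv))) h
    exact (ker_iff η hz.1 a).2 ((mem_kerS _ _ _).1 h2)
  · exact fun h j => (hu j).fderiv_zero hz h

theorem det_deg (hU : IsOpen U) (hw : ContDiffOn ℝ ∞ w U) (hz : z ∈ U)
    (hr : (lm w z).rank < ν) (e : Fin (2 * ν) → E n) :
    (Matrix.of fun j k => Bw w z (e j) (e k)).det = 0 := by
  by_contra hdet
  let V : Submodule ℂ (E n) := kerS w z
  let T : ((Fin (2 * ν) → ℝ) × V.restrictScalars ℝ) →ₗ[ℝ] E n :=
    (Fintype.linearCombination ℝ e).coprod (V.restrictScalars ℝ).subtype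
  have hV : ∀ v ∈ V, ∀ b, Bw w z v b = 0 := by
    intro v hv
    exact (Bw_ker hU hw hz v).2 fun b => levi_km hU hw hz ((mem_kerS w z v).1 hv) b
  have hinj : Function.Injective T := by
    rw [← LinearMap.ker_eq_bot, LinearMap.ker_eq_bot']
    rintro ⟨x, v⟩ h
    have h1 : (∑ j, x j • e j) + (v : E n) = 0 := by
      have h2 : T (x, v) = (∑ j, x j • e j) + (v : E n) := by
        simp [T, Fintype.linearCombination_apply]
      rw [← h2]
      exact h
    have h3 : ∑ j, x j • e j = -(v : E n) := eq_neg_of_add_eq_zero_left h1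
    have h4 : x ᵥ* (Matrix.of fun j k => Bw w z (e j) (e k)) = 0 := by
      funext k
      have h5 : Bw w z (∑ j, x j • e j) (e k) = 0 := by
        rw [h3, map_neg, _root_.neg_apply, hV _ v.2, neg_zero]
      rw [map_sum] at h5
      simpa [Matrix.vecMul, dotProduct] using h5
    have h6 : x = 0 := by
      by_contra hx
      exact hdet (Matrix.exists_vecMul_eq_zero_iff.1 ⟨x, hx, h4⟩)
    have h7 : v = 0 := by
      apply Subtype.ext
      rw [h6] at h1
      simpa using h1
    rw [h6, h7]
    rfl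
  have hle := LinearMap.finrank_le_finrank_of_injective hinj
  have h3' : Module.finrank ℝ (V.restrictScalars ℝ) = 2 * Module.finrank ℂ V :=
    finrank_real_of_complex V
  have h3 : Module.finrank ℝ (E n) = 2 * n := by
    rw [finrank_real_of_complex]
    simp [E]
  rw [Module.finrank_prod, h3', h3] at hle
  have h2 : Module.finrank ℝ (Fin (2 * ν) → ℝ) = 2 * ν := by simp
  rw [h2] at hle
  have h1 := kerS_dim w z
  have h8 : Module.finrank ℂ (kerS w z) = Module.finrank ℂ V := rfl
  omega

theorem level_full [T2Space X] (hη : η.Semipositive) (hν : η.RankLE ν)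
    {u : Fin (2 * ν) → X → ℝ} (hu : ∀ j, KerConst η ν (u j)) {i : ι} (hz : z ∈ (A.c i).target)
    (hind : LinearIndependent ℝ (fun j => fderiv ℝ (vt A (u j) i) z)) :
    ∀ᶠ y in 𝓝 z, (∀ j, vt A (u j) i y = vt A (u j) i z) → (Full η ν i y ↔ Full η ν i z) := by
  have hU := (A.c i).open_target
  have hw := η.smooth i
  let F : E n → (Fin (2 * ν) → ℝ) := fun y j => vt A (u j) i y
  have hF : ContDiffOn ℝ ∞ F (A.c i).target := contDiffOn_pi.2 fun j => (hu j).smooth i
  have key : ∀ y ∈ (A.c i).target, ∀ (v : E n) (j : Fin (2 * ν)),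
      fderiv ℝ F y v j = fderiv ℝ (vt A (u j) i) y v := by
    intro y hy v j
    have hdj : ∀ j, DifferentiableAt ℝ (fun y => vt A (u j) i y) y :=
      fun j => (((hu j).smooth i).contDiffAt (hU.mem_nhds hy)).differentiableAt (by simp)
    have h0 : fderiv ℝ F y = ContinuousLinearMap.pi fun j => fderiv ℝ (fun y => vt A (u j) i y) y :=
      fderiv_pi hdj
    rw [h0]
    rfl
  have hsur : Function.Surjective (fderiv ℝ F z) := by
    intro b
    obtain ⟨v, hv⟩ := real_surj hind b
    refine ⟨v, ?_⟩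
    funext j
    rw [key _ hz]
    exact hv j
  have h := lvs_abs (W := {y | Full η ν i y}) hU (isOpen_full hη hν i) (contDiffOn_Bw hU hw)
    (fun y hy => Bw_anti hU hw hy) (fun y hy => Bw_closed hU hw hy) hF ?_ ?_ hz hsur
  · filter_upwards [h] with y hy hy2
    exact hy (funext hy2)
  · intro y hy hsu a
    have hli : LinearIndependent ℝ (fun j => fderiv ℝ (vt A (u j) i) y) := by
      refine real_indep fun b => ?_
      obtain ⟨w, hw⟩ := hsu b
      refine ⟨w, fun j => ?_⟩
      rw [← key y hy.1 w j, hw]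
    rw [Bw_ker hU hw hy.1]
    have h1 := Full.ker_iff_real hu hy hli a
    have h2 : fderiv ℝ F y a = 0 ↔ ∀ j, fderiv ℝ (vt A (u j) i) y a = 0 := by
      rw [funext_iff]
      exact forall_congr' fun j => by rw [key y hy.1 a j]; rfl
    rw [h2, h1]
    rfl
  · intro y hy hyW e _
    refine det_deg hU hw hy ?_ e
    exact lt_of_le_of_ne (hν i y hy) fun h => hyW ⟨hy, h⟩

end Pool.Agent.ARK
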