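import Pool.Agent.ARK.Vlg
import Pool.Agent.ARK.Lvf

/-!
ARK: vector fields dual to the differentials of independent functions that are constant along the
kernel.
-/

open scoped ContDiff ComplexConjugate Topology ComplexOrder
open Complex MeasureTheory Matrix

namespace Pool.Agent.ARK

open Pool.Agent.CYF Pool.Agent.NDC

variable {n : ℕ} {w : E n → ℝ} {U O : Set (E n)} {z : E n} {N : ℕ}

theorem dual_frame (hU : IsOpen U) {u : Fin N → E n → ℝ} (hu : ∀ j, ContDiffOn ℝ ∞ (u j) U)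
    (hz : z ∈ U) (hind : LinearIndependent ℝ fun j => fderiv ℝ (u j) z) :
    ∃ O, IsOpen O ∧ z ∈ O ∧ O ⊆ U ∧ ∃ f : Fin N → E n → E n,
      (∀ j q, ContDiffOn ℝ ∞ (fun y => f j y q) O) ∧
      ∀ y ∈ O, ∀ j k, fderiv ℝ (u k) y (f j y) = if k = j then 1 else 0 := by
  let F : E n → (Fin N → ℝ) := fun y j => u j y
  have hF : ContDiffOn ℝ ∞ F U := contDiffOn_pi.2 fun j => hu j
  have key : ∀ y ∈ U, ∀ (v : E n) (j : Fin N), fderiv ℝ F y v j = fderiv ℝ (u j) y v := by
    intro y hy v j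
    have hdj : ∀ j, DifferentiableAt ℝ (fun y => u j y) y :=
      fun j => ((hu j).contDiffAt (hU.mem_nhds hy)).differentiableAt (by simp)
    have h0 : fderiv ℝ F y = ContinuousLinearMap.pi fun j => fderiv ℝ (fun y => u j y) y :=
      fderiv_pi hdj
    rw [h0]
    rfl
  have hs : Function.Surjective (fderiv ℝ F z) := by
    intro b
    obtain ⟨v, hv⟩ := real_surj hind b
    refine ⟨v, ?_⟩
    funext j
    rw [key _ hz]
    exact hv j
  have hDFs : ContDiffOn ℝ ∞ (fderiv ℝ F) U := hF.fderiv_of_isOpen hU (by simp)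
  obtain ⟨R, hR⟩ := (fderiv ℝ F z).exists_rightInverse_of_surjective
    (LinearMap.range_eq_top.2 hs)
  let P : E n → (Fin N → ℝ) →L[ℝ] (Fin N → ℝ) := fun y => (fderiv ℝ F y).comp R
  have hP : ContDiffOn ℝ ∞ P U := hDFs.clm_comp contDiffOn_const
  have hP0 : P z = 1 := hR
  let O : Set (E n) := {y | y ∈ U ∧ IsUnit (P y)}
  have hOU : O ⊆ U := fun y hy => hy.1
  have hO : IsOpen O := by
    rw [isOpen_iff_mem_nhds]
    rintro y ⟨hy, hu⟩
    have h1 : ContinuousAt P y := (hP.contDiffAt (hU.mem_nhds hy)).continuousAt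
    exact Filter.inter_mem (hU.mem_nhds hy) (h1 (Units.isOpen.mem_nhds hu))
  have hz0 : z ∈ O := ⟨hz, by rw [hP0]; exact isUnit_one⟩
  let S : E n → (Fin N → ℝ) →L[ℝ] E n := fun y => R.comp (Ring.inverse (P y))
  have hS : ContDiffOn ℝ ∞ S O := by
    intro y hy
    obtain ⟨u, hu⟩ := hy.2
    have h1 : ContDiffAt ℝ ∞ P y := hP.contDiffAt (hU.mem_nhds hy.1)
    have h2 : ContDiffAt ℝ ∞ Ring.inverse (P y) := by
      rw [← hu]
      exact contDiffAt_ringInverse ℝ u
    exact (contDiffAt_const.clm_comp (h2.comp y h1)).contDiffWithinAt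
  have hI1 : ∀ y ∈ O, ∀ c, fderiv ℝ F y (S y c) = c := by
    intro y hy c
    have h1 : P y * Ring.inverse (P y) = 1 := Ring.mul_inverse_cancel _ hy.2
    have h2 := congrArg (fun L => L c) h1
    exact h2
  refine ⟨O, hO, hz0, hOU, fun j y => S y (Pi.single j 1), fun j q => ?_, fun y hy j k => ?_⟩
  · have h1 : ContDiffOn ℝ ∞ (fun y => S y (Pi.single j 1)) O := hS.clm_apply contDiffOn_const
    exact contDiffOn_pi.1 h1 q
  · rw [← key y (hOU hy), hI1 y hy, Pi.single_apply]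

/-- the fields dual to `du_k` are holomorphic modulo the kernel along the kernel -/
theorem dual_dxb (hO : IsOpen O) {u : Fin N → E n → ℝ} (hu : ∀ j, ContDiffOn ℝ ∞ (u j) O)
    (hker : ∀ y ∈ O, ∀ a, (∀ k, fderiv ℝ (u k) y a = 0) ↔ KM w y a) {f ξ : E n → E n}
    (hf : ∀ q, ContDiffOn ℝ ∞ (fun y => f y q) O) {c : Fin N → ℝ}
    (hc : ∀ y ∈ O, ∀ k, fderiv ℝ (u k) y (f y) = c k) (hξ : KF w O ξ) (hz : z ∈ O) :
    KM w z (dxb f z (ξ z)) := by
  have hfd : ∀ {g : E n → E n}, (∀ q, ContDiffOn ℝ ∞ (fun y => g y q) O) →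
      HasFDerivAt g (fderiv ℝ g z) z := by
    intro g hg
    have h1 : ContDiffOn ℝ ∞ g O := contDiffOn_pi.2 hg
    exact ((h1.contDiffAt (hO.mem_nhds hz)).differentiableAt (by simp)).hasFDerivAt
  have hcomp : ∀ {g : E n → E n}, (∀ q, ContDiffOn ℝ ∞ (fun y => g y q) O) → ∀ v q,
      fderiv ℝ (fun y => g y q) z v = fderiv ℝ g z v q := by
    intro g hg v q
    have h1 : HasFDerivAt (fun y => g y q)
        ((ContinuousLinearMap.proj q : E n →L[ℝ] ℂ).comp (fderiv ℝ g z)) z :=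
      (ContinuousLinearMap.proj (R := ℝ) (φ := fun _ : Fin n => ℂ) q).hasFDerivAt.comp z (hfd hg)
    rw [h1.fderiv]
    rfl
  -- the bracket of `f` with a section `ζ` of the kernel
  have hbr : ∀ ζ : E n → E n, KF w O ζ → KM w z (fderiv ℝ f z (ζ z) - fderiv ℝ ζ z (f z)) := by
    intro ζ hζ
    rw [← hker z hz]
    intro k
    have hD : ContDiffOn ℝ ∞ (fderiv ℝ (u k)) O := (hu k).fderiv_of_isOpen hO (by simp)
    have hDd : HasFDerivAt (fderiv ℝ (u k)) (fderiv ℝ (fderiv ℝ (u k)) z) z :=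
      ((hD.contDiffAt (hO.mem_nhds hz)).differentiableAt (by simp)).hasFDerivAt
    have h2 : (2 : WithTop ℕ∞) ≤ ∞ := WithTop.coe_le_coe.2 (le_top : (2 : ℕ∞) ≤ ⊤)
    have hsym : IsSymmSndFDerivAt ℝ (u k) z :=
      (((hu k).contDiffAt (hO.mem_nhds hz)).of_le h2).isSymmSndFDerivAt (by simp)
    have e1 : ∀ v, fderiv ℝ (fderiv ℝ (u k)) z v (f z) + fderiv ℝ (u k) z (fderiv ℝ f z v) = 0 := by
      intro v
      have h3 := hDd.clm_apply (hfd hf)
      have h4 : (fun y => fderiv ℝ (u k) y (f y)) =ᶠ[𝓝 z] fun _ => c k := by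
        filter_upwards [hO.mem_nhds hz] with y hy
        exact hc y hy k
      have h5 := (h3.congr_of_eventuallyEq h4.symm).unique (hasFDerivAt_const (c k) z)
      have h6 := congrArg (fun L => L v) h5
      simp only [ContinuousLinearMap.comp_apply, _root_.add_apply,
        ContinuousLinearMap.flip_apply, _root_.zero_apply] at h6
      linarith
    have e2 : ∀ v, fderiv ℝ (fderiv ℝ (u k)) z v (ζ z) + fderiv ℝ (u k) z (fderiv ℝ ζ z v) = 0 := by
      intro v
      have h3 := hDd.clm_apply (hfd hζ.sm)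
      have h4 : (fun y => fderiv ℝ (u k) y (ζ y)) =ᶠ[𝓝 z] fun _ => (0 : ℝ) := by
        filter_upwards [hO.mem_nhds hz] with y hy
        exact (hker y hy _).2 (hζ.km y hy) k
      have h5 := (h3.congr_of_eventuallyEq h4.symm).unique (hasFDerivAt_const (0 : ℝ) z)
      have h6 := congrArg (fun L => L v) h5
      simp only [ContinuousLinearMap.comp_apply, _root_.add_apply,
        ContinuousLinearMap.flip_apply, _root_.zero_apply] at h6
      linarith
    have h3 := e1 (ζ z)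
    have h4 := e2 (f z)
    have h5 : fderiv ℝ (fderiv ℝ (u k)) z (ζ z) (f z) = fderiv ℝ (fderiv ℝ (u k)) z (f z) (ζ z) :=
      hsym (ζ z) (f z)
    rw [map_sub]
    linarith
  have hIξ : KF w O fun y => I • ξ y :=
    ⟨fun q => contDiffOn_const.mul (hξ.sm q), fun y hy => km_smul I (hξ.km y hy)⟩
  have hA := hbr ξ hξ
  have hB := hbr _ hIξ
  have hId : fderiv ℝ (fun y => I • ξ y) z (f z) = I • fderiv ℝ ξ z (f z) := by
    have h1 : HasFDerivAt (fun y => I • ξ y) (I • fderiv ℝ ξ z) z := (hfd hξ.sm).const_smul I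
    rw [h1.fderiv]
    rfl
  have hfin : dxb f z (ξ z) = (1 / 2 : ℂ) • ((fderiv ℝ f z (ξ z) - fderiv ℝ ξ z (f z))
      + I • (fderiv ℝ f z (I • ξ z) - fderiv ℝ (fun y => I • ξ y) z (f z))) := by
    funext q
    rw [hId]
    show d01 (fun y => f y q) z (ξ z) = _
    unfold d01
    rw [hcomp hf, hcomp hf]
    simp only [Pi.smul_apply, Pi.add_apply, Pi.sub_apply, smul_eq_mul]
    linear_combination (1 / 2 : ℂ) * fderiv ℝ ξ z (f z) q * I_mul_I
  rw [hfin]
  exact km_smul _ (km_add hA (km_smul I hB))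

end Pool.Agent.ARK
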