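import Pool.Agent.ARK.Trv

/-!
ARK: near a compact leaf the leaves are the fibres of a holomorphic submersion.
-/

open scoped ContDiff ComplexConjugate Topology ComplexOrder
open Complex MeasureTheory Matrix

namespace Pool.Agent.ARK

open Pool.Agent.CYF Pool.Agent.NDC

variable {n : ℕ} {X : Type*} [TopologicalSpace X] {ι : Type*} {A : Mfd n X ι} {z : E n}
  {η om : Form A} {ν : ℕ} {N : ℕ}

/-- the differential of all functions `u j` -/
noncomputable def dU (A : Mfd n X ι) (u : Fin N → X → ℝ) (i : ι) (z v : E n) : Fin N → ℝ :=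
  fun k => fderiv ℝ (vt A (u k) i) z v

theorem dU_add (u : Fin N → X → ℝ) (i : ι) (z v v' : E n) :
    dU A u i z (v + v') = dU A u i z v + dU A u i z v' := by
  funext k
  simp [dU]

theorem dU_sub (u : Fin N → X → ℝ) (i : ι) (z v v' : E n) :
    dU A u i z (v - v') = dU A u i z v - dU A u i z v' := by
  funext k
  simp [dU]

theorem dU_ker [T2Space X] {u : Fin (2 * ν) → X → ℝ} (hu : ∀ j, KerConst η ν (u j)) {i : ι}
    (hg : Gd η ν u i z) (a : E n) : dU A u i z a = 0 ↔ Ker η i z a := by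
  rw [← Full.ker_iff_real hu hg.1 hg.2, funext_iff]
  rfl

theorem ker_I {i : ι} (hz : z ∈ (A.c i).target) {a : E n} (ha : Ker η i z a) :
    Ker η i z (I • a) := by
  rw [ker_iff η hz] at ha ⊢
  exact km_smul I ha

theorem exists_dual [T2Space X] {u : Fin (2 * ν) → X → ℝ} {i : ι}
    (hg : Gd η ν u i z) : ∃ f, DualAt A u i z f := by
  choose f hf using fun j : Fin (2 * ν) => real_surj hg.2 (Pi.single j 1)
  exact ⟨f, fun j k => by rw [hf j k, Pi.single_apply]⟩

/-- a real linear map that is complex linear for the complex structure at one point of the leaf is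
complex linear for it at all points -/
theorem clin [T2Space X] {u : Fin (2 * ν) → X → ℝ} (hu : ∀ j, KerConst η ν (u j))
    {Λ : (Fin (2 * ν) → ℝ) →L[ℝ] (Fin ν → ℂ)} {i i' : ι} {z z' : E n} (hg : Gd η ν u i z)
    (hg' : Gd η ν u i' z') (hJ : ∀ k j, vt A (Jf A u k j) i z = vt A (Jf A u k j) i' z')
    (h : ∀ v, Λ (dU A u i' z' (I • v)) = I • Λ (dU A u i' z' v)) (v : E n) :
    Λ (dU A u i z (I • v)) = I • Λ (dU A u i z v) := by
  obtain ⟨f, hf⟩ := exists_dual hg
  obtain ⟨f', hf'⟩ := exists_dual hg'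
  have h1 : ∀ j, dU A u i z (I • f j) = dU A u i' z' (I • f' j) := by
    intro j
    funext k
    have e1 := jf_eq hu hg hf k j
    have e2 := jf_eq hu hg' hf' k j
    show fderiv ℝ (vt A (u k) i) z (I • f j) = fderiv ℝ (vt A (u k) i') z' (I • f' j)
    rw [← e1, ← e2, hJ k j]
  have hs : ∀ j, dU A u i z (f j) = Pi.single j 1 := by
    intro j
    funext k
    show fderiv ℝ (vt A (u k) i) z (f j) = _
    rw [hf j k, Pi.single_apply]
  have hs' : ∀ j, dU A u i' z' (f' j) = Pi.single j 1 := by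
    intro j
    funext k
    show fderiv ℝ (vt A (u k) i') z' (f' j) = _
    rw [hf' j k, Pi.single_apply]
  have h2 : ∀ j, Λ (dU A u i z (I • f j)) = I • Λ (dU A u i z (f j)) := by
    intro j
    rw [h1, h, hs, hs']
  -- decompose `v`
  have hlin : ∀ (c : Fin (2 * ν) → ℝ) (g : Fin (2 * ν) → E n),
      dU A u i z (∑ j, c j • g j) = ∑ j, c j • dU A u i z (g j) := by
    intro c g
    funext k
    simp [dU, map_sum, Finset.sum_apply]
  set c : Fin (2 * ν) → ℝ := dU A u i z v with hc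
  have h3 : dU A u i z (v - ∑ j, c j • f j) = 0 := by
    rw [dU_sub, hlin]
    simp_rw [hs]
    rw [sub_eq_zero]
    conv_lhs => rw [pi_eq_sum_univ' (dU A u i z v)]
  have h4 := (dU_ker hu hg _).2 (ker_I hg.1.1 ((dU_ker hu hg _).1 h3))
  rw [smul_sub, dU_sub, sub_eq_zero] at h4
  rw [dU_sub, sub_eq_zero] at h3
  have h5 : I • ∑ j, c j • f j = ∑ j, c j • (I • f j) := by
    rw [Finset.smul_sum]
    exact Finset.sum_congr rfl fun j _ => smul_comm _ _ _
  have h6 : c = ∑ j, c j • dU A u i z (f j) := by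
    rw [← hlin]
    exact h3
  have h7 : Λ c = ∑ j, c j • Λ (dU A u i z (f j)) := by
    conv_lhs => rw [h6]
    rw [map_sum]
    exact Finset.sum_congr rfl fun j _ => map_smul _ _ _
  rw [h4, h5, hlin, map_sum, h7, Finset.smul_sum]
  refine Finset.sum_congr rfl fun j _ => ?_
  rw [map_smul, h2, smul_comm]

/-- a real differentiable map with complex linear derivative -/
theorem cdiff {m : ℕ} {g : E n → (Fin m → ℂ)} {L : E n →L[ℝ] (Fin m → ℂ)}
    (hg : HasFDerivAt g L z) (hL : ∀ v, L (I • v) = I • L v) :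
    DifferentiableAt ℂ g z ∧ ∀ v, fderiv ℂ g z v = L v := by
  let L₀ : E n →ₗ[ℂ] (Fin m → ℂ) :=
    { toFun := L
      map_add' := map_add L
      map_smul' := by
        intro c v
        have h1 : c • v = c.re • v + c.im • (I • v) := by
          rw [← Complex.coe_smul c.re v, ← Complex.coe_smul c.im (I • v), smul_smul, ← add_smul,
            Complex.re_add_im]
        have h2 : c • L v = c.re • L v + c.im • (I • L v) := by
          rw [← Complex.coe_smul c.re (L v), ← Complex.coe_smul c.im (I • L v), smul_smul,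
            ← add_smul, Complex.re_add_im]
        rw [RingHom.id_apply, h2, h1, map_add, map_smul, map_smul, hL] }
  let L₁ : E n →L[ℂ] (Fin m → ℂ) := LinearMap.toContinuousLinearMap L₀
  have h1 : HasFDerivAt g L₁ z := by
    refine hasFDerivAt_of_restrictScalars ℝ hg ?_
    ext v
    rfl
  exact ⟨h1.differentiableAt, fun v => by rw [h1.fderiv]; rfl⟩

theorem fib [T2Space X] [CompactSpace X] (hη : η.Semipositive) (hν : η.RankLE ν)
    (hom : om.Positive) {u : Fin (2 * ν) → X → ℝ} (hu : ∀ j, KerConst η ν (u j)) {x : X}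
    (hx : x ∈ Qs η ν u) :
    ∃ (W : Set X) (f : X → (Fin ν → ℂ)), IsOpen W ∧ x ∈ W ∧ W ⊆ Qs η ν u ∧
      (∀ y ∈ W, Tc u y ⊆ W ∧ ∀ y' ∈ W, f y' = f y ↔ y' ∈ Tc u y) ∧
      ∀ i, ∀ z ∈ (A.c i).target, (A.c i).symm z ∈ W →
        DifferentiableAt ℂ (fun z => f ((A.c i).symm z)) z ∧
        ∀ a : E n, fderiv ℂ (fun z => f ((A.c i).symm z)) z a = 0 ↔ Ker η i z a := by
  have hsm : ∀ j, Sm A (u j) := fun j => (hu j).sm
  have hQo := Qs_open hη hν hu
  have hgdQ : ∀ i, ∀ z ∈ (A.c i).target, (A.c i).symm z ∈ Qs η ν u → Gd η ν u i z := by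
    intro i z hz hzQ
    have h1 := hzQ _ (mem_Tc u _) i ((A.c i).map_target hz)
    rwa [(A.c i).right_inv hz] at h1
  have hTcQ : ∀ {y y' : X}, y ∈ Qs η ν u → y' ∈ Tc u y → y' ∈ Qs η ν u := by
    intro y y' hy hy' y'' hy''
    have h1 : y'' ∈ Tc u y' := hy''
    rw [Tc_eq hy'] at h1
    exact hy y'' h1
  -- the transversal
  set i₀ := ix A x with hi₀
  have hxi : x ∈ (A.c i₀).source := mem_ix A x
  set z₀ := A.c i₀ x with hz₀
  have hz₀t : z₀ ∈ (A.c i₀).target := (A.c i₀).map_source hxi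
  have hsz₀ : (A.c i₀).symm z₀ = x := (A.c i₀).left_inv hxi
  have hg₀ : Gd η ν u i₀ z₀ := hgdQ i₀ z₀ hz₀t (by rw [hsz₀]; exact hx)
  obtain ⟨κ, D, H, hDo, hxD, hHd, hH0, htr⟩ := trv (A.c i₀).open_target (fun j => hsm j i₀) hz₀t
    (kerS (η.w i₀) z₀) (fun a => by
      rw [mem_kerS, ← ker_iff η hz₀t, Full.ker_iff_real hu hg₀.1 hg₀.2]) hg₀.2
  let Fx : X → (Fin (2 * ν) → ℝ) := fun y j => u j y
  have hFxc : Continuous Fx := continuous_pi fun j => (hsm j).continuous
  have hFx0 : Fx x = fun j => vt A (u j) i₀ z₀ := by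
    funext j
    show u j x = u j ((A.c i₀).symm z₀)
    rw [hsz₀]
  let ct : (Fin (2 * ν) → ℝ) → X := fun t => (A.c i₀).symm (z₀ + κ (H t))
  have hctx : ct (Fx x) = x := by
    show (A.c i₀).symm (z₀ + κ (H (Fx x))) = x
    rw [hFx0, hH0, map_zero, add_zero, hsz₀]
  have hctc : ContinuousAt ct (Fx x) := by
    have h1 : ContinuousAt H (Fx x) := (hHd _ (by rw [hFx0]; exact hxD)).continuousAt
    have h2 : ContinuousAt (fun t => z₀ + κ (H t)) (Fx x) :=
      continuousAt_const.add (κ.continuous.continuousAt.comp h1)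
    have h3 : z₀ + κ (H (Fx x)) = z₀ := by rw [hFx0, hH0, map_zero, add_zero]
    have h4 : ContinuousAt (A.c i₀).symm (z₀ + κ (H (Fx x))) := by
      rw [h3]
      exact (A.c i₀).continuousAt_symm hz₀t
    exact ContinuousAt.comp (f := fun t => z₀ + κ (H t)) h4 h2
  have hctu : ∀ t ∈ D, ∀ j, u j (ct t) = t j := fun t ht j => (htr t ht).2.1 j
  -- the box
  obtain ⟨B, hB, hxB, hbox⟩ := box hsm hxi hg₀.2
  set M : Set X := {y | y ∈ B ∧ Fx y ∈ D ∧ ct (Fx y) ∈ B ∧ y ∈ Qs η ν u} with hM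
  have hMx : M ∈ 𝓝 x := by
    have h1 : ∀ᶠ y in 𝓝 x, ct (Fx y) ∈ B := by
      have h2 : ContinuousAt (fun y => ct (Fx y)) x :=
        ContinuousAt.comp (f := Fx) hctc hFxc.continuousAt
      refine h2 (hB.mem_nhds ?_)
      show ct (Fx x) ∈ B
      rw [hctx]
      exact hxB
    have h3 : ∀ᶠ y in 𝓝 x, Fx y ∈ D :=
      hFxc.continuousAt (hDo.mem_nhds (by rw [hFx0]; exact hxD))
    filter_upwards [hB.mem_nhds hxB, h3, h1, hQo.mem_nhds hx] with y a1 a2 a3 a4
    exact ⟨a1, a2, a3, a4⟩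
  set V : Set X := interior M with hV
  have hVM : V ⊆ M := interior_subset
  have hxV : x ∈ V := mem_interior_iff_mem_nhds.2 hMx
  have hVo : IsOpen V := isOpen_interior
  set W : Set X := {y | y ∈ Qs η ν u ∧ ∃ y'' ∈ V, y'' ∈ Tc u y} with hW
  have hWo : IsOpen W := by
    rw [isOpen_iff_mem_nhds]
    rintro y ⟨hyQ, y'', hy''V, hy''T⟩
    have h1 : y'' ∈ Qs η ν u := (hVM hy''V).2.2.2
    have h2 : y ∈ Tc u y'' := by
      rw [Tc_eq hy''T]
      exact mem_Tc u y
    filter_upwards [hQo.mem_nhds hyQ, sat hsm h1 (hVo.mem_nhds hy''V) h2] with y' a1 a2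
    exact ⟨a1, a2⟩
  have hWT : ∀ y ∈ W, Tc u y ⊆ W := by
    rintro y ⟨hyQ, y'', hy''V, hy''T⟩ y' hy'
    refine ⟨hTcQ hyQ hy', y'', hy''V, ?_⟩
    rw [Tc_eq hy']
    exact hy''T
  have hlev : ∀ {y y' : X}, y' ∈ Tc u y → Fx y' = Fx y := by
    intro y y' hy'
    funext j
    exact Tc_level hy' j
  have hWD : ∀ y ∈ W, Fx y ∈ D := by
    rintro y ⟨hyQ, y'', hy''V, hy''T⟩
    rw [← hlev hy''T]
    exact (hVM hy''V).2.1
  refine ⟨W, fun y => H (Fx y), hWo, ⟨hx, x, hxV, mem_Tc u x⟩, fun y hy => hy.1, ?_, ?_⟩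
  · intro y hy
    refine ⟨hWT y hy, fun y' hy' => ⟨fun h => ?_, fun h => ?_⟩⟩
    · have h' : H (Fx y') = H (Fx y) := h
      have h1 : Fx y' = Fx y := by
        funext j
        rw [← (htr _ (hWD y hy)).2.1 j, ← (htr _ (hWD y' hy')).2.1 j, h']
      obtain ⟨-, y₁, h1V, h1T⟩ := hy
      obtain ⟨-, y₂, h2V, h2T⟩ := hy'
      have h2 : ∀ j, u j y₁ = u j y₂ := by
        intro j
        have e1 := congrFun (hlev h1T) j
        have e2 := congrFun (hlev h2T) j
        have e3 := congrFun h1 j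
        show Fx y₁ j = Fx y₂ j
        rw [e1, e2, e3]
      have h3 := (hbox y₁ (hVM h1V).1 y₂ (hVM h2V).1 h2).1
      rw [← Tc_eq h1T, ← Tc_eq h3, Tc_eq h2T]
      exact mem_Tc u y'
    · show H (Fx y') = H (Fx y)
      rw [hlev h]
  · intro i z hz hzW
    set y := (A.c i).symm z with hy
    have hyQ : y ∈ Qs η ν u := hzW.1
    have hg : Gd η ν u i z := hgdQ i z hz hyQ
    obtain ⟨-, y'', hy''V, hy''T⟩ := hzW
    set t := Fx y with ht
    have htD : t ∈ D := by
      rw [ht, ← hlev hy''T]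
      exact (hVM hy''V).2.1
    -- the point of the transversal
    have hc : ct t ∈ Tc u y := by
      have h1 : ct t ∈ Tc u y'' := by
        refine (hbox y'' (hVM hy''V).1 (ct t) ?_ ?_).1
        · have := (hVM hy''V).2.2.1
          rwa [hlev hy''T] at this
        · intro j
          rw [hctu t htD j]
          exact congrFun (hlev hy''T) j
      rwa [Tc_eq hy''T] at h1
    obtain ⟨hzt, -, ha, hb⟩ := htr t htD
    have hgt : Gd η ν u i₀ (z₀ + κ (H t)) := hgdQ i₀ _ hzt (hTcQ hyQ hc)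
    have hα : ∀ v, fderiv ℝ H t (dU A u i₀ (z₀ + κ (H t)) (I • v))
        = I • fderiv ℝ H t (dU A u i₀ (z₀ + κ (H t)) v) := by
      intro v
      set s := fderiv ℝ H t (dU A u i₀ (z₀ + κ (H t)) v) with hs
      have h1 : dU A u i₀ (z₀ + κ (H t)) (κ s) = dU A u i₀ (z₀ + κ (H t)) v :=
        hb (dU A u i₀ (z₀ + κ (H t)) v)
      have h2 : dU A u i₀ (z₀ + κ (H t)) (v - κ s) = 0 := by
        rw [dU_sub, h1, sub_self]
      have h3 := (dU_ker hu hgt _).2 (ker_I hgt.1.1 ((dU_ker hu hgt _).1 h2))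
      rw [smul_sub, dU_sub, sub_eq_zero, ← ContinuousLinearMap.map_smul κ I s] at h3
      rw [h3]
      exact ha (I • s)
    have hJ : ∀ k j, vt A (Jf A u k j) i z = vt A (Jf A u k j) i₀ (z₀ + κ (H t)) := fun k j =>
      (jf_const hη hν hom hu hyQ k j _ hc).symm
    have hcl := clin hu hg hgt hJ hα
    -- the derivative
    have hFi : HasFDerivAt (fun z => fun j => vt A (u j) i z)
        (ContinuousLinearMap.pi fun j => fderiv ℝ (vt A (u j) i) z) z := by
      refine hasFDerivAt_pi.2 fun j => ?_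
      exact (((hsm j i).contDiffAt ((A.c i).open_target.mem_nhds hz)).differentiableAt
        (by simp)).hasFDerivAt
    have hHt : HasFDerivAt H (fderiv ℝ H t) t := (hHd t htD).hasFDerivAt
    have hder : HasFDerivAt (fun z => H (Fx ((A.c i).symm z)))
        ((fderiv ℝ H t).comp (ContinuousLinearMap.pi fun j => fderiv ℝ (vt A (u j) i) z)) z :=
      HasFDerivAt.comp (f := fun z => fun j => vt A (u j) i z) z hHt hFi
    have hcd := cdiff hder fun v => hcl v
    refine ⟨hcd.1, fun a => ?_⟩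
    rw [hcd.2 a, ← dU_ker hu hg]
    have h1 : ((fderiv ℝ H t).comp (ContinuousLinearMap.pi fun j => fderiv ℝ (vt A (u j) i) z)) a
        = fderiv ℝ H t (dU A u i z a) := rfl
    rw [h1]
    constructor
    · intro h
      have h2 := hb (dU A u i z a)
      rw [h, map_zero] at h2
      rw [← h2]
      funext k
      simp
    · intro h
      rw [h, map_zero]

end Pool.Agent.ARK
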