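import Pool.Agent.ARK.Blk

/-!
ARK module Grm (size 3): Gram data.
PROOF. Let `H : Matrix (Fin n ⊕ Fin n) (Fin n ⊕ Fin n) ℂ` be `Matrix.fromBlocks (LM) (Mb) (Mt) (Mtt)`: `H (inl k) (inl l) = LM w z k l`, `H (inl k) (inr l) = Mb k l`, `H (inr k) (inl l) = Mt k l`,
`H (inr k) (inr l) = Mtt k l`. It is hermitian (`LM_conj`, `Mb_conj`, `Mtt_conj`) and positive semidefinite: for `y : Fin n ⊕ Fin n → ℂ`, with `c k = conj (y (inl k))`, `x k = conj (y (inr k))`, the number
`star y ⬝ᵥ (H *ᵥ y)` is the number of `blk` (`Fintype.sum_sum_type`), real because `H` is hermitian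
(`Matrix.PosSemidef.of_dotProduct_mulVec_nonneg`; see the proof of the delivered module NDC/Psd: /team-store/ndc_Psd.lean). So `H = Bᴴ * B`
(`Matrix.posSemidef_iff_eq_conjTranspose_mul_self` or its present name), `H s t = ∑ r, conj (B r s) * B r t`. Take `f k r = conj (B r (inl k))`, `g k r = conj (B r (inr k))`.
-/

open scoped ContDiff ComplexConjugate Topology ComplexOrder
open Complex MeasureTheory Matrix

namespace Pool.Agent.ARK

open Pool.Agent.CYF Pool.Agent.NDC

variable {n : ℕ} {w : E n → ℝ} {U : Set (E n)} {z : E n}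

open scoped MatrixOrder in
private theorem Grm_fac {m : Type} [Fintype m] [DecidableEq m] {M : Matrix m m ℂ} (hM : M.PosSemidef) :
    ∃ B : Matrix m m ℂ, M = Bᴴ * B := CStarAlgebra.nonneg_iff_eq_star_mul_self.mp hM.nonneg

private noncomputable def Grm_H (w : E n → ℝ) (z a : E n) : Matrix (Fin n ⊕ Fin n) (Fin n ⊕ Fin n) ℂ :=
  Matrix.fromBlocks (Matrix.of fun k l => LM w z k l) (Matrix.of fun k l => Mb w z a k l)
    (Matrix.of fun k l => Mt w z a k l) (Matrix.of fun k l => Mtt w z a k l)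

private theorem Grm_herm (hU : IsOpen U) (hw : ContDiffOn ℝ ∞ w U) (hz : z ∈ U) (a : E n) :
    (Grm_H w z a).IsHermitian := by
  ext s t
  rw [conjTranspose_apply]
  rcases s with k | k <;> rcases t with l | l
  · exact LM_conj hU hw hz l k
  · exact (Mb_conj hU hw hz a k l).symm
  · show star (Mb w z a l k) = Mt w z a k l
    rw [Mb_conj hU hw hz a l k]
    exact Complex.conj_conj _
  · exact Mtt_conj hU hw hz a k l

private theorem Grm_quad (a : E n) (y : Fin n ⊕ Fin n → ℂ) :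
    star y ⬝ᵥ (Grm_H w z a *ᵥ y) = ∑ k, ∑ l, (conj (y (Sum.inl k)) * conj (conj (y (Sum.inl l))) * LM w z k l
      + conj (y (Sum.inr k)) * conj (conj (y (Sum.inl l))) * Mt w z a k l
      + conj (y (Sum.inl k)) * conj (conj (y (Sum.inr l))) * Mb w z a k l
      + conj (y (Sum.inr k)) * conj (conj (y (Sum.inr l))) * Mtt w z a k l) := by
  simp only [dotProduct, mulVec, Fintype.sum_sum_type, Finset.mul_sum, Finset.sum_add_distrib, Complex.conj_conj,
    Pi.star_apply, Complex.star_def, mul_add]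
  have e1 : ∀ k l, Grm_H w z a (Sum.inl k) (Sum.inl l) = LM w z k l := fun _ _ => rfl
  have e2 : ∀ k l, Grm_H w z a (Sum.inl k) (Sum.inr l) = Mb w z a k l := fun _ _ => rfl
  have e3 : ∀ k l, Grm_H w z a (Sum.inr k) (Sum.inl l) = Mt w z a k l := fun _ _ => rfl
  have e4 : ∀ k l, Grm_H w z a (Sum.inr k) (Sum.inr l) = Mtt w z a k l := fun _ _ => rfl
  simp only [e1, e2, e3, e4]
  have c1 : ∀ k l, conj (y (Sum.inl k)) * (LM w z k l * y (Sum.inl l)) = conj (y (Sum.inl k)) * y (Sum.inl l) * LM w z k l :=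
    fun _ _ => by ring
  have c2 : ∀ k l, conj (y (Sum.inl k)) * (Mb w z a k l * y (Sum.inr l)) = conj (y (Sum.inl k)) * y (Sum.inr l) * Mb w z a k l :=
    fun _ _ => by ring
  have c3 : ∀ k l, conj (y (Sum.inr k)) * (Mt w z a k l * y (Sum.inl l)) = conj (y (Sum.inr k)) * y (Sum.inl l) * Mt w z a k l :=
    fun _ _ => by ring
  have c4 : ∀ k l, conj (y (Sum.inr k)) * (Mtt w z a k l * y (Sum.inr l)) = conj (y (Sum.inr k)) * y (Sum.inr l) * Mtt w z a k l :=
    fun _ _ => by ring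
  simp only [c1, c2, c3, c4]
  ring

theorem gram_exists (hU : IsOpen U) (hw : ContDiffOn ℝ ∞ w U) (hp : ∀ y ∈ U, ∀ b : E n,
    0 ≤ (levi w y b b).re) (hz : z ∈ U) {a : E n} (ha : KM w z a) :
    ∃ f g : Fin n → (Fin n ⊕ Fin n) → ℂ, Gram w z a f g := by
  have hherm := Grm_herm (w := w) hU hw hz a
  have hpsd : (Grm_H w z a).PosSemidef := by
    refine Matrix.PosSemidef.of_dotProduct_mulVec_nonneg hherm fun y => ?_
    rw [Complex.le_def]
    refine ⟨?_, ?_⟩
    · rw [Grm_quad]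
      exact blk hU hw hp hz ha _ _
    · have h3 := hherm.im_star_dotProduct_mulVec_self y
      rw [Complex.zero_im]
      exact h3.symm
  obtain ⟨B, hB⟩ : ∃ B : Matrix (Fin n ⊕ Fin n) (Fin n ⊕ Fin n) ℂ, Grm_H w z a = Bᴴ * B :=
    Grm_fac hpsd
  have hent : ∀ s t, Grm_H w z a s t = ∑ r, conj (B r s) * B r t := by
    intro s t
    rw [hB, Matrix.mul_apply]
    rfl
  refine ⟨fun k r => conj (B r (Sum.inl k)), fun k r => conj (B r (Sum.inr k)), ?_, ?_, ?_, ?_⟩
  · intro k l
    simp only [Complex.conj_conj]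
    exact hent (Sum.inl k) (Sum.inl l)
  · intro k l
    simp only [Complex.conj_conj]
    exact hent (Sum.inr k) (Sum.inl l)
  · intro k l
    simp only [Complex.conj_conj]
    exact hent (Sum.inl k) (Sum.inr l)
  · intro k l
    simp only [Complex.conj_conj]
    exact hent (Sum.inr k) (Sum.inr l)

end Pool.Agent.ARK
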