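import Pool.Agent.ARK.Cls
import Pool.Agent.ARK.Kms

/-!
ARK module Pxi (size 4): second order identities for a smooth section `ξ` of the kernel.
PROOF. `O` open, `hk : ∑ p, ξ y p * LM w y p l = 0` on `O`. Apply `pk k` at `z` (`d10_sum`, `d10_mul`, `pk_congr`): `∑ p, pk k ξ_p * LM p l + ∑ p, ξ_p * pk k (LM p l) = 0`, `pk k (LM p l) = pk p (LM k l)` (`pk_LM`), and
`∑ p, ξ_p z * pk p (LM k l) z = d10 (LM k l) z (ξ z) = Mt w z (ξ z) k l` (`d10_eq_sum`): `pxi1`. `pxi3`: apply `pb k`: `∑ p, pb k ξ_p * LM p l = - ∑ p, ξ_p * pb k (LM p l) = - ∑ p, ξ_p * pb l (LM p k)` (`pb_LM`),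
symmetric in `k, l`. `pxi4`: with `a = ξ z`, `α p y = a p - ξ y p`: on `O`, `∑ p q, a p * conj (a q) * LM p q = ∑ p q, α p * conj (α q) * LM p q` (`hk` and its conjugate `km_conj`). Apply `d10 (d01 (·) · x) z x`; as `α p z = 0`
the product rule leaves `∑ p q, (d10 α_p * conj (d10 α_q) + d01 α_p * conj (d01 α_q)) * LM p q` (in the direction `x`; `d01 (conj α_q) = conj (d10 α_q)`, `d10 (conj α_q) = conj (d01 α_q)`), and `d10 α_p z x = - d10 ξ_p z x`. The left hand side is
`∑ p q, a p * conj (a q) * d10 (fun y => d01 (LM p q) y x) z x`, use `cls3`.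
-/

open scoped ContDiff ComplexConjugate Topology ComplexOrder
open Complex MeasureTheory Matrix

namespace Pool.Agent.ARK

open Pool.Agent.CYF Pool.Agent.NDC

variable {n : ℕ} {w : E n → ℝ} {O : Set (E n)} {z : E n} {ξ : E n → E n}

private theorem pxi_conj {f : E n → ℂ} (hf : ContDiffOn ℝ ∞ f O) :
    ContDiffOn ℝ ∞ (fun y => conj (f y)) O :=
  Complex.conjCLE.contDiff.comp_contDiffOn hf

private theorem pxi_cong2 {f g : E n → ℂ} (hO : IsOpen O) (hz : z ∈ O) (x : E n)
    (h : ∀ y ∈ O, f y = g y) :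
    d10 (fun y => d01 f y x) z x = d10 (fun y => d01 g y x) z x := by
  apply d10_congr
  filter_upwards [hO.mem_nhds hz] with y hy
  apply d01_congr
  filter_upwards [hO.mem_nhds hy] with y' hy'
  exact h y' hy'

private theorem pxi_sum2 (hO : IsOpen O) (hz : z ∈ O) (x : E n) (F : Fin n → Fin n → E n → ℂ)
    (hF : ∀ p q, ContDiffOn ℝ ∞ (F p q) O) :
    d10 (fun y => d01 (fun y' => ∑ p, ∑ q, F p q y') y x) z x
      = ∑ p, ∑ q, d10 (fun y => d01 (F p q) y x) z x := by
  have hG : ∀ p, ContDiffOn ℝ ∞ (fun y => ∑ q, F p q y) O := fun p =>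
    ContDiffOn.sum fun q _ => hF p q
  have h1 : (fun y => d01 (fun y' => ∑ p, ∑ q, F p q y') y x)
      =ᶠ[𝓝 z] fun y => ∑ p, ∑ q, d01 (F p q) y x := by
    filter_upwards [hO.mem_nhds hz] with y hy
    rw [d01_sum Finset.univ (fun p y' => ∑ q, F p q y') (fun p _ => diffAt_of hO (hG p) hy)]
    refine Finset.sum_congr rfl fun p _ => ?_
    exact d01_sum Finset.univ (fun q y' => F p q y') (fun q _ => diffAt_of hO (hF p q) hy)
  rw [d10_congr h1]
  have h2 : ∀ p q, ContDiffOn ℝ ∞ (fun y => d01 (F p q) y x) O := fun p q =>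
    contDiffOn_d01 hO (hF p q) x
  rw [d10_sum Finset.univ (fun p y => ∑ q, d01 (F p q) y x)
    (fun p _ => diffAt_of hO (ContDiffOn.sum fun q _ => h2 p q) hz)]
  refine Finset.sum_congr rfl fun p _ => ?_
  exact d10_sum Finset.univ (fun q y => d01 (F p q) y x) (fun q _ => diffAt_of hO (h2 p q) hz)

private theorem pxi_const2 (hO : IsOpen O) (hz : z ∈ O) (x : E n) {f : E n → ℂ}
    (hf : ContDiffOn ℝ ∞ f O) (c : ℂ) :
    d10 (fun y => d01 (fun y' => c * f y') y x) z x = c * d10 (fun y => d01 f y x) z x := by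
  have h1 : (fun y => d01 (fun y' => c * f y') y x) =ᶠ[𝓝 z] fun y => c * d01 f y x := by
    filter_upwards [hO.mem_nhds hz] with y hy
    exact d01_const_mul (diffAt_of hO hf hy) c
  rw [d10_congr h1]
  exact d10_const_mul (diffAt_of hO (contDiffOn_d01 hO hf x) hz) c

private theorem pxi_aux (hO : IsOpen O) (hz : z ∈ O) (x : E n) {f g h : E n → ℂ}
    (hf : ContDiffOn ℝ ∞ f O) (hg : ContDiffOn ℝ ∞ g O) (hh : ContDiffOn ℝ ∞ h O)
    (hfz : f z = 0) (hgz : g z = 0) :
    d10 (fun y => d01 (fun y' => f y' * g y' * h y') y x) z x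
      = d01 f z x * d10 g z x * h z + d10 f z x * d01 g z x * h z := by
  have h1 : (fun y => d01 (fun y' => f y' * g y' * h y') y x) =ᶠ[𝓝 z]
      fun y => g y * (d01 f y x * h y) + f y * (d01 g y x * h y + g y * d01 h y x) := by
    filter_upwards [hO.mem_nhds hz] with y hy
    rw [d01_mul (diffAt_of hO (hf.mul hg) hy) (diffAt_of hO hh hy),
      d01_mul (diffAt_of hO hf hy) (diffAt_of hO hg hy)]
    ring
  rw [d10_congr h1]
  have hf' := contDiffOn_d01 hO hf x
  have hg' := contDiffOn_d01 hO hg x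
  have hh' := contDiffOn_d01 hO hh x
  rw [d10_add (diffAt_of hO (hg.mul (hf'.mul hh)) hz)
    (diffAt_of hO (hf.mul ((hg'.mul hh).add (hg.mul hh'))) hz),
    d10_mul (diffAt_of hO hg hz) (diffAt_of hO (hf'.mul hh) hz),
    d10_mul (diffAt_of hO hf hz) (diffAt_of hO ((hg'.mul hh).add (hg.mul hh')) hz), hfz, hgz]
  ring

/-- `∂_x ξ` -/
noncomputable def dx (ξ : E n → E n) (z x : E n) : E n := fun p => d10 (fun y => ξ y p) z x

/-- `∂̄_x ξ` -/
noncomputable def dxb (ξ : E n → E n) (z x : E n) : E n := fun p => d01 (fun y => ξ y p) z x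

theorem pxi1 (hO : IsOpen O) (hw : ContDiffOn ℝ ∞ w O) (hξ : ∀ p, ContDiffOn ℝ ∞ (fun y => ξ y p) O)
    (hk : ∀ y ∈ O, KM w y (ξ y)) (hz : z ∈ O) (x : E n) (l : Fin n) :
    ∑ k, x k * Mt w z (ξ z) k l = -∑ p, dx ξ z x p * LM w z p l := by
  have h1 : (fun y => ∑ p, ξ y p * LM w y p l) =ᶠ[𝓝 z] fun _ => (0 : ℂ) := by
    filter_upwards [hO.mem_nhds hz] with y hy
    exact hk y hy l
  have h2 := d10_congr (a := x) h1
  have hL : ∀ p, ContDiffOn ℝ ∞ (fun y => LM w y p l) O := fun p => contDiffOn_LM hO hw p l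
  rw [d10_const, d10_sum Finset.univ (fun p y => ξ y p * LM w y p l)
    (fun p _ => diffAt_of hO ((hξ p).mul (hL p)) hz)] at h2
  have h3 : ∀ p, d10 (fun y => ξ y p * LM w y p l) z x
      = dx ξ z x p * LM w z p l + ξ z p * d10 (fun y => LM w y p l) z x := fun p =>
    d10_mul (diffAt_of hO (hξ p) hz) (diffAt_of hO (hL p) hz)
  simp only [h3, Finset.sum_add_distrib] at h2
  rw [cls1 hO hw hz (ξ z) x l] at h2
  linear_combination h2

theorem pxi3 (hO : IsOpen O) (hw : ContDiffOn ℝ ∞ w O) (hξ : ∀ p, ContDiffOn ℝ ∞ (fun y => ξ y p) O)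
    (hk : ∀ y ∈ O, KM w y (ξ y)) (hz : z ∈ O) (x y : E n) :
    ∑ p, ∑ l, dxb ξ z x p * conj (y l) * LM w z p l
      = ∑ p, ∑ l, dxb ξ z y p * conj (x l) * LM w z p l := by
  have key : ∀ x' : E n, ∀ l, ∑ p, dxb ξ z x' p * LM w z p l
      = -∑ p, ∑ q, ξ z p * conj (x' q) * pb q (fun y => LM w y p l) z := by
    intro x' l
    have h1 : (fun y => ∑ p, ξ y p * LM w y p l) =ᶠ[𝓝 z] fun _ => (0 : ℂ) := by
      filter_upwards [hO.mem_nhds hz] with y hy
      exact hk y hy l
    have h2 := d01_congr (a := x') h1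
    have hL : ∀ p, ContDiffOn ℝ ∞ (fun y => LM w y p l) O := fun p => contDiffOn_LM hO hw p l
    rw [d01_const, d01_sum Finset.univ (fun p y => ξ y p * LM w y p l)
      (fun p _ => diffAt_of hO ((hξ p).mul (hL p)) hz)] at h2
    have h3 : ∀ p, d01 (fun y => ξ y p * LM w y p l) z x'
        = dxb ξ z x' p * LM w z p l
          + ∑ q, ξ z p * conj (x' q) * pb q (fun y => LM w y p l) z := by
      intro p
      rw [d01_mul (diffAt_of hO (hξ p) hz) (diffAt_of hO (hL p) hz),
        d01_eq_sum (fun y => LM w y p l) z x', Finset.mul_sum]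
      refine congrArg₂ (· + ·) rfl (Finset.sum_congr rfl fun q _ => ?_)
      ring
    simp only [h3, Finset.sum_add_distrib] at h2
    linear_combination h2
  have h4 : ∀ x' y' : E n, ∑ p, ∑ l, dxb ξ z x' p * conj (y' l) * LM w z p l
      = -∑ l, ∑ q, ∑ p, ξ z p * conj (y' l) * conj (x' q) * pb q (fun y => LM w y p l) z := by
    intro x' y'
    rw [Finset.sum_comm, ← Finset.sum_neg_distrib]
    refine Finset.sum_congr rfl fun l _ => ?_
    have h5 : ∑ p, dxb ξ z x' p * conj (y' l) * LM w z p l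
        = conj (y' l) * ∑ p, dxb ξ z x' p * LM w z p l := by
      rw [Finset.mul_sum]
      exact Finset.sum_congr rfl fun p _ => by ring
    rw [h5, key x' l, mul_neg, Finset.sum_comm, Finset.mul_sum]
    congr 1
    refine Finset.sum_congr rfl fun q _ => ?_
    rw [Finset.mul_sum]
    exact Finset.sum_congr rfl fun p _ => by ring
  rw [h4 x y, h4 y x, Finset.sum_comm]
  congr 1
  refine Finset.sum_congr rfl fun l _ => Finset.sum_congr rfl fun q _ =>
    Finset.sum_congr rfl fun p _ => ?_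
  rw [pb_LM hO hw hz l p q]
  ring

theorem pxi4 (hO : IsOpen O) (hw : ContDiffOn ℝ ∞ w O) (hξ : ∀ p, ContDiffOn ℝ ∞ (fun y => ξ y p) O)
    (hk : ∀ y ∈ O, KM w y (ξ y)) (hz : z ∈ O) (x : E n) :
    ∑ k, ∑ l, x k * conj (x l) * Mtt w z (ξ z) k l
      = (∑ p, ∑ q, dx ξ z x p * conj (dx ξ z x q) * LM w z p q)
        + ∑ p, ∑ q, dxb ξ z x p * conj (dxb ξ z x q) * LM w z p q := by
  have hL : ∀ p q, ContDiffOn ℝ ∞ (fun y => LM w y p q) O := fun p q => contDiffOn_LM hO hw p q
  have hα : ∀ p, ContDiffOn ℝ ∞ (fun y => ξ z p - ξ y p) O := fun p =>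
    contDiffOn_const.sub (hξ p)
  rw [← cls3 hO hw hz (ξ z) x]
  have h1 : ∀ y ∈ O, (∑ p, ∑ q, (ξ z p * conj (ξ z q)) * LM w y p q)
      = ∑ p, ∑ q, (ξ z p - ξ y p) * conj (ξ z q - ξ y q) * LM w y p q := by
    intro y hy
    have h2 : ∀ p, ∑ q, conj (ξ y q) * LM w y p q = 0 := km_conj hO hw hy (hk y hy)
    have h3 : ∑ p, ∑ q, ξ z p * conj (ξ y q) * LM w y p q = 0 := by
      refine Finset.sum_eq_zero fun p _ => ?_
      have : ∑ q, ξ z p * conj (ξ y q) * LM w y p q = ξ z p * ∑ q, conj (ξ y q) * LM w y p q := by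
        rw [Finset.mul_sum]
        exact Finset.sum_congr rfl fun q _ => by ring
      rw [this, h2, mul_zero]
    have h4 : ∑ p, ∑ q, ξ y p * conj (ξ z q - ξ y q) * LM w y p q = 0 := by
      rw [Finset.sum_comm]
      refine Finset.sum_eq_zero fun q _ => ?_
      have : ∑ p, ξ y p * conj (ξ z q - ξ y q) * LM w y p q
          = conj (ξ z q - ξ y q) * ∑ p, ξ y p * LM w y p q := by
        rw [Finset.mul_sum]
        exact Finset.sum_congr rfl fun p _ => by ring
      rw [this, hk y hy q, mul_zero]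
    have h5 : ∑ p, ∑ q, (ξ z p - ξ y p) * conj (ξ z q - ξ y q) * LM w y p q
        = ∑ p, ∑ q, (ξ z p * conj (ξ z q)) * LM w y p q
          - ∑ p, ∑ q, ξ z p * conj (ξ y q) * LM w y p q
          - ∑ p, ∑ q, ξ y p * conj (ξ z q - ξ y q) * LM w y p q := by
      rw [← Finset.sum_sub_distrib, ← Finset.sum_sub_distrib]
      refine Finset.sum_congr rfl fun p _ => ?_
      rw [← Finset.sum_sub_distrib, ← Finset.sum_sub_distrib]
      refine Finset.sum_congr rfl fun q _ => ?_
      rw [map_sub]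
      ring
    rw [h5, h3, h4]
    ring
  have h6 := pxi_cong2 hO hz x h1
  rw [pxi_sum2 hO hz x (fun p q y => (ξ z p * conj (ξ z q)) * LM w y p q)
    (fun p q => contDiffOn_const.mul (hL p q)),
    pxi_sum2 hO hz x (fun p q y => (ξ z p - ξ y p) * conj (ξ z q - ξ y q) * LM w y p q)
    (fun p q => ((hα p).mul (pxi_conj (hα q))).mul (hL p q))] at h6
  have h7 : ∀ p q, d10 (fun y => d01 (fun y' => (ξ z p * conj (ξ z q)) * LM w y' p q) y x) z x
      = ξ z p * conj (ξ z q) * d10 (fun y => d01 (fun y' => LM w y' p q) y x) z x := fun p q =>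
    pxi_const2 hO hz x (hL p q) _
  have hd1 : ∀ p, d10 (fun y => ξ z p - ξ y p) z x = -dx ξ z x p := by
    intro p
    have h8 : (fun y => ξ z p - ξ y p) = fun y => ξ z p + (-1) * ξ y p := by
      funext y; ring
    have hp := diffAt_of hO (hξ p) hz
    have h9 := d10_add (a := x) (f := fun _ => ξ z p) (g := fun y => (-1) * ξ y p)
      (differentiableAt_const _) ((differentiableAt_const _).mul hp)
    rw [h8, h9, d10_const, d10_const_mul hp]
    unfold dx
    ring
  have hd2 : ∀ p, d01 (fun y => ξ z p - ξ y p) z x = -dxb ξ z x p := by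
    intro p
    have h8 : (fun y => ξ z p - ξ y p) = fun y => ξ z p + (-1) * ξ y p := by
      funext y; ring
    have hp := diffAt_of hO (hξ p) hz
    have h9 := d01_add (a := x) (f := fun _ => ξ z p) (g := fun y => (-1) * ξ y p)
      (differentiableAt_const _) ((differentiableAt_const _).mul hp)
    rw [h8, h9, d01_const, d01_const_mul hp]
    unfold dxb
    ring
  have h9 : ∀ p q, d10 (fun y => d01 (fun y' => (ξ z p - ξ y' p) * conj (ξ z q - ξ y' q)
      * LM w y' p q) y x) z x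
      = dx ξ z x p * conj (dx ξ z x q) * LM w z p q
        + dxb ξ z x p * conj (dxb ξ z x q) * LM w z p q := by
    intro p q
    rw [pxi_aux hO hz x (hα p) (pxi_conj (hα q)) (hL p q) (sub_self _) (by simp),
      d10_conj (diffAt_of hO (hα q) hz), d01_conj (diffAt_of hO (hα q) hz), hd1, hd1, hd2, hd2,
      map_neg, map_neg]
    ring
  simp only [h7, h9, Finset.sum_add_distrib] at h6
  exact h6

end Pool.Agent.ARK
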