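import Pool.Agent.ARK.Kfr
import Pool.Agent.ARK.Pxi

/-!
ARK module Hok (size 3): a smooth frame with `∂̄ ξ` in the kernel is holomorphic.
PROOF. Components: for `l ∉ range J` the function `y ↦ ξ k y l` is constant on `O` (`Frame.off`), so `dxb (ξ k) y x l = 0`; so `dxb (ξ k) y x = 0` by `Frame.uniq`. Hence `pb q (fun y => ξ k y l) y = 0` on `O` and `y ↦ ξ k y l` is complex
differentiable on `O` (`diff_of_pb` in CYF/Comm), `DifferentiableOn ℂ (ξ k) O` (`differentiableOn_pi`). `HolKer`: let `d` be the number of `k ∉ range J` and `φ : Fin d ≃ {k // k ∉ range J}`, the fields `ξ (φ s)`. Linear independence at `y ∈ O`: the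
component with index `φ t` of `∑ s, c s • ξ (φ s) y` is `c t` (`Frame.off`). Kernel: `⊇`: `Frame.ker`, `km_sum`, `ker_iff` (span: `Submodule.span_le`, or `Submodule.mem_span_range_iff_exists_fun`). `⊆`: `a = ∑ k, a k • ξ k y` (`Frame.span`), where `ξ k y = 0` for `k ∈ range J`
(`Frame.uniq`: its components off the range of `J` are zero by `off`), so it is a combination of the `ξ (φ s) y`.
-/

open scoped ContDiff ComplexConjugate Topology ComplexOrder
open Complex MeasureTheory Matrix

namespace Pool.Agent.ARK

open Pool.Agent.CYF Pool.Agent.NDC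

variable {n : ℕ} {X : Type*} [TopologicalSpace X] {ι : Type*} {A : Mfd n X ι}

/-- the components of the frame are holomorphic -/
theorem frame_pb {w : E n → ℝ} {ν : ℕ} {J : Fin ν → Fin n} {O : Set (E n)} {ξ : Fin n → E n → E n}
    (hF : Frame w J O ξ) {y : E n} (hy : y ∈ O) (k : Fin n)
    (h : ∀ x, KM w y (dxb (ξ k) y x)) (x : E n) (l : Fin n) :
    d01 (fun y' => ξ k y' l) y x = 0 := by
  have h1 : dxb (ξ k) y x = 0 := by
    apply hF.uniq y hy _ (h x)
    intro l' hl'
    have h2 : (fun y' => ξ k y' l') =ᶠ[𝓝 y] fun _ => if l' = k then (1 : ℂ) else 0 := by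
      filter_upwards [hF.isOpen.mem_nhds hy] with y' hy'
      exact hF.off y' hy' k l' hl'
    show d01 (fun y' => ξ k y' l') y x = 0
    rw [d01_congr h2, d01_const]
  exact congrFun h1 l

theorem holKer_of (η : Form A) {ν : ℕ} {i : ι} {z : E n} {J : Fin ν → Fin n} {O : Set (E n)}
    {ξ : Fin n → E n → E n} (hF : Frame (η.w i) J O ξ) (hO : O ⊆ (A.c i).target) (hz : z ∈ O)
    (h : ∀ y ∈ O, ∀ k x, KM (η.w i) y (dxb (ξ k) y x)) : HolKer η i z := by
  classical
  let S := {k : Fin n // k ∉ Set.range J}
  let φ : Fin (Fintype.card S) ≃ S := (Fintype.equivFin S).symm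
  have hdiff : ∀ k, DifferentiableOn ℂ (ξ k) O := by
    intro k
    rw [differentiableOn_pi]
    intro l y hy
    refine (diff_of_pb (diffAt_of hF.isOpen (hF.smooth k l) hy) ?_).differentiableWithinAt
    intro q
    exact frame_pb hF hy k (h y hy k) (e q) l
  refine ⟨O, hF.isOpen, hz, hO, Fintype.card S, fun s => ξ (φ s).1, fun s => hdiff _, ?_⟩
  intro y hy
  constructor
  · rw [Fintype.linearIndependent_iff]
    intro g hg t
    have h1 := congrFun hg (φ t).1
    have h2 : ∀ s, (g s • ξ (φ s).1 y) (φ t).1 = if s = t then g t else 0 := by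
      intro s
      rw [Pi.smul_apply, smul_eq_mul, hF.off y hy _ _ (φ t).2]
      by_cases hst : s = t
      · subst hst; simp
      · have h3 : ¬ ((φ t).1 = (φ s).1) := by
          intro h4
          exact hst (φ.injective (Subtype.ext h4.symm))
        rw [if_neg h3, if_neg hst, mul_zero]
    rw [Finset.sum_apply] at h1
    simp only [h2] at h1
    simpa using h1
  · intro a
    rw [ker_iff η (hO hy)]
    constructor
    · intro ha
      rw [hF.span y hy a ha]
      refine Submodule.sum_mem _ fun k _ => ?_
      by_cases hk : k ∈ Set.range J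
      · have h0 : ξ k y = 0 := by
          apply hF.uniq y hy _ (hF.ker y hy k)
          intro l hl
          rw [hF.off y hy k l hl, if_neg]
          rintro rfl
          exact hl hk
        rw [h0, smul_zero]
        exact Submodule.zero_mem _
      · refine Submodule.smul_mem _ _ (Submodule.subset_span ⟨φ.symm ⟨k, hk⟩, ?_⟩)
        simp
    · intro ha
      rw [Submodule.mem_span_range_iff_exists_fun] at ha
      obtain ⟨c, rfl⟩ := ha
      exact km_sum _ _ _ fun s _ => hF.ker y hy _

end Pool.Agent.ARK
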