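import Pool.Agent.ARK.Box

/-!
ARK: the complex structure of `T / ker η` in the frame dual to `du_j` is constant along the leaves.
-/

open scoped ContDiff ComplexConjugate Topology ComplexOrder
open Complex MeasureTheory Matrix

namespace Pool.Agent.ARK

open Pool.Agent.CYF Pool.Agent.NDC

variable {n : ℕ} {X : Type*} [TopologicalSpace X] {ι : Type*} {A : Mfd n X ι} {z : E n}
  {η : Form A} {ν : ℕ} {N : ℕ} {w : E n → ℝ} {O : Set (E n)}

/-- the bracket of a field dual to `du_k` with a section of the kernel is in the kernel -/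
theorem dual_bracket (hO : IsOpen O) {u : Fin N → E n → ℝ} (hu : ∀ j, ContDiffOn ℝ ∞ (u j) O)
    (hker : ∀ y ∈ O, ∀ a, (∀ k, fderiv ℝ (u k) y a = 0) ↔ KM w y a) {f ζ : E n → E n}
    (hf : ∀ q, ContDiffOn ℝ ∞ (fun y => f y q) O) {c : Fin N → ℝ}
    (hc : ∀ y ∈ O, ∀ k, fderiv ℝ (u k) y (f y) = c k) (hζ : KF w O ζ) (hz : z ∈ O) :
    KM w z (fderiv ℝ f z (ζ z) - fderiv ℝ ζ z (f z)) := by
  have hfd : ∀ {g : E n → E n}, (∀ q, ContDiffOn ℝ ∞ (fun y => g y q) O) →
      HasFDerivAt g (fderiv ℝ g z) z := by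
    intro g hg
    have h1 : ContDiffOn ℝ ∞ g O := contDiffOn_pi.2 hg
    exact ((h1.contDiffAt (hO.mem_nhds hz)).differentiableAt (by simp)).hasFDerivAt
  rw [← hker z hz]
  intro k
  have hD : ContDiffOn ℝ ∞ (fderiv ℝ (u k)) O := (hu k).fderiv_of_isOpen hO (by simp)
  have hDd : HasFDerivAt (fderiv ℝ (u k)) (fderiv ℝ (fderiv ℝ (u k)) z) z :=
    ((hD.contDiffAt (hO.mem_nhds hz)).differentiableAt (by simp)).hasFDerivAt
  have h2 : (2 : WithTop ℕ∞) ≤ ∞ := WithTop.coe_le_coe.2 (le_top : (2 : ℕ∞) ≤ ⊤)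
  have hsym : IsSymmSndFDerivAt ℝ (u k) z :=
    (((hu k).contDiffAt (hO.mem_nhds hz)).of_le h2).isSymmSndFDerivAt (by simp)
  have e1 : ∀ v, fderiv ℝ (fderiv ℝ (u k)) z v (f z) + fderiv ℝ (u k) z (fderiv ℝ f z v) = 0 := by
    intro v
    have h3 := hDd.clm_apply (hfd hf)
    have h4 : (fun y => fderiv ℝ (u k) y (f y)) =ᶠ[𝓝 z] fun _ => c k := by
      filter_upwards [hO.mem_nhds hz] with y hy
      exact hc y hy k
    have h5 := (h3.congr_of_eventuallyEq h4.symm).unique (hasFDerivAt_const (c k) z)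
    have h6 := congrArg (fun L => L v) h5
    simp only [ContinuousLinearMap.comp_apply, _root_.add_apply,
      ContinuousLinearMap.flip_apply, _root_.zero_apply] at h6
    linarith
  have e2 : ∀ v, fderiv ℝ (fderiv ℝ (u k)) z v (ζ z) + fderiv ℝ (u k) z (fderiv ℝ ζ z v) = 0 := by
    intro v
    have h3 := hDd.clm_apply (hfd hζ.sm)
    have h4 : (fun y => fderiv ℝ (u k) y (ζ y)) =ᶠ[𝓝 z] fun _ => (0 : ℝ) := by
      filter_upwards [hO.mem_nhds hz] with y hy
      exact (hker y hy _).2 (hζ.km y hy) k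
    have h5 := (h3.congr_of_eventuallyEq h4.symm).unique (hasFDerivAt_const (0 : ℝ) z)
    have h6 := congrArg (fun L => L v) h5
    simp only [ContinuousLinearMap.comp_apply, _root_.add_apply,
      ContinuousLinearMap.flip_apply, _root_.zero_apply] at h6
    linarith
  have h3 := e1 (ζ z)
  have h4 := e2 (f z)
  have h5 : fderiv ℝ (fderiv ℝ (u k)) z (ζ z) (f z) = fderiv ℝ (fderiv ℝ (u k)) z (f z) (ζ z) :=
    hsym (ζ z) (f z)
  rw [map_sub]
  linarith

/-- the derivative of `du_k (i f_j)` along a holomorphic section of the kernel is zero -/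
theorem jf_deriv (hO : IsOpen O) {u : Fin N → E n → ℝ} (hu : ∀ j, ContDiffOn ℝ ∞ (u j) O)
    (hker : ∀ y ∈ O, ∀ a, (∀ k, fderiv ℝ (u k) y a = 0) ↔ KM w y a) {f ξ : E n → E n}
    (hf : ∀ q, ContDiffOn ℝ ∞ (fun y => f y q) O) {c : Fin N → ℝ}
    (hc : ∀ y ∈ O, ∀ k, fderiv ℝ (u k) y (f y) = c k) (hξ : KF w O ξ)
    (hξh : DifferentiableAt ℂ ξ z) (hz : z ∈ O) (k : Fin N) :
    fderiv ℝ (fun y => fderiv ℝ (u k) y (I • f y)) z (ξ z) = 0 := by
  have hfd : ∀ {g : E n → E n}, (∀ q, ContDiffOn ℝ ∞ (fun y => g y q) O) →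
      HasFDerivAt g (fderiv ℝ g z) z := by
    intro g hg
    have h1 : ContDiffOn ℝ ∞ g O := contDiffOn_pi.2 hg
    exact ((h1.contDiffAt (hO.mem_nhds hz)).differentiableAt (by simp)).hasFDerivAt
  have hD : ContDiffOn ℝ ∞ (fderiv ℝ (u k)) O := (hu k).fderiv_of_isOpen hO (by simp)
  have hDd : HasFDerivAt (fderiv ℝ (u k)) (fderiv ℝ (fderiv ℝ (u k)) z) z :=
    ((hD.contDiffAt (hO.mem_nhds hz)).differentiableAt (by simp)).hasFDerivAt
  have h2 : (2 : WithTop ℕ∞) ≤ ∞ := WithTop.coe_le_coe.2 (le_top : (2 : ℕ∞) ≤ ⊤)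
  have hsym : IsSymmSndFDerivAt ℝ (u k) z :=
    (((hu k).contDiffAt (hO.mem_nhds hz)).of_le h2).isSymmSndFDerivAt (by simp)
  have hbr := dual_bracket hO hu hker hf hc hξ hz
  -- the derivative
  have h3 : HasFDerivAt (fun y => I • f y) (I • fderiv ℝ f z) z := (hfd hf).const_smul I
  have h4 := hDd.clm_apply h3
  have h5 : fderiv ℝ (fun y => fderiv ℝ (u k) y (I • f y)) z (ξ z)
      = fderiv ℝ (fderiv ℝ (u k)) z (ξ z) (I • f z)
        + fderiv ℝ (u k) z (I • fderiv ℝ f z (ξ z)) := by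
    rw [h4.fderiv]
    simp only [ContinuousLinearMap.comp_apply, _root_.add_apply,
      ContinuousLinearMap.flip_apply, _root_.smul_apply]
    ring
  have e2 : ∀ v, fderiv ℝ (fderiv ℝ (u k)) z v (ξ z) + fderiv ℝ (u k) z (fderiv ℝ ξ z v) = 0 := by
    intro v
    have h3 := hDd.clm_apply (hfd hξ.sm)
    have h4 : (fun y => fderiv ℝ (u k) y (ξ y)) =ᶠ[𝓝 z] fun _ => (0 : ℝ) := by
      filter_upwards [hO.mem_nhds hz] with y hy
      exact (hker y hy _).2 (hξ.km y hy) k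
    have h5 := (h3.congr_of_eventuallyEq h4.symm).unique (hasFDerivAt_const (0 : ℝ) z)
    have h6 := congrArg (fun L => L v) h5
    simp only [ContinuousLinearMap.comp_apply, _root_.add_apply,
      ContinuousLinearMap.flip_apply, _root_.zero_apply] at h6
    linarith
  have h6 : fderiv ℝ ξ z (I • f z) = I • fderiv ℝ ξ z (f z) := by
    have h7 : HasFDerivAt ξ ((fderiv ℂ ξ z).restrictScalars ℝ) z :=
      hξh.hasFDerivAt.restrictScalars ℝ
    rw [h7.fderiv]
    simp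
  have h7 : fderiv ℝ (fderiv ℝ (u k)) z (ξ z) (I • f z)
      = fderiv ℝ (fderiv ℝ (u k)) z (I • f z) (ξ z) := hsym (ξ z) (I • f z)
  have h8 := e2 (I • f z)
  rw [h6] at h8
  have h9 : fderiv ℝ (u k) z (I • (fderiv ℝ f z (ξ z) - fderiv ℝ ξ z (f z))) = 0 :=
    (hker z hz _).2 (km_smul I hbr) k
  rw [smul_sub, map_sub] at h9
  rw [h5, h7]
  linarith

open Classical in
/-- the entries `du_k (i f_j)` of the complex structure of `T / ker η` -/
noncomputable def Jf (A : Mfd n X ι) (u : Fin N → X → ℝ) (k j : Fin N) (x : X) : ℝ :=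
  if h : ∃ f, DualAt A u (ix A x) (A.c (ix A x) x) f then
    fderiv ℝ (vt A (u k) (ix A x)) (A.c (ix A x) x) (I • h.choose j) else 0

theorem jf_eq [T2Space X] {u : Fin (2 * ν) → X → ℝ} (hu : ∀ j, KerConst η ν (u j)) {i : ι}
    (hg : Gd η ν u i z) {f : Fin (2 * ν) → E n} (hf : DualAt A u i z f) (k j : Fin (2 * ν)) :
    vt A (Jf A u k j) i z = fderiv ℝ (vt A (u k) i) z (I • f j) := by
  set x : X := (A.c i).symm z with hx
  have hUo : z ∈ Uo A i (ix A x) := ⟨hg.1.1, mem_ix A x⟩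
  have hsm : ∀ j, Sm A (u j) := fun j => (hu j).sm
  have hg' := Gd.ph hsm hUo hg
  have hf' := DualAt.ph hsm hUo hf
  have hph : ph A i (ix A x) z = A.c (ix A x) x := rfl
  rw [hph] at hg' hf'
  have hex : ∃ f, DualAt A u (ix A x) (A.c (ix A x) x) f := ⟨_, hf'⟩
  show Jf A u k j x = _
  unfold Jf
  rw [dif_pos hex, fderiv_vt_ph (hsm k) hUo, hph,
    ContinuousLinearMap.map_smul (fderiv ℂ (ph A i (ix A x)) z) I (f j)]
  have h1 : Ker η (ix A x) (A.c (ix A x) x)
      (hex.choose j - fderiv ℂ (ph A i (ix A x)) z (f j)) := by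
    rw [← Full.ker_iff_real hu hg'.1 hg'.2]
    intro k
    rw [map_sub, hex.choose_spec j k, hf' j k, sub_self]
  have h2 : Ker η (ix A x) (A.c (ix A x) x)
      (I • (hex.choose j - fderiv ℂ (ph A i (ix A x)) z (f j))) := by
    rw [ker_iff η hg'.1.1] at h1 ⊢
    exact km_smul I h1
  have h3 := (Full.ker_iff_real hu hg'.1 hg'.2 _).2 h2 k
  rw [smul_sub, map_sub, sub_eq_zero] at h3
  exact h3

/-- on the set of compact leaves the entries are smooth and constant along the leaves -/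
theorem jf_loc [T2Space X] [CompactSpace X] {om : Form A} (hη : η.Semipositive) (hν : η.RankLE ν)
    (hom : om.Positive) {u : Fin (2 * ν) → X → ℝ} (hu : ∀ j, KerConst η ν (u j)) {i : ι}
    (hz : z ∈ (A.c i).target) (hzQ : (A.c i).symm z ∈ Qs η ν u) (k j : Fin (2 * ν)) :
    ContDiffAt ℝ ∞ (vt A (Jf A u k j) i) z ∧
      ∀ a, Ker η i z a → fderiv ℝ (vt A (Jf A u k j) i) z a = 0 := by
  obtain ⟨Q, -, -, -, -⟩ := leaves hη hν hom hu
  have hgdQ : ∀ i, ∀ z ∈ (A.c i).target, (A.c i).symm z ∈ Qs η ν u → Gd η ν u i z := by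
    intro i z hz hzQ
    have h1 := hzQ _ (mem_Tc u _) i ((A.c i).map_target hz)
    rwa [(A.c i).right_inv hz] at h1
  have hclosed : IsCompact (Tc u ((A.c i).symm z)) := by
    have hg := hgdQ i z hz hzQ
    exact (leaf_closed hη hν hu (i := i) (z := z) hg.1 rfl rfl (by
      intro i' z' hz' hz'T
      have h1 := hzQ _ hz'T i' ((A.c i').map_target hz')
      rw [(A.c i').right_inv hz'] at h1
      exact h1.2)).1
  have hhol : HK η i z := by
    refine leaf_hol hη hν hom hu rfl hclosed ?_ hz (mem_Tc u _)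
    intro i' z' hz' hz'T
    have h1 := hzQ _ hz'T i' ((A.c i').map_target hz')
    rwa [(A.c i').right_inv hz'] at h1
  have hg := hgdQ i z hz hzQ
  obtain ⟨ν', J, O₁, ξ, hzO₁, hO₁t, hFr, hdxb⟩ := hhol
  have hO₁ := hFr.isOpen
  obtain ⟨O₂, hO₂, hzO₂, hO₂s, f, hfs, hfd⟩ :=
    dual_frame (A.c i).open_target (fun j => (hu j).sm i) hz hg.2
  obtain ⟨O₃, hO₃, hzO₃, hgO₃, -⟩ := psi_loc hη hν hu hg
  set O : Set (E n) := O₁ ∩ O₂ ∩ O₃ with hOdef
  have hO : IsOpen O := (hO₁.inter hO₂).inter hO₃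
  have hzO : z ∈ O := ⟨⟨hzO₁, hzO₂⟩, hzO₃⟩
  have hOt : O ⊆ (A.c i).target := fun y hy => hO₁t hy.1.1
  have hfsO : ∀ j q, ContDiffOn ℝ ∞ (fun y => f j y q) O := fun j q =>
    (hfs j q).mono fun y hy => hy.1.2
  have huO : ∀ j, ContDiffOn ℝ ∞ (vt A (u j) i) O := fun j => ((hu j).sm i).mono hOt
  have hker : ∀ y ∈ O, ∀ a, (∀ k, fderiv ℝ (vt A (u k) i) y a = 0) ↔ KM (η.w i) y a := by
    intro y hy a
    rw [Full.ker_iff_real hu (hgO₃ y hy.2).1 (hgO₃ y hy.2).2, ker_iff η (hOt hy)]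
  have hloc : ∀ y ∈ O, vt A (Jf A u k j) i y = fderiv ℝ (vt A (u k) i) y (I • f j y) :=
    fun y hy => jf_eq hu (hgO₃ y hy.2) (f := fun j => f j y) (fun j k => hfd y hy.1.2 j k) k j
  have hev : vt A (Jf A u k j) i =ᶠ[𝓝 z] fun y => fderiv ℝ (vt A (u k) i) y (I • f j y) :=
    Filter.eventuallyEq_of_mem (hO.mem_nhds hzO) hloc
  constructor
  · have h1 : ContDiffOn ℝ ∞ (fderiv ℝ (vt A (u k) i)) O :=
      (huO k).fderiv_of_isOpen hO (by simp)
    have h2 : ContDiffOn ℝ ∞ (fun y => I • f j y) O := by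
      have h3 : ContDiffOn ℝ ∞ (f j) O := contDiffOn_pi.2 (hfsO j)
      exact h3.const_smul I
    have h4 := h1.clm_apply h2
    exact (h4.contDiffAt (hO.mem_nhds hzO)).congr_of_eventuallyEq hev
  · intro a ha
    have ha' := (ker_iff η hz a).1 ha
    have hc : (∑ k, a k • ξ k z) = a := (hFr.span z hzO₁ a ha').symm
    rw [hev.fderiv_eq]
    have hKF : KF (η.w i) O fun y => ∑ k, a k • ξ k y := by
      refine ⟨fun q => ?_, fun y hy => km_sum _ _ _ fun k _ => hFr.ker y hy.1.1 k⟩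
      have h1 : (fun y => (∑ k, a k • ξ k y) q) = fun y => ∑ k, a k * ξ k y q := by
        funext y
        rw [Finset.sum_apply]
        rfl
      rw [h1]
      exact ContDiffOn.sum fun k _ => contDiffOn_const.mul
        ((hFr.smooth k q).mono fun y hy => hy.1.1)
    have hdh : DifferentiableAt ℂ (fun y => ∑ k, a k • ξ k y) z := by
      refine DifferentiableAt.fun_sum fun s _ => ?_
      have h1 : DifferentiableAt ℂ (ξ s) z := by
        rw [differentiableAt_pi]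
        intro l
        refine diff_of_pb (diffAt_of hO₁ (hFr.smooth s l) hzO₁) fun q => ?_
        exact frame_pb hFr hzO₁ s (hdxb z hzO₁ s) (Pool.Agent.CYF.e q) l
      exact h1.const_smul (a s)
    have h1 := jf_deriv hO huO hker (hfsO j) (c := fun k => if k = j then 1 else 0)
      (fun y hy k => hfd y hy.1.2 j k) hKF hdh hzO k
    simp only [hc] at h1
    exact h1

theorem jf_const [T2Space X] [CompactSpace X] {om : Form A} (hη : η.Semipositive)
    (hν : η.RankLE ν) (hom : om.Positive) {u : Fin (2 * ν) → X → ℝ}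
    (hu : ∀ j, KerConst η ν (u j)) {x : X} (hx : x ∈ Qs η ν u) (k j : Fin (2 * ν)) :
    ∀ y ∈ Tc u x, Jf A u k j y = Jf A u k j x := by
  have hQo := Qs_open hη hν hu
  refine comp_const (L := {y | ∀ j, u j y = u j x}) (fun _ => rfl) fun y hy => ?_
  have hyQ : y ∈ Qs η ν u := by
    intro y' hy'
    have h1 : y' ∈ Tc u y := hy'
    rw [Tc_eq hy] at h1
    exact hx y' h1
  have hgd : Gd η ν u (ix A y) (A.c (ix A y) y) := hyQ _ (mem_Tc u y) _ (mem_ix A y)
  have hsmJ : SmOn A (Qs η ν u) (Jf A u k j) := by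
    intro i z hz
    exact (jf_loc hη hν hom hu hz.1 hz.2 k j).1.contDiffWithinAt
  have h1 := loc_const_real (A := A) (Y := Qs η ν u) hQo (fun j => (hu j).sm.smOn _) hsmJ hyQ
    (mem_ix A y) (fun y' hy' hli a ha => ?_) hgd.2
  · filter_upwards [h1] with y' hy' hyL'
    refine hy' fun j => ?_
    rw [hyL' j, Tc_level hy j]
  · have hg' : Gd η ν u (ix A y) y' := by
      have h2 := hy'.2 _ (mem_Tc u _) (ix A y) ((A.c (ix A y)).map_target hy'.1)
      rwa [(A.c (ix A y)).right_inv hy'.1] at h2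
    exact (jf_loc hη hν hom hu hy'.1 hy'.2 k j).2 a ((Full.ker_iff_real hu hg'.1 hg'.2 a).1 ha)

end Pool.Agent.ARK
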