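import Pool.Agent.ARK.Defs
import Pool.Agent.NDC.Glo
import Pool.Agent.NDC.Itp

/-!
ARK: auxiliary definitions (not used in the final statement).
-/

open scoped ContDiff ComplexConjugate Topology ComplexOrder
open Complex MeasureTheory Matrix

namespace Pool.Agent.ARK

open Pool.Agent.CYF Pool.Agent.NDC

variable {n : ℕ} {X : Type*} [TopologicalSpace X] {ι : Type*} {A : Mfd n X ι}

/-- `a` is in the kernel of the Levi matrix -/
def KM (w : E n → ℝ) (z a : E n) : Prop := ∀ l, ∑ k, a k * LM w z k l = 0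

/-- derivatives of the Levi matrix at `z` in the direction `a` -/
noncomputable def Mt (w : E n → ℝ) (z a : E n) (k l : Fin n) : ℂ := d10 (fun y => LM w y k l) z a

/-- derivatives of the Levi matrix at `z` in the direction `a` -/
noncomputable def Mb (w : E n → ℝ) (z a : E n) (k l : Fin n) : ℂ := d01 (fun y => LM w y k l) z a

/-- second derivatives of the Levi matrix at `z` in the direction `a` -/
noncomputable def Mtt (w : E n → ℝ) (z a : E n) (k l : Fin n) : ℂ :=
  d10 (fun y => d01 (fun x => LM w x k l) y a) z a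

/-- Gram data: up to mixed second order the Levi matrix is, on the line `z + t a`, the Gram matrix of
the vectors `f k + t g k` of `ℂ^ρ`. -/
structure Gram (w : E n → ℝ) (z a : E n) {ρ : Type} [Fintype ρ] (f g : Fin n → ρ → ℂ) : Prop where
  m : ∀ k l, LM w z k l = ∑ s, f k s * conj (f l s)
  t : ∀ k l, Mt w z a k l = ∑ s, g k s * conj (f l s)
  b : ∀ k l, Mb w z a k l = ∑ s, f k s * conj (g l s)
  tt : ∀ k l, Mtt w z a k l = ∑ s, g k s * conj (g l s)

/-- tensor product of the vectors `f (K q)` -/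
noncomputable def FK {ρ : Type} [Fintype ρ] (f : Fin n → ρ → ℂ) {p : ℕ} (K : Fin p → Fin n)
    (S : Fin p → ρ) : ℂ := ∏ q, f (K q) (S q)

/-- derivative of the tensor product of the vectors `f (K q) + t g (K q)` -/
noncomputable def GK {ρ : Type} [Fintype ρ] (f g : Fin n → ρ → ℂ) {p : ℕ} (K : Fin p → Fin n)
    (S : Fin p → ρ) : ℂ :=
  ∑ q, g (K q) (S q) * ∏ r ∈ Finset.univ.erase q, f (K r) (S r)

/-- the covariant derivative of `τ` in the direction `a`, in terms of Gram data -/
noncomputable def DD (w : E n → ℝ) (m : ℝ) {p : ℕ} (τ : (Fin p → Fin n) → E n → ℂ) (z a : E n)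
    {ρ : Type} [Fintype ρ] (f g : Fin n → ρ → ℂ) (S : Fin p → ρ) : ℂ :=
  ∑ K, ((d10 (τ K) z a - (m : ℂ) * d10 (cx w) z a * τ K z) * FK f K S + τ K z * GK f g K S)

/-- the points `0, 1, ..., n` are distinct -/
theorem cf_inj (n : ℕ) : Function.Injective fun a : Fin (n + 1) => ((a : ℕ) : ℂ) := by
  intro a b h
  have h1 : ((a : ℕ) : ℂ) = ((b : ℕ) : ℂ) := h
  exact Fin.ext (by exact_mod_cast h1)

/-- coefficients of the interpolation formula for the coefficient of `X^ν` -/
noncomputable def cf (n ν : ℕ) : Fin (n + 1) → ℂ :=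
  (itp (d := n) (cf_inj n) (Polynomial.lcoeff ℂ ν)).choose

theorem cf_spec (n ν : ℕ) (p : Polynomial ℂ) (hp : p.natDegree ≤ n) :
    p.coeff ν = ∑ a, cf n ν a * p.eval (((a : ℕ) : ℂ)) := by
  have h := (itp (d := n) (cf_inj n) (Polynomial.lcoeff ℂ ν)).choose_spec p hp
  rw [Polynomial.lcoeff_apply] at h
  exact h

/-- the coefficient of `s^ν` in `tr (adj (s M + W) B)` -/
noncomputable def lt (ν : ℕ) (W M B : Matrix (Fin n) (Fin n) ℂ) : ℂ :=
  ∑ a : Fin (n + 1), cf n ν a * (((((a : ℕ) : ℂ)) • M + W).adjugate * B).trace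

/-- contraction of a form on `Λ^q` or `T^(⊗q)` with the inverse metric `N` -/
noncomputable def ctr {q : ℕ} (N : Matrix (Fin n) (Fin n) ℂ)
    (Φ : (Fin q → Fin n) → (Fin q → Fin n) → ℂ) : ℂ :=
  ∑ K, ∑ L, Φ K L * ∏ a, N (L a) (K a)

/-- `ν! η^ν ∧ om^(n-ν) / om^n` in the chart `i` (up to a constant) -/
noncomputable def nA (η om : Form A) (ν : ℕ) (i : ι) (z : E n) : ℝ :=
  (ctr (lm (om.w i) z)⁻¹ (fun K L : Fin ν → Fin n => ((lm (η.w i) z).submatrix K L).det)).re

/-- the square of the norm of the form `v` for the Kähler form `om` and the weight, in the chart `i`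
(up to a constant) -/
noncomputable def nB (η om : Form A) {ν : ℕ} (m : ℝ) (v : ι → (Fin ν → Fin n) → E n → ℂ) (i : ι)
    (z : E n) : ℝ :=
  (ctr (lm (om.w i) z)⁻¹ (fun K L : Fin ν → Fin n => v i K z * conj (v i L z))).re
    * Real.exp (-(m * η.w i z))

/-- the global function `nA` -/
noncomputable def fA (η om : Form A) (ν : ℕ) (x : X) : ℝ := nA η om ν (ix A x) (A.c (ix A x) x)

/-- the global function `nB` -/
noncomputable def fB (η om : Form A) {ν : ℕ} (m : ℝ) (v : ι → (Fin ν → Fin n) → E n → ℂ) (x : X) :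
    ℝ := nB η om m v (ix A x) (A.c (ix A x) x)

/-- the Levi matrix of `log g` -/
noncomputable def LL (A : Mfd n X ι) (g : X → ℝ) (i : ι) (z : E n) : Matrix (Fin n) (Fin n) ℂ :=
  Matrix.of fun k l => LM (vt A g i) z k l / (vt A g i z : ℂ)
    - pk k (cx (vt A g i)) z * conj (pk l (cx (vt A g i)) z) / ((vt A g i z : ℂ)) ^ 2

/-- A smooth frame of the kernel of the Levi matrix on `O`: `ξ k` has the components `0` and `1`
(for `l = k`) outside the range of `J`, the minor with index `J` is not zero. -/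
structure Frame (w : E n → ℝ) {ν : ℕ} (J : Fin ν → Fin n) (O : Set (E n)) (ξ : Fin n → E n → E n) :
    Prop where
  isOpen : IsOpen O
  inj : Function.Injective J
  det_ne : ∀ y ∈ O, ((lm w y).submatrix J J).det ≠ 0
  smooth : ∀ k l, ContDiffOn ℝ ∞ (fun y => ξ k y l) O
  ker : ∀ y ∈ O, ∀ k, KM w y (ξ k y)
  off : ∀ y ∈ O, ∀ k l, l ∉ Set.range J → ξ k y l = if l = k then 1 else 0
  span : ∀ y ∈ O, ∀ a : E n, KM w y a → a = ∑ k, a k • ξ k y
  uniq : ∀ y ∈ O, ∀ a : E n, KM w y a → (∀ l, l ∉ Set.range J → a l = 0) → a = 0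

end Pool.Agent.ARK
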