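import Pool.Agent.ARK.Kfr
import Pool.Agent.ARK.Cls
import Pool.Agent.ARK.Lgm
import Pool.Agent.CYF.Jcb

/-!
ARK module Ldm (size 5): the logarithm of a principal minor of size `ν` is pluriharmonic along the kernel, if the kernel is
holomorphic.
PROOF. Let `ζ y = ∑ k, a k • ξ k y`, `ζ_p y = ζ y p`: holomorphic components on `O` (`hhol`: `d01 (ξ k · l) y x = 0`, linear), `KM w y (ζ y)` (`km_sum`), constant for `p ∉ range J` (`off`), and `ζ z = a` if `a` is in the kernel at `z` (`Frame.span`).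
Differentiate `∑ p, ζ_p * LM w · p l = 0` by `pk k` (`d10_sum`, `d10_mul`, `pk_LM` as in `pxi1`, for all `y ∈ O`): `∑ p, ζ_p y * pk p (LM k l) y = - ∑ p, pk k ζ_p y * LM p l`, where only `p = J j` matter: `pk k ζ_p = 0` for `p ∉ range J` (constant near `y`);
`J` is injective. With `N y = (lm w y).submatrix J J`, `C y i j = pk (J i) ζ_(J j) y`: `D N = - C N`, `D f y = ∑ p, ζ_p y * pk p f y` (this is `Dd u f y` of CYF/Loc with `u p = fun y => ζ y p`). Jacobi's formula for `ν × ν` matrices (copy `Dd_det`, CYF/Jcb.lean, with a matrix of size `ν`):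
`D (det N) = tr (adj N * D N) = - tr (adj N * C * N) = - det N * tr C`. `det N` is real and positive (`det_re` in Ufn has the same proof; here it follows from `hp`: `N y` is psd), so for `L = log (det N).re`: `D (cx L) y = - tr (C y)` on `O` (`pk_log`).
`tr C = ∑ i, pk (J i) ζ_(J i)` satisfies `pb q (pk k ζ_p) = pk k (pb q ζ_p) = 0` (`pk_pb_comm`). Apply `pb q` to `∑ p, ζ_p * pk p (cx L) = - tr C` at `z` (`d01_mul`, `pb q ζ_p = 0`): `∑ p, ζ_p z * pb q (pk p (cx L)) z = 0`, and `pb q (pk p (cx L)) = pk p (pb q (cx L)) = LM L p q`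
(`pk_pb_comm`). With `levi_eq_sum`: `levi L z a b = 0` for all `b`.
-/

open scoped ContDiff ComplexConjugate Topology ComplexOrder
open Complex MeasureTheory Matrix

namespace Pool.Agent.ARK

open Pool.Agent.CYF Pool.Agent.NDC

variable {n : ℕ} {w : E n → ℝ} {O : Set (E n)} {z : E n}

private theorem Ldm_diff_prod {κ : Type*} (s : Finset κ) (G : κ → E n → ℂ)
    (h : ∀ i ∈ s, DifferentiableAt ℝ (G i) z) :
    DifferentiableAt ℝ (fun y => ∏ i ∈ s, G i y) z := by
  classical
  induction s using Finset.induction_on with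
  | empty => simp
  | insert a s ha ih =>
    simp only [Finset.prod_insert ha]
    exact (h a (Finset.mem_insert_self a s)).mul
      (ih fun i hi => h i (Finset.mem_insert_of_mem hi))

private theorem Ldm_prod {u : Fin n → E n → ℂ} {κ : Type*} [DecidableEq κ] (s : Finset κ)
    (G : κ → E n → ℂ) (h : ∀ i ∈ s, DifferentiableAt ℝ (G i) z) :
    Dd u (fun y => ∏ i ∈ s, G i y) z = ∑ i ∈ s, Dd u (G i) z * ∏ j ∈ s.erase i, G j z := by
  induction s using Finset.induction_on with
  | empty => simpa using Dd_const (u := u) (z := z) (1 : ℂ)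
  | insert a s ha ih =>
    have h1 : DifferentiableAt ℝ (G a) z := h a (Finset.mem_insert_self a s)
    have h2 : ∀ i ∈ s, DifferentiableAt ℝ (G i) z :=
      fun i hi => h i (Finset.mem_insert_of_mem hi)
    simp only [Finset.prod_insert ha]
    rw [Dd_mul h1 (Ldm_diff_prod s G h2), ih h2, Finset.sum_insert ha, Finset.erase_insert ha,
      Finset.mul_sum]
    congr 1
    refine Finset.sum_congr rfl fun i hi => ?_
    have hia : a ≠ i := fun e => ha (e ▸ hi)
    rw [Finset.erase_insert_of_ne hia, Finset.prod_insert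
      (fun hh => ha (Finset.mem_of_mem_erase hh))]
    ring

private theorem Ldm_det {u : Fin n → E n → ℂ} {ν : ℕ} (G : E n → Matrix (Fin ν) (Fin ν) ℂ)
    (hG : ∀ i j, DifferentiableAt ℝ (fun y => G y i j) z) :
    Dd u (fun y => (G y).det) z
      = ((G z).adjugate * Matrix.of fun i j => Dd u (fun y => G y i j) z).trace := by
  classical
  have hterm : ∀ σ : Equiv.Perm (Fin ν), DifferentiableAt ℝ (fun y => ∏ i, G y (σ i) i) z :=
    fun σ => Ldm_diff_prod Finset.univ (fun i y => G y (σ i) i) fun i _ => hG (σ i) i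
  have hdet : (fun y => (G y).det)
      = fun y => ∑ σ : Equiv.Perm (Fin ν), (((Equiv.Perm.sign σ : ℤ)) : ℂ) * ∏ i, G y (σ i) i := by
    funext y
    rw [Matrix.det_apply']
  have hL : Dd u (fun y => (G y).det) z
      = ∑ σ : Equiv.Perm (Fin ν), ∑ i, (((Equiv.Perm.sign σ : ℤ)) : ℂ)
          * (Dd u (fun y => G y (σ i) i) z * ∏ j ∈ Finset.univ.erase i, G z (σ j) j) := by
    rw [hdet]
    refine (Dd_sum (u := u) (z := z) Finset.univ
      (fun (σ : Equiv.Perm (Fin ν)) y => (((Equiv.Perm.sign σ : ℤ)) : ℂ) * ∏ i, G y (σ i) i)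
      fun σ _ => (differentiableAt_const _).mul (hterm σ)).trans ?_
    refine Finset.sum_congr rfl fun σ _ => ?_
    refine (Dd_mul (u := u) (differentiableAt_const _) (hterm σ)).trans ?_
    rw [Dd_const, zero_mul, zero_add,
      Ldm_prod Finset.univ (fun i y => G y (σ i) i) fun i _ => hG (σ i) i, Finset.mul_sum]
  have hR : ∀ i, ((G z).adjugate * Matrix.of fun i j => Dd u (fun y => G y i j) z) i i
      = ∑ σ : Equiv.Perm (Fin ν), (((Equiv.Perm.sign σ : ℤ)) : ℂ)
          * (Dd u (fun y => G y (σ i) i) z * ∏ j ∈ Finset.univ.erase i, G z (σ j) j) := by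
    intro i
    have h1 : ((G z).adjugate * Matrix.of fun i j => Dd u (fun y => G y i j) z) i i
        = ((G z).adjugate *ᵥ fun k => Dd u (fun y => G y k i) z) i := by
      rw [Matrix.mul_apply]
      rfl
    rw [h1, ← Matrix.cramer_eq_adjugate_mulVec, Matrix.cramer_apply, Matrix.det_apply']
    refine Finset.sum_congr rfl fun σ _ => ?_
    congr 1
    rw [← Finset.mul_prod_erase Finset.univ _ (Finset.mem_univ i), Matrix.updateCol_self]
    congr 1
    refine Finset.prod_congr rfl fun j hj => ?_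
    rw [Matrix.updateCol_ne (Finset.ne_of_mem_erase hj)]
  rw [hL, Finset.sum_comm, Matrix.trace]
  refine Finset.sum_congr rfl fun i _ => ?_
  rw [Matrix.diag_apply, hR i]

theorem ldm (hw : ContDiffOn ℝ ∞ w O) (hp : ∀ y ∈ O, ∀ b : E n, 0 ≤ (levi w y b b).re) {ν : ℕ}
    {J : Fin ν → Fin n} {ξ : Fin n → E n → E n} (hF : Frame w J O ξ)
    (hhol : ∀ y ∈ O, ∀ k l x, d01 (fun y' => ξ k y' l) y x = 0) (hz : z ∈ O) {a : E n}
    (ha : KM w z a) (b : E n) :
    levi (fun y => Real.log (((lm w y).submatrix J J).det).re) z a b = 0 := by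
  classical
  have hO := hF.isOpen
  have hLM : ∀ k l, ContDiffOn ℝ ∞ (fun y => LM w y k l) O := contDiffOn_LM hO hw
  obtain ⟨ζ, hζ⟩ : ∃ ζ : Fin n → E n → ℂ, ζ = fun p y => ∑ k, a k * ξ k y p := ⟨_, rfl⟩
  have hζs : ∀ p, ContDiffOn ℝ ∞ (ζ p) O := by
    intro p
    rw [hζ]
    exact ContDiffOn.sum fun k _ => contDiffOn_const.mul (hF.smooth k p)
  have hζd : ∀ p, ∀ y ∈ O, ∀ x, d01 (ζ p) y x = 0 := by
    intro p y hy x
    have h1 : d01 (ζ p) y x = ∑ k, d01 (fun y' => a k * ξ k y' p) y x := by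
      rw [hζ]
      exact d01_sum Finset.univ (fun k y' => a k * ξ k y' p) fun k _ =>
        (differentiableAt_const _).mul (diffAt_of hO (hF.smooth k p) hy)
    rw [h1]
    refine Finset.sum_eq_zero fun k _ => ?_
    rw [d01_const_mul (diffAt_of hO (hF.smooth k p) hy), hhol y hy k p x, mul_zero]
  have hζk : ∀ y ∈ O, ∀ l, ∑ p, ζ p y * LM w y p l = 0 := by
    intro y hy l
    rw [hζ]
    simp only [Finset.sum_mul]
    rw [Finset.sum_comm]
    refine Finset.sum_eq_zero fun k _ => ?_
    have h1 := hF.ker y hy k l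
    simp_rw [mul_assoc]
    rw [← Finset.mul_sum, h1, mul_zero]
  have hζz : ∀ p, ζ p z = a p := by
    intro p
    have h1 := congrFun (hF.span z hz a ha) p
    rw [hζ]
    refine Eq.trans ?_ h1.symm
    rw [Finset.sum_apply]
    rfl
  have hζoff : ∀ p, p ∉ Set.range J → ∀ y ∈ O, ζ p y = a p := by
    intro p hp y hy
    rw [hζ]
    show ∑ k, a k * ξ k y p = a p
    rw [Finset.sum_eq_single p]
    · rw [hF.off y hy p p hp, if_pos rfl, mul_one]
    · intro k _ hk
      rw [hF.off y hy k p hp, if_neg (Ne.symm hk), mul_zero]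
    · intro h
      exact absurd (Finset.mem_univ _) h
  have hpkoff : ∀ p, p ∉ Set.range J → ∀ y ∈ O, ∀ k, pk k (ζ p) y = 0 := by
    intro p hp y hy k
    have h1 : ζ p =ᶠ[𝓝 y] fun _ => a p := by
      filter_upwards [hO.mem_nhds hy] with y' hy'
      exact hζoff p hp y' hy'
    rw [pk_congr h1]
    exact d10_const _
  have hD : ∀ y ∈ O, ∀ k l, Dd ζ (fun y' => LM w y' k l) y
      = -∑ j, pk k (ζ (J j)) y * LM w y (J j) l := by
    intro y hy k l
    have dζ : ∀ p, DifferentiableAt ℝ (ζ p) y := fun p => diffAt_of hO (hζs p) hy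
    have dL : ∀ p, DifferentiableAt ℝ (fun y' => LM w y' p l) y := fun p =>
      diffAt_of hO (hLM p l) hy
    have h0 : (fun y' => ∑ p, ζ p y' * LM w y' p l) =ᶠ[𝓝 y] fun _ => (0 : ℂ) := by
      filter_upwards [hO.mem_nhds hy] with y' hy'
      exact hζk y' hy' l
    have h1 : pk k (fun y' => ∑ p, ζ p y' * LM w y' p l) y = 0 := by
      rw [pk_congr h0]
      exact d10_const _
    have h2 : pk k (fun y' => ∑ p, ζ p y' * LM w y' p l) y
        = ∑ p, (pk k (ζ p) y * LM w y p l + ζ p y * pk p (fun y' => LM w y' k l) y) := by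
      have h3 : pk k (fun y' => ∑ p, ζ p y' * LM w y' p l) y
          = ∑ p, pk k (fun y' => ζ p y' * LM w y' p l) y :=
        d10_sum Finset.univ (fun p y' => ζ p y' * LM w y' p l) fun p _ => (dζ p).mul (dL p)
      rw [h3]
      refine Finset.sum_congr rfl fun p _ => ?_
      have h4 : pk k (fun y' => ζ p y' * LM w y' p l) y
          = pk k (ζ p) y * LM w y p l + ζ p y * pk k (fun y' => LM w y' p l) y :=
        d10_mul (dζ p) (dL p)
      rw [h4, pk_LM hO hw hy k p l]
    rw [h2, Finset.sum_add_distrib] at h1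
    have h5 : Dd ζ (fun y' => LM w y' k l) y = ∑ p, ζ p y * pk p (fun y' => LM w y' k l) y := rfl
    have h6 : ∑ j, pk k (ζ (J j)) y * LM w y (J j) l = ∑ p, pk k (ζ p) y * LM w y p l :=
      Fintype.sum_of_injective J hF.inj (fun j => pk k (ζ (J j)) y * LM w y (J j) l)
        (fun p => pk k (ζ p) y * LM w y p l)
        (fun p hp => by rw [hpkoff p hp y hy k, zero_mul]) (fun j => rfl)
    rw [h5, h6]
    linear_combination h1
  obtain ⟨N, hN⟩ : ∃ N : E n → Matrix (Fin ν) (Fin ν) ℂ, N = fun y => (lm w y).submatrix J J :=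
    ⟨_, rfl⟩
  have hNs : ∀ i j, ContDiffOn ℝ ∞ (fun y => N y i j) O := by
    intro i j
    rw [hN]
    exact hLM (J i) (J j)
  obtain ⟨C, hC⟩ : ∃ C : E n → Matrix (Fin ν) (Fin ν) ℂ,
      C = fun y => Matrix.of fun i j => pk (J i) (ζ (J j)) y := ⟨_, rfl⟩
  have hDdet : ∀ y ∈ O, Dd ζ (fun y' => (N y').det) y = -((N y).det * (C y).trace) := by
    intro y hy
    rw [Ldm_det N (fun i j => diffAt_of hO (hNs i j) hy)]
    have h1 : (Matrix.of fun i j => Dd ζ (fun y' => N y' i j) y) = -(C y * N y) := by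
      ext i j
      rw [Matrix.of_apply, Matrix.neg_apply, Matrix.mul_apply, hN, hC]
      exact hD y hy (J i) (J j)
    rw [h1, Matrix.mul_neg, Matrix.trace_neg, Matrix.trace_mul_comm, Matrix.mul_assoc,
      Matrix.mul_adjugate, Matrix.mul_smul, Matrix.mul_one, Matrix.trace_smul, smul_eq_mul]
  have hdets : ContDiffOn ℝ ∞ (fun y => (N y).det) O := by
    simp only [Matrix.det_apply']
    exact ContDiffOn.sum fun σ _ => contDiffOn_const.mul (contDiffOn_prod fun i _ => hNs (σ i) i)
  have hdet0 : ∀ y ∈ O, (N y).det ≠ 0 := by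
    intro y hy
    rw [hN]
    exact hF.det_ne y hy
  have hdetp : ∀ y ∈ O, 0 < ((N y).det).re ∧ (((N y).det).re : ℂ) = (N y).det := by
    intro y hy
    have h1 : (N y).PosSemidef := by
      rw [hN]
      exact (lm_psd hO hw hy (hp y hy)).submatrix J
    have h2 := h1.det_nonneg
    rw [Complex.nonneg_iff] at h2
    have h4 : (((N y).det).re : ℂ) = (N y).det := Complex.ext rfl (by simp [← h2.2])
    refine ⟨lt_of_le_of_ne h2.1 ?_, h4⟩
    intro h5
    apply hdet0 y hy
    rw [← h4, ← h5]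
    simp
  obtain ⟨g, hg⟩ : ∃ g : E n → ℝ, g = fun y => ((N y).det).re := ⟨_, rfl⟩
  have hgs : ContDiffOn ℝ ∞ g O := by
    rw [hg]
    exact Complex.reCLM.contDiff.comp_contDiffOn hdets
  have hg0 : ∀ y ∈ O, 0 < g y := by
    rw [hg]
    exact fun y hy => (hdetp y hy).1
  have hcxg : ∀ y ∈ O, (g y : ℂ) = (N y).det := by
    intro y hy
    rw [hg]
    exact (hdetp y hy).2
  obtain ⟨L, hL⟩ : ∃ L : E n → ℝ, L = fun y => Real.log (g y) := ⟨_, rfl⟩
  have hLs : ContDiffOn ℝ ∞ L O := by
    rw [hL]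
    exact hgs.log fun y hy => (hg0 y hy).ne'
  have hDL : ∀ y ∈ O, ∑ p, ζ p y * pk p (cx L) y = -∑ i, pk (J i) (ζ (J i)) y := by
    intro y hy
    have h1 : ∀ p, pk p (cx L) y = pk p (fun y' => (N y').det) y / (N y).det := by
      intro p
      rw [hL, pk_log hO hgs hg0 hy p]
      have h2 : cx g =ᶠ[𝓝 y] fun y' => (N y').det := by
        filter_upwards [hO.mem_nhds hy] with y' hy'
        exact hcxg y' hy'
      rw [pk_congr h2, hcxg y hy]
    simp_rw [h1]
    have h4 := hDdet y hy
    unfold Dd at h4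
    have h5 := hdet0 y hy
    calc ∑ p, ζ p y * (pk p (fun y' => (N y').det) y / (N y).det)
        = (∑ p, ζ p y * pk p (fun y' => (N y').det) y) / (N y).det := by
          rw [Finset.sum_div]
          exact Finset.sum_congr rfl fun p _ => by ring
      _ = -(C y).trace := by
          rw [h4]
          field_simp
      _ = -∑ i, pk (J i) (ζ (J i)) y := by
          rw [hC]
          rfl
  have hfin : KM L z a := by
    intro q
    have dζ : ∀ p, DifferentiableAt ℝ (ζ p) z := fun p => diffAt_of hO (hζs p) hz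
    have hcL := contDiffOn_cx hLs
    have dpL : ∀ p, DifferentiableAt ℝ (pk p (cx L)) z := fun p =>
      diffAt_of hO (contDiffOn_pk hO hcL p) hz
    have h1 : (fun y => ∑ p, ζ p y * pk p (cx L) y)
        =ᶠ[𝓝 z] fun y => -∑ i, pk (J i) (ζ (J i)) y := by
      filter_upwards [hO.mem_nhds hz] with y hy
      exact hDL y hy
    have h2 : pb q (fun y => ∑ p, ζ p y * pk p (cx L) y) z = ∑ p, a p * LM L z p q := by
      have h3 : pb q (fun y => ∑ p, ζ p y * pk p (cx L) y) z
          = ∑ p, pb q (fun y => ζ p y * pk p (cx L) y) z :=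
        d01_sum Finset.univ (fun p y => ζ p y * pk p (cx L) y) fun p _ => (dζ p).mul (dpL p)
      rw [h3]
      refine Finset.sum_congr rfl fun p _ => ?_
      have h4 : pb q (fun y => ζ p y * pk p (cx L) y) z
          = pb q (ζ p) z * pk p (cx L) z + ζ p z * pb q (pk p (cx L)) z :=
        d01_mul (dζ p) (dpL p)
      have h5 : pb q (ζ p) z = 0 := hζd p z hz _
      rw [h4, h5, zero_mul, zero_add, LM_eq, pk_pb_comm (hcL.contDiffAt (hO.mem_nhds hz)), hζz]
    have h6 : pb q (fun y => -∑ i, pk (J i) (ζ (J i)) y) z = 0 := by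
      have h7 : (fun y => -∑ i, pk (J i) (ζ (J i)) y)
          = fun y => ∑ i, (-1 : ℂ) * pk (J i) (ζ (J i)) y := by
        funext y
        rw [← Finset.mul_sum]
        ring
      have dp : ∀ i, DifferentiableAt ℝ (pk (J i) (ζ (J i))) z := fun i =>
        diffAt_of hO (contDiffOn_pk hO (hζs (J i)) (J i)) hz
      have h8 : pb q (fun y => ∑ i, (-1 : ℂ) * pk (J i) (ζ (J i)) y) z
          = ∑ i, pb q (fun y => (-1 : ℂ) * pk (J i) (ζ (J i)) y) z :=
        d01_sum Finset.univ (fun i y => (-1 : ℂ) * pk (J i) (ζ (J i)) y) fun i _ =>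
          (differentiableAt_const _).mul (dp i)
      rw [h7, h8]
      refine Finset.sum_eq_zero fun i _ => ?_
      have h9 : pb q (fun y => (-1 : ℂ) * pk (J i) (ζ (J i)) y) z
          = (-1 : ℂ) * pb q (pk (J i) (ζ (J i))) z := d01_const_mul (dp i) _
      have h10 : pb q (ζ (J i)) =ᶠ[𝓝 z] fun _ => (0 : ℂ) := by
        filter_upwards [hO.mem_nhds hz] with y hy
        exact hζd (J i) y hy _
      have h11 : pk (J i) (pb q (ζ (J i))) z = 0 := by
        rw [pk_congr h10]
        exact d10_const _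
      rw [h9, ← pk_pb_comm ((hζs (J i)).contDiffAt (hO.mem_nhds hz)), h11, mul_zero]
    rw [← h2, pb_congr h1, h6]
  have hgoal : (fun y => Real.log (((lm w y).submatrix J J).det).re) = L := by
    rw [hL, hg, hN]
  rw [hgoal]
  exact levi_km hO hLs hz hfin b

end Pool.Agent.ARK
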