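import Pool.Agent.ARK.Vfr
import Pool.Agent.ARK.Ldm
import Pool.Agent.ARK.Lmn

/-!
ARK module Lhu (size 4): `log (1 + u)`, `u = nB / nA`, is plurisubharmonic along the kernel at the points of rank `ν`.
PROOF. `w = η.w i`, `V = {y | Full η ν i y}` open (`isOpen_full`, module Kfr), there `nA > 0` (`nA_pos`), `nB ≥ 0`; `u y = nB .. y / nA .. y` is smooth on `V` (`Sm_fA`, `Sm_fB`, `vt_fA`, `vt_fB`).
Case `v i J z = 0` for all `J`: then `nB z = 0` (definition), `u z = 0` is a local minimum: `d10_min`, `levi_min` (module Lmn), `levi_one_add`: the number is `levi u z a a`, real part `≥ 0`, and `d10 (cx u) z a = 0`.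
Case `v i J z ≠ 0`: `vfr`: frame `ξ` on `O`, holomorphic, `v i J ≠ 0` on `O`, all points `Full`. By `v_ne`, `vn_eq`: on `O`, `u y = ‖v i J y‖² * exp (-(m w y)) / D y`, `D y = (det M_JJ).re > 0` (`det_re`), so `u > 0` and `log u = log ‖v i J‖² - m w - log D`. `levi (log ‖v i J‖²) z a a = 0` (`LM_log` in CYF/Chg.lean: `LM` of
`log ‖g‖²` for `g` holomorphic without zeros is zero; read its statement), `levi w z a a = 0` (`levi_km`), `levi (log D) z a a = 0` (`ldm`); additivity: `LM_add`, `LM_const_mul` (CYF/Chg), `levi_eq_sum`. So `levi (log u) z a a = 0` and `log1p_pos`.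
-/

open scoped ContDiff ComplexConjugate Topology ComplexOrder
open Complex MeasureTheory Matrix

namespace Pool.Agent.ARK

open Pool.Agent.CYF Pool.Agent.NDC

variable {n : ℕ} {X : Type*} [TopologicalSpace X] {ι : Type*} {A : Mfd n X ι}

/-- the norm of the form -/
noncomputable def uu (η om : Form A) {ν : ℕ} (m : ℝ) (v : ι → (Fin ν → Fin n) → E n → ℂ) (i : ι)
    (z : E n) : ℝ := nB η om m v i z / nA η om ν i z

theorem uu_smooth {η om : Form A} (hη : η.Semipositive) (hom : om.Positive) {ν : ℕ}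
    (hν : η.RankLE ν) {m : ℝ} {v : ι → (Fin ν → Fin n) → E n → ℂ} (hv : IsForm η ν m v) (i : ι) :
    ContDiffOn ℝ ∞ (uu η om m v i) {z | Full η ν i z} := by
  have hs : {z | Full η ν i z} ⊆ (A.c i).target := fun z hz => hz.1
  have h1 : ContDiffOn ℝ ∞ (vt A (fB η om m v) i) {z | Full η ν i z} := (Sm_fB hom hv i).mono hs
  have h2 : ContDiffOn ℝ ∞ (vt A (fA η om ν) i) {z | Full η ν i z} :=
    (Sm_fA hη hom ν i).mono hs
  have h3 : ∀ z ∈ {z | Full η ν i z}, vt A (fA η om ν) i z ≠ 0 := by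
    intro z hz
    rw [vt_fA hη hom ν hz.1]
    exact (nA_pos hη hom hz).ne'
  refine (h1.div h2 h3).congr ?_
  intro z hz
  unfold uu
  rw [← vt_fB hom hv hz.1, ← vt_fA hη hom ν hz.1]
  rfl

private theorem Lhu_nonneg {η om : Form A} (hη : η.Semipositive) (hom : om.Positive) {ν : ℕ}
    {m : ℝ} {v : ι → (Fin ν → Fin n) → E n → ℂ} {i : ι} {y : E n} (hy : Full η ν i y) :
    0 ≤ uu η om m v i y :=
  div_nonneg (nB_nonneg hom m v hy.1) (nA_pos hη hom hy).le

/-- the case of a zero of the form -/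
private theorem Lhu_zero {η om : Form A} (hη : η.Semipositive) (hom : om.Positive) {ν : ℕ}
    (hν : η.RankLE ν)
    {m : ℝ} {v : ι → (Fin ν → Fin n) → E n → ℂ} (hv : IsForm η ν m v)
    {i : ι} {z : E n} (hz : Full η ν i z) (h : ∀ J, v i J z = 0) (a : E n) :
    0 ≤ (levi (fun y => Real.log (1 + uu η om m v i y)) z a a).re ∧
        d10 (cx (uu η om m v i)) z a = 0 := by
  have hV : IsOpen {z | Full η ν i z} := isOpen_full hη hν i
  have hu := uu_smooth hη hom hν hv i
  have h0 : ∀ y ∈ {z | Full η ν i z}, 0 ≤ uu η om m v i y := fun y hy =>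
    Lhu_nonneg hη hom hy
  have huz : uu η om m v i z = 0 := by
    unfold uu nB ctr
    simp [h]
  have hat : ContDiffAt ℝ ∞ (uu η om m v i) z := hu.contDiffAt (hV.mem_nhds hz)
  have hmin : IsLocalMin (uu η om m v i) z := by
    filter_upwards [hV.mem_nhds hz] with y hy
    rw [huz]
    exact h0 y hy
  have hd := d10_min hat hmin a
  refine ⟨?_, hd⟩
  have h1 := levi_one_add hV hu h0 hz a
  rw [hd, huz] at h1
  rw [h1]
  have h2 := levi_min hat hmin a
  simpa using h2

/-- the case of a point where the form is not zero -/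
private theorem Lhu_ne {η om : Form A} (hη : η.Semipositive) (hom : om.Positive) {ν : ℕ}
    (hν : η.RankLE ν)
    {m : ℝ} {v : ι → (Fin ν → Fin n) → E n → ℂ} (hv : IsForm η ν m v) (hh : Horizontal η ν v)
    {i : ι} {z : E n} (hz : Full η ν i z) {J : Fin ν → Fin n} (h : v i J z ≠ 0) {a : E n}
    (ha : KM (η.w i) z a) :
    0 ≤ (levi (fun y => Real.log (1 + uu η om m v i y)) z a a).re ∧
      ((levi (fun y => Real.log (1 + uu η om m v i y)) z a a).re = 0 →
        d10 (cx (uu η om m v i)) z a = 0) := by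
  obtain ⟨O, ξ, hzO, hOs, hF, hfull, hvne, hhol⟩ := vfr hη hom hν hv hh hz h
  have hO : IsOpen O := hF.isOpen
  have hw : ContDiffOn ℝ ∞ (η.w i) O := (η.smooth i).mono hOs
  have hV : IsOpen {z | Full η ν i z} := isOpen_full hη hν i
  have hOV : O ⊆ {z | Full η ν i z} := fun y hy => hfull y hy
  have hu : ContDiffOn ℝ ∞ (uu η om m v i) O := (uu_smooth hη hom hν hv i).mono hOV
  have hupos : ∀ y ∈ O, 0 < uu η om m v i y := fun y hy =>
    div_pos (v_ne hη hom hv hh (hfull y hy) (hvne y hy)).2 (nA_pos hη hom (hfull y hy))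
  have hDpos : ∀ y ∈ O, 0 < (((lm (η.w i) y).submatrix J J).det).re := by
    intro y hy
    have h1 := det_re (lm_psd (A.c i).open_target (η.smooth i) (hfull y hy).1
      (hη i y (hfull y hy).1)) J
    have h2 := (v_ne hη hom hv hh (hfull y hy) (hvne y hy)).1
    refine lt_of_le_of_ne h1.1 ?_
    intro h3
    exact h2 (Complex.ext (by simpa using h3.symm) (by simpa using h1.2))
  have hval : ∀ y ∈ O, Real.log (((lm (η.w i) y).submatrix J J).det).re
      = (2 * Real.log ‖v i J y‖ + (-m) * η.w i y) + (-1) * Real.log (uu η om m v i y) := by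
    intro y hy
    have h1 := vn_eq hη hom hv hh (hfull y hy)
      (v_ne hη hom hv hh (hfull y hy) (hvne y hy)).1
    have h2 : uu η om m v i y = ‖v i J y‖ ^ 2 * Real.exp (-(m * η.w i y))
        / (((lm (η.w i) y).submatrix J J).det).re := by
      unfold uu
      rw [← h1]
      rfl
    have h3 : ‖v i J y‖ ≠ 0 := norm_ne_zero_iff.2 (hvne y hy)
    rw [h2, Real.log_div (mul_ne_zero (pow_ne_zero 2 h3) (Real.exp_ne_zero _))
      (hDpos y hy).ne', Real.log_mul (pow_ne_zero 2 h3) (Real.exp_ne_zero _), Real.log_exp,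
      Real.log_pow]
    push_cast
    ring
  have hvh : ContDiffOn ℂ ∞ (v i J) O := (hv.hol i J).mono hOs
  have s1 : ContDiffOn ℝ ∞ (fun y => 2 * Real.log ‖v i J y‖) O := contDiffOn_log hvh hvne
  have s2 : ContDiffOn ℝ ∞ (fun y => (-m) * η.w i y) O := contDiffOn_const.mul hw
  have s3 : ContDiffOn ℝ ∞ (fun y => Real.log (uu η om m v i y)) O :=
    hu.log fun y hy => (hupos y hy).ne'
  have s4 : ContDiffOn ℝ ∞ (fun y => (-1) * Real.log (uu η om m v i y)) O :=
    contDiffOn_const.mul s3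
  have s12 : ContDiffOn ℝ ∞ (fun y => 2 * Real.log ‖v i J y‖ + (-m) * η.w i y) O := s1.add s2
  have sD : ContDiffOn ℝ ∞ (fun y => Real.log (((lm (η.w i) y).submatrix J J).det).re) O :=
    (s12.add s4).congr hval
  have hLM : ∀ k l, LM (fun y => Real.log (((lm (η.w i) y).submatrix J J).det).re) z k l
      = ((-m : ℝ) : ℂ) * LM (η.w i) z k l
        + ((-1 : ℝ) : ℂ) * LM (fun y => Real.log (uu η om m v i y)) z k l := by
    intro k l
    have h1 : (fun y => Real.log (((lm (η.w i) y).submatrix J J).det).re) =ᶠ[𝓝 z]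
        fun y => (2 * Real.log ‖v i J y‖ + (-m) * η.w i y)
          + (-1) * Real.log (uu η om m v i y) := by
      filter_upwards [hO.mem_nhds hzO] with y hy
      exact hval y hy
    rw [LM_congr h1, LM_add hO s12 s4 hzO, LM_add hO s1 s2 hzO, LM_log hO hvh hvne hzO,
      LM_const_mul hO hw hzO, LM_const_mul hO s3 hzO, zero_add]
  have hlev : levi (fun y => Real.log (uu η om m v i y)) z a a = 0 := by
    have h1 : levi (fun y => Real.log (((lm (η.w i) y).submatrix J J).det).re) z a a = 0 :=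
      ldm hw (fun y hy b => hη i y (hfull y hy).1 b) hF hhol hzO ha a
    have h2 : levi (η.w i) z a a = 0 := levi_km hO hw hzO ha a
    rw [levi_eq_sum (sD.contDiffAt (hO.mem_nhds hzO))] at h1
    rw [levi_eq_sum (hw.contDiffAt (hO.mem_nhds hzO))] at h2
    rw [levi_eq_sum (s3.contDiffAt (hO.mem_nhds hzO))]
    have h3 : (∑ k, ∑ l, a k * conj (a l)
        * LM (fun y => Real.log (((lm (η.w i) y).submatrix J J).det).re) z k l)
        = ((-m : ℝ) : ℂ) * (∑ k, ∑ l, a k * conj (a l) * LM (η.w i) z k l)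
          + ((-1 : ℝ) : ℂ) * (∑ k, ∑ l, a k * conj (a l)
            * LM (fun y => Real.log (uu η om m v i y)) z k l) := by
      rw [Finset.mul_sum, Finset.mul_sum, ← Finset.sum_add_distrib]
      refine Finset.sum_congr rfl fun k _ => ?_
      rw [Finset.mul_sum, Finset.mul_sum, ← Finset.sum_add_distrib]
      refine Finset.sum_congr rfl fun l _ => ?_
      rw [hLM]
      ring
    rw [h1, h2, mul_zero, zero_add] at h3
    have h4 : ((-1 : ℝ) : ℂ) ≠ 0 := by norm_num
    exact (mul_eq_zero.1 h3.symm).resolve_left h4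
  have hfin := log1p_pos hO hu hupos hzO hlev
  have hden : 0 < uu η om m v i z * (1 + uu η om m v i z) ^ 2 := by
    have := hupos z hzO
    positivity
  rw [hfin, Complex.ofReal_re]
  refine ⟨by positivity, fun h4 => ?_⟩
  rcases div_eq_zero_iff.1 h4 with h5 | h5
  · exact norm_eq_zero.1 ((pow_eq_zero_iff two_ne_zero).1 h5)
  · exact absurd h5 hden.ne'

theorem lhu {η om : Form A} (hη : η.Semipositive) (hom : om.Positive) {ν : ℕ} (hν : η.RankLE ν)
    {m : ℝ} {v : ι → (Fin ν → Fin n) → E n → ℂ} (hv : IsForm η ν m v) (hh : Horizontal η ν v)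
    {i : ι} {z : E n} (hz : Full η ν i z) {a : E n} (ha : KM (η.w i) z a) :
    0 ≤ (levi (fun y => Real.log (1 + uu η om m v i y)) z a a).re ∧
      ((levi (fun y => Real.log (1 + uu η om m v i y)) z a a).re = 0 →
        d10 (cx (uu η om m v i)) z a = 0) := by
  by_cases h : ∃ J, v i J z ≠ 0
  · obtain ⟨J, hJ⟩ := h
    exact Lhu_ne hη hom hν hv hh hz hJ ha
  · push Not at h
    have h1 := Lhu_zero hη hom hν hv hz h a
    exact ⟨h1.1, fun _ => h1.2⟩

end Pool.Agent.ARK
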