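import Pool.Agent.ARK.Ldf
import Pool.Agent.NDC.Itl
import Pool.Agent.NDC.Ips

/-!
ARK module Lim (size 4): limits of densities with integral zero.
PROOF. For `a : Fin P.N` let `g_k z = P.ρ a ((A.c (P.j a)).symm z) * F k (P.j a) z` on `V = (A.c (P.j a)).target` (integrable: `Itg_term`, NDC/Itl), zero off `P.K a` (`P.off`), `‖g_k‖ ≤ C` on `P.K a` (`0 ≤ ρ ≤ 1` by `P.one`, `P.nonneg`), and `g_k → ρ * ℓ` on `V`. Dominated convergence
(`tendsto_integral_of_dominated_convergence` on `volume.restrict V`, bound `C * indicator (P.K a)`, integrable since `P.K a` is compact) : `∫ z in V, ρ * ℓ (P.j a) z = lim ∫ z in V, g_k`. Sum over `a`: `∑ a, ∫ z in V_a, ρ_a * ℓ = lim Itg P (F k) = 0`. Real parts: `∑ a, ∫ z in V_a, ρ_a * (ℓ (P.j a) z).re = 0`, all terms `≥ 0`,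
so all are zero, and `ρ_a * (ℓ (P.j a) z).re = 0` a.e. on `V_a` (`setIntegral_eq_zero_iff_of_nonneg_ae`; it is integrable as a dominated limit, `aestronglyMeasurable_of_tendsto_ae`). On the open set `O (P.j a) ⊆ V_a` it is continuous, so it is zero everywhere there (`Measure.eqOn_open_of_ae_eq`; see
the proof of `Itg_pos` in /team-store/ndc_Ips.lean). Given `z ∈ O i`, `x = (A.c i).symm z`, some `ρ a x > 0`, `x ∈ source`, `z ∈ Uo A i (P.j a)`, `ph A i (P.j a) z ∈ O (P.j a)` (`hOo`), so `(ℓ (P.j a) (ph z)).re = 0` (`symm_ph`), and `(F k i z) = ‖det‖² F k (P.j a) (ph z)` (`IsDens.trans`) gives in the limit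
`ℓ i z = ‖det‖² * ℓ (P.j a) (ph z)`.
-/

open scoped ContDiff ComplexConjugate Topology ComplexOrder
open Complex MeasureTheory Matrix

namespace Pool.Agent.ARK

open Pool.Agent.CYF Pool.Agent.NDC

variable {n : ℕ} {X : Type*} [TopologicalSpace X] {ι : Type*} {A : Mfd n X ι}

theorem lim_zero (P : Pou A) {F : ℕ → ι → E n → ℂ} (hF : ∀ k, IsDens A (F k))
    (h0 : ∀ k, Itg P (F k) = 0) {ℓ : ι → E n → ℂ}
    (hl : ∀ i, ∀ z ∈ (A.c i).target, Filter.Tendsto (fun k => F k i z) Filter.atTop (𝓝 (ℓ i z)))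
    (hb : ∀ a : Fin P.N, ∃ C : ℝ, ∀ k, ∀ z ∈ P.K a, ‖F k (P.j a) z‖ ≤ C)
    (hp : ∀ i, ∀ z ∈ (A.c i).target, 0 ≤ (ℓ i z).re) {O : ι → Set (E n)}
    (hO : ∀ i, IsOpen (O i)) (hOs : ∀ i, O i ⊆ (A.c i).target)
    (hOc : ∀ i, ContinuousOn (ℓ i) (O i))
    (hOo : ∀ i j z, z ∈ Uo A i j → z ∈ O i → ph A i j z ∈ O j) :
    ∀ i, ∀ z ∈ O i, (ℓ i z).re = 0 := by
  choose C hC using hb
  have hρ1 : ∀ (a : Fin P.N) (x : X), P.ρ a x ≤ 1 := by
    intro a x
    rw [← P.one x]
    exact Finset.single_le_sum (f := fun a => P.ρ a x) (fun b _ => P.nonneg b x) (Finset.mem_univ a)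
  have hoff : ∀ (a : Fin P.N), ∀ z ∈ (A.c (P.j a)).target, z ∉ P.K a →
      P.ρ a ((A.c (P.j a)).symm z) = 0 := by
    intro a z hz hzK
    by_contra hne
    have h1 := (P.off a _ hne).2
    rw [(A.c (P.j a)).right_inv hz] at h1
    exact hzK h1
  have hbd : ∀ (a : Fin P.N) (k : ℕ), ∀ z ∈ (A.c (P.j a)).target,
      ‖((P.ρ a ((A.c (P.j a)).symm z) : ℝ) : ℂ) * F k (P.j a) z‖
        ≤ (P.K a).indicator (fun _ => |C a|) z := by
    intro a k z hz
    by_cases hzK : z ∈ P.K a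
    · rw [Set.indicator_of_mem hzK, norm_mul, Complex.norm_real, Real.norm_eq_abs,
        abs_of_nonneg (P.nonneg a _)]
      calc P.ρ a ((A.c (P.j a)).symm z) * ‖F k (P.j a) z‖
          ≤ 1 * |C a| := mul_le_mul (hρ1 a _) ((hC a k z hzK).trans (le_abs_self _))
            (norm_nonneg _) zero_le_one
        _ = |C a| := one_mul _
    · rw [Set.indicator_of_notMem hzK, hoff a z hz hzK, Complex.ofReal_zero, zero_mul, norm_zero]
  have hbi : ∀ a : Fin P.N, Integrable ((P.K a).indicator (fun _ => |C a|))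
      (volume.restrict (A.c (P.j a)).target) := by
    intro a
    have h1 : Integrable ((P.K a).indicator (fun _ => |C a|)) (volume : Measure (E n)) := by
      rw [integrable_indicator_iff (P.cpt a).measurableSet]
      exact integrableOn_const (P.cpt a).measure_lt_top.ne
    exact h1.restrict
  have hlim : ∀ a : Fin P.N, ∀ z ∈ (A.c (P.j a)).target,
      Filter.Tendsto (fun k => ((P.ρ a ((A.c (P.j a)).symm z) : ℝ) : ℂ) * F k (P.j a) z)
        Filter.atTop (𝓝 (((P.ρ a ((A.c (P.j a)).symm z) : ℝ) : ℂ) * ℓ (P.j a) z)) :=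
    fun a z hz => (hl _ z hz).const_mul _
  have hms : ∀ a : Fin P.N, MeasurableSet (A.c (P.j a)).target :=
    fun a => (A.c (P.j a)).open_target.measurableSet
  have hlim' : ∀ a : Fin P.N, ∀ᵐ z ∂(volume.restrict (A.c (P.j a)).target),
      Filter.Tendsto (fun k => ((P.ρ a ((A.c (P.j a)).symm z) : ℝ) : ℂ) * F k (P.j a) z)
        Filter.atTop (𝓝 (((P.ρ a ((A.c (P.j a)).symm z) : ℝ) : ℂ) * ℓ (P.j a) z)) :=
    fun a => (ae_restrict_iff' (hms a)).mpr (Filter.Eventually.of_forall (hlim a))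
  have hdct : ∀ a : Fin P.N, Filter.Tendsto (fun k => ∫ z in (A.c (P.j a)).target,
      ((P.ρ a ((A.c (P.j a)).symm z) : ℝ) : ℂ) * F k (P.j a) z) Filter.atTop
      (𝓝 (∫ z in (A.c (P.j a)).target, ((P.ρ a ((A.c (P.j a)).symm z) : ℝ) : ℂ) * ℓ (P.j a) z)) := by
    intro a
    refine tendsto_integral_of_dominated_convergence ((P.K a).indicator (fun _ => |C a|))
      (fun k => (Itg_term P (hF k) a).aestronglyMeasurable) (hbi a) (fun k => ?_) (hlim' a)
    exact (ae_restrict_iff' (hms a)).mpr (Filter.Eventually.of_forall (hbd a k))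
  have hsum0 : ∑ a : Fin P.N, ∫ z in (A.c (P.j a)).target,
      ((P.ρ a ((A.c (P.j a)).symm z) : ℝ) : ℂ) * ℓ (P.j a) z = 0 := by
    have h1 := tendsto_finsetSum Finset.univ (fun a (_ : a ∈ Finset.univ) => hdct a)
    have h2 : (fun k => ∑ a : Fin P.N, ∫ z in (A.c (P.j a)).target,
        ((P.ρ a ((A.c (P.j a)).symm z) : ℝ) : ℂ) * F k (P.j a) z) = fun _ => 0 := by
      funext k
      exact h0 k
    rw [h2] at h1
    exact tendsto_nhds_unique h1 tendsto_const_nhds
  have hli : ∀ a : Fin P.N, Integrable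
      (fun z => ((P.ρ a ((A.c (P.j a)).symm z) : ℝ) : ℂ) * ℓ (P.j a) z)
      (volume.restrict (A.c (P.j a)).target) := by
    intro a
    refine (hbi a).mono' (aestronglyMeasurable_of_tendsto_ae Filter.atTop
      (fun k => (Itg_term P (hF k) a).aestronglyMeasurable) (hlim' a)) ?_
    refine (ae_restrict_iff' (hms a)).mpr (Filter.Eventually.of_forall fun z hz => ?_)
    exact le_of_tendsto (hlim a z hz).norm (Filter.Eventually.of_forall fun k => hbd a k z hz)
  have hre : ∀ a : Fin P.N, ∫ z in (A.c (P.j a)).target,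
      P.ρ a ((A.c (P.j a)).symm z) * (ℓ (P.j a) z).re =
      (∫ z in (A.c (P.j a)).target,
        ((P.ρ a ((A.c (P.j a)).symm z) : ℝ) : ℂ) * ℓ (P.j a) z).re := by
    intro a
    have h1 := reCLM.integral_comp_comm (hli a)
    simp only [reCLM_apply, re_ofReal_mul] at h1
    exact h1
  have hint : ∀ a : Fin P.N, IntegrableOn (fun z =>
      P.ρ a ((A.c (P.j a)).symm z) * (ℓ (P.j a) z).re) (A.c (P.j a)).target := by
    intro a
    have h1 := (hli a).re
    refine h1.congr ?_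
    refine Filter.Eventually.of_forall fun z => ?_
    exact re_ofReal_mul _ _
  have hnn : ∀ a : Fin P.N, ∀ z ∈ (A.c (P.j a)).target,
      0 ≤ P.ρ a ((A.c (P.j a)).symm z) * (ℓ (P.j a) z).re :=
    fun a z hz => mul_nonneg (P.nonneg a _) (hp _ z hz)
  have hnn' : ∀ a : Fin P.N, 0 ≤ ∫ z in (A.c (P.j a)).target,
      P.ρ a ((A.c (P.j a)).symm z) * (ℓ (P.j a) z).re :=
    fun a => setIntegral_nonneg (hms a) (hnn a)
  have hsum : ∑ a : Fin P.N, ∫ z in (A.c (P.j a)).target,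
      P.ρ a ((A.c (P.j a)).symm z) * (ℓ (P.j a) z).re = 0 := by
    have h1 := congrArg Complex.re hsum0
    rw [Complex.re_sum, Complex.zero_re] at h1
    rw [← h1]
    exact Finset.sum_congr rfl fun a _ => hre a
  have hz0 : ∀ a : Fin P.N, ∫ z in (A.c (P.j a)).target,
      P.ρ a ((A.c (P.j a)).symm z) * (ℓ (P.j a) z).re = 0 :=
    fun a => (Finset.sum_eq_zero_iff_of_nonneg (fun a _ => hnn' a)).mp hsum a (Finset.mem_univ a)
  have heq : ∀ a : Fin P.N, ∀ z ∈ O (P.j a),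
      P.ρ a ((A.c (P.j a)).symm z) * (ℓ (P.j a) z).re = 0 := by
    intro a
    have h1 := (setIntegral_eq_zero_iff_of_nonneg_ae
      ((ae_restrict_iff' (hms a)).mpr (Filter.Eventually.of_forall (hnn a))) (hint a)).mp (hz0 a)
    have h1' := ae_restrict_of_ae_restrict_of_subset (hOs (P.j a)) h1
    have h2 : ContinuousOn (fun z => P.ρ a ((A.c (P.j a)).symm z) * (ℓ (P.j a) z).re)
        (O (P.j a)) :=
      ContinuousOn.mul ((P.sm a (P.j a)).continuousOn.mono (hOs (P.j a)))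
        (Complex.continuous_re.comp_continuousOn (hOc (P.j a)))
    have h3 := Measure.eqOn_open_of_ae_eq h1' (hO (P.j a)) h2 continuousOn_const
    intro z hz
    exact h3 hz
  intro i z hz
  have hzt := hOs i hz
  obtain ⟨a, ha⟩ : ∃ a : Fin P.N, P.ρ a ((A.c i).symm z) ≠ 0 := by
    by_contra hne
    have h1 : ∀ a, P.ρ a ((A.c i).symm z) = 0 := fun a => by
      by_contra h2
      exact hne ⟨a, h2⟩
    have h2 := P.one ((A.c i).symm z)
    rw [Finset.sum_eq_zero fun a _ => h1 a] at h2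
    exact zero_ne_one h2
  have hU : z ∈ Uo A i (P.j a) := ⟨hzt, (P.off a _ ha).1⟩
  have h1 := heq a (ph A i (P.j a) z) (hOo i (P.j a) z hU hz)
  rw [symm_ph hU] at h1
  have h2 := (mul_eq_zero.mp h1).resolve_left ha
  have h3 : ℓ i z = ((‖(Tm (ph A i (P.j a)) z).det‖ ^ 2 : ℝ) : ℂ)
      * ℓ (P.j a) (ph A i (P.j a) z) := by
    refine tendsto_nhds_unique (hl i z hzt) ?_
    have h4 := (hl (P.j a) _ (ph_mem hU)).const_mul
      ((‖(Tm (ph A i (P.j a)) z).det‖ ^ 2 : ℝ) : ℂ)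
    refine h4.congr fun k => ?_
    exact ((hF k).trans i (P.j a) z hU).symm
  rw [h3, re_ofReal_mul, h2, mul_zero]

end Pool.Agent.ARK
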