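import Pool.Agent.ARK.Lvf

/-!
ARK: compact leaves.
-/

open scoped ContDiff ComplexConjugate Topology ComplexOrder
open Complex MeasureTheory Matrix

namespace Pool.Agent.ARK

open Pool.Agent.CYF Pool.Agent.NDC

variable {n : ℕ} {X : Type*} [TopologicalSpace X] {ι : Type*} {A : Mfd n X ι} {z : E n}
  {η : Form A} {ν : ℕ}

theorem leaf_closed [T2Space X] [CompactSpace X] (hη : η.Semipositive) (hν : η.RankLE ν)
    {u : Fin (2 * ν) → X → ℝ} (hu : ∀ j, KerConst η ν (u j)) {i : ι} (hz : Full η ν i z)
    {x : X} (hx : x = (A.c i).symm z) {T : Set X}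
    (hT : T = connectedComponentIn {y | ∀ j, u j y = u j x} x)
    (hind : ∀ i, ∀ z ∈ (A.c i).target, (A.c i).symm z ∈ T →
      LinearIndependent ℝ (fun j => fderiv ℝ (vt A (u j) i) z)) :
    IsCompact T ∧ (∀ v : X → ℝ, KerConst η ν v → ∀ y ∈ T, v y = v x) ∧
      ∀ i, ∀ z ∈ (A.c i).target, (A.c i).symm z ∈ T → Full η ν i z ∧
        ∀ a : E n, (∀ j, fderiv ℝ (vt A (u j) i) z a = 0) ↔ Ker η i z a := by
  classical
  set L : Set X := {y | ∀ j, u j y = u j x} with hL
  have hxL : x ∈ L := fun _ => rfl
  have hsub : T ⊆ L := by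
    rw [hT]
    exact connectedComponentIn_subset _ _
  have hLc : IsClosed L := by
    have h1 : L = ⋂ j, {y | u j y = u j x} := by
      ext y
      simp [hL]
    rw [h1]
    exact isClosed_iInter fun j => isClosed_eq (hu j).sm.continuous continuous_const
  have hxT : x ∈ T := by
    rw [hT]
    exact mem_connectedComponentIn hxL
  have hTc : IsClosed T := by
    refine isClosed_of_closure_subset ?_
    have h1 : IsPreconnected (closure T) := by
      rw [hT]
      exact isPreconnected_connectedComponentIn.closure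
    have h3 := h1.subset_connectedComponentIn (subset_closure hxT)
      (hLc.closure_subset_iff.2 hsub)
    rw [← hT] at h3
    exact h3
  -- the set of points of rank `ν`
  let P : X → Prop := fun y => Full η ν (ix A y) (A.c (ix A y) y)
  have hP : ∀ i, ∀ y ∈ (A.c i).source, P y ↔ Full η ν i (A.c i y) := by
    intro i y hy
    have h1 := full_ph η (ν := ν) (mem_Uo (mem_ix A y) hy)
    rw [ph_chart (mem_ix A y)] at h1
    exact h1
  have hmemT : ∀ y ∈ T, ∀ i, y ∈ (A.c i).source →
      LinearIndependent ℝ (fun j => fderiv ℝ (vt A (u j) i) (A.c i y)) := by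
    intro y hy i hi
    refine hind i _ ((A.c i).map_source hi) ?_
    rw [(A.c i).left_inv hi]
    exact hy
  have hloc : ∀ y ∈ T, ∀ᶠ y' in 𝓝 y, y' ∈ L → (P y' ↔ P y) := by
    intro y hy
    have hi := mem_ix A y
    have h1 := level_full hη hν hu ((A.c (ix A y)).map_source hi) (hmemT y hy _ hi)
    have h2 := ((A.c (ix A y)).continuousAt hi).eventually h1
    filter_upwards [h2, (A.c (ix A y)).open_source.mem_nhds hi] with y' hy' hyi hyL
    rw [hP _ y' hyi, hP _ y hi]
    refine hy' fun j => ?_
    rw [vt_chart hyi, vt_chart hi, hyL j, hsub hy j]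
  have hall : ∀ y ∈ T, P y := by
    have h1 : ∀ y ∈ T, (if P y then (1 : ℝ) else 0) = if P x then (1 : ℝ) else 0 := by
      rw [hT]
      refine comp_const hxL fun y hy => ?_
      rw [← hT] at hy
      filter_upwards [hloc y hy] with y' hy' hyL
      simp only [hy' hyL]
    have hPx : P x := by
      have h2 : x ∈ (A.c i).source := by
        rw [hx]
        exact (A.c i).map_target hz.1
      rw [hP i x h2, hx, (A.c i).right_inv hz.1]
      exact hz
    intro y hy
    have h3 := h1 y hy
    rw [if_pos hPx] at h3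
    by_contra h
    rw [if_neg h] at h3
    exact zero_ne_one h3
  have hfull : ∀ i, ∀ z ∈ (A.c i).target, (A.c i).symm z ∈ T → Full η ν i z := by
    intro i z hz hzT
    have h1 := (hP i _ ((A.c i).map_target hz)).1 (hall _ hzT)
    rw [(A.c i).right_inv hz] at h1
    exact h1
  refine ⟨hTc.isCompact, ?_, fun i z hz hzT =>
    ⟨hfull i z hz hzT, Full.ker_iff_real hu (hfull i z hz hzT) (hind i z hz hzT)⟩⟩
  intro v hv
  rw [hT]
  refine comp_const hxL fun y hy => ?_
  rw [← hT] at hy
  -- work on the open set of points of rank `ν`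
  have hPo : IsOpen {y | P y} := by
    rw [isOpen_iff_mem_nhds]
    intro y hy
    have hi := mem_ix A y
    have h1 : Full η ν (ix A y) (A.c (ix A y) y) := hy
    have h2 := ((A.c (ix A y)).continuousAt hi).eventually
      ((isOpen_full hη hν (ix A y)).mem_nhds h1)
    filter_upwards [h2, (A.c (ix A y)).open_source.mem_nhds hi] with y' hy' hyi
    exact (hP _ y' hyi).2 hy'
  have hi := mem_ix A y
  have h1 := loc_const_real (A := A) (Y := {y | P y}) hPo (fun j => (hu j).sm.smOn _)
    (hv.sm.smOn _) (hall y hy) hi (fun y' hy' hli a ha => ?_) (hmemT y hy _ hi)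
  · filter_upwards [h1] with y' hy' hyL'
    exact hy' fun j => by rw [hyL' j, hsub hy j]
  · have hf : Full η ν (ix A y) y' := by
      have h2 := (hP (ix A y) _ ((A.c (ix A y)).map_target hy'.1)).1 hy'.2
      rw [(A.c (ix A y)).right_inv hy'.1] at h2
      exact h2
    exact hv.fderiv_zero hf ((Full.ker_iff_real hu hf hli a).1 ha)

end Pool.Agent.ARK
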