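import Pool.Agent.NDC.Slc

/-!
ARK: a closed two-form whose kernel is, where its rank is maximal, the kernel of `dF`: the set where
the rank is maximal is a union of connected components of regular level sets of `F` (local form).
-/

open scoped ContDiff Topology

namespace Pool.Agent.ARK

section Abs

variable {V : Type*} [NormedAddCommGroup V] [NormedSpace ℝ V] {N : ℕ}

/-- the determinant of a matrix given as a function -/
private noncomputable def Lvs_det (M : Fin N → Fin N → ℝ) : ℝ := (Matrix.of M).det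

private theorem Lvs_det_diff : ContDiff ℝ ∞ (Lvs_det (N := N)) := by
  unfold Lvs_det
  simp only [Matrix.det_apply, Matrix.of_apply]
  refine ContDiff.sum fun σ _ => ?_
  refine ContDiff.const_smul _ ?_
  refine contDiff_prod fun i _ => ?_
  exact contDiff_apply_apply ℝ ℝ (σ i) i

/-- the main computation -/
private theorem Lvs_zero {B : V → V →L[ℝ] V →L[ℝ] ℝ} {B' : V →L[ℝ] V →L[ℝ] V →L[ℝ] ℝ}
    {DF : V → V →L[ℝ] (Fin N → ℝ)} {D2 : V →L[ℝ] V →L[ℝ] (Fin N → ℝ)}
    {S : V → (Fin N → ℝ) →L[ℝ] V} {S' : V →L[ℝ] (Fin N → ℝ) →L[ℝ] V} {y : V}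
    (hB : HasFDerivAt B B' y) (hDF : HasFDerivAt DF D2 y) (hS : HasFDerivAt S S' y)
    (hsym : ∀ a b, D2 a b = D2 b a)
    (hanti : ∀ᶠ y' in 𝓝 y, ∀ a b, B y' a b = - B y' b a)
    (hcl : ∀ x v u, B' x v u + B' v u x + B' u x v = 0)
    (hI1 : ∀ᶠ y' in 𝓝 y, ∀ c, DF y' (S y' c) = c)
    (hk : ∀ᶠ y' in 𝓝 y, ∀ a, DF y' a = 0 → ∀ b, B y' a b = 0) {a : V} (ha : DF y a = 0)
    (c d : Fin N → ℝ) :
    HasFDerivAt (fun y' => B y' (S y' c) (S y' d))
      (((B y (S y c)).comp (S'.flip d)) + ((B y).comp (S'.flip c) + B'.flip (S y c)).flip (S y d)) y ∧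
    (((B y (S y c)).comp (S'.flip d)) + ((B y).comp (S'.flip c) + B'.flip (S y c)).flip (S y d)) a
      = 0 := by
  have hSc : ∀ c : Fin N → ℝ, HasFDerivAt (fun y' => S y' c) (S'.flip c) y := by
    intro c
    refine (hS.clm_apply (hasFDerivAt_const c y)).congr_fderiv ?_
    ext v
    simp
  have hBS := hB.clm_apply (hSc c)
  have hE := hBS.clm_apply (hSc d)
  refine ⟨hE, ?_⟩
  -- antisymmetry of the derivative
  have hanti' : ∀ x u v, B' x u v = - B' x v u := by
    intro x u v
    have h1 : HasFDerivAt (fun y' => B y' u v) ((B'.flip u).flip v) y := by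
      refine ((hB.clm_apply (hasFDerivAt_const u y)).clm_apply
        (hasFDerivAt_const v y)).congr_fderiv ?_
      ext w
      simp
    have h2 : HasFDerivAt (fun y' => B y' v u) ((B'.flip v).flip u) y := by
      refine ((hB.clm_apply (hasFDerivAt_const v y)).clm_apply
        (hasFDerivAt_const u y)).congr_fderiv ?_
      ext w
      simp
    have h3 : (fun y' => B y' u v) =ᶠ[𝓝 y] fun y' => - B y' v u :=
      hanti.mono fun y' h => h u v
    have h4 := (h1.congr_of_eventuallyEq h3.symm).unique h2.neg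
    have h5 := congrArg (fun L => L x) h4
    simpa using h5
  -- the field `a - S (DF a)`
  have hfield : HasFDerivAt (fun y' => a - S y' (DF y' a))
      (-((S y).comp (D2.flip a) + S'.flip (DF y a))) y := by
    have h1 : HasFDerivAt (fun y' => DF y' a) (D2.flip a) y := by
      refine (hDF.clm_apply (hasFDerivAt_const a y)).congr_fderiv ?_
      ext w
      simp
    have h2 := hS.clm_apply h1
    refine ((hasFDerivAt_const a y).sub h2).congr_fderiv ?_
    simp
  have hBa : ∀ x b, B' x a b = B y (S y (D2 x a)) b := by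
    intro x b
    have h1 := (hB.clm_apply hfield).clm_apply (hasFDerivAt_const b y)
    have h2 : (fun y' => B y' (a - S y' (DF y' a)) b) =ᶠ[𝓝 y] fun _ => (0 : ℝ) := by
      filter_upwards [hI1, hk] with y' h3 h4
      refine h4 _ ?_ b
      rw [map_sub, h3, sub_self]
    have h3 := (h1.congr_of_eventuallyEq h2.symm).unique (hasFDerivAt_const (0 : ℝ) y)
    have h4 := congrArg (fun L => L x) h3
    simp only [ContinuousLinearMap.comp_apply, _root_.add_apply,
      ContinuousLinearMap.flip_apply, _root_.neg_apply, ha, map_zero, sub_zero,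
      _root_.zero_apply, add_zero, map_neg, zero_add] at h4
    linarith
  have hI1' : ∀ x c, DF y (S' x c) = - D2 x (S y c) := by
    intro x c
    have h1 := hDF.clm_apply (hSc c)
    have h2 : (fun y' => DF y' (S y' c)) =ᶠ[𝓝 y] fun _ => c := hI1.mono fun y' h => h c
    have h3 := (h1.congr_of_eventuallyEq h2.symm).unique (hasFDerivAt_const c y)
    have h4 := congrArg (fun L => L x) h3
    simp only [ContinuousLinearMap.comp_apply, _root_.add_apply,
      ContinuousLinearMap.flip_apply, _root_.zero_apply] at h4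
    exact eq_neg_of_add_eq_zero_left h4
  have hI1y := hI1.self_of_nhds
  have hky := hk.self_of_nhds
  have hay := hanti.self_of_nhds
  have key : ∀ c b, B y (S' a c) b = - B y (S y (D2 (S y c) a)) b := by
    intro c b
    have h1 : DF y (S' a c + S y (D2 (S y c) a)) = 0 := by
      rw [map_add, hI1', hI1y, hsym]
      simp
    have h2 := hky _ h1 b
    rw [map_add, _root_.add_apply] at h2
    linarith
  simp only [ContinuousLinearMap.comp_apply, _root_.add_apply,
    ContinuousLinearMap.flip_apply]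
  have e1 := hcl a (S y c) (S y d)
  have e2 := hanti' (S y c) (S y d) a
  have e3 := hBa (S y c) (S y d)
  have e4 := hBa (S y d) (S y c)
  have e5 := key c (S y d)
  have e6 := key d (S y c)
  have e7 := hay (S y c) (S' a d)
  linarith

/-- a closed two-form whose kernel is, where its rank is maximal, the kernel of `dF`: locally the
regular level sets of `F` stay inside or outside of the set of maximal rank -/
theorem lvs_abs [FiniteDimensional ℝ V] {U W : Set V} (hU : IsOpen U) (hW : IsOpen W)
    {B : V → V →L[ℝ] V →L[ℝ] ℝ} (hB : ContDiffOn ℝ ∞ B U)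
    (hanti : ∀ z ∈ U, ∀ a b, B z a b = - B z b a)
    (hcl : ∀ z ∈ U, ∀ x v y, fderiv ℝ B z x v y + fderiv ℝ B z v y x + fderiv ℝ B z y x v = 0)
    {F : V → Fin N → ℝ} (hF : ContDiffOn ℝ ∞ F U)
    (hker : ∀ z ∈ W, Function.Surjective (fderiv ℝ F z) → ∀ a, fderiv ℝ F z a = 0 ↔ ∀ b, B z a b = 0)
    (hdeg : ∀ z ∈ U, z ∉ W → ∀ e : Fin N → V, (∀ j, fderiv ℝ F z (e j) = Pi.single j 1) →
      (Matrix.of fun j k => B z (e j) (e k)).det = 0)
    {z₀ : V} (hz : z₀ ∈ U) (hs : Function.Surjective (fderiv ℝ F z₀)) :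
    ∀ᶠ y in 𝓝 z₀, F y = F z₀ → (y ∈ W ↔ z₀ ∈ W) := by
  have hDFs : ContDiffOn ℝ ∞ (fderiv ℝ F) U := hF.fderiv_of_isOpen hU (by simp)
  obtain ⟨R, hR⟩ := (fderiv ℝ F z₀).exists_rightInverse_of_surjective
    (LinearMap.range_eq_top.2 hs)
  -- the maps `dF y ∘ R`
  let P : V → (Fin N → ℝ) →L[ℝ] (Fin N → ℝ) := fun y => (fderiv ℝ F y).comp R
  have hP : ContDiffOn ℝ ∞ P U := hDFs.clm_comp contDiffOn_const
  have hP0 : P z₀ = 1 := hR
  let O : Set V := {y | y ∈ U ∧ IsUnit (P y)}
  have hOU : O ⊆ U := fun y hy => hy.1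
  have hO : IsOpen O := by
    rw [isOpen_iff_mem_nhds]
    rintro y ⟨hy, hu⟩
    have h1 : ContinuousAt P y := (hP.contDiffAt (hU.mem_nhds hy)).continuousAt
    exact Filter.inter_mem (hU.mem_nhds hy) (h1 (Units.isOpen.mem_nhds hu))
  have hz0 : z₀ ∈ O := ⟨hz, by rw [hP0]; exact isUnit_one⟩
  let S : V → (Fin N → ℝ) →L[ℝ] V := fun y => R.comp (Ring.inverse (P y))
  have hS : ContDiffOn ℝ ∞ S O := by
    intro y hy
    obtain ⟨u, hu⟩ := hy.2
    have h1 : ContDiffAt ℝ ∞ P y := hP.contDiffAt (hU.mem_nhds hy.1)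
    have h2 : ContDiffAt ℝ ∞ Ring.inverse (P y) := by
      rw [← hu]
      exact contDiffAt_ringInverse ℝ u
    exact (contDiffAt_const.clm_comp (h2.comp y h1)).contDiffWithinAt
  have hI1 : ∀ y ∈ O, ∀ c, fderiv ℝ F y (S y c) = c := by
    intro y hy c
    have h1 : P y * Ring.inverse (P y) = 1 := Ring.mul_inverse_cancel _ hy.2
    have h2 := congrArg (fun L => L c) h1
    exact h2
  have hsurj : ∀ y ∈ O, Function.Surjective (fderiv ℝ F y) := fun y hy c => ⟨S y c, hI1 y hy c⟩
  -- the Gram matrix
  let M : V → Fin N → Fin N → ℝ := fun y j k => B y (S y (Pi.single j 1)) (S y (Pi.single k 1))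
  have hM : ContDiffOn ℝ ∞ M O := by
    refine contDiffOn_pi.2 fun j => contDiffOn_pi.2 fun k => ?_
    exact ((hB.mono hOU).clm_apply (hS.clm_apply contDiffOn_const)).clm_apply
      (hS.clm_apply contDiffOn_const)
  let G : V → ℝ := fun y => Lvs_det (M y) ^ 2
  have hG : ContDiffOn ℝ ∞ G O := ((Lvs_det_diff.comp_contDiffOn hM)).pow 2
  have hiff : ∀ y ∈ O, y ∈ W ↔ G y ≠ 0 := by
    intro y hy
    constructor
    · intro hyW h0
      have h1 : (Matrix.of (M y)).det = 0 := by
        have : Lvs_det (M y) ^ 2 = 0 := h0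
        exact pow_eq_zero_iff (two_ne_zero) |>.1 this
      obtain ⟨x, hx, hx0⟩ := Matrix.exists_vecMul_eq_zero_iff.2 h1
      have hk := hker y hyW (hsurj y hy)
      have hlin : ∀ x : Fin N → ℝ, S y x = ∑ j, x j • S y (Pi.single j 1) := by
        intro x
        conv_lhs => rw [pi_eq_sum_univ' x]
        rw [map_sum]
        refine Finset.sum_congr rfl fun j _ => ?_
        rw [map_smul]
      have h2 : ∀ k, B y (S y x) (S y (Pi.single k 1)) = 0 := by
        intro k
        have h3 := congrFun hx0 k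
        rw [hlin x, map_sum]
        simpa [Matrix.vecMul, dotProduct, M] using h3
      have h4 : ∀ b, B y (S y x) b = 0 := by
        intro b
        have h5 : fderiv ℝ F y (b - S y (fderiv ℝ F y b)) = 0 := by
          rw [map_sub, hI1 y hy, sub_self]
        have h6 := (hk _).1 h5 (S y x)
        rw [hanti y (hOU hy)] at h6
        have h7 : B y (S y x) (S y (fderiv ℝ F y b)) = 0 := by
          rw [hlin (fderiv ℝ F y b), map_sum]
          refine Finset.sum_eq_zero fun k _ => ?_
          rw [map_smul, h2 k, smul_zero]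
        have h8 : B y (S y x) b = B y (S y x) (b - S y (fderiv ℝ F y b))
            + B y (S y x) (S y (fderiv ℝ F y b)) := by
          rw [← map_add, sub_add_cancel]
        rw [h8, h7, add_zero]
        linarith
      have h9 := (hk _).2 h4
      rw [hI1 y hy] at h9
      exact hx h9
    · intro h
      by_contra hyW
      refine h ?_
      have h1 : Lvs_det (M y) = 0 :=
        hdeg y (hOU hy) hyW (fun j => S y (Pi.single j 1)) fun j => hI1 y hy _
      show Lvs_det (M y) ^ 2 = 0
      rw [h1]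
      simp
  have hkG : ∀ y ∈ O, Function.Surjective (fderiv ℝ F y) → ∀ a, fderiv ℝ F y a = 0 →
      fderiv ℝ G y a = 0 := by
    intro y hy _ a ha
    have hMd : DifferentiableAt ℝ M y := (hM.contDiffAt (hO.mem_nhds hy)).differentiableAt (by simp)
    have hdd : DifferentiableAt ℝ (Lvs_det (N := N)) (M y) :=
      (Lvs_det_diff.contDiffAt).differentiableAt (by simp)
    have h1 : HasFDerivAt G ((2 * Lvs_det (M y)) •
        ((fderiv ℝ (Lvs_det (N := N)) (M y)).comp (fderiv ℝ M y))) y := by
      have h2 := (hdd.hasFDerivAt.comp y hMd.hasFDerivAt).pow 2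
      refine h2.congr_fderiv ?_
      simp
    rw [h1.fderiv]
    by_cases hyW : y ∈ W
    · have h3 : fderiv ℝ M y a = 0 := by
        have hBd := (hB.contDiffAt (hU.mem_nhds (hOU hy))).differentiableAt (by simp)
        have hDFd := (hDFs.contDiffAt (hU.mem_nhds (hOU hy))).differentiableAt (by simp)
        have hSd := (hS.contDiffAt (hO.mem_nhds hy)).differentiableAt (by simp)
        have hsym : ∀ a b, fderiv ℝ (fderiv ℝ F) y a b = fderiv ℝ (fderiv ℝ F) y b a := by
          intro a b
          have h2 : (2 : WithTop ℕ∞) ≤ ∞ := WithTop.coe_le_coe.2 (le_top : (2 : ℕ∞) ≤ ⊤)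
          have h5 : IsSymmSndFDerivAt ℝ F y :=
            ((hF.contDiffAt (hU.mem_nhds (hOU hy))).of_le h2).isSymmSndFDerivAt (by simp)
          exact h5 a b
        funext j k
        have h4 := Lvs_zero hBd.hasFDerivAt hDFd.hasFDerivAt hSd.hasFDerivAt hsym
          (Filter.mem_of_superset (hU.mem_nhds (hOU hy)) fun y' hy' => hanti y' hy')
          (hcl y (hOU hy)) (Filter.mem_of_superset (hO.mem_nhds hy) fun y' hy' => hI1 y' hy')
          (Filter.mem_of_superset ((hO.inter hW).mem_nhds ⟨hy, hyW⟩) fun y' hy' a ha =>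
            (hker y' hy'.2 (hsurj y' hy'.1) a).1 ha) ha (Pi.single j 1) (Pi.single k 1)
        have h5 : HasFDerivAt (fun y => M y j k)
            ((ContinuousLinearMap.proj k).comp ((ContinuousLinearMap.proj j).comp (fderiv ℝ M y)))
            y := by
          have h6 : HasFDerivAt (fun y => M y j) ((ContinuousLinearMap.proj j).comp (fderiv ℝ M y))
              y := (ContinuousLinearMap.proj (R := ℝ) (φ := fun _ : Fin N => Fin N → ℝ)
                j).hasFDerivAt.comp y hMd.hasFDerivAt
          exact (ContinuousLinearMap.proj (R := ℝ) (φ := fun _ : Fin N => ℝ)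
                k).hasFDerivAt.comp y h6
        have h7 := h5.unique h4.1
        exact (congrArg (fun L => L a) h7).trans h4.2
      simp [h3]
    · have h3 : G y = 0 := by
        by_contra h
        exact hyW ((hiff y hy).2 h)
      have h4 : Lvs_det (M y) = 0 := by
        have : Lvs_det (M y) ^ 2 = 0 := h3
        exact pow_eq_zero_iff (two_ne_zero) |>.1 this
      simp [h4]
  have hsl := Pool.Agent.NDC.slice hO (hF.mono hOU) hG hz0 hs hkG
  filter_upwards [hsl, hO.mem_nhds hz0] with y hy hyO hF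
  rw [hiff y hyO, hiff z₀ hz0, hy hF]

end Abs

end Pool.Agent.ARK
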