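import Pool.Agent.ARK.Ldf
import Pool.Agent.NDC.Sgl
import Pool.Agent.NDC.Dns

/-!
ARK module Lz (size 2): the density `lt ν (om) (η) (i∂∂̄ b)` has integral zero.
PROOF. For `a : Fin (n + 1)` let `θ_a = η.comb om hb (a : ℝ) 0` (NDC/Glo). By `lm_comb` (NDC/Psd),
`lm (θ_a.w i) z = (a : ℂ) • lm (η.w i) z + (0 : ℂ) • _ + lm (om.w i) z`. So on the targets the function is
`∑ a, cf n ν a * ((lm (θ_a.w i) z).adjugate * lm (vt A b i) z).trace`, a density by `dens_tr`, `IsDens.smul`, `IsDens.sum` (NDC/Dns;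
`IsDens` only depends on the values on the targets; `Uo ⊆ target`, `ph_mem`), and its integral is
`∑ a, cf n ν a * 0` by `Itg_congr`, `Itg_sum`, `Itg_smul` (NDC/Itl), `Itg_stokes` (NDC/Sgl).
-/

open scoped ContDiff ComplexConjugate Topology ComplexOrder
open Complex MeasureTheory Matrix

namespace Pool.Agent.ARK

open Pool.Agent.CYF Pool.Agent.NDC

variable {n : ℕ} {X : Type*} [TopologicalSpace X] {ι : Type*} {A : Mfd n X ι}

private theorem Lz_congr {f g : ι → E n → ℂ} (hf : IsDens A f)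
    (h : ∀ i, ∀ z ∈ (A.c i).target, g i z = f i z) : IsDens A g where
  cont i := (hf.cont i).congr (h i)
  trans i j z hz := by
    rw [h i z hz.1, hf.trans i j z hz, h j _ (ph_mem hz)]

private theorem Lz_eq (η om : Form A) (ν : ℕ) {b : X → ℝ} (hb : Sm A b) (i : ι) (z : E n)
    (hz : z ∈ (A.c i).target) :
    lt ν (lm (om.w i) z) (lm (η.w i) z) (lm (vt A b i) z)
      = ∑ a : Fin (n + 1), cf n ν a *
        ((lm ((η.comb om hb (((a : ℕ) : ℝ)) 0).w i) z).adjugate * lm (vt A b i) z).trace := by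
  unfold lt
  refine Finset.sum_congr rfl fun a _ => ?_
  rw [lm_comb η om hb (((a : ℕ) : ℝ)) 0 hz]
  simp only [Complex.ofReal_natCast, Complex.ofReal_zero, zero_smul, add_zero]

theorem lt_dens (η om : Form A) (ν : ℕ) {b : X → ℝ} (hb : Sm A b) :
    IsDens A (fun i z => lt ν (lm (om.w i) z) (lm (η.w i) z) (lm (vt A b i) z)) := by
  have h := IsDens.sum (A := A) (Finset.univ : Finset (Fin (n + 1)))
    (fun a i z => cf n ν a *
      ((lm ((η.comb om hb (((a : ℕ) : ℝ)) 0).w i) z).adjugate * lm (vt A b i) z).trace)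
    (fun a _ => (dens_tr (η.comb om hb (((a : ℕ) : ℝ)) 0) hb).smul (cf n ν a))
  exact Lz_congr h (fun i z hz => Lz_eq η om ν hb i z hz)

theorem Itg_lt [T2Space X] (P : Pou A) (η om : Form A) (ν : ℕ) {b : X → ℝ} (hb : Sm A b) :
    Itg P (fun i z => lt ν (lm (om.w i) z) (lm (η.w i) z) (lm (vt A b i) z)) = 0 := by
  rw [Itg_congr P (fun i z hz => Lz_eq η om ν hb i z hz)]
  rw [Itg_sum P (Finset.univ : Finset (Fin (n + 1)))
    (fun a i z => cf n ν a *
      ((lm ((η.comb om hb (((a : ℕ) : ℝ)) 0).w i) z).adjugate * lm (vt A b i) z).trace)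
    (fun a _ => (dens_tr (η.comb om hb (((a : ℕ) : ℝ)) 0) hb).smul (cf n ν a))]
  refine Finset.sum_eq_zero fun a _ => ?_
  rw [Itg_smul, Itg_stokes P (η.comb om hb (((a : ℕ) : ℝ)) 0) hb, mul_zero]

end Pool.Agent.ARK
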