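import Pool.Agent.ARK.Tlv
import Pool.Agent.ARK.Kfr

/-!
ARK module Spo (size 3): being spread is an open condition at the points of rank `ν`.
PROOF. Let `w = η.w i`, `U = (A.c i).target`, `J` with `det ((lm w z).submatrix J J) ≠ 0` (`exJ`, `lm_psd`), `kfr`: a frame `ξ` on `O ∋ z`. For `y ∈ O` and `t : Fin ν → ℂ` let `b t = ∑ i, conj (t i) • e (J i)` and
`Λ y t = fun (q, L) => ∑ l, conj (b t l) * low w m τ (update L q l) y = fun (q, L) => ∑ i, t i * low w m τ (update L q (J i)) y`, a linear map `(Fin ν → ℂ) → (Fin p × (Fin p → Fin n) → ℂ)` with coefficients continuous in `y` (`low_smooth`).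
`Λ z` is injective: `Λ z t = 0` gives `Ker (b t)` (`Spread` at `z`), so `b t = 0` by `Frame.uniq` (`ker_iff`), `t = 0` (`J` injective). The injective maps form an open set (`ContinuousLinearMap.isOpen_injective` or `isOpen_setOf_linearIndependent`
for the columns `i ↦ Λ y (e i)`), so `Λ y` is injective for `y` near `z`. For such `y ∈ O` let `b` satisfy the hypothesis in `Spread` at `y`. With `Frame.span`-type subtraction: `b' = b - ∑ k ∉ range J, b k • ξ k y` is supported on the range of `J` (`Frame.off`) and satisfies the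
hypothesis too, because vectors `c` in the kernel satisfy it: `∑ l, conj (c l) * low (update L q l) = exp * ∑ K, τ_K ∏_{r ≠ q} LM (K r) (L r) * ∑ l, conj (c l) * LM (K q) l = 0` (`km_conj`). So `b' = b t` with `Λ y t = 0`, `b' = 0`, and `b` is in the kernel.
-/

open scoped ContDiff ComplexConjugate Topology ComplexOrder
open Complex MeasureTheory Matrix

namespace Pool.Agent.ARK

open Pool.Agent.CYF Pool.Agent.NDC

variable {n : ℕ} {X : Type*} [TopologicalSpace X] {ι : Type*} {A : Mfd n X ι}

private theorem spo_km {w : E n → ℝ} {U : Set (E n)} {y : E n} (hU : IsOpen U)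
    (hw : ContDiffOn ℝ ∞ w U) (hy : y ∈ U) {p : ℕ} (m : ℝ) (τ : (Fin p → Fin n) → E n → ℂ)
    {c : E n} (hc : KM w y c) (q : Fin p) (L : Fin p → Fin n) :
    ∑ l, conj (c l) * low w m τ (Function.update L q l) y = 0 := by
  have h11 : ∀ l, low w m τ (Function.update L q l) y
      = ∑ K : Fin p → Fin n, LM w y (K q) l * ((∏ r ∈ Finset.univ.erase q, LM w y (K r) (L r))
        * τ K y * (Real.exp (-(m * w y)) : ℂ)) := by
    intro l
    have e0 : low w m τ (Function.update L q l) y
        = (∑ K : Fin p → Fin n, (∏ a, LM w y (K a) (Function.update L q l a)) * τ K y)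
          * (Real.exp (-(m * w y)) : ℂ) := rfl
    rw [e0, Finset.sum_mul]
    refine Finset.sum_congr rfl fun K _ => ?_
    rw [← Finset.mul_prod_erase Finset.univ _ (Finset.mem_univ q), Function.update_self]
    have e1 : ∏ r ∈ Finset.univ.erase q, LM w y (K r) (Function.update L q l r)
        = ∏ r ∈ Finset.univ.erase q, LM w y (K r) (L r) := by
      refine Finset.prod_congr rfl fun r hr => ?_
      rw [Function.update_of_ne (Finset.mem_erase.1 hr).1]
    rw [e1]; ring
  simp_rw [h11, Finset.mul_sum]
  rw [Finset.sum_comm]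
  refine Finset.sum_eq_zero fun K _ => ?_
  have h2 : ∑ l, conj (c l) * (LM w y (K q) l * ((∏ r ∈ Finset.univ.erase q, LM w y (K r) (L r))
        * τ K y * (Real.exp (-(m * w y)) : ℂ)))
      = (∑ l, conj (c l) * LM w y (K q) l) * ((∏ r ∈ Finset.univ.erase q, LM w y (K r) (L r))
        * τ K y * (Real.exp (-(m * w y)) : ℂ)) := by
    rw [Finset.sum_mul]
    exact Finset.sum_congr rfl fun l _ => by ring
  rw [h2, km_conj hU hw hy hc, zero_mul]

private theorem spo_supp {ν : ℕ} {J : Fin ν → Fin n} (hJ : Function.Injective J) {b : E n}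
    (hb : ∀ l, l ∉ Set.range J → b l = 0) (v : Fin n → ℂ) :
    ∑ l, conj (b l) * v l = ∑ i, conj (b (J i)) * v (J i) := by
  classical
  rw [← Finset.sum_image (s := Finset.univ) (g := J) (f := fun l => conj (b l) * v l)
    (fun a _ a' _ h => hJ h)]
  symm
  refine Finset.sum_subset (Finset.subset_univ _) fun l _ hl => ?_
  have : l ∉ Set.range J := by
    rintro ⟨i, rfl⟩
    exact hl (Finset.mem_image_of_mem _ (Finset.mem_univ i))
  rw [hb l this, map_zero, zero_mul]

theorem spread_open {η : Form A} (hη : η.Semipositive) {ν : ℕ} (hν : η.RankLE ν) {p : ℕ} {m : ℝ}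
    {τ : ι → (Fin p → Fin n) → E n → ℂ} (hτ : ∀ i K, ContDiffOn ℂ ∞ (τ i K) (A.c i).target)
    {i : ι} {z : E n} (hz : Full η ν i z) (hs : Spread η i z m (τ i)) :
    ∀ᶠ y in 𝓝 z, Spread η i y m (τ i) := by
  classical
  have hU : IsOpen (A.c i).target := (A.c i).open_target
  have hw := η.smooth i
  obtain ⟨J, hJ⟩ := exJ (lm_psd hU hw hz.1 (fun a => hη i z hz.1 a)) hz.2
  obtain ⟨O, ξ, hzO, hOU, F⟩ := kfr hU hw (fun y hy => hν i y hy) hz.1 hJ
  set v : E n → Fin ν → (Fin p × (Fin p → Fin n)) → ℂ := fun y j qL =>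
    low (η.w i) m (τ i) (Function.update qL.2 qL.1 (J j)) y with hv
  have hcont : ContinuousAt v z := by
    refine continuousAt_pi.2 fun j => continuousAt_pi.2 fun qL => ?_
    exact ((low_smooth hU hw m (fun K => hτ i K) _).continuousOn).continuousAt
      (hU.mem_nhds hz.1)
  have hlin : LinearIndependent ℂ (v z) := by
    rw [Fintype.linearIndependent_iff]
    intro t ht j
    set b : E n := fun l => if h : l ∈ Set.range J then conj (t h.choose) else 0 with hb
    have hbJ : ∀ j, b (J j) = conj (t j) := by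
      intro j
      have h : J j ∈ Set.range J := ⟨j, rfl⟩
      have h2 : h.choose = j := F.inj h.choose_spec
      rw [hb]
      simp only [dif_pos h, h2]
    have hb0 : ∀ l, l ∉ Set.range J → b l = 0 := fun l hl => by
      rw [hb]; simp only [dif_neg hl]
    have hker : Ker η i z b := by
      refine hs b fun q L => ?_
      rw [spo_supp F.inj hb0]
      have h1 := congrFun ht (q, L)
      rw [Finset.sum_apply] at h1
      rw [← show (0 : Fin p × (Fin p → Fin n) → ℂ) (q, L) = 0 from rfl, ← h1]
      refine Finset.sum_congr rfl fun j _ => ?_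
      rw [hbJ j, Complex.conj_conj]
      rfl
    have h2 := F.uniq z hzO b ((ker_iff η hz.1 b).1 hker) hb0
    have h3 := hbJ j
    rw [h2] at h3
    have h4 : conj (t j) = 0 := h3.symm
    rwa [map_eq_zero] at h4
  have hopen : ∀ᶠ y in 𝓝 z, LinearIndependent ℂ (v y) :=
    hcont.eventually (isOpen_setOfPred_linearIndependent.mem_nhds hlin)
  filter_upwards [hopen, F.isOpen.mem_nhds hzO] with y hy hyO b hb
  have hyU : y ∈ (A.c i).target := hOU hyO
  set c : E n := ∑ k ∈ Finset.univ.filter (fun k => k ∉ Set.range J), b k • ξ k y with hc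
  have hcK : KM (η.w i) y c := km_sum _ _ _ fun k _ => F.ker y hyO k
  have hcl : ∀ l, l ∉ Set.range J → c l = b l := by
    intro l hl
    rw [hc, Finset.sum_apply, Finset.sum_eq_single l]
    · rw [Pi.smul_apply, F.off y hyO l l hl, if_pos rfl, smul_eq_mul, mul_one]
    · intro k _ hk
      rw [Pi.smul_apply, F.off y hyO k l hl, if_neg (Ne.symm hk), smul_zero]
    · intro h
      refine absurd ?_ h
      rw [Finset.mem_filter]
      exact ⟨Finset.mem_univ _, hl⟩
  have hb'0 : ∀ l, l ∉ Set.range J → (b - c) l = 0 := fun l hl => by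
    rw [Pi.sub_apply, hcl l hl, sub_self]
  have hb' : ∀ (q : Fin p) (L : Fin p → Fin n),
      ∑ l, conj ((b - c) l) * low (η.w i) m (τ i) (Function.update L q l) y = 0 := by
    intro q L
    have h1 := hb q L
    have h2 := spo_km hU hw hyU m (τ i) hcK q L
    have h3 : ∑ l, conj ((b - c) l) * low (η.w i) m (τ i) (Function.update L q l) y
        = ∑ l, conj (b l) * low (η.w i) m (τ i) (Function.update L q l) y
          - ∑ l, conj (c l) * low (η.w i) m (τ i) (Function.update L q l) y := by
      rw [← Finset.sum_sub_distrib]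
      refine Finset.sum_congr rfl fun l _ => ?_
      rw [Pi.sub_apply, map_sub]; ring
    rw [h3, h1, h2, sub_zero]
  have ht : ∑ j, (conj ((b - c) (J j))) • v y j = 0 := by
    funext qL
    rw [Finset.sum_apply]
    have h1 := hb' qL.1 qL.2
    rw [spo_supp F.inj hb'0] at h1
    exact h1
  have h0 : ∀ j, conj ((b - c) (J j)) = 0 := fun j =>
    (Fintype.linearIndependent_iff.1 hy) _ ht j
  have hbc : b - c = 0 := by
    funext l
    by_cases hl : l ∈ Set.range J
    · obtain ⟨j, rfl⟩ := hl
      have := h0 j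
      rwa [map_eq_zero] at this
    · exact hb'0 l hl
  rw [ker_iff η hyU, sub_eq_zero.1 hbc]
  exact hcK

end Pool.Agent.ARK
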