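import Pool.Agent.ARK.Tpa
import Pool.Agent.ARK.Pxi

/-!
ARK module Spr (size 5): if a holomorphic tensor is spread at a point of rank `ν` then `∂̄ ξ` is in the kernel there, for all smooth
sections `ξ` of the kernel.
PROOF. Let `a = ξ z`, `f, g` Gram data for `a` (`gram_exists`, index type `Fin n ⊕ Fin n`), `DD S = 0` for all `S` (`dd_zero`). Fix `q : Fin p`, `L : Fin p → Fin n`, and put
`x k = ∑ K with K q = k, τ_K z * ∏ r ∈ univ.erase q, LM w z (K r) (L r)`.
(1) `∃ c : E n, ∀ s, ∑ k, x k * g k s = ∑ k, c k * f k s`: fix `s`, multiply `DD S = 0` for the `S` with `S q = s` by `∏ r ∈ univ.erase q, conj (f (L r) (S r))` and sum over the `S r`, `r ≠ q` (sum over all `S : Fin p → ρ` with `S q = s`).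
The terms of `DD` with `FK f K S`, and the terms of `GK f g K S = ∑ q', g (K q') (S q') * ∏ r ∈ erase q', f (K r) (S r)` with `q' ≠ q`, contain the factor `f (K q) (S q) = f (K q) s` and give `∑ K, (number) * f (K q) s = - ∑ k, c k * f k s`;
the term `q' = q` gives `∑ K, τ_K * g (K q) s * ∏ r ≠ q, (∑ s', f (K r) s' * conj (f (L r) s')) = ∑ k, x k * g k s` (`Gram.m`). (Only the existence of `c` matters: every other term is of the form `∑ k, (number independent of s) * f k s`.)
(2) Pair (1) with `f l`: `∑ k, x k * Mt w z a k l = ∑ k, c k * LM w z k l` (`Gram.t`, `Gram.m`), and pair (1) with itself: `∑ k l, x k * conj (x l) * Mtt k l = ∑ k l, c k * conj (c l) * LM k l` (`Gram.tt`).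
(3) By `pxi1`, `c + dx ξ z x` is in the kernel (`KM`), so `∑ c conj c LM = ∑ (dx) conj (dx) LM` (`km_conj`), and `pxi4` gives `∑ p q, dxb ξ z x p * conj (dxb ξ z x q) * LM p q = 0`, so `KM w z (dxb ξ z x)` (`km_of_re`).
(4) Let `x0` be arbitrary, `b = dxb ξ z x0`. By `Spread` and `ker_iff` it is enough that `∑ l, conj (b l) * low w m τ (update L q l) z = 0` for all `q, L`. Now `low w m τ (update L q l) z = exp (-(m w z)) * ∑ k, x k * LM w z k l` (the product over `Fin p` split at `q`:
`Finset.mul_prod_erase`, `Function.update_self`, `Function.update_of_ne`), so the sum is `exp * ∑ k l, x k * conj (b l) * LM k l`, whose conjugate is `∑ k l, b l * conj (x k) * LM l k` (`LM_conj`) `= ∑ dxb ξ z x0 l * conj (x k) * LM l k = ∑ dxb ξ z x l * conj (x0 k) * LM l k` (`pxi3`)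
`= 0` by (3).
-/

open scoped ContDiff ComplexConjugate Topology ComplexOrder
open Complex MeasureTheory Matrix

namespace Pool.Agent.ARK

open Pool.Agent.CYF Pool.Agent.NDC

variable {n : ℕ} {X : Type*} [TopologicalSpace X] {ι : Type*} {A : Mfd n X ι}

private theorem spr_sum {ρ : Type} [Fintype ρ] [DecidableEq ρ] {p : ℕ} (q : Fin p) (s : ρ)
    (F : Fin p → ρ → ℂ) :
    ∑ S : Fin p → ρ, (if S q = s then (1:ℂ) else 0) * ∏ r ∈ Finset.univ.erase q, F r (S r)
      = ∏ r ∈ Finset.univ.erase q, ∑ s', F r s' := by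
  classical
  have h1 := Finset.prod_univ_sum (fun _ : Fin p => (Finset.univ : Finset ρ))
    (fun r s' => if r = q then (if s' = s then (1:ℂ) else 0) else F r s')
  rw [Fintype.piFinset_univ] at h1
  rw [← Finset.mul_prod_erase Finset.univ _ (Finset.mem_univ q)] at h1
  have h2 : ∑ s', (if q = q then (if s' = s then (1:ℂ) else 0) else F q s') = 1 := by
    simp
  rw [h2, one_mul] at h1
  have h3 : ∏ r ∈ Finset.univ.erase q, ∑ s', (if r = q then (if s' = s then (1:ℂ) else 0)
      else F r s') = ∏ r ∈ Finset.univ.erase q, ∑ s', F r s' := by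
    refine Finset.prod_congr rfl fun r hr => ?_
    have : r ≠ q := (Finset.mem_erase.1 hr).1
    simp [this]
  rw [h3] at h1
  rw [h1]
  refine Finset.sum_congr rfl fun S _ => ?_
  rw [← Finset.mul_prod_erase Finset.univ _ (Finset.mem_univ q)]
  congr 1
  · simp
  · refine Finset.prod_congr rfl fun r hr => ?_
    have : r ≠ q := (Finset.mem_erase.1 hr).1
    simp [this]

private theorem spr_gk {ρ : Type} [Fintype ρ] (f g : Fin n → ρ → ℂ) {p : ℕ} (q : Fin p)
    (K : Fin p → Fin n) (S : Fin p → ρ) :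
    GK f g K S = g (K q) (S q) * ∏ r ∈ Finset.univ.erase q, f (K r) (S r)
      + f (K q) (S q) * ∑ q' ∈ Finset.univ.erase q, ∏ r ∈ Finset.univ.erase q,
          (if r = q' then g (K r) (S r) else f (K r) (S r)) := by
  unfold GK
  rw [← Finset.add_sum_erase Finset.univ _ (Finset.mem_univ q)]
  congr 1
  rw [Finset.mul_sum]
  refine Finset.sum_congr rfl fun q' hq' => ?_
  have hne : q' ≠ q := (Finset.mem_erase.1 hq').1
  have h1 := Finset.mul_prod_erase Finset.univ
    (fun r => if r = q' then g (K r) (S r) else f (K r) (S r)) (Finset.mem_univ q')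
  have h2 := Finset.mul_prod_erase Finset.univ
    (fun r => if r = q' then g (K r) (S r) else f (K r) (S r)) (Finset.mem_univ q)
  rw [← h2] at h1
  simp only [if_true] at h1
  rw [if_neg (Ne.symm hne)] at h1
  rw [← h1]
  congr 1
  refine Finset.prod_congr rfl fun r hr => ?_
  rw [if_neg (Finset.mem_erase.1 hr).1]

private theorem spr_alg {ρ : Type} [Fintype ρ] {f g : Fin n → ρ → ℂ} {p : ℕ} (q : Fin p)
    (L : Fin p → Fin n) (B T : (Fin p → Fin n) → ℂ) {M : Fin n → Fin n → ℂ}
    (hM : ∀ k l, M k l = ∑ s, f k s * conj (f l s))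
    (hD : ∀ S : Fin p → ρ, ∑ K, (B K * FK f K S + T K * GK f g K S) = 0) :
    ∃ c : E n, ∀ s, ∑ k, (∑ K : Fin p → Fin n, if K q = k then
        T K * ∏ r ∈ Finset.univ.erase q, M (K r) (L r) else 0) * g k s = ∑ k, c k * f k s := by
  classical
  set P : (Fin p → Fin n) → ℂ := fun K => ∏ r ∈ Finset.univ.erase q, M (K r) (L r) with hP
  set Q : (Fin p → Fin n) → Fin p → ℂ := fun K q' => ∏ r ∈ Finset.univ.erase q,
    ∑ s', (if r = q' then g (K r) s' else f (K r) s') * conj (f (L r) s') with hQ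
  have hW : ∀ (s : ρ) (K : Fin p → Fin n), ∑ S : Fin p → ρ, ((if S q = s then (1:ℂ) else 0) *
      ∏ r ∈ Finset.univ.erase q, conj (f (L r) (S r))) * FK f K S = f (K q) s * P K := by
    intro s K
    have h1 := spr_sum q s (fun r s' => f (K r) s' * conj (f (L r) s'))
    have h2 : P K = ∏ r ∈ Finset.univ.erase q, ∑ s', f (K r) s' * conj (f (L r) s') :=
      Finset.prod_congr rfl fun r _ => hM _ _
    rw [h2, ← h1, Finset.mul_sum]
    refine Finset.sum_congr rfl fun S _ => ?_
    unfold FK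
    rw [← Finset.mul_prod_erase Finset.univ (fun q => f (K q) (S q)) (Finset.mem_univ q),
      Finset.prod_mul_distrib]
    by_cases hs : S q = s
    · rw [if_pos hs, hs]; ring
    · rw [if_neg hs]; ring
  have hW2 : ∀ (s : ρ) (K : Fin p → Fin n), ∑ S : Fin p → ρ, ((if S q = s then (1:ℂ) else 0) *
      ∏ r ∈ Finset.univ.erase q, conj (f (L r) (S r))) * GK f g K S
        = g (K q) s * P K + f (K q) s * ∑ q' ∈ Finset.univ.erase q, Q K q' := by
    intro s K
    have h1 := spr_sum q s (fun r s' => f (K r) s' * conj (f (L r) s'))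
    have h2 : P K = ∏ r ∈ Finset.univ.erase q, ∑ s', f (K r) s' * conj (f (L r) s') :=
      Finset.prod_congr rfl fun r _ => hM _ _
    have h3 : ∀ q' ∈ Finset.univ.erase q, Q K q' = ∑ S : Fin p → ρ,
        (if S q = s then (1:ℂ) else 0) * ∏ r ∈ Finset.univ.erase q,
          ((if r = q' then g (K r) (S r) else f (K r) (S r)) * conj (f (L r) (S r))) :=
      fun q' _ => (spr_sum q s (fun r s' => (if r = q' then g (K r) s' else f (K r) s') *
        conj (f (L r) s'))).symm
    rw [h2, ← h1, Finset.sum_congr rfl h3, Finset.sum_comm, Finset.mul_sum, Finset.mul_sum,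
      ← Finset.sum_add_distrib]
    refine Finset.sum_congr rfl fun S _ => ?_
    rw [spr_gk f g q K S, Finset.prod_mul_distrib]
    have h4 : ∀ q' ∈ Finset.univ.erase q, (if S q = s then (1:ℂ) else 0) *
        ∏ r ∈ Finset.univ.erase q,
          ((if r = q' then g (K r) (S r) else f (K r) (S r)) * conj (f (L r) (S r)))
        = ((if S q = s then (1:ℂ) else 0) * ∏ r ∈ Finset.univ.erase q, conj (f (L r) (S r))) *
          ∏ r ∈ Finset.univ.erase q, (if r = q' then g (K r) (S r) else f (K r) (S r)) := by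
      intro q' _
      rw [Finset.prod_mul_distrib]; ring
    rw [Finset.sum_congr rfl h4, ← Finset.mul_sum]
    by_cases hs : S q = s
    · rw [if_pos hs, hs]; ring
    · rw [if_neg hs]; ring
  refine ⟨fun k => -∑ K : Fin p → Fin n, if K q = k then
    (B K * P K + T K * ∑ q' ∈ Finset.univ.erase q, Q K q') else 0, fun s => ?_⟩
  have hsum : ∀ (v : (Fin p → Fin n) → ℂ) (u : Fin n → ℂ),
      ∑ k, (∑ K : Fin p → Fin n, if K q = k then v K else 0) * u k = ∑ K, v K * u (K q) := by
    intro v u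
    simp_rw [Finset.sum_mul]
    rw [Finset.sum_comm]
    refine Finset.sum_congr rfl fun K _ => ?_
    rw [Finset.sum_eq_single (K q)]
    · rw [if_pos rfl]
    · intro b _ hb; rw [if_neg (Ne.symm hb), zero_mul]
    · intro h; exact absurd (Finset.mem_univ _) h
  have h0 : ∑ S : Fin p → ρ, ((if S q = s then (1:ℂ) else 0) *
      ∏ r ∈ Finset.univ.erase q, conj (f (L r) (S r))) *
        (∑ K, (B K * FK f K S + T K * GK f g K S)) = 0 :=
    Finset.sum_eq_zero fun S _ => by rw [hD S, mul_zero]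
  have h1 : ∑ K : Fin p → Fin n, (B K * (f (K q) s * P K)
      + T K * (g (K q) s * P K + f (K q) s * ∑ q' ∈ Finset.univ.erase q, Q K q')) = 0 := by
    rw [← h0]
    simp_rw [Finset.mul_sum (Finset.univ : Finset (Fin p → Fin n))]
    rw [Finset.sum_comm]
    refine Finset.sum_congr rfl fun K _ => ?_
    rw [← hW s K, ← hW2 s K, Finset.mul_sum, Finset.mul_sum, ← Finset.sum_add_distrib]
    refine Finset.sum_congr rfl fun S _ => ?_
    ring
  rw [hsum (fun K => T K * P K) (fun k => g k s)]
  have h2 : ∑ k, (-∑ K : Fin p → Fin n, if K q = k then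
      (B K * P K + T K * ∑ q' ∈ Finset.univ.erase q, Q K q') else 0) * f k s
      = -∑ K, (B K * P K + T K * ∑ q' ∈ Finset.univ.erase q, Q K q') * f (K q) s := by
    rw [← hsum (fun K => B K * P K + T K * ∑ q' ∈ Finset.univ.erase q, Q K q')
      (fun k => f k s), ← Finset.sum_neg_distrib]
    refine Finset.sum_congr rfl fun k _ => ?_
    rw [neg_mul]
  rw [h2, eq_neg_iff_add_eq_zero, ← Finset.sum_add_distrib, ← h1]
  refine Finset.sum_congr rfl fun K _ => ?_
  ring

private theorem spr_pair {ρ : Type} [Fintype ρ] {f g : Fin n → ρ → ℂ} {w : E n → ℝ} {z a : E n}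
    (h : Gram w z a f g) {x c : E n} (hc : ∀ s, ∑ k, x k * g k s = ∑ k, c k * f k s) :
    (∀ l, ∑ k, x k * Mt w z a k l = ∑ k, c k * LM w z k l) ∧
    ∑ k, ∑ l, x k * conj (x l) * Mtt w z a k l = ∑ k, ∑ l, c k * conj (c l) * LM w z k l := by
  constructor
  · intro l
    have h1 : ∑ s, (∑ k, x k * g k s) * conj (f l s) = ∑ s, (∑ k, c k * f k s) * conj (f l s) :=
      Finset.sum_congr rfl fun s _ => by rw [hc s]
    simp_rw [Finset.sum_mul] at h1
    have h1' : ∑ k, ∑ s, x k * g k s * conj (f l s) = ∑ k, ∑ s, c k * f k s * conj (f l s) := by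
      rw [Finset.sum_comm, h1]
      exact Finset.sum_comm
    calc ∑ k, x k * Mt w z a k l = ∑ k, ∑ s, x k * g k s * conj (f l s) := by
          refine Finset.sum_congr rfl fun k _ => ?_
          rw [h.t k l, Finset.mul_sum]
          exact Finset.sum_congr rfl fun s _ => by ring
      _ = ∑ k, ∑ s, c k * f k s * conj (f l s) := h1'
      _ = ∑ k, c k * LM w z k l := by
          refine Finset.sum_congr rfl fun k _ => ?_
          rw [h.m k l, Finset.mul_sum]
          exact Finset.sum_congr rfl fun s _ => by ring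
  · have h1 : ∑ s, (∑ k, x k * g k s) * conj (∑ k, x k * g k s)
        = ∑ s, (∑ k, c k * f k s) * conj (∑ k, c k * f k s) :=
      Finset.sum_congr rfl fun s _ => by rw [hc s]
    have h2 : ∀ (x : E n) (g : Fin n → ρ → ℂ), ∑ s, (∑ k, x k * g k s) * conj (∑ k, x k * g k s)
        = ∑ k, ∑ l, x k * conj (x l) * ∑ s, g k s * conj (g l s) := by
      intro x g
      have h3 : ∀ s, (∑ k, x k * g k s) * conj (∑ k, x k * g k s)
          = ∑ k, ∑ l, x k * conj (x l) * (g k s * conj (g l s)) := by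
        intro s
        rw [map_sum, Finset.sum_mul_sum]
        refine Finset.sum_congr rfl fun k _ => Finset.sum_congr rfl fun l _ => ?_
        rw [map_mul]; ring
      rw [Finset.sum_congr rfl fun s _ => h3 s, Finset.sum_comm]
      refine Finset.sum_congr rfl fun k _ => ?_
      rw [Finset.sum_comm]
      refine Finset.sum_congr rfl fun l _ => ?_
      rw [Finset.mul_sum]
    rw [h2, h2] at h1
    calc ∑ k, ∑ l, x k * conj (x l) * Mtt w z a k l
        = ∑ k, ∑ l, x k * conj (x l) * ∑ s, g k s * conj (g l s) :=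
          Finset.sum_congr rfl fun k _ => Finset.sum_congr rfl fun l _ => by rw [h.tt k l]
      _ = ∑ k, ∑ l, c k * conj (c l) * ∑ s, f k s * conj (f l s) := h1
      _ = _ := Finset.sum_congr rfl fun k _ => Finset.sum_congr rfl fun l _ => by rw [h.m k l]

theorem spr [T2Space X] [CompactSpace X] {η om : Form A} (hη : η.Semipositive) {ν : ℕ}
    (hν : η.RankLE ν) (hom : om.Positive) {p : ℕ} {m : ℝ} {τ : ι → (Fin p → Fin n) → E n → ℂ}
    (hτ : IsTensor η p m τ) {i : ι} {z : E n} (hz : Full η ν i z)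
    (hs : Spread η i z m (τ i)) {O : Set (E n)} (hO : IsOpen O) (hOs : O ⊆ (A.c i).target)
    {ξ : E n → E n} (hξ : ∀ q, ContDiffOn ℝ ∞ (fun y => ξ y q) O)
    (hk : ∀ y ∈ O, KM (η.w i) y (ξ y)) (hzO : z ∈ O) (x : E n) :
    KM (η.w i) z (dxb ξ z x) := by
  have hU : IsOpen (A.c i).target := (A.c i).open_target
  have hw := η.smooth i
  have hwO : ContDiffOn ℝ ∞ (η.w i) O := hw.mono hOs
  have hzU : z ∈ (A.c i).target := hOs hzO
  have ha : KM (η.w i) z (ξ z) := hk z hzO
  obtain ⟨f, g, h⟩ := gram_exists hU hw (hη i) hzU ha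
  rw [← ker_iff η hzU]
  refine hs _ fun q L => ?_
  obtain ⟨c, hc⟩ := spr_alg q L
    (fun K => d10 (τ i K) z (ξ z) - (m : ℂ) * d10 (cx (η.w i)) z (ξ z) * τ i K z)
    (fun K => τ i K z) (M := LM (η.w i) z) h.m (fun S => dd_zero hη hν hom hτ hz ha h S)
  set y : E n := fun k => ∑ K : Fin p → Fin n, if K q = k then
        τ i K z * ∏ r ∈ Finset.univ.erase q, LM (η.w i) z (K r) (L r) else 0 with hy
  have hc' : ∀ s, ∑ k, y k * g k s = ∑ k, c k * f k s := hc
  obtain ⟨h1, h2⟩ := spr_pair h hc'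
  -- step 3
  have h3 : ∀ l, ∑ k, c k * LM (η.w i) z k l = -∑ p, dx ξ z y p * LM (η.w i) z p l := by
    intro l
    rw [← h1 l]
    exact pxi1 hO hwO hξ hk hzO y l
  have hcj : ∀ (v : E n) (k : Fin n), conj (∑ l, v l * LM (η.w i) z l k)
      = ∑ l, conj (v l) * LM (η.w i) z k l := by
    intro v k
    rw [map_sum]
    refine Finset.sum_congr rfl fun l _ => ?_
    rw [map_mul, LM_conj hU hw hzU]
  have h4 : ∀ k, ∑ l, conj (c l) * LM (η.w i) z k l
      = -∑ l, conj (dx ξ z y l) * LM (η.w i) z k l := by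
    intro k
    rw [← hcj c k, h3 k, map_neg, hcj]
  have h5 : ∑ k, ∑ l, c k * conj (c l) * LM (η.w i) z k l
      = ∑ k, ∑ l, dx ξ z y k * conj (dx ξ z y l) * LM (η.w i) z k l := by
    have e1 : ∀ (u v : E n), ∑ k, ∑ l, u k * conj (v l) * LM (η.w i) z k l
        = ∑ k, u k * ∑ l, conj (v l) * LM (η.w i) z k l := by
      intro u v
      refine Finset.sum_congr rfl fun k _ => ?_
      rw [Finset.mul_sum]
      exact Finset.sum_congr rfl fun l _ => by ring
    have e2 : ∀ (u v : E n), ∑ k, ∑ l, u k * conj (v l) * LM (η.w i) z k l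
        = ∑ l, conj (v l) * ∑ k, u k * LM (η.w i) z k l := by
      intro u v
      rw [Finset.sum_comm]
      refine Finset.sum_congr rfl fun l _ => ?_
      rw [Finset.mul_sum]
      exact Finset.sum_congr rfl fun k _ => by ring
    rw [e1]
    simp_rw [h4]
    have e3 : ∑ k, c k * -∑ l, conj (dx ξ z y l) * LM (η.w i) z k l
        = -∑ k, ∑ l, c k * conj (dx ξ z y l) * LM (η.w i) z k l := by
      rw [e1, ← Finset.sum_neg_distrib]
      exact Finset.sum_congr rfl fun k _ => by ring
    rw [e3, e2]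
    simp_rw [h3]
    rw [e2, ← Finset.sum_neg_distrib]
    exact Finset.sum_congr rfl fun k _ => by ring
  have h6 := pxi4 hO hwO hξ hk hzO y
  rw [h2, h5] at h6
  have h7 : ∑ p, ∑ q, dxb ξ z y p * conj (dxb ξ z y q) * LM (η.w i) z p q = 0 := by
    have := h6
    linear_combination -this
  have h8 : KM (η.w i) z (dxb ξ z y) :=
    km_of_re hU hw hzU (fun b => hη i z hzU b) (by rw [h7]; rfl)
  -- step 4
  have h9 := pxi3 hO hwO hξ hk hzO x y
  have h10 : ∑ p, ∑ l, dxb ξ z y p * conj (x l) * LM (η.w i) z p l = 0 := by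
    rw [Finset.sum_comm]
    refine Finset.sum_eq_zero fun l _ => ?_
    have : ∑ p, dxb ξ z y p * conj (x l) * LM (η.w i) z p l
        = conj (x l) * ∑ p, dxb ξ z y p * LM (η.w i) z p l := by
      rw [Finset.mul_sum]
      exact Finset.sum_congr rfl fun p _ => by ring
    rw [this, h8 l, mul_zero]
  rw [h10] at h9
  have h11 : ∀ l, low (η.w i) m (τ i) (Function.update L q l) z
      = (∑ k, y k * LM (η.w i) z k l) * (Real.exp (-(m * η.w i z)) : ℂ) := by
    intro l
    have e0 : low (η.w i) m (τ i) (Function.update L q l) z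
        = (∑ K : Fin p → Fin n, (∏ a, LM (η.w i) z (K a) (Function.update L q l a)) * τ i K z)
          * (Real.exp (-(m * η.w i z)) : ℂ) := rfl
    rw [e0]
    congr 1
    simp_rw [hy, Finset.sum_mul]
    rw [Finset.sum_comm]
    refine Finset.sum_congr rfl fun K _ => ?_
    rw [Finset.sum_eq_single (K q)]
    · rw [if_pos rfl, ← Finset.mul_prod_erase Finset.univ _ (Finset.mem_univ q),
        Function.update_self]
      have e1 : ∏ r ∈ Finset.univ.erase q, LM (η.w i) z (K r) (Function.update L q l r)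
          = ∏ r ∈ Finset.univ.erase q, LM (η.w i) z (K r) (L r) := by
        refine Finset.prod_congr rfl fun r hr => ?_
        rw [Function.update_of_ne (Finset.mem_erase.1 hr).1]
      rw [e1]; ring
    · intro b _ hb; rw [if_neg (Ne.symm hb), zero_mul]
    · intro h; exact absurd (Finset.mem_univ _) h
  simp_rw [h11]
  have h12 : ∑ l, conj (dxb ξ z x l) * ((∑ k, y k * LM (η.w i) z k l)
      * (Real.exp (-(m * η.w i z)) : ℂ))
      = conj (∑ p, ∑ l, dxb ξ z x p * conj (y l) * LM (η.w i) z p l)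
        * (Real.exp (-(m * η.w i z)) : ℂ) := by
    rw [map_sum, Finset.sum_mul]
    refine Finset.sum_congr rfl fun l _ => ?_
    rw [map_sum, ← mul_assoc]
    congr 1
    rw [Finset.mul_sum]
    refine Finset.sum_congr rfl fun k _ => ?_
    rw [map_mul, map_mul, LM_conj hU hw hzU, Complex.conj_conj]
    ring
  rw [h12, h9, map_zero, zero_mul]

end Pool.Agent.ARK
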