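import Pool.Agent.ARK.Bnd
import Pool.Agent.ARK.Lim
import Pool.Agent.ARK.Lhu
import Pool.Agent.ARK.Lz
import Pool.Agent.NDC.Bmp

/-!
ARK module Vfi (size 4): the norm of a horizontal holomorphic form of degree `ν` is constant along the kernel.
PROOF. `obtain ⟨P⟩ := exists_pou A` (NDC/Bmp). `g1 = fA + fB`, `g2 = fA` (`≥ 0`: `nA_nonneg`, `nB_nonneg`, `mem_ix`; `Sm`: `Sm_fA`, `Sm_fB`, `Sm.add`). `L g k i z = lt ν (lm om) (lm η) (lm (vt A (fun x => log (g x + 1 / (k + 1))) i) z)`, `F k = L g1 k - L g2 k` (write it as `L g1 k + (-1) * L g2 k`). `lt_dens`, `Itg_lt` (module Lz; `Sm_log`) with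
`IsDens.add`, `IsDens.smul`, `Itg_add`, `Itg_smul`: `hF`, `h0`. `hb`: `lt_bound` for `g1`, `g2` with `K = P.K a` (`P.cpt`, `P.sub`). Limit: `ℓ i z = lt ν .. (LL A g1 i z) - lt ν .. (LL A g2 i z)` if `Full η ν i z`, else `0` (`open Classical in`). At a point with `Full`: `nA > 0` so `lt_lim`. Otherwise the rank is `< ν` and all is zero (`lt_zero`, Qco).
`ℓ` at a point with `Full`: near `z`, `g1 = fA (1 + u)` in the chart, `u = uu η om m v i`, `log g1 = log fA + log (1 + u)`; so `LL A g1 i z k l - LL A g2 i z k l = LM (log g1) - LM (log g2) = LM (fun y => log (1 + uu .. y)) z k l` (`LM_log'`, `LM_add`, `LM_congr`; `vt A (g1) i y = vt fA + vt fB`), and by `qco`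
`ℓ i z = Λ ∑ i', levi (fun y => log (1 + uu .. y)) z (v i') (v i')`, `v i'` in the kernel, so `0 ≤ re` by `lhu`. `O i = {z | Full η ν i z}` is open (`isOpen_full`), `hOo`: `full_ph` (module Kms), `hOc`: `LL` is continuous there (smooth functions, `vt g > 0`), `lt` is continuous in the three matrices.
`lim_zero` gives `(ℓ i z).re = 0`; `Λ > 0`, so `(levi (log (1 + uu)) z (v i') (v i')).re = 0` and `d10 (cx uu) z (v i') = 0` (`lhu`) for all `i'`; every `a` in the kernel is `∑ c i' • v i'` (`qco`), so `d10 (cx uu) z a = 0` (`d10_eq_sum` linear in `a`).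
Finally `vn (η.w i) m (v i) J = uu .. i` near `z` if `det M_JJ ≠ 0` at `z` (`vn_eq`; the condition is open, `isOpen_full`), `d10_congr`.
-/

open scoped ContDiff ComplexConjugate Topology ComplexOrder
open Complex MeasureTheory Matrix

namespace Pool.Agent.ARK

open Pool.Agent.CYF Pool.Agent.NDC

variable {n : ℕ} {X : Type*} [TopologicalSpace X] {ι : Type*} {A : Mfd n X ι}

theorem Vfi_dif {η om : Form A} (hη : η.Semipositive) (hom : om.Positive)
    {ν : ℕ} (hν : η.RankLE ν) {m : ℝ} {v : ι → (Fin ν → Fin n) → E n → ℂ} (hv : IsForm η ν m v)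
    {i : ι} {z : E n} (hz : Full η ν i z) (k l : Fin n) :
    LL A (fun x => fA η om ν x + fB η om m v x) i z k l - LL A (fA η om ν) i z k l
      = LM (fun y => Real.log (1 + uu η om m v i y)) z k l := by
  set V : Set (E n) := {y | Full η ν i y} with hV
  have hVo : IsOpen V := isOpen_full hη hν i
  have hVs : V ⊆ (A.c i).target := fun y hy => hy.1
  have hS1 : Sm A (fun x => fA η om ν x + fB η om m v x) := (Sm_fA hη hom ν).add (Sm_fB hom hv)
  have hS2 : Sm A (fA η om ν) := Sm_fA hη hom ν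
  have hA : ∀ y ∈ V, vt A (fA η om ν) i y = nA η om ν i y := fun y hy => vt_fA hη hom ν (hVs hy)
  have hB : ∀ y ∈ V, vt A (fun x => fA η om ν x + fB η om m v x) i y
      = nA η om ν i y + nB η om m v i y := by
    intro y hy
    have h1 := vt_fA hη hom ν (hVs hy)
    have h2 := vt_fB hom hv (hVs hy)
    unfold vt at h1 h2 ⊢
    beta_reduce
    rw [h1, h2]
  have hApos : ∀ y ∈ V, 0 < nA η om ν i y := fun y hy => nA_pos hη hom hy
  have hBnn : ∀ y ∈ V, 0 ≤ nB η om m v i y := fun y hy => nB_nonneg hom m v (hVs hy)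
  have hp2 : ∀ y ∈ V, 0 < vt A (fA η om ν) i y := fun y hy => by rw [hA y hy]; exact hApos y hy
  have hp1 : ∀ y ∈ V, 0 < vt A (fun x => fA η om ν x + fB η om m v x) i y := fun y hy => by
    rw [hB y hy]
    exact add_pos_of_pos_of_nonneg (hApos y hy) (hBnn y hy)
  have hs1 := (hS1 i).mono hVs
  have hs2 := (hS2 i).mono hVs
  have hu0 : ∀ y ∈ V, 0 ≤ uu η om m v i y := fun y hy => div_nonneg (hBnn y hy) (hApos y hy).le
  have hus := uu_smooth hη hom hν hv i
  have hl2 : ContDiffOn ℝ ∞ (fun y => Real.log (vt A (fA η om ν) i y)) V :=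
    hs2.log fun y hy => (hp2 y hy).ne'
  have hlu : ContDiffOn ℝ ∞ (fun y => Real.log (1 + uu η om m v i y)) V :=
    (contDiffOn_const.add hus).log fun y hy => by
      have := hu0 y hy
      positivity
  have e1 := LM_log' hVo hs1 hp1 hz k l
  have e2 := LM_log' hVo hs2 hp2 hz k l
  have e3 : LM (fun y => Real.log (vt A (fun x => fA η om ν x + fB η om m v x) i y)) z k l
      = LM (fun y => Real.log (vt A (fA η om ν) i y)) z k l
        + LM (fun y => Real.log (1 + uu η om m v i y)) z k l := by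
    rw [← LM_add hVo hl2 hlu hz]
    refine LM_congr ?_ k l
    filter_upwards [hVo.mem_nhds hz] with y hy
    rw [hB y hy, hA y hy, ← Real.log_mul (hApos y hy).ne' (by have := hu0 y hy; positivity)]
    congr 1
    unfold uu
    have := (hApos y hy).ne'
    field_simp
  have e4 : LL A (fun x => fA η om ν x + fB η om m v x) i z k l
      = LM (fun y => Real.log (vt A (fun x => fA η om ν x + fB η om m v x) i y)) z k l := by
    rw [e1]; rfl
  have e5 : LL A (fA η om ν) i z k l
      = LM (fun y => Real.log (vt A (fA η om ν) i y)) z k l := by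
    rw [e2]; rfl
  rw [e4, e5, e3]
  ring

theorem Vfi_key {η om : Form A} (hη : η.Semipositive) (hom : om.Positive)
    {ν : ℕ} (hν : η.RankLE ν) {m : ℝ} {v : ι → (Fin ν → Fin n) → E n → ℂ} (hv : IsForm η ν m v)
    {i : ι} {z : E n} (hz : Full η ν i z) :
    ∃ (Λ : ℝ) (u : Fin n → E n), 0 < Λ ∧ (∀ p, KM (η.w i) z (u p)) ∧
      (∀ a : E n, KM (η.w i) z a → ∃ c : Fin n → ℂ, a = ∑ p, c p • u p) ∧
      lt ν (lm (om.w i) z) (lm (η.w i) z) (LL A (fun x => fA η om ν x + fB η om m v x) i z)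
        + (-1) * lt ν (lm (om.w i) z) (lm (η.w i) z) (LL A (fA η om ν) i z)
        = (Λ : ℂ) * ∑ p, levi (fun y => Real.log (1 + uu η om m v i y)) z (u p) (u p) := by
  have hzt : z ∈ (A.c i).target := hz.1
  have hW : (lm (om.w i) z).PosDef := lm_posDef (A.c i).open_target (om.smooth i) hzt (hom i z hzt)
  have hM : (lm (η.w i) z).PosSemidef := lm_psd (A.c i).open_target (η.smooth i) hzt (hη i z hzt)
  obtain ⟨Λ, u, -, -, hk, hB, -, hf⟩ := qco hW hM (hν i z hzt)
  obtain ⟨hΛ, hsp⟩ := hf hz.2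
  refine ⟨Λ, u, hΛ, fun p l => hk p l, fun a ha => hsp a ha, ?_⟩
  set V : Set (E n) := {y | Full η ν i y} with hV
  have hVo : IsOpen V := isOpen_full hη hν i
  have hVs : V ⊆ (A.c i).target := fun y hy => hy.1
  have hu0 : ∀ y ∈ V, 0 ≤ uu η om m v i y := fun y hy =>
    div_nonneg (nB_nonneg hom m v (hVs hy)) (nA_pos hη hom hy).le
  have hlu : ContDiffOn ℝ ∞ (fun y => Real.log (1 + uu η om m v i y)) V :=
    (contDiffOn_const.add (uu_smooth hη hom hν hv i)).log fun y hy => by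
      have := hu0 y hy
      positivity
  rw [hB, hB]
  have e1 : ∀ p, levi (fun y => Real.log (1 + uu η om m v i y)) z (u p) (u p)
      = ∑ k, ∑ l, u p k * conj (u p l) * LL A (fun x => fA η om ν x + fB η om m v x) i z k l
        - ∑ k, ∑ l, u p k * conj (u p l) * LL A (fA η om ν) i z k l := by
    intro p
    rw [levi_eq_sum (hlu.contDiffAt (hVo.mem_nhds hz)), ← Finset.sum_sub_distrib]
    refine Finset.sum_congr rfl fun k _ => ?_
    rw [← Finset.sum_sub_distrib]
    refine Finset.sum_congr rfl fun l _ => ?_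
    rw [← Vfi_dif hη hom hν hv hz k l]
    ring
  rw [Finset.sum_congr rfl fun p _ => e1 p, Finset.sum_sub_distrib]
  ring

private theorem Vfi_lt_cont (ν : ℕ) : Continuous fun p : Matrix (Fin n) (Fin n) ℂ ×
    Matrix (Fin n) (Fin n) ℂ × Matrix (Fin n) (Fin n) ℂ => lt ν p.1 p.2.1 p.2.2 := by
  unfold lt
  have h1 : Continuous fun p : Matrix (Fin n) (Fin n) ℂ × Matrix (Fin n) (Fin n) ℂ ×
      Matrix (Fin n) (Fin n) ℂ => p.2.1 := continuous_fst.comp continuous_snd
  have h2 : Continuous fun p : Matrix (Fin n) (Fin n) ℂ × Matrix (Fin n) (Fin n) ℂ ×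
      Matrix (Fin n) (Fin n) ℂ => p.2.2 := continuous_snd.comp continuous_snd
  have h3 : Continuous fun p : Matrix (Fin n) (Fin n) ℂ × Matrix (Fin n) (Fin n) ℂ ×
      Matrix (Fin n) (Fin n) ℂ => p.1 := continuous_fst
  refine continuous_finsetSum _ fun a _ => continuous_const.mul ?_
  refine Continuous.matrix_trace ?_
  refine Continuous.matrix_mul ?_ h2
  refine Continuous.matrix_adjugate ?_
  exact (h1.const_smul (((a : ℕ) : ℂ))).add h3

private theorem Vfi_LL_cont {g : X → ℝ} (hg : Sm A g) {i : ι} {V : Set (E n)} (hVo : IsOpen V)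
    (hVs : V ⊆ (A.c i).target) (hp : ∀ y ∈ V, 0 < vt A g i y) : ContinuousOn (LL A g i) V := by
  have hs := (hg i).mono hVs
  refine continuousOn_pi.2 fun k => continuousOn_pi.2 fun l => ?_
  have h1 : ContinuousOn (fun z => LM (vt A g i) z k l) V := (contDiffOn_LM hVo hs k l).continuousOn
  have h2 : ContinuousOn (fun z => ((vt A g i z : ℝ) : ℂ)) V := (contDiffOn_cx hs).continuousOn
  have h3 : ∀ k, ContinuousOn (fun z => pk k (cx (vt A g i)) z) V := fun k =>
    (contDiffOn_pk hVo (contDiffOn_cx hs) k).continuousOn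
  have hne : ∀ y ∈ V, ((vt A g i y : ℝ) : ℂ) ≠ 0 := fun y hy => by
    have := (hp y hy).ne'
    exact_mod_cast this
  have h4 : ContinuousOn (fun z => conj (pk l (cx (vt A g i)) z)) V :=
    Complex.continuous_conj.comp_continuousOn (h3 l)
  exact (h1.div h2 hne).sub (((h3 k).mul h4).div (h2.pow 2) fun y hy => pow_ne_zero 2 (hne y hy))

private theorem Vfi_lm_cont {w : E n → ℝ} {V : Set (E n)} (hVo : IsOpen V)
    (hw : ContDiffOn ℝ ∞ w V) : ContinuousOn (fun z => lm w z) V :=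
  continuousOn_pi.2 fun k => continuousOn_pi.2 fun l => (contDiffOn_LM hVo hw k l).continuousOn

private theorem Vfi_d10_sum {f : E n → ℂ} {z : E n} {κ : Type*} (s : Finset κ) (c : κ → ℂ)
    (u : κ → E n) (h : ∀ p ∈ s, d10 f z (u p) = 0) : d10 f z (∑ p ∈ s, c p • u p) = 0 := by
  classical
  induction s using Finset.induction_on with
  | empty => rw [Finset.sum_empty]; exact d10_zero_vec _ _
  | insert b s hb ih =>
    rw [Finset.sum_insert hb, d10_add_vec, d10_smul_vec, h b (Finset.mem_insert_self _ _),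
      ih fun p hp => h p (Finset.mem_insert_of_mem hp)]
    ring

open Classical in
/-- the limit of the densities -/
private noncomputable def Vfi_l (η om : Form A) {ν : ℕ} (m : ℝ)
    (v : ι → (Fin ν → Fin n) → E n → ℂ) (i : ι) (z : E n) : ℂ :=
  if Full η ν i z then
    lt ν (lm (om.w i) z) (lm (η.w i) z) (LL A (fun x => fA η om ν x + fB η om m v x) i z)
      + (-1) * lt ν (lm (om.w i) z) (lm (η.w i) z) (LL A (fA η om ν) i z)
  else 0

theorem vfi [T2Space X] [CompactSpace X] {η om : Form A} (hη : η.Semipositive) (hom : om.Positive)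
    {ν : ℕ} (hν : η.RankLE ν) {m : ℝ} {v : ι → (Fin ν → Fin n) → E n → ℂ} (hv : IsForm η ν m v)
    (hh : Horizontal η ν v) {i : ι} {z : E n} (hz : Full η ν i z) {a : E n}
    (ha : KM (η.w i) z a) : d10 (cx (uu η om m v i)) z a = 0 := by
  obtain ⟨P⟩ := exists_pou A
  have hS2 : Sm A (fA η om ν) := Sm_fA hη hom ν
  have hS1 : Sm A (fun x => fA η om ν x + fB η om m v x) := hS2.add (Sm_fB hom hv)
  have hA0 : ∀ x, 0 ≤ fA η om ν x := fun x =>
    nA_nonneg hη hom ν ((A.c (ix A x)).map_source (mem_ix A x))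
  have hB0 : ∀ x, 0 ≤ fB η om m v x := fun x =>
    nB_nonneg hom m v ((A.c (ix A x)).map_source (mem_ix A x))
  have hAB0 : ∀ x, 0 ≤ fA η om ν x + fB η om m v x := fun x => add_nonneg (hA0 x) (hB0 x)
  have hδ : ∀ k : ℕ, (0 : ℝ) < 1 / ((k : ℝ) + 1) := fun k => Nat.one_div_pos_of_nat
  set F : ℕ → ι → E n → ℂ := fun k i z =>
    lt ν (lm (om.w i) z) (lm (η.w i) z)
        (lm (vt A (fun x => Real.log ((fA η om ν x + fB η om m v x) + 1 / ((k : ℝ) + 1))) i) z)
      + (-1) * lt ν (lm (om.w i) z) (lm (η.w i) z)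
        (lm (vt A (fun x => Real.log (fA η om ν x + 1 / ((k : ℝ) + 1))) i) z) with hFdef
  have hd1 : ∀ k : ℕ, IsDens A (fun i z => lt ν (lm (om.w i) z) (lm (η.w i) z)
      (lm (vt A (fun x => Real.log ((fA η om ν x + fB η om m v x) + 1 / ((k : ℝ) + 1))) i) z)) :=
    fun k => lt_dens η om ν (Sm_log hS1 hAB0 (hδ k))
  have hd2 : ∀ k : ℕ, IsDens A (fun i z => lt ν (lm (om.w i) z) (lm (η.w i) z)
      (lm (vt A (fun x => Real.log (fA η om ν x + 1 / ((k : ℝ) + 1))) i) z)) :=
    fun k => lt_dens η om ν (Sm_log hS2 hA0 (hδ k))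
  have hF : ∀ k, IsDens A (F k) := fun k => (hd1 k).add ((hd2 k).smul (-1))
  have h0 : ∀ k, Itg P (F k) = 0 := by
    intro k
    rw [hFdef]
    rw [Itg_add P (hd1 k) ((hd2 k).smul (-1)), Itg_smul,
      Itg_lt P η om ν (Sm_log hS1 hAB0 (hδ k)), Itg_lt P η om ν (Sm_log hS2 hA0 (hδ k))]
    ring
  -- the limit
  have hvA : ∀ i, ∀ z, Full η ν i z → 0 < vt A (fA η om ν) i z := fun i z h => by
    rw [vt_fA hη hom ν h.1]
    exact nA_pos hη hom h
  have hvAB : ∀ i, ∀ z, Full η ν i z → 0 < vt A (fun x => fA η om ν x + fB η om m v x) i z := by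
    intro i z h
    have h1 := hvA i z h
    unfold vt at h1 ⊢
    exact add_pos_of_pos_of_nonneg h1 (hB0 _)
  have hl : ∀ i, ∀ z ∈ (A.c i).target,
      Filter.Tendsto (fun k => F k i z) Filter.atTop (𝓝 (Vfi_l η om m v i z)) := by
    intro i z hzt
    by_cases hf : Full η ν i z
    · unfold Vfi_l
      rw [if_pos hf]
      exact (lt_lim η om ν hS1 hAB0 hzt (hvAB i z hf)).add
        ((lt_lim η om ν hS2 hA0 hzt (hvA i z hf)).const_mul (-1))
    · unfold Vfi_l
      rw [if_neg hf]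
      have hr : (lm (η.w i) z).rank < ν :=
        lt_of_le_of_ne (hν i z hzt) fun h => hf ⟨hzt, h⟩
      have hW : (lm (om.w i) z).PosDef :=
        lm_posDef (A.c i).open_target (om.smooth i) hzt (hom i z hzt)
      have hM : (lm (η.w i) z).PosSemidef :=
        lm_psd (A.c i).open_target (η.smooth i) hzt (hη i z hzt)
      have h1 : (fun k => F k i z) = fun _ => 0 := by
        funext k
        rw [hFdef]
        simp only [lt_zero hW hM hr]
        ring
      rw [h1]
      exact tendsto_const_nhds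
  have hb : ∀ a : Fin P.N, ∃ C : ℝ, ∀ k, ∀ z ∈ P.K a, ‖F k (P.j a) z‖ ≤ C := by
    intro a
    obtain ⟨C1, hC1⟩ := lt_bound hη hom hν hS1 hAB0
      (fun x => le_add_of_nonneg_right (hB0 x)) (P.j a) (P.cpt a) (P.sub a)
    obtain ⟨C2, hC2⟩ := lt_bound hη hom hν hS2 hA0 (fun x => le_refl _) (P.j a) (P.cpt a) (P.sub a)
    refine ⟨C1 + C2, fun k z hz => ?_⟩
    have h1 := hC1 _ (hδ k) z hz
    have h2 := hC2 _ (hδ k) z hz
    rw [hFdef]
    refine (norm_add_le _ _).trans (add_le_add h1 ?_)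
    rw [norm_mul, norm_neg, norm_one, one_mul]
    exact h2
  have hval : ∀ i z, Full η ν i z → Vfi_l η om m v i z
      = lt ν (lm (om.w i) z) (lm (η.w i) z) (LL A (fun x => fA η om ν x + fB η om m v x) i z)
      + (-1) * lt ν (lm (om.w i) z) (lm (η.w i) z) (LL A (fA η om ν) i z) := by
    intro i z h
    unfold Vfi_l
    rw [if_pos h]
  have hre : ∀ (Λ : ℝ) (s : ℂ), ((Λ : ℂ) * s).re = Λ * s.re := fun Λ s => Complex.re_ofReal_mul Λ s
  have hp : ∀ i, ∀ z ∈ (A.c i).target, 0 ≤ (Vfi_l η om m v i z).re := by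
    intro i z hzt
    by_cases hf : Full η ν i z
    · obtain ⟨Λ, u, hΛ, hk, -, he⟩ := Vfi_key hη hom hν hv hf
      rw [hval i z hf, he, hre, Complex.re_sum]
      exact mul_nonneg hΛ.le (Finset.sum_nonneg fun p _ => (lhu hη hom hν hv hh hf (hk p)).1)
    · unfold Vfi_l
      rw [if_neg hf]
      simp
  have hO : ∀ i, IsOpen {z | Full η ν i z} := fun i => isOpen_full hη hν i
  have hOs : ∀ i, {z | Full η ν i z} ⊆ (A.c i).target := fun i z h => h.1
  have hOc : ∀ i, ContinuousOn (Vfi_l η om m v i) {z | Full η ν i z} := by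
    intro i
    have hW := Vfi_lm_cont (hO i) ((om.smooth i).mono (hOs i))
    have hM := Vfi_lm_cont (hO i) ((η.smooth i).mono (hOs i))
    have h1 := Vfi_LL_cont hS1 (hO i) (hOs i) (hvAB i)
    have h2 := Vfi_LL_cont hS2 (hO i) (hOs i) (hvA i)
    have c1 := (Vfi_lt_cont (n := n) ν).comp_continuousOn (hW.prodMk (hM.prodMk h1))
    have c2 := (Vfi_lt_cont (n := n) ν).comp_continuousOn (hW.prodMk (hM.prodMk h2))
    refine (c1.add (c2.const_mul (-1))).congr fun z hz => ?_
    exact hval i z hz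
  have hOo : ∀ i j z, z ∈ Uo A i j → z ∈ {z | Full η ν i z} → ph A i j z ∈ {z | Full η ν j z} :=
    fun i j z hU h => (full_ph η hU).1 h
  have hzero := lim_zero P hF h0 hl hb hp hO hOs hOc hOo i z hz
  obtain ⟨Λ, u, hΛ, hk, hsp, he⟩ := Vfi_key hη hom hν hv hz
  rw [hval i z hz, he, hre, Complex.re_sum] at hzero
  have hs : ∑ p, (levi (fun y => Real.log (1 + uu η om m v i y)) z (u p) (u p)).re = 0 :=
    (mul_eq_zero.1 hzero).resolve_left hΛ.ne'
  have hs' := (Finset.sum_eq_zero_iff_of_nonneg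
    fun p _ => (lhu hη hom hν hv hh hz (hk p)).1).1 hs
  obtain ⟨c, hc⟩ := hsp a ha
  rw [hc]
  exact Vfi_d10_sum _ _ _ fun p hp => (lhu hη hom hν hv hh hz (hk p)).2 (hs' p hp)

theorem vn_zero [T2Space X] [CompactSpace X] {η om : Form A} (hη : η.Semipositive)
    (hom : om.Positive) {ν : ℕ} (hν : η.RankLE ν) {m : ℝ} {v : ι → (Fin ν → Fin n) → E n → ℂ}
    (hv : IsForm η ν m v) (hh : Horizontal η ν v) {i : ι} {z : E n} (hz : Full η ν i z) {a : E n}
    (ha : KM (η.w i) z a) {J : Fin ν → Fin n}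
    (hJ : ((lm (η.w i) z).submatrix J J).det ≠ 0) :
    d10 (cx (vn (η.w i) m (v i) J)) z a = 0 := by
  rw [← vfi hη hom hν hv hh hz ha]
  refine d10_congr ?_
  have hO : IsOpen {z | Full η ν i z} := isOpen_full hη hν i
  have hc : ContinuousOn (fun y => ((lm (η.w i) y).submatrix J J).det) {z | Full η ν i z} := by
    have hM := Vfi_lm_cont hO ((η.smooth i).mono fun y (hy : Full η ν i y) => hy.1)
    have h1 : Continuous fun M : Matrix (Fin n) (Fin n) ℂ => (M.submatrix J J).det :=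
      Continuous.matrix_det (Continuous.matrix_submatrix continuous_id J J)
    exact h1.comp_continuousOn hM
  have h2 : ∀ᶠ y in 𝓝 z, ((lm (η.w i) y).submatrix J J).det ≠ 0 :=
    (hc.continuousAt (hO.mem_nhds hz)).eventually_ne hJ
  filter_upwards [hO.mem_nhds hz, h2] with y hy hJy
  unfold cx
  rw [vn_eq hη hom hv hh hy hJy]
  rfl

end Pool.Agent.ARK
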