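import Pool.Agent.ARK.Tpa
import Pool.Agent.ARK.Spr
import Pool.Agent.ARK.Spo
import Pool.Agent.ARK.Hok
import Pool.Agent.ARK.Vfi

/-!
ARK: assembly.
-/

open scoped ContDiff ComplexConjugate Topology ComplexOrder
open Complex MeasureTheory Matrix

namespace Pool.Agent.ARK

open Pool.Agent.CYF Pool.Agent.NDC

variable {n : ℕ} {X : Type*} [TopologicalSpace X] {ι : Type*} {A : Mfd n X ι}

theorem full_rank_ker {η : Form A} {ν : ℕ} {i : ι} {z : E n} (hz : Full η ν i z) :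
    z ∈ (A.c i).target := hz.1

theorem tensor_holKer [T2Space X] [CompactSpace X] {η om : Form A} (hη : η.Semipositive) {ν : ℕ}
    (hν : η.RankLE ν) (hom : om.Positive) {p : ℕ} {m : ℝ} {τ : ι → (Fin p → Fin n) → E n → ℂ}
    (hτ : IsTensor η p m τ) {i : ι} {z : E n} (hz : Full η ν i z)
    (hs : Spread η i z m (τ i)) : HolKer η i z := by
  obtain ⟨J, hJ⟩ := exJ (lm_psd (A.c i).open_target (η.smooth i) hz.1 (hη i z hz.1)) hz.2
  obtain ⟨O, ξ, hzO, hOs, hF⟩ := kfr (A.c i).open_target (η.smooth i) (hν i) hz.1 hJ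
  have h1 := spread_open hη hν hτ.hol hz hs
  obtain ⟨V, hV, hVo, hzV⟩ := eventually_nhds_iff.1 h1
  have hO' : IsOpen (O ∩ V) := hF.isOpen.inter hVo
  have hF' := hF.mono hO' Set.inter_subset_left
  have hsub : O ∩ V ⊆ (A.c i).target := Set.inter_subset_left.trans hOs
  refine holKer_of η hF' hsub ⟨hzO, hzV⟩ ?_
  intro y hy k x
  have hyF : Full η ν i y := ⟨hsub hy, rank_full (hν i y (hsub hy)) (hF.det_ne y hy.1)⟩
  exact spr hη hν hom hτ hyF (hV y hy.2) hO' hsub (fun q => hF'.smooth k q)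
    (fun y' hy' => hF'.ker y' hy' k) hy x

theorem main [T2Space X] [CompactSpace X] (om : Form A) (hom : om.Positive) (η : Form A)
    (hη : η.Semipositive) (ν : ℕ) (hν : η.RankLE ν) :
    (∀ u : X → ℝ, (∀ i, ContDiffOn ℝ ∞ (fun z => u ((A.c i).symm z)) (A.c i).target) →
      (∀ i, ∀ z ∈ (A.c i).target, ∀ a, Ker η i z a →
        0 ≤ (levi (fun y => u ((A.c i).symm y)) z a a).re) →
      ∀ i z, Full η ν i z → ∀ a, Ker η i z a →
        d10 (fun y => (u ((A.c i).symm y) : ℂ)) z a = 0) ∧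
    (∀ (p : ℕ) (m : ℝ) (τ : ι → (Fin p → Fin n) → E n → ℂ), IsTensor η p m τ →
      ∀ i z, Full η ν i z →
        (∀ a, Ker η i z a → (∀ L, d10 (low (η.w i) m (τ i) L) z a = 0) ∧
          d10 (fun y => (nrm (η.w i) m (τ i) y : ℂ)) z a = 0) ∧
        (Spread η i z m (τ i) → HolKer η i z)) ∧
    (∀ (m : ℝ) (v : ι → (Fin ν → Fin n) → E n → ℂ), IsForm η ν m v → Horizontal η ν v →
      ∀ i z, Full η ν i z →
        (∀ a, Ker η i z a → ∀ J : Fin ν → Fin n, ((lm (η.w i) z).submatrix J J).det ≠ 0 →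
          d10 (fun y => (vn (η.w i) m (v i) J y : ℂ)) z a = 0) ∧
        ((∃ J, v i J z ≠ 0) → HolKer η i z)) := by
  refine ⟨?_, ?_, ?_⟩
  · intro u hu h i z hz a ha
    exact princ1 hη hν hom (b := u) hu
      (fun i z hz a ha => h i z hz a ((ker_iff η hz a).2 ha)) i z hz a ((ker_iff η hz.1 a).1 ha)
  · intro p m τ hτ i z hz
    refine ⟨fun a ha => ⟨fun L => ?_, ?_⟩, fun hs => tensor_holKer hη hν hom hτ hz hs⟩
    · exact low_zero hη hν hom hτ hz ((ker_iff η hz.1 a).1 ha) L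
    · exact nrm_zero hη hν hom hτ hz ((ker_iff η hz.1 a).1 ha)
  · intro m v hv hh i z hz
    refine ⟨fun a ha J hJ => vn_zero hη hom hν hv hh hz ((ker_iff η hz.1 a).1 ha) hJ, ?_⟩
    rintro ⟨J, hJ⟩
    exact vhk hη hom hν hv hh hz hJ

end Pool.Agent.ARK
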