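import Pool.Agent.ARK.Main
import Pool.Agent.ARK.Lvg

/-!
ARK: assembly, with the criterion for compact leaves.
-/

open scoped ContDiff ComplexConjugate Topology ComplexOrder
open Complex MeasureTheory Matrix

namespace Pool.Agent.ARK

open Pool.Agent.CYF Pool.Agent.NDC

variable {n : ℕ} {X : Type*} [TopologicalSpace X] {ι : Type*} {A : Mfd n X ι}

theorem tensor_kerConst [T2Space X] [CompactSpace X] {η om : Form A} (hη : η.Semipositive)
    {ν : ℕ} (hν : η.RankLE ν) (hom : om.Positive) {p : ℕ} {m : ℝ}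
    {τ : ι → (Fin p → Fin n) → E n → ℂ} (hτ : IsTensor η p m τ) :
    ∃ N : X → ℝ, (∀ i, ∀ z ∈ (A.c i).target, N ((A.c i).symm z) = nrm (η.w i) m (τ i) z) ∧
      KerConst η ν N := by
  obtain ⟨N, hN, hvt⟩ := tensor_fun η hτ
  refine ⟨N, hvt, hN, fun i z hz a ha => ?_⟩
  have h1 := nrm_zero hη hν hom hτ hz ((ker_iff η hz.1 a).1 ha)
  rw [← h1]
  refine d10_congr ?_
  filter_upwards [(A.c i).open_target.mem_nhds hz.1] with y hy
  have h2 : N ((A.c i).symm y) = nrm (η.w i) m (τ i) y := hvt i y hy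
  show ((N ((A.c i).symm y) : ℝ) : ℂ) = ((nrm (η.w i) m (τ i) y : ℝ) : ℂ)
  rw [h2]

theorem leaf_ae [T2Space X] [CompactSpace X] {η : Form A} (hη : η.Semipositive) {ν : ℕ}
    (hν : η.RankLE ν) {u : Fin (2 * ν) → X → ℝ} (hu : ∀ j, KerConst η ν (u j)) (i : ι) :
    ∀ᵐ z ∂(volume : Measure (E n)), Full η ν i z →
      LinearIndependent ℝ (fun j => fderiv ℝ (vt A (u j) i) z) →
      ∀ (x : X) (T : Set X), x = (A.c i).symm z →
        T = connectedComponentIn {y | ∀ j, u j y = u j x} x →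
        IsCompact T ∧ (∀ v : X → ℝ, KerConst η ν v → ∀ y ∈ T, v y = v x) ∧
        ∀ i', ∀ z' ∈ (A.c i').target, (A.c i').symm z' ∈ T →
          Full η ν i' z' ∧ LinearIndependent ℝ (fun j => fderiv ℝ (vt A (u j) i') z') ∧
          ∀ a : E n, (∀ j, fderiv ℝ (vt A (u j) i') z' a = 0) ↔ Ker η i' z' a := by
  filter_upwards [ae_good (A := A) isOpen_univ (fun j => (hu j).sm.smOn Set.univ) i]
    with z hz hfz hind x T hx hT
  have hreg : ∀ i', ∀ z' ∈ (A.c i').target, (A.c i').symm z' ∈ T →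
      LinearIndependent ℝ (fun j => fderiv ℝ (vt A (u j) i') z') := by
    intro i' z' hz' hT'
    have h1 : (A.c i').symm z' ∈ {y | ∀ j, u j y = u j x} := by
      rw [hT] at hT'
      exact connectedComponentIn_subset _ _ hT'
    refine hz ⟨hfz.1, Set.mem_univ _⟩ hind i' z' ⟨hz', Set.mem_univ _⟩ fun j => ?_
    rw [← hx]
    exact h1 j
  have h := leaf_closed hη hν hu hfz hx hT hreg
  exact ⟨h.1, h.2.1, fun i' z' hz' hT' => ⟨(h.2.2 i' z' hz' hT').1, hreg i' z' hz' hT',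
    (h.2.2 i' z' hz' hT').2⟩⟩

end Pool.Agent.ARK
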