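import Pool.Agent.ARK.Qco
import Pool.Agent.ARK.Lz
import Pool.Agent.ARK.Kms
import Pool.Agent.NDC.Bmp
import Pool.Agent.NDC.Ips
import Pool.Agent.NDC.Cmp

/-!
ARK module Pos (size 3): a smooth function on `X` that is plurisubharmonic along the kernel of `η` at every point of
`X` is constant along the kernel where the rank of `η` is `ν`.
PROOF. `princ0`: `obtain ⟨P⟩ := exists_pou A`. The density `f = lt ν (lm om) (lm η) (lm (vt A b i))` (`lt_dens`) has `Itg P f = 0` (`Itg_lt`); by
`qco` (W = `lm (om.w i) z` positive definite: `lm_posDef`; M = `lm (η.w i) z`: `lm_psd`, rank `≤ ν`: `hν`) and `levi_eq_sum`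
`f i z = Λ * ∑ i', levi (vt A b i) z (v i') (v i')`, where `KM (η.w i) z (v i')`, so `0 ≤ (f i z).re`; `Itg_pos` (NDC/Ips): `(f i z).re = 0`. At a point with
`rank = ν`, `Λ > 0`, so `(levi (vt A b i) z (v i') (v i')).re = 0` for all `i'`. The hermitian form `β(x, y) = levi (vt A b i) z x y` (`LM_conj`) is
`≥ 0` on the subspace `{KM}` (`km_add`, `km_smul`); for `x, y` in it with `β(x, x) = 0`: `β(x, y) = 0` (Cauchy-Schwarz: `0 ≤ β(x + t y, x + t y)` for all
complex `t`). So for `a = ∑ c i • v i`, `β(a, a) = ∑ ∑ c i conj (c j) β(v i, v j) = 0`.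
`princ1`: apply `princ0` to `exp ∘ b` (`levi_comp`, `d10_comp_real` of NDC/Cmp with `Φ = Real.exp`):
`levi (exp b) a a = exp (b) * (|d10 b a|² + levi b a a)`, `≥ 0` for `a` in the kernel, so zero at the points of rank `ν`, and
`levi b a a = 0` by `princ0` for `b`; `vt A (fun x => exp (b x)) i = fun z => exp (vt A b i z)` is `rfl`.
-/

open scoped ContDiff ComplexConjugate Topology ComplexOrder
open Complex MeasureTheory Matrix

namespace Pool.Agent.ARK

open Pool.Agent.CYF Pool.Agent.NDC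

variable {n : ℕ} {X : Type*} [TopologicalSpace X] {ι : Type*} {A : Mfd n X ι}

/-- the hermitian form of the matrix `B` -/
private noncomputable def Pos_H (B : Fin n → Fin n → ℂ) (x y : E n) : ℂ :=
  ∑ k, ∑ l, x k * conj (y l) * B k l

private theorem Pos_H_add (B : Fin n → Fin n → ℂ) (x x' y : E n) :
    Pos_H B (x + x') y = Pos_H B x y + Pos_H B x' y := by
  unfold Pos_H
  rw [← Finset.sum_add_distrib]
  refine Finset.sum_congr rfl fun k _ => ?_
  rw [← Finset.sum_add_distrib]
  refine Finset.sum_congr rfl fun l _ => ?_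
  rw [Pi.add_apply]
  ring

private theorem Pos_H_smul (B : Fin n → Fin n → ℂ) (c : ℂ) (x y : E n) :
    Pos_H B (c • x) y = c * Pos_H B x y := by
  unfold Pos_H
  rw [Finset.mul_sum]
  refine Finset.sum_congr rfl fun k _ => ?_
  rw [Finset.mul_sum]
  refine Finset.sum_congr rfl fun l _ => ?_
  rw [Pi.smul_apply, smul_eq_mul]
  ring

private theorem Pos_H_conj {B : Fin n → Fin n → ℂ} (hB : ∀ k l, conj (B k l) = B l k) (x y : E n) :
    conj (Pos_H B x y) = Pos_H B y x := by
  unfold Pos_H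
  rw [map_sum, Finset.sum_comm]
  refine Finset.sum_congr rfl fun k _ => ?_
  rw [map_sum]
  refine Finset.sum_congr rfl fun l _ => ?_
  rw [map_mul, map_mul, Complex.conj_conj, hB]
  ring

private theorem Pos_H_expand {B : Fin n → Fin n → ℂ} (hB : ∀ k l, conj (B k l) = B l k) (x y : E n)
    (t : ℂ) : Pos_H B (x + t • y) (x + t • y)
      = Pos_H B x x + conj t * Pos_H B x y + t * Pos_H B y x + t * conj t * Pos_H B y y := by
  have h1 : ∀ u : E n, Pos_H B u (x + t • y) = Pos_H B u x + conj t * Pos_H B u y := by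
    intro u
    rw [← Pos_H_conj hB (x + t • y) u, Pos_H_add, Pos_H_smul, map_add, map_mul, Pos_H_conj hB,
      Pos_H_conj hB]
  rw [Pos_H_add, Pos_H_smul, h1, h1]
  ring

private theorem Pos_cs {B : Fin n → Fin n → ℂ} (hB : ∀ k l, conj (B k l) = B l k)
    {V : E n → Prop} (hadd : ∀ a b, V a → V b → V (a + b)) (hsmul : ∀ (c : ℂ) a, V a → V (c • a))
    (hpos : ∀ a, V a → 0 ≤ (Pos_H B a a).re) {x y : E n} (hx : V x) (hy : V y)
    (h0 : (Pos_H B x x).re = 0) : Pos_H B x y = 0 := by
  have hC := hpos y hy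
  set C : ℝ := (Pos_H B y y).re with hCdef
  set β : ℂ := Pos_H B x y with hβ
  have h1 : ∀ r : ℝ, 0 ≤ -2 * r * Complex.normSq β + r ^ 2 * Complex.normSq β * C := by
    intro r
    have h2 := hpos _ (hadd x ((-(r : ℂ) * β) • y) hx (hsmul _ y hy))
    rw [Pos_H_expand hB] at h2
    have h3 : Pos_H B y x = conj β := (Pos_H_conj hB x y).symm
    rw [h3] at h2
    have e1 : conj (-(r : ℂ) * β) * β = ((-(r * Complex.normSq β) : ℝ) : ℂ) := by
      rw [map_mul, map_neg, Complex.conj_ofReal]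
      have := Complex.mul_conj β
      push_cast
      rw [← this]
      ring
    have e2 : (-(r : ℂ) * β) * conj β = ((-(r * Complex.normSq β) : ℝ) : ℂ) := by
      have := Complex.mul_conj β
      push_cast
      rw [← this]
      ring
    have e3 : (-(r : ℂ) * β) * conj (-(r : ℂ) * β) = ((r ^ 2 * Complex.normSq β : ℝ) : ℂ) := by
      rw [map_mul, map_neg, Complex.conj_ofReal]
      have := Complex.mul_conj β
      push_cast
      rw [← this]
      ring
    rw [← hβ, e1, e2, e3, Complex.add_re, Complex.add_re, Complex.add_re, h0, Complex.ofReal_re,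
      Complex.re_ofReal_mul] at h2
    rw [← hCdef] at h2
    linarith
  have h4 := h1 (1 / (C + 1))
  have hC1 : 0 < C + 1 := by linarith
  have h5 : -2 * (1 / (C + 1)) * Complex.normSq β + (1 / (C + 1)) ^ 2 * Complex.normSq β * C
      = -(Complex.normSq β * (C + 2) / (C + 1) ^ 2) := by
    field_simp
    ring
  rw [h5] at h4
  have h6 : Complex.normSq β * (C + 2) / (C + 1) ^ 2 ≤ 0 := by linarith
  have h7 : 0 ≤ Complex.normSq β := Complex.normSq_nonneg β
  have h8 : Complex.normSq β = 0 := by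
    by_contra hne
    have h9 : 0 < Complex.normSq β := lt_of_le_of_ne h7 (Ne.symm hne)
    have h10 : 0 < Complex.normSq β * (C + 2) / (C + 1) ^ 2 := by
      have : 0 < C + 2 := by linarith
      positivity
    linarith
  exact Complex.normSq_eq_zero.1 h8

theorem princ0 [T2Space X] [CompactSpace X] {η om : Form A} (hη : η.Semipositive) {ν : ℕ}
    (hν : η.RankLE ν) (hom : om.Positive) {b : X → ℝ} (hb : Sm A b)
    (h : ∀ i, ∀ z ∈ (A.c i).target, ∀ a, KM (η.w i) z a → 0 ≤ (levi (vt A b i) z a a).re) :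
    ∀ i z, Full η ν i z → ∀ a, KM (η.w i) z a → levi (vt A b i) z a a = 0 := by
  obtain ⟨P⟩ := exists_pou A
  have hlev : ∀ i, ∀ z ∈ (A.c i).target, ∀ a c : E n,
      levi (vt A b i) z a c = Pos_H (fun k l => LM (vt A b i) z k l) a c := fun i z hz a c =>
    levi_eq_sum ((hb i).contDiffAt ((A.c i).open_target.mem_nhds hz)) a c
  have key : ∀ i, ∀ z ∈ (A.c i).target, ∃ (Λ : ℝ) (v : Fin n → E n), 0 ≤ Λ ∧
      (∀ j, KM (η.w i) z (v j)) ∧
      lt ν (lm (om.w i) z) (lm (η.w i) z) (lm (vt A b i) z)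
        = (Λ : ℂ) * ∑ j, levi (vt A b i) z (v j) (v j) ∧
      ((lm (η.w i) z).rank = ν → 0 < Λ ∧ ∀ a : E n, KM (η.w i) z a →
        ∃ c : Fin n → ℂ, a = ∑ j, c j • v j) := by
    intro i z hz
    obtain ⟨Λ, v, h0, _, hk, hlt, _, hfull⟩ := qco (ν := ν)
      (lm_posDef (A.c i).open_target (om.smooth i) hz (hom i z hz))
      (lm_psd (A.c i).open_target (η.smooth i) hz (hη i z hz)) (hν i z hz)
    refine ⟨Λ, v, h0, fun j l => hk j l, ?_, fun hr => ⟨(hfull hr).1, fun a ha => (hfull hr).2 a ha⟩⟩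
    rw [hlt]
    congr 1
    refine Finset.sum_congr rfl fun j _ => ?_
    rw [hlev i z hz]
    rfl
  have hre : ∀ (Λ : ℝ) (S : Fin n → ℂ), ((Λ : ℂ) * ∑ j, S j).re = Λ * ∑ j, (S j).re := by
    intro Λ S
    rw [Complex.re_ofReal_mul, Complex.re_sum]
  have hpos0 : ∀ i, ∀ z ∈ (A.c i).target,
      0 ≤ (lt ν (lm (om.w i) z) (lm (η.w i) z) (lm (vt A b i) z)).re := by
    intro i z hz
    obtain ⟨Λ, v, h0, hk, hlt, _⟩ := key i z hz
    rw [hlt, hre]
    exact mul_nonneg h0 (Finset.sum_nonneg fun j _ => h i z hz (v j) (hk j))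
  have hzero := Itg_pos P (lt_dens η om ν hb) hpos0 (Itg_lt P η om ν hb)
  intro i z hfull a ha
  have hz : z ∈ (A.c i).target := hfull.1
  obtain ⟨Λ, v, h0, hk, hlt, hf⟩ := key i z hz
  obtain ⟨hΛ, hspan⟩ := hf hfull.2
  have h1 := hzero i z hz
  rw [hlt, hre] at h1
  have h2 : ∑ j, (levi (vt A b i) z (v j) (v j)).re = 0 := by
    rcases mul_eq_zero.1 h1 with h3 | h3
    · exact absurd h3 hΛ.ne'
    · exact h3
  have h3 : ∀ j, (levi (vt A b i) z (v j) (v j)).re = 0 := fun j =>
    (Finset.sum_eq_zero_iff_of_nonneg (fun j _ => h i z hz (v j) (hk j))).1 h2 j (Finset.mem_univ j)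
  set B : Fin n → Fin n → ℂ := fun k l => LM (vt A b i) z k l with hBdef
  have hB : ∀ k l, conj (B k l) = B l k := fun k l => LM_conj (A.c i).open_target (hb i) hz k l
  obtain ⟨c, hc⟩ := hspan a ha
  have h4 : ∀ j, Pos_H B (v j) a = 0 := by
    intro j
    refine Pos_cs hB (V := fun x => KM (η.w i) z x) (fun x y hx hy => km_add hx hy)
      (fun t x hx => km_smul t hx) ?_ (hk j) ha ?_
    · intro x hx
      have := h i z hz x hx
      rwa [hlev i z hz] at this
    · have := h3 j
      rwa [hlev i z hz] at this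
  have h5 : ∀ s : Finset (Fin n), Pos_H B (∑ j ∈ s, c j • v j) a = 0 := by
    intro s
    induction s using Finset.induction_on with
    | empty => simp [Pos_H]
    | insert x s hx ih => rw [Finset.sum_insert hx, Pos_H_add, Pos_H_smul, h4, ih, mul_zero, add_zero]
  rw [hlev i z hz]
  have h6 := h5 Finset.univ
  rwa [← hc] at h6

theorem princ1 [T2Space X] [CompactSpace X] {η om : Form A} (hη : η.Semipositive) {ν : ℕ}
    (hν : η.RankLE ν) (hom : om.Positive) {b : X → ℝ} (hb : Sm A b)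
    (h : ∀ i, ∀ z ∈ (A.c i).target, ∀ a, KM (η.w i) z a → 0 ≤ (levi (vt A b i) z a a).re) :
    ∀ i z, Full η ν i z → ∀ a, KM (η.w i) z a → d10 (cx (vt A b i)) z a = 0 := by
  have hb' : Sm A (fun x => Real.exp (b x)) := fun i => Real.contDiff_exp.comp_contDiffOn (hb i)
  have hlev : ∀ i, ∀ z ∈ (A.c i).target, ∀ a : E n,
      levi (vt A (fun x => Real.exp (b x)) i) z a a
        = ((Real.exp (vt A b i z) : ℝ) : ℂ) * (d10 (cx (vt A b i)) z a * conj (d10 (cx (vt A b i)) z a))
          + ((Real.exp (vt A b i z) : ℝ) : ℂ) * levi (vt A b i) z a a := by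
    intro i z hz a
    have h1 := levi_comp (A.c i).open_target (hb i) Real.contDiff_exp hz a a
    rw [Real.deriv_exp] at h1
    rw [Real.deriv_exp] at h1
    exact h1
  have h0 := princ0 hη hν hom hb h
  have h1 := princ0 hη hν hom hb' (by
    intro i z hz a ha
    rw [hlev i z hz, Complex.mul_conj, Complex.add_re, Complex.re_ofReal_mul, Complex.re_ofReal_mul,
      Complex.ofReal_re]
    have := h i z hz a ha
    have := Complex.normSq_nonneg (d10 (cx (vt A b i)) z a)
    positivity)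
  intro i z hfull a ha
  have h2 := h1 i z hfull a ha
  rw [hlev i z hfull.1, h0 i z hfull a ha, mul_zero, add_zero, Complex.mul_conj, ← Complex.ofReal_mul]
    at h2
  have h3 : Real.exp (vt A b i z) * Complex.normSq (d10 (cx (vt A b i)) z a) = 0 := by
    exact_mod_cast h2
  rcases mul_eq_zero.1 h3 with h4 | h4
  · exact absurd h4 (Real.exp_pos _).ne'
  · exact Complex.normSq_eq_zero.1 h4

end Pool.Agent.ARK
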