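import Pool.Agent.ARK.Tub
import Pool.Agent.ARK.Pos

/-!
ARK: near a compact leaf given by `2 ν` functions the kernel is holomorphic.
-/

open scoped ContDiff ComplexConjugate Topology ComplexOrder
open Complex MeasureTheory Matrix

namespace Pool.Agent.ARK

open Pool.Agent.CYF Pool.Agent.NDC

variable {n : ℕ} {X : Type*} [TopologicalSpace X] {ι : Type*} {A : Mfd n X ι} {z : E n}
  {η om : Form A} {ν : ℕ} {N : ℕ}

/-- a tube around an isolated compact piece of a level set -/
theorem tube {X : Type*} [TopologicalSpace X] [T2Space X] [CompactSpace X] {T Ω : Set X}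
    (hT : IsCompact T) (hΩ : IsOpen Ω) (hTΩ : T ⊆ Ω) {D : X → ℝ} (hD : Continuous D)
    (h0 : ∀ y, 0 ≤ D y) (hiso : ∀ y ∈ T, ∀ᶠ y' in 𝓝 y, D y' = 0 → y' ∈ T) :
    ∃ W : Set X, IsOpen W ∧ T ⊆ W ∧ W ⊆ Ω ∧ ∃ ε : ℝ, 0 < ε ∧ ∀ y ∈ closure W, y ∉ W → ε ≤ D y := by
  set S : Set X := {y' | D y' = 0 → y' ∈ T} with hS
  have hTS : T ⊆ interior S := fun y hy => mem_interior_iff_mem_nhds.2 (hiso y hy)
  obtain ⟨W, hW, hTW, hWc⟩ := normal_exists_closure_subset hT.isClosed
    (isOpen_interior.inter hΩ) (Set.subset_inter hTS hTΩ)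
  refine ⟨W, hW, hTW, fun y hy => (hWc (subset_closure hy)).2, ?_⟩
  have hK : IsCompact (closure W \ W) := (isClosed_closure.sdiff hW).isCompact
  have hpos : ∀ y ∈ closure W \ W, 0 < D y := by
    rintro y ⟨hy, hyW⟩
    refine lt_of_le_of_ne (h0 y) fun h => hyW (hTW ?_)
    exact interior_subset (hWc hy).1 h.symm
  rcases (closure W \ W).eq_empty_or_nonempty with he | hne
  · refine ⟨1, one_pos, fun y hy hyW => ?_⟩
    have : y ∈ closure W \ W := ⟨hy, hyW⟩
    rw [he] at this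
    exact absurd this (Set.notMem_empty y)
  · obtain ⟨y0, hy0, hmin⟩ := hK.exists_isMinOn hne hD.continuousOn
    exact ⟨D y0, hpos y0 hy0, fun y hy hyW => hmin ⟨hy, hyW⟩⟩

theorem leaf_hol [T2Space X] [CompactSpace X] (hη : η.Semipositive) (hν : η.RankLE ν)
    (hom : om.Positive) {u : Fin (2 * ν) → X → ℝ} (hu : ∀ j, KerConst η ν (u j)) {x : X}
    {T : Set X} (hT : T = connectedComponentIn {y | ∀ j, u j y = u j x} x) (hTc : IsCompact T)
    (hgd : ∀ i, ∀ z ∈ (A.c i).target, (A.c i).symm z ∈ T → Gd η ν u i z) {i : ι}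
    (hz : z ∈ (A.c i).target) (hzT : (A.c i).symm z ∈ T) : HK η i z := by
  classical
  have hsm : ∀ j, Sm A (u j) := fun j => (hu j).sm
  -- the set of good points
  set Ω : Set X := {y | ∀ i, y ∈ (A.c i).source → Gd η ν u i (A.c i y)} with hΩdef
  have hmem : ∀ y i, y ∈ (A.c i).source → Gd η ν u i (A.c i y) → y ∈ Ω := by
    intro y i hi hg j hj
    have h1 := Gd.ph hsm (mem_Uo hi hj) hg
    rwa [ph_chart hi] at h1
  have hΩ : IsOpen Ω := by
    rw [isOpen_iff_mem_nhds]
    intro y hy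
    have hi := mem_ix A y
    obtain ⟨O, hO, hzO, hgO, -⟩ := psi_loc hη hν hu (hy _ hi)
    have h1 := ((A.c (ix A y)).continuousAt hi) (hO.mem_nhds hzO)
    filter_upwards [h1, (A.c (ix A y)).open_source.mem_nhds hi] with y' h2 h3
    exact hmem y' _ h3 (hgO _ h2)
  have hTΩ : T ⊆ Ω := by
    intro y hy i hi
    refine hgd i _ ((A.c i).map_source hi) ?_
    rwa [(A.c i).left_inv hi]
  -- the squared distance function
  let g : (Fin (2 * ν) → ℝ) → ℝ := fun t => ∑ j, (t j - u j x) ^ 2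
  have hg : ContDiff ℝ ∞ g := by
    refine ContDiff.sum fun j _ => ?_
    exact ((contDiff_apply ℝ ℝ j).sub contDiff_const).pow 2
  let D : X → ℝ := fun y => g fun j => u j y
  have hDk : KerConst η ν D := KerConst.comp hu hg
  have hDc : Continuous D := hDk.sm.continuous
  have hD0 : ∀ y, 0 ≤ D y := fun y => Finset.sum_nonneg fun j _ => sq_nonneg _
  have hDiff : ∀ y, D y = 0 ↔ ∀ j, u j y = u j x := by
    intro y
    show ∑ j, (u j y - u j x) ^ 2 = 0 ↔ _
    rw [Finset.sum_eq_zero_iff_of_nonneg fun j _ => sq_nonneg _]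
    constructor
    · intro h j
      have := h j (Finset.mem_univ j)
      exact sub_eq_zero.1 (pow_eq_zero_iff two_ne_zero |>.1 this)
    · intro h j _
      rw [h j, sub_self]
      simp
  have hiso : ∀ y ∈ T, ∀ᶠ y' in 𝓝 y, D y' = 0 → y' ∈ T := by
    intro y hy
    have h1 := comp_open hsm hT hy (mem_ix A y) ((hTΩ hy) _ (mem_ix A y)).2
    filter_upwards [h1] with y' h2 h3
    exact h2 ((hDiff y').1 h3)
  obtain ⟨W, hW, hTW, hWΩ, ε, hε, hbd⟩ := tube hTc hΩ hTΩ hDc hD0 hiso
  -- the cutoff function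
  let χ : ℝ → ℝ := fun t => Real.smoothTransition (2 - 3 / ε * t)
  have hχ : ContDiff ℝ ∞ χ :=
    Real.smoothTransition.contDiff.comp (contDiff_const.sub (contDiff_const.mul contDiff_id))
  have hχ1 : ∀ t, t < ε / 3 → χ t = 1 := by
    intro t ht
    apply Real.smoothTransition.one_of_one_le
    have h1 : 3 / ε * t ≤ 3 / ε * (ε / 3) := mul_le_mul_of_nonneg_left ht.le (by positivity)
    have h2 : 3 / ε * (ε / 3) = 1 := by field_simp
    linarith
  have hχ0 : ∀ t, 2 * ε / 3 < t → χ t = 0 := by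
    intro t ht
    apply Real.smoothTransition.zero_of_nonpos
    have h1 : 3 / ε * (2 * ε / 3) ≤ 3 / ε * t := mul_le_mul_of_nonneg_left ht.le (by positivity)
    have h2 : 3 / ε * (2 * ε / 3) = 2 := by field_simp
    linarith
  have hχn : ∀ t, 0 ≤ χ t := fun t => Real.smoothTransition.nonneg _
  have hvk : KerConst η ν fun y => χ (D y) :=
    KerConst.comp (g := fun t => χ (g t)) hu (hχ.comp hg)
  let G : X → ℝ := fun y => if y ∈ W then χ (D y) * Psi η u y else 0
  -- local forms of `G`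
  have hGW : ∀ i, ∀ z ∈ (A.c i).target, (A.c i).symm z ∈ W → ∀ᶠ z' in 𝓝 z,
      vt A G i z' = vt A (fun y => χ (D y)) i z' * vt A (Psi η u) i z' := by
    intro i z hz hzW
    have h1 := (A.c i).continuousAt_symm hz (hW.mem_nhds hzW)
    filter_upwards [h1] with z' hz'
    have hz'' : (A.c i).symm z' ∈ W := hz'
    show (if (A.c i).symm z' ∈ W then _ else _) = _
    rw [if_pos hz'']
    rfl
  have hG0 : ∀ i, ∀ z ∈ (A.c i).target, (A.c i).symm z ∉ W → ∀ᶠ z' in 𝓝 z, vt A G i z' = 0 := by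
    intro i z hz hzW
    by_cases hcl : (A.c i).symm z ∈ closure W
    · have h1 := hbd _ hcl hzW
      have h2 : ∀ᶠ y in 𝓝 ((A.c i).symm z), 2 * ε / 3 < D y :=
        hDc.continuousAt (lt_mem_nhds (by linarith))
      have h3 := (A.c i).continuousAt_symm hz h2
      filter_upwards [h3] with z' hz'
      show (if (A.c i).symm z' ∈ W then χ (D ((A.c i).symm z')) * _ else _) = (0 : ℝ)
      have hz'' : 2 * ε / 3 < D ((A.c i).symm z') := hz'
      rw [hχ0 _ hz'', zero_mul, ite_self]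
    · have h1 := (A.c i).continuousAt_symm hz (isClosed_closure.isOpen_compl.mem_nhds hcl)
      filter_upwards [h1] with z' hz'
      show (if (A.c i).symm z' ∈ W then _ else _) = (0 : ℝ)
      rw [if_neg fun h => hz' (subset_closure h)]
  have hgdW : ∀ i, ∀ z ∈ (A.c i).target, (A.c i).symm z ∈ W → Gd η ν u i z := by
    intro i z hz hzW
    have h1 := hWΩ hzW i ((A.c i).map_target hz)
    rwa [(A.c i).right_inv hz] at h1
  have hGs : Sm A G := by
    intro i z hz
    refine ContDiffAt.contDiffWithinAt ?_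
    by_cases hzW : (A.c i).symm z ∈ W
    · obtain ⟨O, hO, hzO, -, hs, -⟩ := psi_loc hη hν hu (hgdW i z hz hzW)
      have h1 : ContDiffAt ℝ ∞ (fun z' => vt A (fun y => χ (D y)) i z' * vt A (Psi η u) i z') z :=
        ((hvk.sm i).contDiffAt ((A.c i).open_target.mem_nhds hz)).mul
          (hs.contDiffAt (hO.mem_nhds hzO))
      exact h1.congr_of_eventuallyEq (hGW i z hz hzW)
    · have h1 : ContDiffAt ℝ ∞ (fun _ : E n => (0 : ℝ)) z := contDiffAt_const
      exact h1.congr_of_eventuallyEq (hG0 i z hz hzW)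
  have hlc : ∀ {f h : E n → ℝ} {z : E n} (a : E n), f =ᶠ[𝓝 z] h → levi f z a a = levi h z a a := by
    intro f h z a hfh
    unfold levi
    apply d10_congr
    filter_upwards [hfh.eventuallyEq_nhds] with y hy
    apply d01_congr
    filter_upwards [hy] with y' hy'
    rw [hy']
  have hGl : ∀ i, ∀ z ∈ (A.c i).target, ∀ a, KM (η.w i) z a →
      0 ≤ (levi (vt A G i) z a a).re := by
    intro i z hz a ha
    by_cases hzW : (A.c i).symm z ∈ W
    · have hgz := hgdW i z hz hzW
      obtain ⟨O, hO, hzO, hgO, hs, hl, -⟩ := psi_loc hη hν hu hgz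
      have hKa : Ker η i z a := (ker_iff η hz a).2 ha
      have hOt : O ⊆ (A.c i).target := fun y hy => (hgO y hy).1.1
      rw [hlc a (hGW i z hz hzW), levi_mul_zero hO ((hvk.sm i).mono hOt) hs hzO
        (hvk.ker i z hgz.1 a hKa) (hvk.levi_zero hη hν hgz.1 hKa), Complex.re_ofReal_mul]
      exact mul_nonneg (hχn _) (hl z hzO a hKa)
    · have h1 : levi (vt A G i) z a a = levi (fun _ : E n => (0 : ℝ)) z a a :=
        hlc a (hG0 i z hz hzW)
      have h2 : levi (fun _ : E n => (0 : ℝ)) z a a = 0 := by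
        unfold levi
        simp [d01_const, d10_const]
      rw [h1, h2]
      simp
  have hGk : KerConst η ν G := ⟨hGs, fun i z hz a ha =>
    princ1 hη hν hom hGs hGl i z hz a ((ker_iff η hz.1 a).1 ha)⟩
  -- conclusion
  obtain ⟨O, hO, hzO, hgO, -, -, hfin⟩ := psi_loc hη hν hu (hgd i z hz hzT)
  set O' : Set (E n) := (A.c i).target ∩ (A.c i).symm ⁻¹' (W ∩ {y | D y < ε / 3}) with hO'def
  have hO'o : IsOpen O' := (A.c i).symm.isOpen_inter_preimage
    (hW.inter (isOpen_lt hDc continuous_const))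
  have hTD : ∀ y ∈ T, D y = 0 := by
    intro y hy
    rw [hDiff]
    rw [hT] at hy
    exact connectedComponentIn_subset _ _ hy
  have hzO' : z ∈ O' := by
    refine ⟨hz, hTW hzT, ?_⟩
    show D ((A.c i).symm z) < ε / 3
    rw [hTD _ hzT]
    positivity
  refine hfin O' hO'o hzO' ?_
  intro y hy hyO a ha
  have h1 : vt A G i =ᶠ[𝓝 y] vt A (Psi η u) i := by
    filter_upwards [hO'o.mem_nhds hy] with y' hy'
    show (if (A.c i).symm y' ∈ W then χ (D ((A.c i).symm y')) * _ else _) = _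
    rw [if_pos hy'.2.1, hχ1 _ hy'.2.2, one_mul]
    rfl
  rw [← hlc a h1, hGk.levi_zero hη hν (hgO y hyO).1 ha]
  rfl

end Pool.Agent.ARK
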