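import Pool.Agent.ARK.Main2
import Pool.Agent.ARK.Tuc

/-!
ARK: assembly, with the open set of compact leaves.
-/

open scoped ContDiff ComplexConjugate Topology ComplexOrder
open Complex MeasureTheory Matrix

namespace Pool.Agent.ARK

open Pool.Agent.CYF Pool.Agent.NDC

variable {n : ℕ} {X : Type*} [TopologicalSpace X] {ι : Type*} {A : Mfd n X ι} {N : ℕ}
  {η om : Form A} {ν : ℕ}

/-- the points through which the component of the level set consists of good points -/
def Qs (η : Form A) (ν : ℕ) (u : Fin N → X → ℝ) : Set X :=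
  {x | ∀ y ∈ connectedComponentIn {y | ∀ j, u j y = u j x} x, ∀ i, y ∈ (A.c i).source →
    Gd η ν u i (A.c i y)}

theorem comp_same {u : Fin N → X → ℝ} {x y : X}
    (hy : y ∈ connectedComponentIn {y | ∀ j, u j y = u j x} x) :
    connectedComponentIn {y' | ∀ j, u j y' = u j y} y
      = connectedComponentIn {y | ∀ j, u j y = u j x} x := by
  have h1 : y ∈ {y | ∀ j, u j y = u j x} := connectedComponentIn_subset _ _ hy
  have h2 : {y' | ∀ j, u j y' = u j y} = {y | ∀ j, u j y = u j x} := by
    ext y'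
    constructor
    · intro h j
      rw [h j, h1 j]
    · intro h j
      rw [h j, h1 j]
  rw [h2]
  exact (connectedComponentIn_eq hy).symm

theorem Qs_open [T2Space X] [CompactSpace X] (hη : η.Semipositive) (hν : η.RankLE ν)
    {u : Fin (2 * ν) → X → ℝ} (hu : ∀ j, KerConst η ν (u j)) : IsOpen (Qs η ν u) := by
  classical
  have hsm : ∀ j, Sm A (u j) := fun j => (hu j).sm
  set Ω : Set X := {y | ∀ i, y ∈ (A.c i).source → Gd η ν u i (A.c i y)} with hΩdef
  have hmem : ∀ y i, y ∈ (A.c i).source → Gd η ν u i (A.c i y) → y ∈ Ω := by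
    intro y i hi hg j hj
    have h1 := Gd.ph hsm (mem_Uo hi hj) hg
    rwa [ph_chart hi] at h1
  have hΩ : IsOpen Ω := by
    rw [isOpen_iff_mem_nhds]
    intro y hy
    have hi := mem_ix A y
    obtain ⟨O, hO, hzO, hgO, -⟩ := psi_loc hη hν hu (hy _ hi)
    have h1 := ((A.c (ix A y)).continuousAt hi) (hO.mem_nhds hzO)
    filter_upwards [h1, (A.c (ix A y)).open_source.mem_nhds hi] with y' h2 h3
    exact hmem y' _ h3 (hgO _ h2)
  rw [isOpen_iff_mem_nhds]
  intro x hx
  set T : Set X := connectedComponentIn {y | ∀ j, u j y = u j x} x with hT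
  have hxL : x ∈ {y | ∀ j, u j y = u j x} := fun _ => rfl
  have hxT : x ∈ T := mem_connectedComponentIn hxL
  have hTΩ : T ⊆ Ω := fun y hy => hx y hy
  have hlf := leaf_closed hη hν hu (i := ix A x) (z := A.c (ix A x) x) (hx x hxT _ (mem_ix A x)).1
    ((A.c (ix A x)).left_inv (mem_ix A x)).symm hT (by
      intro i z hz hzT
      have h1 := hx _ hzT i ((A.c i).map_target hz)
      rw [(A.c i).right_inv hz] at h1
      exact h1.2)
  let g : (Fin (2 * ν) → ℝ) → ℝ := fun t => ∑ j, (t j - u j x) ^ 2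
  have hg : ContDiff ℝ ∞ g := by
    refine ContDiff.sum fun j _ => ?_
    exact ((contDiff_apply ℝ ℝ j).sub contDiff_const).pow 2
  let D : X → ℝ := fun y => g fun j => u j y
  have hDk : KerConst η ν D := KerConst.comp hu hg
  have hDc : Continuous D := hDk.sm.continuous
  have hD0 : ∀ y, 0 ≤ D y := fun y => Finset.sum_nonneg fun j _ => sq_nonneg _
  have hDiff : ∀ y, D y = 0 ↔ ∀ j, u j y = u j x := by
    intro y
    show ∑ j, (u j y - u j x) ^ 2 = 0 ↔ _
    rw [Finset.sum_eq_zero_iff_of_nonneg fun j _ => sq_nonneg _]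
    constructor
    · intro h j
      have := h j (Finset.mem_univ j)
      exact sub_eq_zero.1 (pow_eq_zero_iff two_ne_zero |>.1 this)
    · intro h j _
      rw [h j, sub_self]
      simp
  have hiso : ∀ y ∈ T, ∀ᶠ y' in 𝓝 y, D y' = 0 → y' ∈ T := by
    intro y hy
    have h1 := comp_open hsm hT hy (mem_ix A y) ((hTΩ hy) _ (mem_ix A y)).2
    filter_upwards [h1] with y' h2 h3
    exact h2 ((hDiff y').1 h3)
  obtain ⟨W, hW, hTW, hWΩ, ε, hε, hbd⟩ := tube hlf.1 hΩ hTΩ hDc hD0 hiso
  have hDx : D x < ε := by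
    rw [(hDiff x).2 fun _ => rfl]
    exact hε
  filter_upwards [hW.mem_nhds (hTW hxT), hDc.continuousAt (gt_mem_nhds hDx)] with y hyW hyD
  have hyD' : D y < ε := hyD
  have hyL : y ∈ {y' | ∀ j, u j y' = u j y} := fun _ => rfl
  have hsub : connectedComponentIn {y' | ∀ j, u j y' = u j y} y ⊆ W := by
    refine isPreconnected_connectedComponentIn.subset_left_of_subset_union hW
      (isClosed_closure (s := W)).isOpen_compl ?_ ?_ ⟨y, mem_connectedComponentIn hyL, hyW⟩
    · exact Set.disjoint_compl_right_iff_subset.2 subset_closure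
    · intro y' hy'
      by_cases h1 : y' ∈ closure W
      · left
        by_contra h2
        have h3 := hbd y' h1 h2
        have h4 : ∀ j, u j y' = u j y := connectedComponentIn_subset _ _ hy'
        have h5 : D y' = D y := by
          show g (fun j => u j y') = g (fun j => u j y)
          congr 1
          funext j
          exact h4 j
        rw [h5] at h3
        linarith
      · exact Or.inr h1
  intro y' hy' i hi
  exact hWΩ (hsub hy') i hi

theorem leaves [T2Space X] [CompactSpace X] (hη : η.Semipositive) (hν : η.RankLE ν)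
    (hom : om.Positive) {u : Fin (2 * ν) → X → ℝ} (hu : ∀ j, KerConst η ν (u j)) :
    ∃ Q : Set X, IsOpen Q ∧
      (∀ i, ∀ᵐ z ∂(volume : Measure (E n)), Full η ν i z →
        LinearIndependent ℝ (fun j => fderiv ℝ (vt A (u j) i) z) → (A.c i).symm z ∈ Q) ∧
      (∀ x ∈ Q, ∀ T : Set X, T = connectedComponentIn {y | ∀ j, u j y = u j x} x →
        IsCompact T ∧ T ⊆ Q ∧ ∀ v : X → ℝ, KerConst η ν v → ∀ y ∈ T, v y = v x) ∧
      ∀ i, ∀ z ∈ (A.c i).target, (A.c i).symm z ∈ Q →
        Full η ν i z ∧ LinearIndependent ℝ (fun j => fderiv ℝ (vt A (u j) i) z) ∧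
        (∀ a : E n, (∀ j, fderiv ℝ (vt A (u j) i) z a = 0) ↔ Ker η i z a) ∧ HolKer η i z := by
  have hclosed : ∀ x ∈ Qs η ν u, ∀ T : Set X,
      T = connectedComponentIn {y | ∀ j, u j y = u j x} x →
      IsCompact T ∧ (∀ v : X → ℝ, KerConst η ν v → ∀ y ∈ T, v y = v x) := by
    intro x hx T hT
    have hxT : x ∈ T := by
      rw [hT]
      exact mem_connectedComponentIn fun _ => rfl
    have hx' : ∀ y ∈ T, ∀ i, y ∈ (A.c i).source → Gd η ν u i (A.c i y) := by
      rw [hT]
      exact hx
    have hlf := leaf_closed hη hν hu (i := ix A x) (z := A.c (ix A x) x)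
      (hx' x hxT _ (mem_ix A x)).1 ((A.c (ix A x)).left_inv (mem_ix A x)).symm hT (by
        intro i z hz hzT
        have h1 := hx' _ hzT i ((A.c i).map_target hz)
        rw [(A.c i).right_inv hz] at h1
        exact h1.2)
    exact ⟨hlf.1, hlf.2.1⟩
  refine ⟨Qs η ν u, Qs_open hη hν hu, ?_, ?_, ?_⟩
  · intro i
    filter_upwards [leaf_ae hη hν hu i] with z hz hfz hind
    have h := hz hfz hind _ _ rfl rfl
    intro y hy i' hi'
    have h2 := h.2.2 i' (A.c i' y) ((A.c i').map_source hi') (by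
      rw [(A.c i').left_inv hi']
      exact hy)
    exact ⟨h2.1, h2.2.1⟩
  · intro x hx T hT
    refine ⟨(hclosed x hx T hT).1, ?_, (hclosed x hx T hT).2⟩
    rw [hT]
    intro y hy y' hy'
    rw [comp_same hy] at hy'
    exact hx y' hy'
  · intro i z hz hzQ
    have hxT : (A.c i).symm z ∈ connectedComponentIn
        {y | ∀ j, u j y = u j ((A.c i).symm z)} ((A.c i).symm z) :=
      mem_connectedComponentIn fun _ => rfl
    have hg : Gd η ν u i z := by
      have h1 := hzQ _ hxT i ((A.c i).map_target hz)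
      rwa [(A.c i).right_inv hz] at h1
    refine ⟨hg.1, hg.2, Full.ker_iff_real hu hg.1 hg.2, ?_⟩
    refine (leaf_hol hη hν hom hu rfl (hclosed _ hzQ _ rfl).1 ?_ hz hxT).holKer
    intro i' z' hz' hz'T
    have h1 := hzQ _ hz'T i' ((A.c i').map_target hz')
    rwa [(A.c i').right_inv hz'] at h1

end Pool.Agent.ARK
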