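import Pool.Agent.ARK.Fib

/-!
ARK: assembly, with the fibration by compact leaves.
-/

open scoped ContDiff ComplexConjugate Topology ComplexOrder
open Complex MeasureTheory Matrix

namespace Pool.Agent.ARK

open Pool.Agent.CYF Pool.Agent.NDC

variable {n : ℕ} {X : Type*} [TopologicalSpace X] {ι : Type*} {A : Mfd n X ι}
  {η om : Form A} {ν : ℕ}

theorem fibration [T2Space X] [CompactSpace X] (hη : η.Semipositive) (hν : η.RankLE ν)
    (hom : om.Positive) {u : Fin (2 * ν) → X → ℝ} (hu : ∀ j, KerConst η ν (u j)) :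
    ∃ Q : Set X, IsOpen Q ∧
      (∀ i, ∀ᵐ z ∂(volume : Measure (E n)), Full η ν i z →
        LinearIndependent ℝ (fun j => fderiv ℝ (vt A (u j) i) z) → (A.c i).symm z ∈ Q) ∧
      ∀ x ∈ Q, ∃ (W : Set X) (f : X → (Fin ν → ℂ)), IsOpen W ∧ x ∈ W ∧ W ⊆ Q ∧
        (∀ i, ∀ z ∈ (A.c i).target, (A.c i).symm z ∈ W → Full η ν i z ∧
          DifferentiableAt ℂ (fun z => f ((A.c i).symm z)) z ∧
          ∀ a : E n, fderiv ℂ (fun z => f ((A.c i).symm z)) z a = 0 ↔ Ker η i z a) ∧
        ∀ y ∈ W, ∀ T : Set X, T = connectedComponentIn {y' | ∀ j, u j y' = u j y} y →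
          IsCompact T ∧ T = {y' | y' ∈ W ∧ f y' = f y} ∧
          ∀ v : X → ℝ, KerConst η ν v → ∀ y' ∈ T, v y' = v y := by
  have hclosed : ∀ x ∈ Qs η ν u, ∀ T : Set X,
      T = connectedComponentIn {y | ∀ j, u j y = u j x} x →
      IsCompact T ∧ (∀ v : X → ℝ, KerConst η ν v → ∀ y ∈ T, v y = v x) := by
    intro x hx T hT
    have hxT : x ∈ T := by
      rw [hT]
      exact mem_connectedComponentIn fun _ => rfl
    have hx' : ∀ y ∈ T, ∀ i, y ∈ (A.c i).source → Gd η ν u i (A.c i y) := by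
      rw [hT]
      exact hx
    have hlf := leaf_closed hη hν hu (i := ix A x) (z := A.c (ix A x) x)
      (hx' x hxT _ (mem_ix A x)).1 ((A.c (ix A x)).left_inv (mem_ix A x)).symm hT (by
        intro i z hz hzT
        have h1 := hx' _ hzT i ((A.c i).map_target hz)
        rw [(A.c i).right_inv hz] at h1
        exact h1.2)
    exact ⟨hlf.1, hlf.2.1⟩
  refine ⟨Qs η ν u, Qs_open hη hν hu, ?_, ?_⟩
  · intro i
    filter_upwards [leaf_ae hη hν hu i] with z hz hfz hind
    have h := hz hfz hind _ _ rfl rfl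
    intro y hy i' hi'
    have h2 := h.2.2 i' (A.c i' y) ((A.c i').map_source hi') (by
      rw [(A.c i').left_inv hi']
      exact hy)
    exact ⟨h2.1, h2.2.1⟩
  · intro x hx
    obtain ⟨W, f, hW, hxW, hWQ, hfib, hder⟩ := fib hη hν hom hu hx
    refine ⟨W, f, hW, hxW, hWQ, ?_, ?_⟩
    · intro i z hz hzW
      have h1 := hWQ hzW _ (mem_Tc u _) i ((A.c i).map_target hz)
      rw [(A.c i).right_inv hz] at h1
      exact ⟨h1.1, hder i z hz hzW⟩
    · intro y hy T hT
      have h1 := hclosed y (hWQ hy) T hT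
      refine ⟨h1.1, ?_, h1.2⟩
      have hTc : T = Tc u y := hT
      ext y'
      constructor
      · intro hy'
        rw [hTc] at hy'
        have h2 := (hfib y hy).1 hy'
        exact ⟨h2, ((hfib y hy).2 y' h2).2 hy'⟩
      · rintro ⟨h2, h3⟩
        rw [hTc]
        exact ((hfib y hy).2 y' h2).1 h3

end Pool.Agent.ARK
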