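import Pool.Agent.ARK.Fac
import Pool.Agent.ARK.Dms
import Pool.Agent.CYF.Base

/-!
ARK module Prp (size 4): an alternating form of degree `ν` on the quotient by the kernel of a psd matrix of rank `ν` is unique
up to a factor.
PROOF. `fac`: `M = R * Rᴴ`, `S * R = 1`. For `φ : Fin ν → Fin ν` put `V φ = ∑ K, (∏ a, S (φ a) (K a)) * v K`. The vector `c_k = e k - ∑ s, R k s • S s` (`S s` the row) satisfies `∑ l, c_k l * R l s' = R k s' - R k s' = 0`, so `∑ l, c_k l * M l l' = 0`, and by `hor`
`v (update J q k) = ∑ s, R k s * ∑ l, S s l * v (update J q l)` for all `J, q`. Doing this in all slots (induction over the slots, e.g. over a finset of slots: `v J = ∑ φ, ... `) `v J = ∑ φ : Fin ν → Fin ν, (∏ a, R (J a) (φ a)) * V φ`. `V` is alternating: `V (φ ∘ σ) = sign σ * V φ` (reindex `K ↦ K ∘ σ`, `alt`),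
so `V φ = 0` if `φ` is not injective (a transposition fixes `φ`), and `V σ = sign σ * V id`. Hence `v J = V id * (R.submatrix J id).det` (`Matrix.det_apply'`, transpose). With `minor_fac`: `v J * conj (v L) = |V id|² * (M.submatrix J L).det`.
A way to avoid the bookkeeping: the functions `f x = ∑ J, (∏ a, x a (J a)) * v J` is an alternating map of `x : Fin ν → E n` (`MultilinearMap.mkPiRing`-like, or prove `AlternatingMap` directly) which vanishes if one `x a` is in the kernel, so `f x = f (fun a => ∑ s, (x a ᵥ* R) s • S s)` (slot by slot: `MultilinearMap.map_add`), and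
`AlternatingMap` evaluated on linear combinations of `ν` vectors is the determinant times the value (`AlternatingMap.map_sum`-type lemma, `Matrix.det_apply`, or `AlternatingMap.eq_smul_basis_det` for the alternating map `t ↦ f (fun a => ∑ s, t a s • S s)` on `Fin ν → ℂ` with `Pi.basisFun`).
-/

open scoped ComplexConjugate ComplexOrder
open Complex Matrix

namespace Pool.Agent.ARK

open Pool.Agent.CYF

/-- the multilinear map with values `v J` at the basis vectors -/
private noncomputable def Prp_f {n ν : ℕ} (v : (Fin ν → Fin n) → ℂ) :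
    MultilinearMap ℂ (fun _ : Fin ν => Fin n → ℂ) ℂ :=
  ∑ J : Fin ν → Fin n, v J • ((MultilinearMap.mkPiAlgebra ℂ (Fin ν) ℂ).compLinearMap
    (fun a => LinearMap.proj (J a)))

private theorem Prp_f_apply {n ν : ℕ} (v : (Fin ν → Fin n) → ℂ) (x : Fin ν → Fin n → ℂ) :
    Prp_f v x = ∑ J : Fin ν → Fin n, v J * ∏ a, x a (J a) := by
  simp [Prp_f, MultilinearMap.sum_apply]

private theorem Prp_swap {n ν : ℕ} {v : (Fin ν → Fin n) → ℂ}
    (alt : ∀ (J : Fin ν → Fin n) (σ : Equiv.Perm (Fin ν)),
      v (J ∘ σ) = ((Equiv.Perm.sign σ : ℤ) : ℂ) * v J) (J : Fin ν → Fin n) {i j : Fin ν} (hij : i ≠ j) :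
    v (J ∘ Equiv.swap i j) = - v J := by
  rw [alt, Equiv.Perm.sign_swap hij]
  simp

private theorem Prp_zero {n ν : ℕ} {v : (Fin ν → Fin n) → ℂ}
    (alt : ∀ (J : Fin ν → Fin n) (σ : Equiv.Perm (Fin ν)),
      v (J ∘ σ) = ((Equiv.Perm.sign σ : ℤ) : ℂ) * v J) (x : Fin ν → Fin n → ℂ) {i j : Fin ν}
    (hx : x i = x j) (hij : i ≠ j) : Prp_f v x = 0 := by
  have hxs : ∀ b, x (Equiv.swap i j b) = x b := by
    intro b
    rcases eq_or_ne b i with rfl | hb
    · rw [Equiv.swap_apply_left]; exact hx.symm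
    · rcases eq_or_ne b j with rfl | hb'
      · rw [Equiv.swap_apply_right]; exact hx
      · rw [Equiv.swap_apply_of_ne_of_ne hb hb']
  have h1 : Prp_f v x = - Prp_f v x := by
    rw [Prp_f_apply]
    have h2 : ∑ J : Fin ν → Fin n, v J * ∏ a, x a (J a)
        = ∑ J : Fin ν → Fin n, v (J ∘ Equiv.swap i j) * ∏ a, x a ((J ∘ Equiv.swap i j) a) :=
      (Fintype.sum_equiv (Equiv.arrowCongr (Equiv.swap i j) (Equiv.refl (Fin n)))
        (fun J : Fin ν → Fin n => v J * ∏ a, x a (J a)) _ fun J => by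
          have e : (Equiv.arrowCongr (Equiv.swap i j) (Equiv.refl (Fin n)) J) ∘ Equiv.swap i j = J := by
            ext b
            simp [Equiv.arrowCongr]
          rw [e])
    conv_lhs => rw [h2]
    rw [← Finset.sum_neg_distrib]
    refine Finset.sum_congr rfl fun J _ => ?_
    rw [Prp_swap alt J hij, neg_mul]
    congr 2
    rw [← Equiv.prod_comp (Equiv.swap i j) (fun a => x a ((J ∘ Equiv.swap i j) a))]
    refine Finset.prod_congr rfl fun b _ => ?_
    rw [hxs]
    simp
  have h3 : (2 : ℂ) * Prp_f v x = 0 := by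
    rw [two_mul]
    nth_rewrite 1 [h1]
    ring
  exact (mul_eq_zero.1 h3).resolve_left two_ne_zero

private noncomputable def Prp_alt {n ν : ℕ} {v : (Fin ν → Fin n) → ℂ}
    (alt : ∀ (J : Fin ν → Fin n) (σ : Equiv.Perm (Fin ν)),
      v (J ∘ σ) = ((Equiv.Perm.sign σ : ℤ) : ℂ) * v J) : (Fin n → ℂ) [⋀^Fin ν]→ₗ[ℂ] ℂ :=
  { Prp_f v with map_eq_zero_of_eq' := fun x i j hx hij => Prp_zero alt x hx hij }

private theorem Prp_basis {n ν : ℕ} (v : (Fin ν → Fin n) → ℂ) (J : Fin ν → Fin n) :
    Prp_f v (fun a => Pi.single (J a) 1) = v J := by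
  rw [Prp_f_apply, Finset.sum_eq_single J]
  · simp
  · intro K _ hK
    obtain ⟨a, ha⟩ : ∃ a, K a ≠ J a := by
      by_contra h
      push Not at h
      exact hK (funext h)
    rw [Finset.prod_eq_zero (Finset.mem_univ a), mul_zero]
    exact Pi.single_eq_of_ne ha _
  · intro h; exact absurd (Finset.mem_univ J) h

/-- the map vanishes if one vector is in the kernel -/
private theorem Prp_ker {n ν : ℕ} {v : (Fin ν → Fin n) → ℂ} {a : Fin n → ℂ} {q : Fin ν}
    (h : ∀ J : Fin ν → Fin n, ∑ l, a l * v (Function.update J q l) = 0) (x : Fin ν → Fin n → ℂ) :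
    Prp_f v (Function.update x q a) = 0 := by
  rw [Prp_f_apply]
  rw [← Equiv.sum_comp (Equiv.funSplitAt q (Fin n)).symm, Fintype.sum_prod_type_right]
  refine Finset.sum_eq_zero fun K _ => ?_
  rcases isEmpty_or_nonempty (Fin n) with hE | ⟨⟨l0⟩⟩
  · exact Finset.sum_eq_zero fun l _ => (hE.false l).elim
  have key : ∀ l : Fin n, (Equiv.funSplitAt q (Fin n)).symm (l, K)
      = Function.update ((Equiv.funSplitAt q (Fin n)).symm (l0, K)) q l := by
    intro l
    ext b
    rcases eq_or_ne b q with rfl | hb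
    · simp [Equiv.funSplitAt]
    · simp [Equiv.funSplitAt, hb]
  have h2 : ∀ l : Fin n, v ((Equiv.funSplitAt q (Fin n)).symm (l, K))
      * ∏ b, Function.update x q a b ((Equiv.funSplitAt q (Fin n)).symm (l, K) b)
      = (∏ b : {j // j ≠ q}, x b (K b)) * (a l * v (Function.update ((Equiv.funSplitAt q (Fin n)).symm (l0, K)) q l)) := by
    intro l
    rw [Fintype.prod_eq_mul_prod_subtype_ne _ q]
    have e1 : Function.update x q a q ((Equiv.funSplitAt q (Fin n)).symm (l, K) q) = a l := by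
      simp [Equiv.funSplitAt]
    have e2 : ∏ b : {j // j ≠ q}, Function.update x q a b ((Equiv.funSplitAt q (Fin n)).symm (l, K) b)
        = ∏ b : {j // j ≠ q}, x b (K b) := by
      refine Finset.prod_congr rfl fun b _ => ?_
      have hb := b.2
      rw [Function.update_of_ne hb]
      simp [Equiv.funSplitAt, hb]
    rw [e1, e2, key l]
    ring
  rw [Finset.sum_congr rfl fun l _ => h2 l, ← Finset.mul_sum, h, mul_zero]

/-- replacing all vectors by their projections -/
private theorem Prp_proj {n ν : ℕ} {v : (Fin ν → Fin n) → ℂ} (p : (Fin n → ℂ) → Fin n → ℂ)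
    (h : ∀ (y : Fin n → ℂ) (q : Fin ν) (J : Fin ν → Fin n), ∑ l, (y - p y) l * v (Function.update J q l) = 0)
    (x : Fin ν → Fin n → ℂ) : Prp_f v (fun b => p (x b)) = Prp_f v x := by
  classical
  have key : ∀ T : Finset (Fin ν), Prp_f v (fun b => if b ∈ T then p (x b) else x b) = Prp_f v x := by
    intro T
    induction T using Finset.induction_on with
    | empty => simp
    | insert q T hq ih =>
      rw [← ih]
      have e1 : (fun b => if b ∈ insert q T then p (x b) else x b)
          = Function.update (fun b => if b ∈ T then p (x b) else x b) q (p (x q)) := by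
        ext1 b
        rcases eq_or_ne b q with rfl | hb
        · simp
        · simp [hb, Finset.mem_insert]
      have e2 : (fun b => if b ∈ T then p (x b) else x b)
          = Function.update (fun b => if b ∈ T then p (x b) else x b) q (x q) := by
        ext1 b
        rcases eq_or_ne b q with rfl | hb
        · simp [hq]
        · simp [hb]
      have e3 := Prp_ker (h (x q) q) (fun b => if b ∈ T then p (x b) else x b)
      rw [MultilinearMap.map_update_sub, sub_eq_zero] at e3
      rw [e1, ← e3, ← e2]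
  have := key Finset.univ
  simpa using this

theorem prp {n ν : ℕ} {M : Matrix (Fin n) (Fin n) ℂ} (hM : M.PosSemidef) (hr : M.rank = ν)
    {v : (Fin ν → Fin n) → ℂ}
    (alt : ∀ (J : Fin ν → Fin n) (σ : Equiv.Perm (Fin ν)),
      v (J ∘ σ) = ((Equiv.Perm.sign σ : ℤ) : ℂ) * v J)
    (hor : ∀ a : E n, (∀ l, ∑ k, a k * M k l = 0) → ∀ (J : Fin ν → Fin n) (q : Fin ν),
      ∑ l, a l * v (Function.update J q l) = 0) :
    ∃ c : ℝ, 0 ≤ c ∧ ∀ J L : Fin ν → Fin n, v J * conj (v L) = (c : ℂ) * (M.submatrix J L).det := by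
  obtain ⟨R, S, _, hMR, hSR, _⟩ := fac hM hr
  -- the projection
  have hker : ∀ (y : Fin n → ℂ) (q : Fin ν) (J : Fin ν → Fin n),
      ∑ l, (y - (y ᵥ* R) ᵥ* S) l * v (Function.update J q l) = 0 := by
    intro y q J
    refine hor _ (fun l => ?_) J q
    have h1 : (y - (y ᵥ* R) ᵥ* S) ᵥ* R = 0 := by
      rw [Matrix.sub_vecMul, Matrix.vecMul_vecMul _ S R, hSR, Matrix.vecMul_one, sub_self]
    have h2 : (y - (y ᵥ* R) ᵥ* S) ᵥ* M = 0 := by
      rw [hMR, ← Matrix.vecMul_vecMul, h1, Matrix.zero_vecMul]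
    exact congrFun h2 l
  have hproj := Prp_proj (v := v) (fun y => (y ᵥ* R) ᵥ* S) hker
  -- the alternating map on `ℂ^ν`
  let g : (Fin ν → ℂ) [⋀^Fin ν]→ₗ[ℂ] ℂ := (Prp_alt alt).compLinearMap (Matrix.vecMulLinear S)
  have hg : ∀ t : Fin ν → Fin ν → ℂ, g t = Prp_f v (fun a => t a ᵥ* S) := fun t => rfl
  have hgd : ∀ t : Fin ν → Fin ν → ℂ, g t = g (Pi.basisFun ℂ (Fin ν)) * Matrix.det (Matrix.of t) := by
    intro t
    have h1 := AlternatingMap.eq_smul_basis_det (Pi.basisFun ℂ (Fin ν)) g
    have h2 := congrArg (fun f => f t) h1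
    simp only [AlternatingMap.smul_apply, smul_eq_mul, Pi.basisFun_det] at h2
    exact h2
  have hv : ∀ J : Fin ν → Fin n, v J = g (Pi.basisFun ℂ (Fin ν)) * (R.submatrix J id).det := by
    intro J
    rw [← Prp_basis v J, ← hproj]
    have h1 := hgd (fun a => (Pi.single (J a) (1 : ℂ) : Fin n → ℂ) ᵥ* R)
    rw [hg] at h1
    rw [h1]
    congr 2
    ext a s
    simp
  refine ⟨Complex.normSq (g (Pi.basisFun ℂ (Fin ν))), Complex.normSq_nonneg _, fun J L => ?_⟩
  rw [hv J, hv L, hMR, minor_fac, Complex.normSq_eq_conj_mul_self, map_mul]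
  ring

/-- an alternating family vanishes at a function that is not injective -/
theorem alt_zero {n ν : ℕ} {v : (Fin ν → Fin n) → ℂ}
    (alt : ∀ (J : Fin ν → Fin n) (σ : Equiv.Perm (Fin ν)),
      v (J ∘ σ) = ((Equiv.Perm.sign σ : ℤ) : ℂ) * v J)
    {J : Fin ν → Fin n} (hJ : ¬ Function.Injective J) : v J = 0 := by
  obtain ⟨i, j, hij, hne⟩ : ∃ i j, J i = J j ∧ i ≠ j := by
    unfold Function.Injective at hJ
    push Not at hJ
    exact hJ
  have h1 : J ∘ Equiv.swap i j = J := by
    ext1 b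
    rcases eq_or_ne b i with rfl | hb
    · simp [hij]
    · rcases eq_or_ne b j with rfl | hb'
      · simp [hij]
      · simp [Equiv.swap_apply_of_ne_of_ne hb hb']
  have h2 := Prp_swap alt J hne
  rw [h1] at h2
  have h3 : (2 : ℂ) * v J = 0 := by
    rw [two_mul]
    nth_rewrite 1 [h2]
    ring
  exact (mul_eq_zero.1 h3).resolve_left two_ne_zero

end Pool.Agent.ARK
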