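import Pool.Agent.ARK.Dfr
import Pool.Agent.ARK.Hok

/-!
ARK: the trace of `η`, in the frame of `T / ker η` dual to the differentials of `2 ν` functions that
are constant along the kernel, is plurisubharmonic along the kernel.
-/

open scoped ContDiff ComplexConjugate Topology ComplexOrder
open Complex MeasureTheory Matrix

namespace Pool.Agent.ARK

open Pool.Agent.CYF Pool.Agent.NDC

variable {n : ℕ} {w : E n → ℝ} {O : Set (E n)} {z : E n} {N : ℕ}

/-- the trace of the Levi form in the fields `f j` -/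
noncomputable def psiL (w : E n → ℝ) (f : Fin N → E n → E n) (y : E n) : ℝ :=
  ∑ j, (levi w y (f j y) (f j y)).re

theorem levi_pp (hO : IsOpen O) (hw : ContDiffOn ℝ ∞ w O) (hz : z ∈ O) (u v : E n) :
    levi w z u v = pp w z u v := levi_eq_sum (hw.contDiffAt (hO.mem_nhds hz)) u v

theorem pp_im (hO : IsOpen O) (hw : ContDiffOn ℝ ∞ w O) (hz : z ∈ O) (u : E n) :
    ((pp w z u u).re : ℂ) = pp w z u u :=
  Complex.conj_eq_iff_re.1 (pp_conj hO hw hz u u)

theorem psiL_eq (hO : IsOpen O) (hw : ContDiffOn ℝ ∞ w O) (f : Fin N → E n → E n) (hz : z ∈ O) :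
    (psiL w f z : ℂ) = ∑ j, pp w z (f j z) (f j z) := by
  unfold psiL
  push_cast
  refine Finset.sum_congr rfl fun j _ => ?_
  rw [levi_pp hO hw hz, pp_im hO hw hz]

theorem psiL_smooth (hO : IsOpen O) (hw : ContDiffOn ℝ ∞ w O) {f : Fin N → E n → E n}
    (hf : ∀ j q, ContDiffOn ℝ ∞ (fun y => f j y q) O) : ContDiffOn ℝ ∞ (psiL w f) O := by
  unfold psiL
  refine ContDiffOn.sum fun j _ => ?_
  have h1 := Complex.reCLM.contDiff.comp_contDiffOn (pp_smooth hO hw (hf j) (hf j))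
  refine h1.congr fun y hy => ?_
  rw [levi_pp hO hw hy]
  rfl

theorem psiL_levi (hO : IsOpen O) (hw : ContDiffOn ℝ ∞ w O) {ξ : E n → E n} (hξ : KF w O ξ)
    {f : Fin N → E n → E n} (hf : ∀ j q, ContDiffOn ℝ ∞ (fun y => f j y q) O)
    (hk : ∀ j, ∀ y ∈ O, ∀ κ, KM w y κ → KM w y (dxb (f j) y κ)) (hz : z ∈ O) :
    levi (psiL w f) z (ξ z) (ξ z) = ∑ j, (pp w z (dx (f j) z (ξ z) - dx ξ z (f j z))
      (dx (f j) z (ξ z) - dx ξ z (f j z)) + pp w z (dxb ξ z (f j z)) (dxb ξ z (f j z))) := by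
  have hs : ∀ j, ContDiffOn ℝ ∞ (fun y => pp w y (f j y) (f j y)) O := fun j =>
    pp_smooth hO hw (hf j) (hf j)
  have h1 : (fun y => d01 (fun x => (psiL w f x : ℂ)) y (ξ z)) =ᶠ[𝓝 z]
      fun y => ∑ j, d01 (fun x => pp w x (f j x) (f j x)) y (ξ z) := by
    filter_upwards [hO.mem_nhds hz] with y hy
    rw [d01_congr (g := fun x => ∑ j, pp w x (f j x) (f j x))]
    · exact d01_sum Finset.univ (fun j x => pp w x (f j x) (f j x))
        fun j _ => diffAt_of hO (hs j) hy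
    · filter_upwards [hO.mem_nhds hy] with x hx
      exact psiL_eq hO hw f hx
  unfold levi
  rw [d10_congr h1, d10_sum Finset.univ (fun j y => d01 (fun x => pp w x (f j x) (f j x)) y (ξ z))
    fun j _ => diffAt_of hO (contDiffOn_d01 hO (hs j) (ξ z)) hz]
  exact Finset.sum_congr rfl fun j _ => vlg2 hO hw hξ (hf j) (hk j) hz

section nonneg
variable (hO : IsOpen O) (hw : ContDiffOn ℝ ∞ w O) (hp : ∀ y ∈ O, ∀ b : E n, 0 ≤ (levi w y b b).re)
  {ξ : E n → E n} (hξ : KF w O ξ) {f : Fin N → E n → E n}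
  (hf : ∀ j q, ContDiffOn ℝ ∞ (fun y => f j y q) O)
  (hk : ∀ j, ∀ y ∈ O, ∀ κ, KM w y κ → KM w y (dxb (f j) y κ)) (hz : z ∈ O)
include hO hw hp hξ hf hk hz

theorem psiL_nonneg : 0 ≤ (levi (psiL w f) z (ξ z) (ξ z)).re := by
  rw [psiL_levi hO hw hξ hf hk hz, Complex.re_sum]
  refine Finset.sum_nonneg fun j _ => ?_
  rw [Complex.add_re, ← levi_pp hO hw hz, ← levi_pp hO hw hz]
  exact add_nonneg (hp z hz _) (hp z hz _)

theorem psiL_zero (h0 : (levi (psiL w f) z (ξ z) (ξ z)).re = 0) (j : Fin N) :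
    KM w z (dxb ξ z (f j z)) := by
  rw [psiL_levi hO hw hξ hf hk hz, Complex.re_sum] at h0
  have h1 : ∀ j ∈ (Finset.univ : Finset (Fin N)), 0 ≤ (pp w z (dx (f j) z (ξ z) - dx ξ z (f j z))
      (dx (f j) z (ξ z) - dx ξ z (f j z)) + pp w z (dxb ξ z (f j z)) (dxb ξ z (f j z))).re := by
    intro j _
    rw [Complex.add_re, ← levi_pp hO hw hz, ← levi_pp hO hw hz]
    exact add_nonneg (hp z hz _) (hp z hz _)
  have h2 := (Finset.sum_eq_zero_iff_of_nonneg h1).1 h0 j (Finset.mem_univ j)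
  rw [Complex.add_re] at h2
  have h3 := hp z hz (dx (f j) z (ξ z) - dx ξ z (f j z))
  have h4 := hp z hz (dxb ξ z (f j z))
  rw [levi_pp hO hw hz] at h3 h4
  have h5 : (pp w z (dxb ξ z (f j z)) (dxb ξ z (f j z))).re = 0 := by linarith
  exact km_of_re hO hw hz (hp z hz) h5

end nonneg

end Pool.Agent.ARK
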