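import Pool.Agent.ARK.Psg

/-!
ARK: the global function `Psi`.
-/

open scoped ContDiff ComplexConjugate Topology ComplexOrder
open Complex MeasureTheory Matrix

namespace Pool.Agent.ARK

open Pool.Agent.CYF Pool.Agent.NDC

variable {n : ℕ} {X : Type*} [TopologicalSpace X] {ι : Type*} {A : Mfd n X ι} {z : E n}
  {η : Form A} {ν : ℕ} {N : ℕ}

/-- points of rank `ν` where the functions `u j` are independent -/
def Gd (η : Form A) (ν : ℕ) (u : Fin N → X → ℝ) (i : ι) (z : E n) : Prop :=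
  Full η ν i z ∧ LinearIndependent ℝ (fun j => fderiv ℝ (vt A (u j) i) z)

/-- a smooth frame of the kernel that is holomorphic -/
def HK (η : Form A) (i : ι) (z : E n) : Prop :=
  ∃ (ν : ℕ) (J : Fin ν → Fin n) (O : Set (E n)) (ξ : Fin n → E n → E n), z ∈ O ∧
    O ⊆ (A.c i).target ∧ Frame (η.w i) J O ξ ∧ ∀ y ∈ O, ∀ k x, KM (η.w i) y (dxb (ξ k) y x)

theorem HK.holKer {i : ι} (h : HK η i z) : HolKer η i z := by
  obtain ⟨ν, J, O, ξ, hz, hO, hF, h⟩ := h
  exact holKer_of η hF hO hz h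

/-- vectors dual to the differentials of `u j` -/
def DualAt (A : Mfd n X ι) (u : Fin N → X → ℝ) (i : ι) (z : E n) (f : Fin N → E n) : Prop :=
  ∀ j k, fderiv ℝ (vt A (u k) i) z (f j) = if k = j then 1 else 0

open Classical in
/-- trace of `η` in dual vectors -/
noncomputable def Psi (η : Form A) (u : Fin N → X → ℝ) (x : X) : ℝ :=
  if h : ∃ f, DualAt A u (ix A x) (A.c (ix A x) x) f then
    ∑ j, (levi (η.w (ix A x)) (A.c (ix A x) x) (h.choose j) (h.choose j)).re else 0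

theorem fderiv_vt_ph {v : X → ℝ} (hv : Sm A v) {i j : ι} (hz : z ∈ Uo A i j) (a : E n) :
    fderiv ℝ (vt A v i) z a = fderiv ℝ (vt A v j) (ph A i j z) (fderiv ℂ (ph A i j) z a) := by
  have hd : DifferentiableAt ℂ (ph A i j) z :=
    ((contDiffOn_ph A i j).contDiffAt ((isOpen_Uo A i j).mem_nhds hz)).differentiableAt (by simp)
  have h1 : HasFDerivAt (ph A i j) ((fderiv ℂ (ph A i j) z).restrictScalars ℝ) z :=
    hd.hasFDerivAt.restrictScalars ℝ
  have h2 : HasFDerivAt (vt A v j) (fderiv ℝ (vt A v j) (ph A i j z)) (ph A i j z) :=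
    (((hv j).contDiffAt ((A.c j).open_target.mem_nhds (ph_mem hz))).differentiableAt
      (by simp)).hasFDerivAt
  have h3 := h2.comp z h1
  have h4 : vt A v i =ᶠ[𝓝 z] (vt A v j ∘ ph A i j) := by
    filter_upwards [(isOpen_Uo A i j).mem_nhds hz] with y hy
    exact (vt_ph hy v).symm
  rw [(h3.congr_of_eventuallyEq h4).fderiv]
  rfl

theorem DualAt.ph {u : Fin N → X → ℝ} (hu : ∀ j, Sm A (u j)) {i j : ι} (hz : z ∈ Uo A i j)
    {f : Fin N → E n} (hf : DualAt A u i z f) :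
    DualAt A u j (ph A i j z) fun k => fderiv ℂ (Pool.Agent.NDC.ph A i j) z (f k) := by
  intro k l
  rw [← fderiv_vt_ph (hu l) hz, hf k l]

theorem Gd.ph {u : Fin N → X → ℝ} (hu : ∀ j, Sm A (u j)) {i j : ι} (hz : z ∈ Uo A i j)
    (hg : Gd η ν u i z) : Gd η ν u j (ph A i j z) := by
  refine ⟨(full_ph η hz).1 hg.1, ?_⟩
  rw [Fintype.linearIndependent_iff]
  intro c hc k
  refine Fintype.linearIndependent_iff.1 hg.2 c ?_ k
  ext a
  have h1 := congrArg (fun L => L (fderiv ℂ (Pool.Agent.NDC.ph A i j) z a)) hc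
  simp only [_root_.sum_apply, _root_.smul_apply, _root_.zero_apply] at h1 ⊢
  rw [← h1]
  exact Finset.sum_congr rfl fun l _ => by rw [fderiv_vt_ph (hu l) hz]

/-- the trace does not depend on the choice of the dual vectors -/
theorem dual_trace [T2Space X] {u : Fin (2 * ν) → X → ℝ} (hu : ∀ j, KerConst η ν (u j)) {i : ι}
    (hg : Gd η ν u i z) {f f' : Fin (2 * ν) → E n} (hf : DualAt A u i z f)
    (hf' : DualAt A u i z f') (j : Fin (2 * ν)) :
    levi (η.w i) z (f j) (f j) = levi (η.w i) z (f' j) (f' j) := by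
  have h1 : Ker η i z (f j - f' j) := by
    rw [← Full.ker_iff_real hu hg.1 hg.2]
    intro k
    rw [map_sub, hf j k, hf' j k, sub_self]
  have h2 := (ker_iff η hg.1.1 _).1 h1
  have hU := (A.c i).open_target
  have hw := η.smooth i
  have h3 : f j = f' j + (f j - f' j) := by abel
  rw [levi_pp hU hw hg.1.1, levi_pp hU hw hg.1.1, h3, pp_add_left, pp_add_right,
    pp_km_right hU hw hg.1.1 _ h2, pp_km_left h2]
  ring

theorem psi_eq [T2Space X] {u : Fin (2 * ν) → X → ℝ} (hu : ∀ j, KerConst η ν (u j)) {i : ι}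
    (hg : Gd η ν u i z) {f : Fin (2 * ν) → E n} (hf : DualAt A u i z f) :
    vt A (Psi η u) i z = ∑ j, (levi (η.w i) z (f j) (f j)).re := by
  set x : X := (A.c i).symm z with hx
  have hxi : x ∈ (A.c i).source := (A.c i).map_target hg.1.1
  have hUo : z ∈ Uo A i (ix A x) := ⟨hg.1.1, mem_ix A x⟩
  have hsm : ∀ j, Sm A (u j) := fun j => (hu j).sm
  have hg' := Gd.ph hsm hUo hg
  have hf' := DualAt.ph hsm hUo hf
  have hph : ph A i (ix A x) z = A.c (ix A x) x := rfl
  rw [hph] at hg' hf'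
  have hex : ∃ f, DualAt A u (ix A x) (A.c (ix A x) x) f := ⟨_, hf'⟩
  show Psi η u x = _
  unfold Psi
  rw [dif_pos hex]
  refine Finset.sum_congr rfl fun j _ => ?_
  rw [dual_trace hu hg' hex.choose_spec hf' j]
  congr 1
  exact η.compat i (ix A x) z hg.1.1 (mem_ix A x) (f j) (f j)

/-- local form of the properties of `Psi` -/
theorem psi_loc [T2Space X] (hη : η.Semipositive) (hν : η.RankLE ν)
    {u : Fin (2 * ν) → X → ℝ} (hu : ∀ j, KerConst η ν (u j)) {i : ι} (hg : Gd η ν u i z) :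
    ∃ O, IsOpen O ∧ z ∈ O ∧ (∀ y ∈ O, Gd η ν u i y) ∧ ContDiffOn ℝ ∞ (vt A (Psi η u) i) O ∧
      (∀ y ∈ O, ∀ a, Ker η i y a → 0 ≤ (levi (vt A (Psi η u) i) y a a).re) ∧
      ∀ O', IsOpen O' → z ∈ O' → (∀ y ∈ O', y ∈ O → ∀ a, Ker η i y a →
        (levi (vt A (Psi η u) i) y a a).re = 0) → HK η i z := by
  have hz := hg.1
  have hU := (A.c i).open_target
  have hw := η.smooth i
  obtain ⟨J, hJ⟩ := exJ (lm_psd hU hw hz.1 (hη i z hz.1)) hz.2
  obtain ⟨O₁, ξ, hzO₁, hO₁s, hF⟩ := kfr hU hw (hν i) hz.1 hJ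
  obtain ⟨O₂, hO₂, hzO₂, hO₂s, f, hfs, hfd⟩ := dual_frame hU (fun j => (hu j).sm i) hz.1 hg.2
  set O : Set (E n) := O₁ ∩ O₂ with hOdef
  have hO : IsOpen O := hF.isOpen.inter hO₂
  have hOt : O ⊆ (A.c i).target := fun y hy => hO₁s hy.1
  have hF' := hF.mono hO Set.inter_subset_left
  have hwO : ContDiffOn ℝ ∞ (η.w i) O := hw.mono hOt
  have hgd : ∀ y ∈ O, Gd η ν u i y := by
    intro y hy
    refine ⟨⟨hOt hy, rank_full (hν i y (hOt hy)) (hF'.det_ne y hy)⟩, ?_⟩
    refine real_indep fun b => ⟨∑ j, b j • f j y, fun k => ?_⟩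
    rw [map_sum]
    simp_rw [map_smul, hfd y hy.2]
    simp
  have hfsO : ∀ j q, ContDiffOn ℝ ∞ (fun y => f j y q) O := fun j q =>
    (hfs j q).mono Set.inter_subset_right
  have hker : ∀ y ∈ O, ∀ a, (∀ k, fderiv ℝ (vt A (u k) i) y a = 0) ↔ KM (η.w i) y a := by
    intro y hy a
    rw [Full.ker_iff_real hu (hgd y hy).1 (hgd y hy).2, ker_iff η (hOt hy)]
  have hfield : ∀ c : Fin n → ℂ, KF (η.w i) O fun y => ∑ k, c k • ξ k y := by
    intro c
    refine ⟨fun q => ?_, fun y hy => km_sum _ _ _ fun k _ => hF'.ker y hy k⟩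
    have h1 : (fun y => (∑ k, c k • ξ k y) q) = fun y => ∑ k, c k * ξ k y q := by
      funext y
      rw [Finset.sum_apply]
      rfl
    rw [h1]
    exact ContDiffOn.sum fun k _ => contDiffOn_const.mul (hF'.smooth k q)
  have hk : ∀ j, ∀ y ∈ O, ∀ κ, KM (η.w i) y κ → KM (η.w i) y (dxb (f j) y κ) := by
    intro j y hy κ hκ
    have h1 := dual_dxb hO (fun k => ((hu k).sm i).mono hOt) hker (hfsO j)
      (c := fun k => if k = j then 1 else 0) (fun y hy k => hfd y hy.2 j k) (hfield κ) hy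
    have h2 : (∑ k, κ k • ξ k y) = κ := (hF'.span y hy κ hκ).symm
    simp only [h2] at h1
    exact h1
  have hpsi : ∀ y ∈ O, vt A (Psi η u) i y = psiL (η.w i) f y := fun y hy =>
    psi_eq hu (hgd y hy) (f := fun j => f j y) fun j k => hfd y hy.2 j k
  have hlev : ∀ y ∈ O, ∀ a b, levi (vt A (Psi η u) i) y a b = levi (psiL (η.w i) f) y a b := by
    intro y hy a b
    unfold levi
    apply d10_congr
    filter_upwards [hO.mem_nhds hy] with y' hy'
    apply d01_congr
    filter_upwards [hO.mem_nhds hy'] with y'' hy''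
    rw [hpsi y'' hy'']
  have hp : ∀ y ∈ O, ∀ b : E n, 0 ≤ (levi (η.w i) y b b).re := fun y hy b => hη i y (hOt hy) b
  refine ⟨O, hO, ⟨hzO₁, hzO₂⟩, hgd, ?_, ?_, ?_⟩
  · exact (psiL_smooth hO hwO hfsO).congr fun y hy => hpsi y hy
  · intro y hy a ha
    have ha' := (ker_iff η (hOt hy) a).1 ha
    have h2 : (∑ k, a k • ξ k y) = a := (hF'.span y hy a ha').symm
    have h1 := psiL_nonneg hO hwO hp (hfield a) hfsO hk hy
    rw [h2] at h1
    rw [hlev y hy]
    exact h1
  · intro O' hO' hzO' h0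
    have hO'' : IsOpen (O' ∩ O) := hO'.inter hO
    refine ⟨ν, J, O' ∩ O, ξ, ⟨hzO', hzO₁, hzO₂⟩, fun y hy => hOt hy.2,
      hF'.mono hO'' Set.inter_subset_right, ?_⟩
    intro y hy k x
    have hkf : KF (η.w i) O (ξ k) := ⟨hF'.smooth k, fun y hy => hF'.ker y hy k⟩
    have h1 : (levi (psiL (η.w i) f) y (ξ k y) (ξ k y)).re = 0 := by
      rw [← hlev y hy.2]
      exact h0 y hy.1 hy.2 _ ((ker_iff η (hOt hy.2) _).2 (hF'.ker y hy.2 k))
    have h2 := psiL_zero hO hwO hp hkf hfsO hk hy.2 h1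
    -- decompose `x`
    have h3 : KM (η.w i) y (x - ∑ j, (fderiv ℝ (vt A (u j) i) y x : ℂ) • f j y) := by
      rw [← hker y hy.2]
      intro l
      rw [map_sub, map_sum]
      have h4 : ∀ j, fderiv ℝ (vt A (u l) i) y ((fderiv ℝ (vt A (u j) i) y x : ℂ) • f j y)
          = fderiv ℝ (vt A (u j) i) y x * if l = j then 1 else 0 := by
        intro j
        rw [Complex.coe_smul, map_smul, hfd y hy.2.2 j l, smul_eq_mul]
      simp_rw [h4]
      simp
    have h5 := hkf.dxb_km hO hwO hy.2 h3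
    have h6 : dxb (ξ k) y x = dxb (ξ k) y (x - ∑ j, (fderiv ℝ (vt A (u j) i) y x : ℂ) • f j y)
        + ∑ j, (fderiv ℝ (vt A (u j) i) y x : ℂ) • dxb (ξ k) y (f j y) := by
      funext q
      rw [Pi.add_apply, Finset.sum_apply]
      show d01 (fun y => ξ k y q) y x = d01 (fun y => ξ k y q) y _ + _
      have h7 : ∀ v : E n, d01 (fun y => ξ k y q) y v
          = ∑ p, conj (v p) * pb p (fun y => ξ k y q) y := fun v => d01_eq_sum _ _ _
      have h8 : ∀ j, ((fderiv ℝ (vt A (u j) i) y x : ℂ) • dxb (ξ k) y (f j y)) q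
          = ∑ p, conj (((fderiv ℝ (vt A (u j) i) y x : ℂ) • f j y) p)
            * pb p (fun y => ξ k y q) y := by
        intro j
        show (fderiv ℝ (vt A (u j) i) y x : ℂ) * d01 (fun y => ξ k y q) y (f j y) = _
        rw [h7, Finset.mul_sum]
        refine Finset.sum_congr rfl fun p _ => ?_
        rw [Pi.smul_apply, smul_eq_mul, map_mul, Complex.conj_ofReal]
        ring
      simp_rw [h8]
      rw [h7, h7, Finset.sum_comm, ← Finset.sum_add_distrib]
      refine Finset.sum_congr rfl fun p _ => ?_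
      rw [← Finset.sum_mul, ← add_mul]
      congr 1
      rw [Pi.sub_apply, Finset.sum_apply, map_sub, map_sum]
      ring
    rw [h6]
    exact km_add h5 (km_sum _ _ _ fun j _ => h2 j)

end Pool.Agent.ARK
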