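import Pool.Agent.ARK.Ldf
import Pool.Agent.NDC.Sdg
import Pool.Agent.NDC.Dpl

/-!
ARK module Qco (size 4): the coefficient of `s^ν` in `tr (adj (s M + W) B)`.
PROOF. `simdiag` (NDC/Sdg): `W = Qᴴ * Q`, `M = Qᴴ * diagonal d * Q`, `det Q ≠ 0`, `d i ≥ 0`. Let `R = Q⁻¹`.
`a M + W = Qᴴ (a D + 1) Q`, so `adj (a M + W) = adj Q * diagonal (fun i => ∏ j ∈ univ.erase i, (1 + a d j)) * adj Qᴴ`
(`Matrix.adjugate_mul_distrib`, `Matrix.adjugate_diagonal`) with `adj Q = det Q • R`, `adj Qᴴ = conj (det Q) • Rᴴ`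
(`Matrix.adjugate_conjTranspose`, `Matrix.nonsing_inv`). Hence `tr (adj (a M + W) B) = ‖det Q‖² ∑ i, (∏ j ∈ univ.erase i, (1 + a d j)) * (Rᴴ * B * R) i i`
(`Matrix.trace_mul_comm`) and `(Rᴴ B R) i i = ∑ k, ∑ l, conj (R k i) * B k l * R l i`. By `cf_spec` for the polynomial
`p_i = ∏ j ∈ univ.erase i, (1 + C (d j) * X)` (degree `≤ n`), `lt ν W M B = ‖det Q‖² ∑ i, (p_i).coeff ν * (Rᴴ B R) i i`.
The coefficient of `X^ν` in `∏ j ∈ s, (1 + C (d j) X)` is `∑ T ∈ s.powersetCard ν, ∏ j ∈ T, d j` (see the proofs in the delivered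
module NDC/Enn: /team-store/ndc_Enn.lean, also for `rank M = #{i | d i ≠ 0}` and for `dp W M = C (‖det Q‖²) * ∏ i, (1 + C (d i) X)`).
`Λ = ‖det Q‖² * (∏ j, (1 + C (d j) X)).coeff ν`, `v i k = conj (R k i)` if `d i = 0` and `v i = 0` if `d i ≠ 0`.
If `d i = 0` then `p_i = ∏ j, (1 + C (d j) X)`. If `d i ≠ 0` then `p_i.coeff ν = 0`: at most `ν - 1` of the `d j`, `j ≠ i`, are not zero.
Kernel: `∑ k, v i k * M k l = (Rᴴ Qᴴ D Q) i l = d i * Q i l = 0` if `d i = 0` (`Rᴴ Qᴴ = (Q R)ᴴ = 1`).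
`∑ k, ∑ l, v i k * conj (v i l) * W k l = (Rᴴ W R) i i = 1`. If `M.rank = ν` then the coefficient is the product of the nonzero
`d j` (the only `T` with nonzero term), positive. If `∑ k, a k * M k l = 0` for all `l` then `a ᵥ* M = 0`, so `(a ᵥ* Qᴴ) i * d i = 0`
(multiply by `R`), and `a = (a ᵥ* Qᴴ) ᵥ* Rᴴ = ∑ i, (a ᵥ* Qᴴ) i • (fun k => Rᴴ i k)`; `c i = (a ᵥ* Qᴴ) i` (zero if `d i ≠ 0`).
-/

open scoped ContDiff ComplexConjugate Topology ComplexOrder
open Complex MeasureTheory Matrix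

namespace Pool.Agent.ARK

open Pool.Agent.CYF Pool.Agent.NDC

private noncomputable def Qco_e {n : ℕ} (d : Fin n → ℝ) (s : Finset (Fin n)) (k : ℕ) : ℝ :=
  ∑ t ∈ s.powerset, if t.card = k then ∏ i ∈ t, d i else 0

private theorem Qco_coeff {n : ℕ} (d : Fin n → ℝ) (s : Finset (Fin n)) (k : ℕ) :
    (∏ i ∈ s, (1 + Polynomial.C ((d i : ℝ) : ℂ) * Polynomial.X)).coeff k
      = ((Qco_e d s k : ℝ) : ℂ) := by
  rw [Finset.prod_one_add, Polynomial.finsetSum_coeff]
  unfold Qco_e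
  rw [Complex.ofReal_sum]
  refine Finset.sum_congr rfl fun t _ => ?_
  rw [Finset.prod_mul_distrib, Finset.prod_const, ← map_prod, Polynomial.coeff_C_mul_X_pow]
  by_cases h : t.card = k
  · rw [if_pos h.symm, if_pos h, Complex.ofReal_prod]
  · rw [if_neg (fun h' => h h'.symm), if_neg h, Complex.ofReal_zero]

private theorem Qco_e_nonneg {n : ℕ} {d : Fin n → ℝ} (hd : ∀ i, 0 ≤ d i) (s : Finset (Fin n))
    (k : ℕ) : 0 ≤ Qco_e d s k := by
  refine Finset.sum_nonneg fun t _ => ?_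
  split_ifs
  · exact Finset.prod_nonneg fun i _ => hd i
  · exact le_refl 0

/-- too few nonzero `d i` in `s` -/
private theorem Qco_e_zero {n : ℕ} {d : Fin n → ℝ} (s : Finset (Fin n)) {k : ℕ}
    (h : (s.filter fun i => d i ≠ 0).card < k) : Qco_e d s k = 0 := by
  refine Finset.sum_eq_zero fun t ht => ?_
  split_ifs with hc
  · by_contra h4
    have h5 : t ⊆ s.filter fun i => d i ≠ 0 := by
      intro i hi
      rw [Finset.mem_filter]
      exact ⟨Finset.mem_powerset.1 ht hi, fun h6 => h4 (Finset.prod_eq_zero hi h6)⟩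
    have h6 := Finset.card_le_card h5
    omega
  · rfl

private theorem Qco_e_pos {n : ℕ} {d : Fin n → ℝ} (hd : ∀ i, 0 ≤ d i) (s : Finset (Fin n)) {k : ℕ}
    (h : (s.filter fun i => d i ≠ 0).card = k) : 0 < Qco_e d s k := by
  refine Finset.sum_pos' (fun t _ => ?_) ⟨s.filter fun i => d i ≠ 0, ?_, ?_⟩
  · split_ifs
    · exact Finset.prod_nonneg fun i _ => hd i
    · exact le_refl 0
  · exact Finset.mem_powerset.2 (Finset.filter_subset _ _)
  · rw [if_pos h]
    refine Finset.prod_pos fun i hi => ?_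
    exact lt_of_le_of_ne (hd i) (Ne.symm (Finset.mem_filter.1 hi).2)

private theorem Qco_e_erase {n : ℕ} (d : Fin n → ℝ) {i : Fin n} (hi : d i = 0) (k : ℕ) :
    Qco_e d (Finset.univ.erase i) k = Qco_e d Finset.univ k := by
  have h1 := Qco_coeff d (Finset.univ.erase i) k
  have h2 := Qco_coeff d Finset.univ k
  have h3 : ∏ j ∈ Finset.univ, (1 + Polynomial.C ((d j : ℝ) : ℂ) * Polynomial.X)
      = ∏ j ∈ Finset.univ.erase i, (1 + Polynomial.C ((d j : ℝ) : ℂ) * Polynomial.X) := by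
    rw [← Finset.mul_prod_erase Finset.univ _ (Finset.mem_univ i), hi]
    simp
  rw [h3, h1] at h2
  exact_mod_cast h2

private theorem Qco_rank {n : ℕ} {M Q : Matrix (Fin n) (Fin n) ℂ} {d : Fin n → ℝ} (hQ : Q.det ≠ 0)
    (h2 : M = Qᴴ * Matrix.diagonal (fun i => ((d i : ℝ) : ℂ)) * Q) :
    M.rank = (Finset.univ.filter fun i => d i ≠ 0).card := by
  classical
  have h3 : IsUnit Q.det := isUnit_iff_ne_zero.2 hQ
  have h4 : IsUnit (Qᴴ).det := by
    rw [Matrix.det_conjTranspose]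
    exact isUnit_iff_ne_zero.2 (star_ne_zero.2 hQ)
  rw [h2, Matrix.rank_mul_eq_left_of_isUnit_det _ _ h3,
    Matrix.rank_mul_eq_right_of_isUnit_det _ _ h4, Matrix.rank_diagonal, Fintype.card_subtype]
  congr 1
  ext i
  simp

private theorem Qco_dp {n : ℕ} {W M Q : Matrix (Fin n) (Fin n) ℂ} {d : Fin n → ℝ} (h1 : W = Qᴴ * Q)
    (h2 : M = Qᴴ * Matrix.diagonal (fun i => ((d i : ℝ) : ℂ)) * Q) :
    dp W M = Polynomial.C (star Q.det * Q.det)
      * ∏ i, (1 + Polynomial.C ((d i : ℝ) : ℂ) * Polynomial.X) := by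
  have h3 : (Polynomial.X : Polynomial ℂ) • M.map Polynomial.C + W.map Polynomial.C
      = (Qᴴ).map Polynomial.C
        * Matrix.diagonal (fun i => 1 + Polynomial.C ((d i : ℝ) : ℂ) * Polynomial.X)
        * Q.map Polynomial.C := by
    have h4 : Matrix.diagonal (fun i => 1 + Polynomial.C ((d i : ℝ) : ℂ) * Polynomial.X)
        = (Polynomial.X : Polynomial ℂ)
            • (Matrix.diagonal (fun i => ((d i : ℝ) : ℂ))).map Polynomial.C
          + (1 : Matrix (Fin n) (Fin n) (Polynomial ℂ)) := by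
      ext i j
      by_cases hij : i = j
      · subst hij
        simp [Matrix.smul_apply]
        ring
      · simp [Matrix.smul_apply, Matrix.diagonal_apply_ne _ hij, Matrix.one_apply_ne hij]
    rw [h4, Matrix.mul_add, Matrix.add_mul, Matrix.mul_one, Matrix.mul_smul, Matrix.smul_mul,
      h1, h2, Matrix.map_mul, Matrix.map_mul, Matrix.map_mul]
  unfold dp
  rw [h3, Matrix.det_mul, Matrix.det_mul, Matrix.det_diagonal]
  have h5 : ((Qᴴ).map Polynomial.C).det = Polynomial.C (star Q.det) := by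
    have h := (RingHom.map_det (Polynomial.C : ℂ →+* Polynomial ℂ) Qᴴ).symm
    rw [Matrix.det_conjTranspose] at h
    exact h
  have h6 : (Q.map Polynomial.C).det = Polynomial.C Q.det :=
    (RingHom.map_det (Polynomial.C : ℂ →+* Polynomial ℂ) Q).symm
  rw [h5, h6, map_mul]
  ring

private theorem Qco_dpc {n : ℕ} {W M Q : Matrix (Fin n) (Fin n) ℂ} {d : Fin n → ℝ} (h1 : W = Qᴴ * Q)
    (h2 : M = Qᴴ * Matrix.diagonal (fun i => ((d i : ℝ) : ℂ)) * Q) (k : ℕ) :
    (dp W M).coeff k = ((Complex.normSq Q.det * Qco_e d Finset.univ k : ℝ) : ℂ) := by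
  rw [Qco_dp h1 h2, Polynomial.coeff_C_mul, Qco_coeff, Complex.ofReal_mul]
  congr 1
  exact (Complex.normSq_eq_conj_mul_self).symm

/-- the adjugate of `Q` -/
private theorem Qco_adj {n : ℕ} {Q R : Matrix (Fin n) (Fin n) ℂ} (hRQ : R * Q = 1) :
    Q.adjugate = Q.det • R := by
  calc Q.adjugate = (R * Q) * Q.adjugate := by rw [hRQ, Matrix.one_mul]
    _ = R * (Q * Q.adjugate) := by rw [Matrix.mul_assoc]
    _ = R * (Q.det • (1 : Matrix (Fin n) (Fin n) ℂ)) := by rw [Matrix.mul_adjugate]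
    _ = Q.det • R := by rw [Matrix.mul_smul, Matrix.mul_one]

private theorem Qco_tr {n : ℕ} {W M Q R : Matrix (Fin n) (Fin n) ℂ} {d : Fin n → ℝ}
    (hRQ : R * Q = 1) (h1 : W = Qᴴ * Q)
    (h2 : M = Qᴴ * Matrix.diagonal (fun i => ((d i : ℝ) : ℂ)) * Q) (a : ℂ)
    (B : Matrix (Fin n) (Fin n) ℂ) :
    ((a • M + W).adjugate * B).trace
      = ∑ i, (∏ j ∈ Finset.univ.erase i, (1 + Polynomial.C ((d j : ℝ) : ℂ) * Polynomial.X)).eval a
        * (((Complex.normSq Q.det : ℝ) : ℂ) * (Rᴴ * B * R) i i) := by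
  have h3 : a • M + W = Qᴴ * Matrix.diagonal (fun i => 1 + ((d i : ℝ) : ℂ) * a) * Q := by
    have h4 : Matrix.diagonal (fun i => 1 + ((d i : ℝ) : ℂ) * a)
        = a • Matrix.diagonal (fun i => ((d i : ℝ) : ℂ)) + (1 : Matrix (Fin n) (Fin n) ℂ) := by
      ext i j
      by_cases hij : i = j
      · subst hij
        simp [Matrix.smul_apply]
        ring
      · simp [Matrix.smul_apply, Matrix.diagonal_apply_ne _ hij, Matrix.one_apply_ne hij]
    rw [h4, Matrix.mul_add, Matrix.add_mul, Matrix.mul_one, Matrix.mul_smul, Matrix.smul_mul,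
      ← h2, ← h1]
  rw [h3, Matrix.adjugate_mul_distrib, Matrix.adjugate_mul_distrib, Matrix.adjugate_diagonal,
    ← Matrix.adjugate_conjTranspose, Qco_adj hRQ, Matrix.conjTranspose_smul]
  have h5 : (Q.det • R * (Matrix.diagonal (fun i => ∏ j ∈ Finset.univ.erase i, (1 + ((d j : ℝ) : ℂ) * a))
        * (star Q.det • Rᴴ)) * B).trace
      = (Matrix.diagonal (fun i => ∏ j ∈ Finset.univ.erase i, (1 + ((d j : ℝ) : ℂ) * a))
        * ((star Q.det * Q.det) • (Rᴴ * B * R))).trace := by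
    rw [Matrix.smul_mul, Matrix.mul_smul, Matrix.mul_smul, Matrix.smul_mul, Matrix.smul_mul,
      Matrix.trace_smul, Matrix.trace_smul, Matrix.mul_smul, Matrix.trace_smul,
      Matrix.mul_assoc R, Matrix.trace_mul_comm R, Matrix.mul_assoc, Matrix.mul_assoc,
      Matrix.mul_assoc, smul_smul, mul_comm Q.det]
  rw [h5, Matrix.trace]
  refine Finset.sum_congr rfl fun i _ => ?_
  rw [Matrix.diag_apply, Matrix.diagonal_mul, Matrix.smul_apply, smul_eq_mul]
  congr 1
  · rw [Polynomial.eval_prod]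
    refine Finset.prod_congr rfl fun j _ => ?_
    simp
  · congr 1
    exact (Complex.normSq_eq_conj_mul_self).symm

private theorem Qco_lt {n : ℕ} (ν : ℕ) {W M Q R : Matrix (Fin n) (Fin n) ℂ} {d : Fin n → ℝ}
    (hRQ : R * Q = 1) (h1 : W = Qᴴ * Q)
    (h2 : M = Qᴴ * Matrix.diagonal (fun i => ((d i : ℝ) : ℂ)) * Q)
    (B : Matrix (Fin n) (Fin n) ℂ) :
    lt ν W M B
      = ∑ i, ((Qco_e d (Finset.univ.erase i) ν : ℝ) : ℂ)
        * (((Complex.normSq Q.det : ℝ) : ℂ) * (Rᴴ * B * R) i i) := by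
  unfold lt
  simp only [Qco_tr hRQ h1 h2, Finset.mul_sum]
  rw [Finset.sum_comm]
  refine Finset.sum_congr rfl fun i _ => ?_
  rw [← Qco_coeff, cf_spec n ν, Finset.sum_mul]
  · refine Finset.sum_congr rfl fun a _ => ?_
    ring
  · refine (Polynomial.natDegree_prod_le _ _).trans ?_
    calc ∑ j ∈ Finset.univ.erase i, (1 + Polynomial.C ((d j : ℝ) : ℂ) * Polynomial.X).natDegree
        ≤ ∑ _j ∈ Finset.univ.erase i, 1 := by
          refine Finset.sum_le_sum fun j _ => ?_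
          refine (Polynomial.natDegree_add_le _ _).trans ?_
          rw [Polynomial.natDegree_one]
          exact max_le (Nat.zero_le _) ((Polynomial.natDegree_C_mul_le _ _).trans Polynomial.natDegree_X_le)
      _ ≤ n := by
          rw [Finset.sum_const, smul_eq_mul, mul_one]
          exact (Finset.card_le_univ _).trans (by rw [Fintype.card_fin])

theorem qco {n ν : ℕ} {W M : Matrix (Fin n) (Fin n) ℂ} (hW : W.PosDef) (hM : M.PosSemidef)
    (hr : M.rank ≤ ν) :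
    ∃ (Λ : ℝ) (v : Fin n → E n), 0 ≤ Λ ∧ (dp W M).coeff ν = (Λ : ℂ) ∧
      (∀ i l, ∑ k, v i k * M k l = 0) ∧
      (∀ B : Matrix (Fin n) (Fin n) ℂ,
        lt ν W M B = (Λ : ℂ) * ∑ i, ∑ k, ∑ l, v i k * conj (v i l) * B k l) ∧
      (∀ i, (∑ k, ∑ l, v i k * conj (v i l) * W k l).re ≤ 1) ∧
      (M.rank = ν → 0 < Λ ∧ ∀ a : E n, (∀ l, ∑ k, a k * M k l = 0) →
        ∃ c : Fin n → ℂ, a = ∑ i, c i • v i) := by
  classical
  obtain ⟨Q, d, hQ, hd, h1, h2⟩ := simdiag hW hM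
  have hu : IsUnit Q.det := isUnit_iff_ne_zero.2 hQ
  have hQR : Q * Q⁻¹ = 1 := Matrix.mul_nonsing_inv Q hu
  have hRQ : Q⁻¹ * Q = 1 := Matrix.nonsing_inv_mul Q hu
  have hQR' : (Q⁻¹)ᴴ * Qᴴ = 1 := by rw [← Matrix.conjTranspose_mul, hQR, Matrix.conjTranspose_one]
  have hRQ' : Qᴴ * (Q⁻¹)ᴴ = 1 := by rw [← Matrix.conjTranspose_mul, hRQ, Matrix.conjTranspose_one]
  have hrk := Qco_rank hQ h2
  rw [hrk] at hr
  have hG : ∀ (B : Matrix (Fin n) (Fin n) ℂ) (i : Fin n),
      ∑ k, ∑ l, conj (Q⁻¹ k i) * conj (conj (Q⁻¹ l i)) * B k l = ((Q⁻¹)ᴴ * B * Q⁻¹) i i := by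
    intro B i
    rw [Matrix.mul_apply, Finset.sum_comm]
    refine Finset.sum_congr rfl fun l _ => ?_
    rw [Matrix.mul_apply, Finset.sum_mul]
    refine Finset.sum_congr rfl fun k _ => ?_
    rw [Matrix.conjTranspose_apply, Complex.conj_conj]
    simp only [starRingEnd_apply]
    ring
  refine ⟨Complex.normSq Q.det * Qco_e d Finset.univ ν,
    fun i => if d i = 0 then fun k => conj (Q⁻¹ k i) else 0,
    mul_nonneg (Complex.normSq_nonneg _) (Qco_e_nonneg hd _ _), Qco_dpc h1 h2 ν, ?_, ?_, ?_, ?_⟩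
  · intro i l
    by_cases hi : d i = 0
    · simp only [if_pos hi]
      have h3 : ((Q⁻¹)ᴴ * M) i l = 0 := by
        rw [h2, ← Matrix.mul_assoc, ← Matrix.mul_assoc, hQR', Matrix.one_mul, Matrix.diagonal_mul, hi]
        simp
      rw [Matrix.mul_apply] at h3
      simp only [Matrix.conjTranspose_apply] at h3
      simpa only [starRingEnd_apply] using h3
    · simp only [if_neg hi, Pi.zero_apply, zero_mul, Finset.sum_const_zero]
  · intro B
    rw [Qco_lt ν hRQ h1 h2 B, Finset.mul_sum]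
    refine Finset.sum_congr rfl fun i _ => ?_
    by_cases hi : d i = 0
    · simp only [if_pos hi]
      rw [hG B i, Qco_e_erase d hi, Complex.ofReal_mul]
      ring
    · simp only [if_neg hi, Pi.zero_apply, zero_mul, Finset.sum_const_zero, mul_zero]
      have h3 : Qco_e d (Finset.univ.erase i) ν = 0 := by
        apply Qco_e_zero
        have h4 : ((Finset.univ.erase i).filter fun j => d j ≠ 0)
            = (Finset.univ.filter fun j => d j ≠ 0).erase i := by
          rw [Finset.filter_erase]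
        have h5 : i ∈ Finset.univ.filter fun j => d j ≠ 0 :=
          Finset.mem_filter.2 ⟨Finset.mem_univ _, hi⟩
        rw [h4, Finset.card_erase_of_mem h5]
        have h6 := Finset.card_pos.2 ⟨i, h5⟩
        omega
      rw [h3, Complex.ofReal_zero, zero_mul]
  · intro i
    by_cases hi : d i = 0
    · simp only [if_pos hi]
      rw [hG W i, h1, ← Matrix.mul_assoc, hQR', Matrix.one_mul, hQR, Matrix.one_apply_eq]
      simp
    · simp only [if_neg hi, Pi.zero_apply, zero_mul, Finset.sum_const_zero]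
      simp
  · intro hν
    refine ⟨mul_pos (Complex.normSq_pos.2 hQ) (Qco_e_pos hd _ (hrk.symm.trans hν)), ?_⟩
    intro a ha
    have h3 : Matrix.vecMul a M = 0 := by
      funext l
      exact ha l
    have h4 : Matrix.vecMul (Matrix.vecMul a Qᴴ) (Matrix.diagonal (fun i => ((d i : ℝ) : ℂ))) = 0 := by
      have h5 : Matrix.vecMul (Matrix.vecMul a M) Q⁻¹
          = Matrix.vecMul (Matrix.vecMul a Qᴴ) (Matrix.diagonal (fun i => ((d i : ℝ) : ℂ))) := by
        rw [Matrix.vecMul_vecMul, Matrix.vecMul_vecMul, h2, Matrix.mul_assoc, hQR, Matrix.mul_one]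
      rw [← h5, h3, Matrix.zero_vecMul]
    have h6 : ∀ i, Matrix.vecMul a Qᴴ i * ((d i : ℝ) : ℂ) = 0 := by
      intro i
      have := congrFun h4 i
      rwa [Matrix.vecMul_diagonal] at this
    refine ⟨fun i => Matrix.vecMul a Qᴴ i, ?_⟩
    have h7 : a = Matrix.vecMul (Matrix.vecMul a Qᴴ) (Q⁻¹)ᴴ := by
      rw [Matrix.vecMul_vecMul, hRQ', Matrix.vecMul_one]
    funext l
    rw [Finset.sum_apply]
    have h9 : ∀ (b : Fin n → ℂ) (N : Matrix (Fin n) (Fin n) ℂ) (l : Fin n),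
        Matrix.vecMul b N l = ∑ i, b i * N i l := fun _ _ _ => rfl
    conv_lhs => rw [h7, h9]
    refine Finset.sum_congr rfl fun i _ => ?_
    by_cases hi : d i = 0
    · simp only [if_pos hi, Pi.smul_apply, smul_eq_mul, Matrix.conjTranspose_apply, starRingEnd_apply]
    · have h8 : Matrix.vecMul a Qᴴ i = 0 := by
        rcases mul_eq_zero.1 (h6 i) with h | h
        · exact h
        · exact absurd (by exact_mod_cast h) hi
      simp only [Pi.smul_apply, smul_eq_mul, h8, zero_mul]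

theorem lt_zero {n ν : ℕ} {W M : Matrix (Fin n) (Fin n) ℂ} (hW : W.PosDef) (hM : M.PosSemidef)
    (hr : M.rank < ν) (B : Matrix (Fin n) (Fin n) ℂ) : lt ν W M B = 0 := by
  classical
  obtain ⟨Q, d, hQ, hd, h1, h2⟩ := simdiag hW hM
  have hu : IsUnit Q.det := isUnit_iff_ne_zero.2 hQ
  have hRQ : Q⁻¹ * Q = 1 := Matrix.nonsing_inv_mul Q hu
  rw [Qco_rank hQ h2] at hr
  rw [Qco_lt ν hRQ h1 h2 B]
  refine Finset.sum_eq_zero fun i _ => ?_
  have h3 : Qco_e d (Finset.univ.erase i) ν = 0 := by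
    apply Qco_e_zero
    refine lt_of_le_of_lt (Finset.card_le_card ?_) hr
    exact Finset.filter_subset_filter _ (Finset.erase_subset _ _)
  rw [h3, Complex.ofReal_zero, zero_mul]

end Pool.Agent.ARK
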