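import Pool.Agent.ARK.Psj

/-!
ARK: regular level sets are locally connected; components of level sets that consist of regular
points are isolated.
-/

open scoped ContDiff Topology

namespace Pool.Agent.ARK

open Pool.Agent.CYF Pool.Agent.NDC

theorem slice_conn {V W : Type*} [NormedAddCommGroup V] [NormedSpace ℝ V] [FiniteDimensional ℝ V]
    [NormedAddCommGroup W] [NormedSpace ℝ W] [FiniteDimensional ℝ W] {O : Set V} (hO : IsOpen O)
    {F : V → W} (hF : ContDiffOn ℝ ∞ F O) {z : V}
    (hz : z ∈ O) (hs : Function.Surjective (fderiv ℝ F z)) :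
    ∀ᶠ y in 𝓝 z, F y = F z →
      ∃ C : Set V, IsPreconnected C ∧ z ∈ C ∧ y ∈ C ∧ C ⊆ O ∧ ∀ c ∈ C, F c = F z := by
  have hFz : ContDiffAt ℝ ∞ F z := hF.contDiffAt (hO.mem_nhds hz)
  obtain ⟨π, hπ⟩ := (fderiv ℝ F z).ker_closedComplemented_of_finiteDimensional_range
  have hinj : Function.Injective ((fderiv ℝ F z).prod π) := by
    intro x y hxy
    have h0 : (fderiv ℝ F z).prod π (x - y) = 0 := by rw [map_sub, hxy, sub_self]
    have h1 : fderiv ℝ F z (x - y) = 0 := congrArg Prod.fst h0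
    have h2 : π (x - y) = 0 := congrArg Prod.snd h0
    have h3 := hπ ⟨x - y, h1⟩
    have h4 : (x - y : V) = 0 := by
      have := congrArg Subtype.val (h3.symm.trans h2)
      simpa using this
    exact sub_eq_zero.1 h4
  have hsurj : Function.Surjective ((fderiv ℝ F z).prod π) := by
    rintro ⟨a, b⟩
    obtain ⟨x, hx⟩ := hs a
    refine ⟨x + ((b - π x : (fderiv ℝ F z).ker) : V), ?_⟩
    have hb : fderiv ℝ F z ((b - π x : (fderiv ℝ F z).ker) : V) = 0 := (b - π x).2
    have hp : π ((b - π x : (fderiv ℝ F z).ker) : V) = b - π x := hπ _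
    ext1
    · change fderiv ℝ F z (x + ((b - π x : (fderiv ℝ F z).ker) : V)) = a
      rw [map_add, hb, add_zero, hx]
    · change π (x + ((b - π x : (fderiv ℝ F z).ker) : V)) = b
      rw [map_add, hp]
      abel
  let e : V ≃L[ℝ] W × (fderiv ℝ F z).ker :=
    (LinearEquiv.ofBijective ((fderiv ℝ F z).prod π).toLinearMap
      ⟨hinj, hsurj⟩).toContinuousLinearEquiv
  have he : (e : V →L[ℝ] W × (fderiv ℝ F z).ker) = (fderiv ℝ F z).prod π := by
    ext x <;> rfl
  let Φ : V → W × (fderiv ℝ F z).ker := fun y => (F y, π y)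
  have hΦ : ContDiffAt ℝ ∞ Φ z := hFz.prodMk π.contDiff.contDiffAt
  have hd : HasFDerivAt Φ (e : V →L[ℝ] W × (fderiv ℝ F z).ker) z := by
    rw [he]
    have hFd : HasFDerivAt F (fderiv ℝ F z) z := (hFz.differentiableAt (by simp)).hasFDerivAt
    exact hFd.prodMk π.hasFDerivAt
  let P := hΦ.toOpenPartialHomeomorph Φ hd (by simp)
  have hzs : z ∈ P.source := hΦ.mem_toOpenPartialHomeomorph_source hd (by simp)
  have hzt : Φ z ∈ P.target := hΦ.image_mem_toOpenPartialHomeomorph_target hd (by simp)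
  have hψz : P.symm (Φ z) = z := P.left_inv hzs
  have e1 : ∀ᶠ w in 𝓝 (Φ z), w ∈ P.target := P.open_target.mem_nhds hzt
  have e3 : ∀ᶠ w in 𝓝 (Φ z), P.symm w ∈ O := by
    have : Filter.Tendsto P.symm (𝓝 (Φ z)) (𝓝 (P.symm (Φ z))) :=
      (P.symm.continuousAt (by simpa using hzt))
    rw [hψz] at this
    exact this (hO.mem_nhds hz)
  obtain ⟨ε, hε, hball⟩ := Metric.eventually_nhds_iff_ball.1 (e1.and e3)
  have e4 : ∀ᶠ y in 𝓝 z, Φ y ∈ Metric.ball (Φ z) ε := by
    have : Filter.Tendsto Φ (𝓝 z) (𝓝 (Φ z)) := hΦ.continuousAt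
    exact this (Metric.ball_mem_nhds _ hε)
  filter_upwards [e4, P.open_source.mem_nhds hzs] with y hy hys hFy
  have hψy : P.symm (Φ y) = y := P.left_inv hys
  have hmem : ∀ b ∈ Metric.ball (π z) ε, (F z, b) ∈ Metric.ball (Φ z) ε := by
    intro b hb
    have : dist ((F z, b) : W × (fderiv ℝ F z).ker) (Φ z) = dist b (π z) := by
      change max (dist (F z) (F z)) (dist b (π z)) = _
      rw [dist_self]
      exact max_eq_right dist_nonneg
    rw [Metric.mem_ball, this]
    exact hb
  have hby : π y ∈ Metric.ball (π z) ε := by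
    rw [Metric.mem_ball] at hy ⊢
    exact lt_of_le_of_lt (le_max_right (dist (F y) (F z)) (dist (π y) (π z))) hy
  have hbz : π z ∈ Metric.ball (π z) ε := Metric.mem_ball_self hε
  refine ⟨(fun b => P.symm (F z, b)) '' Metric.ball (π z) ε, ?_, ⟨π z, hbz, hψz⟩, ⟨π y, hby, ?_⟩,
    ?_, ?_⟩
  · refine (convex_ball (π z) ε).isPreconnected.image _ ?_
    intro b hb
    have h1 : ContinuousAt P.symm (F z, b) := P.symm.continuousAt (by
      have := (hball _ (hmem b hb)).1
      simpa using this)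
    have h2 : ContinuousAt (fun b : (fderiv ℝ F z).ker => ((F z, b) : W × (fderiv ℝ F z).ker)) b :=
      (Continuous.prodMk_right (F z)).continuousAt
    exact (ContinuousAt.comp (f := fun b : (fderiv ℝ F z).ker => (F z, b)) h1 h2).continuousWithinAt
  · show P.symm (F z, π y) = y
    rw [← hFy]
    exact hψy
  · rintro _ ⟨b, hb, rfl⟩
    exact (hball _ (hmem b hb)).2
  · rintro _ ⟨b, hb, rfl⟩
    have h1 : Φ (P.symm (F z, b)) = (F z, b) := P.right_inv (hball _ (hmem b hb)).1
    exact congrArg Prod.fst h1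

variable {n : ℕ} {X : Type*} [TopologicalSpace X] {ι : Type*} {A : Mfd n X ι} {N : ℕ}

/-- near a regular point of a component `T` of a level set the level set is contained in `T` -/
theorem comp_open {u : Fin N → X → ℝ} (hu : ∀ j, Sm A (u j)) {x y : X} {T : Set X}
    (hT : T = connectedComponentIn {y | ∀ j, u j y = u j x} x) (hy : y ∈ T) {i : ι}
    (hi : y ∈ (A.c i).source)
    (hind : LinearIndependent ℝ (fun j => fderiv ℝ (vt A (u j) i) (A.c i y))) :
    ∀ᶠ y' in 𝓝 y, (∀ j, u j y' = u j x) → y' ∈ T := by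
  have hO := (A.c i).open_target
  have hz : A.c i y ∈ (A.c i).target := (A.c i).map_source hi
  let F : E n → (Fin N → ℝ) := fun y j => vt A (u j) i y
  have hF : ContDiffOn ℝ ∞ F (A.c i).target := contDiffOn_pi.2 fun j => hu j i
  have hsur : Function.Surjective (fderiv ℝ F (A.c i y)) := by
    intro b
    obtain ⟨v, hv⟩ := real_surj hind b
    refine ⟨v, ?_⟩
    funext j
    have hdj : ∀ j, DifferentiableAt ℝ (fun y => vt A (u j) i y) (A.c i y) :=
      fun j => ((hu j i).contDiffAt (hO.mem_nhds hz)).differentiableAt (by simp)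
    have h0 : fderiv ℝ F (A.c i y)
        = ContinuousLinearMap.pi fun j => fderiv ℝ (fun y => vt A (u j) i y) (A.c i y) :=
      fderiv_pi hdj
    rw [h0]
    exact hv j
  have h1 := slice_conn hO hF hz hsur
  have h2 := ((A.c i).continuousAt hi).eventually h1
  have hyL : ∀ j, u j y = u j x := by
    rw [hT] at hy
    exact connectedComponentIn_subset _ _ hy
  filter_upwards [h2, (A.c i).open_source.mem_nhds hi] with y' h3 hi' h4
  have h5 : F (A.c i y') = F (A.c i y) := by
    funext j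
    show vt A (u j) i (A.c i y') = vt A (u j) i (A.c i y)
    rw [vt_chart hi', vt_chart hi, h4 j, hyL j]
  obtain ⟨C, hC1, hC2, hC3, hC4, hC5⟩ := h3 h5
  have hC6 : IsPreconnected ((A.c i).symm '' C) :=
    hC1.image _ ((A.c i).continuousOn_symm.mono hC4)
  have hC7 : (A.c i).symm '' C ⊆ {y | ∀ j, u j y = u j x} := by
    rintro _ ⟨c, hc, rfl⟩ j
    have h6 := congrFun (hC5 c hc) j
    have h7 : vt A (u j) i c = vt A (u j) i (A.c i y) := h6
    rw [vt_chart hi] at h7
    show u j ((A.c i).symm c) = u j x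
    rw [← hyL j, ← h7]
    rfl
  have hyC : y ∈ (A.c i).symm '' C := ⟨_, hC2, (A.c i).left_inv hi⟩
  have hyC' : y' ∈ (A.c i).symm '' C := ⟨_, hC3, (A.c i).left_inv hi'⟩
  rw [hT] at hy ⊢
  have h8 := hC6.subset_connectedComponentIn hyC hC7 hyC'
  rwa [connectedComponentIn_eq hy]

end Pool.Agent.ARK
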