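import Pool.Agent.ARK.Tlv
import Pool.Agent.NDC.Tlm

/-!
ARK module Tgl (size 3): the norm of a tensor is a smooth function on `X`; transformation of `low`.
PROOF. `low_chg`: `LM (w i) z k l = ∑ p, ∑ q, T p k * conj (T q l) * LM (w j) (φ z) p q`, `T = Tm (ph A i j) z`, `T p k = fderiv ℂ φ z (e k) p` (`lm_w_chg`, NDC/Tlm, entries), and
`τ j K (φ z) = g ∑ L, (∏ a, T (K a) (L a)) τ i L z`. So `∏ a, LM (w i) z (K a) (L a) = ∑ P, ∑ Q, ∏ a, (T (P a) (K a) * conj (T (Q a) (L a)) * LM (w j) (φ z) (P a) (Q a))` and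
`low i L z * conj g-factor`: precisely `conj g * low (w i) τ_i L z * (‖g‖²)⁻¹ ...`; the clean statement is `nrm_chg`: `nrm (w i) m (τ i) z = nrm (w j) m (τ j) (φ z)`. This is `tn_inv` in
Pool/Agent/CYF/TnC.lean (there for orbifold charts; `nrm = tn` after expanding `low`): copy `prod_sum_sum`, `tn_alg` and the proof.
`tensor_fun`: `u x = nrm (η.w i) m (τ i) (A.c i x)` for `i = ix A x`; `vt A u i z = nrm ... z` by `nrm_chg` from the chart `ix A x` to the chart `i`, `x = (A.c i).symm z` (`mem_ix`, `mem_Uo`, `ph_chart`); smooth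
by `nrm_smooth` (module Tlv).
-/

open scoped ContDiff ComplexConjugate Topology ComplexOrder
open Complex MeasureTheory Matrix

namespace Pool.Agent.ARK

open Pool.Agent.CYF Pool.Agent.NDC

variable {n : ℕ} {X : Type*} [TopologicalSpace X] {ι : Type*} {A : Mfd n X ι}

/-- expansion of a product of double sums -/
private theorem prod_sum_sum {p : ℕ} (f : Fin p → Fin n → Fin n → ℂ) :
    ∏ a, ∑ k, ∑ l, f a k l
      = ∑ K : Fin p → Fin n, ∑ L : Fin p → Fin n, ∏ a, f a (K a) (L a) := by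
  rw [Finset.prod_univ_sum, Fintype.piFinset_univ]
  refine Finset.sum_congr rfl fun K _ => ?_
  rw [Finset.prod_univ_sum, Fintype.piFinset_univ]

private theorem tn_alg {p : ℕ} (F : Fin n → Fin n → ℂ) (T : Fin n → Fin n → ℂ) (g : ℂ)
    (x y : (Fin p → Fin n) → ℂ) (hy : ∀ K, y K = g * ∑ L, (∏ a, T (K a) (L a)) * x L) :
    ∑ K : Fin p → Fin n, ∑ L : Fin p → Fin n, (∏ a, F (K a) (L a)) * (y K * conj (y L))
      = (g * conj g) * ∑ K : Fin p → Fin n, ∑ L : Fin p → Fin n,
        (∏ a, ∑ r, ∑ s, T r (K a) * conj (T s (L a)) * F r s) * (x K * conj (x L)) := by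
  have h1 : ∀ K L : Fin p → Fin n, (∏ a, F (K a) (L a)) * (y K * conj (y L))
      = ∑ K' : Fin p → Fin n, ∑ L' : Fin p → Fin n, (g * conj g) *
        ((∏ a, T (K a) (K' a) * conj (T (L a) (L' a)) * F (K a) (L a))
          * (x K' * conj (x L'))) := by
    intro K L
    have e1 : (∑ K' : Fin p → Fin n, (∏ a, T (K a) (K' a)) * x K')
          * (∑ L' : Fin p → Fin n, conj ((∏ a, T (L a) (L' a)) * x L'))
        = ∑ K' : Fin p → Fin n, ∑ L' : Fin p → Fin n,
          ((∏ a, T (K a) (K' a)) * x K') * conj ((∏ a, T (L a) (L' a)) * x L') :=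
      Finset.sum_mul_sum _ _ _ _
    have e2 : (∏ a, F (K a) (L a)) * (y K * conj (y L))
        = ((∏ a, F (K a) (L a)) * (g * conj g))
          * ((∑ K' : Fin p → Fin n, (∏ a, T (K a) (K' a)) * x K')
          * (∑ L' : Fin p → Fin n, conj ((∏ a, T (L a) (L' a)) * x L'))) := by
      rw [hy K, hy L, map_mul, map_sum]
      ring
    rw [e2, e1, Finset.mul_sum]
    refine Finset.sum_congr rfl fun K' _ => ?_
    rw [Finset.mul_sum]
    refine Finset.sum_congr rfl fun L' _ => ?_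
    rw [Finset.prod_mul_distrib, Finset.prod_mul_distrib, map_mul, map_prod]
    ring
  have h2 : ∀ K' L' : Fin p → Fin n,
      (∏ a, ∑ r, ∑ s, T r (K' a) * conj (T s (L' a)) * F r s) * (x K' * conj (x L'))
      = ∑ K : Fin p → Fin n, ∑ L : Fin p → Fin n,
        ((∏ a, T (K a) (K' a) * conj (T (L a) (L' a)) * F (K a) (L a))
          * (x K' * conj (x L'))) := by
    intro K' L'
    rw [prod_sum_sum (fun a r s => T r (K' a) * conj (T s (L' a)) * F r s), Finset.sum_mul]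
    refine Finset.sum_congr rfl fun K _ => ?_
    rw [Finset.sum_mul]
  simp_rw [h1, h2, Finset.mul_sum]
  calc _ = ∑ K : Fin p → Fin n, ∑ K' : Fin p → Fin n, ∑ L : Fin p → Fin n, ∑ L' : Fin p → Fin n,
        (g * conj g) * ((∏ a, T (K a) (K' a) * conj (T (L a) (L' a)) * F (K a) (L a))
          * (x K' * conj (x L'))) := Finset.sum_congr rfl fun K _ => Finset.sum_comm
    _ = ∑ K' : Fin p → Fin n, ∑ K : Fin p → Fin n, ∑ L : Fin p → Fin n, ∑ L' : Fin p → Fin n,
        (g * conj g) * ((∏ a, T (K a) (K' a) * conj (T (L a) (L' a)) * F (K a) (L a))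
          * (x K' * conj (x L'))) := Finset.sum_comm
    _ = ∑ K' : Fin p → Fin n, ∑ K : Fin p → Fin n, ∑ L' : Fin p → Fin n, ∑ L : Fin p → Fin n,
        (g * conj g) * ((∏ a, T (K a) (K' a) * conj (T (L a) (L' a)) * F (K a) (L a))
          * (x K' * conj (x L'))) :=
        Finset.sum_congr rfl fun K' _ => Finset.sum_congr rfl fun K _ => Finset.sum_comm
    _ = _ := Finset.sum_congr rfl fun K' _ => Finset.sum_comm

private theorem nrm_expand (w : E n → ℝ) {p : ℕ} (m : ℝ) (τ : (Fin p → Fin n) → E n → ℂ) (z : E n) :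
    nrm w m τ z = (∑ K : Fin p → Fin n, ∑ L : Fin p → Fin n,
      (∏ a, levi w z (e (K a)) (e (L a))) * (τ K z * conj (τ L z))).re
        * Real.exp (-(m * w z)) := by
  unfold nrm low
  rw [← Complex.re_mul_ofReal, Finset.sum_comm, Finset.sum_mul]
  congr 1
  refine Finset.sum_congr rfl fun L _ => ?_
  rw [Finset.sum_mul, Finset.sum_mul, Finset.sum_mul]
  refine Finset.sum_congr rfl fun K _ => ?_
  ring

theorem nrm_chg (η : Form A) {p : ℕ} {m : ℝ} {τ : ι → (Fin p → Fin n) → E n → ℂ}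
    (hτ : IsTensor η p m τ) {i j : ι} {z : E n} (hz : z ∈ Uo A i j) :
    nrm (η.w i) m (τ i) z = nrm (η.w j) m (τ j) (ph A i j z) := by
  obtain ⟨g, hg, hK⟩ := hτ.trans i j z hz.1 hz.2
  have hwj : ContDiffAt ℝ ∞ (η.w j) (ph A i j z) :=
    (η.smooth j).contDiffAt ((A.c j).open_target.mem_nhds (ph_mem hz))
  have hF : ∀ k l : Fin n, levi (η.w i) z (e k) (e l)
      = ∑ r, ∑ s, TT (ph A i j) z r k * conj (TT (ph A i j) z s l)
        * levi (η.w j) (ph A i j z) (e r) (e s) := by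
    intro k l
    rw [← η.compat i j z hz.1 hz.2 (e k) (e l)]
    exact levi_eq_sum hwj (fderiv ℂ (ph A i j) z (e k)) (fderiv ℂ (ph A i j) z (e l))
  have h1 := tn_alg (fun r s => levi (η.w j) (ph A i j z) (e r) (e s)) (TT (ph A i j) z) g
    (fun L => τ i L z) (fun K => τ j K (ph A i j z)) hK
  have h2 : g * conj g = ((‖g‖ ^ 2 : ℝ) : ℂ) := by
    rw [Complex.mul_conj, Complex.normSq_eq_norm_sq]
  rw [nrm_expand, nrm_expand]
  beta_reduce at h1
  have hg' : ‖g‖ ^ 2 * Real.exp (-(m * η.w j (ph A i j z))) = Real.exp (-(m * η.w i z)) := hg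
  rw [h1, h2, Complex.re_ofReal_mul, mul_right_comm, hg', mul_comm (Real.exp _)]
  simp_rw [hF]

theorem tensor_fun (η : Form A) {p : ℕ} {m : ℝ} {τ : ι → (Fin p → Fin n) → E n → ℂ}
    (hτ : IsTensor η p m τ) :
    ∃ u : X → ℝ, Sm A u ∧ ∀ i, ∀ z ∈ (A.c i).target, vt A u i z = nrm (η.w i) m (τ i) z := by
  have hvt : ∀ i, ∀ z ∈ (A.c i).target,
      vt A (fun x => nrm (η.w (ix A x)) m (τ (ix A x)) (A.c (ix A x) x)) i z
        = nrm (η.w i) m (τ i) z := by
    intro i z hz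
    have hx : (A.c i).symm z ∈ (A.c i).source := (A.c i).map_target hz
    have hU := mem_Uo (A := A) (mem_ix A ((A.c i).symm z)) hx
    have h1 := nrm_chg η hτ hU
    rw [ph_chart (mem_ix A ((A.c i).symm z)), (A.c i).right_inv hz] at h1
    exact h1
  refine ⟨fun x => nrm (η.w (ix A x)) m (τ (ix A x)) (A.c (ix A x) x), fun i => ?_, hvt⟩
  exact (nrm_smooth (A.c i).open_target (η.smooth i) m (hτ.hol i)).congr (hvt i)

end Pool.Agent.ARK
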