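import Pool.Agent.ARK.Kms

/-!
ARK module Tlv: the Levi form of the norm of a tensor in a direction of the kernel.
-/

open scoped ContDiff ComplexConjugate Topology ComplexOrder
open Complex MeasureTheory Matrix

namespace Pool.Agent.ARK

open Pool.Agent.CYF Pool.Agent.NDC

variable {n : ℕ} {w : E n → ℝ} {U : Set (E n)} {z : E n}

/-- two-variable dual numbers -/
private abbrev TlvR := TrivSqZeroExt (TrivSqZeroExt ℂ ℂ) (TrivSqZeroExt ℂ ℂ)

private noncomputable def tlvmk (v t b q : ℂ) : TlvR :=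
  (((v, t) : TrivSqZeroExt ℂ ℂ), ((b, q) : TrivSqZeroExt ℂ ℂ))

private theorem tlv_ext {x y : TlvR} (h1 : x.fst.fst = y.fst.fst) (h2 : x.fst.snd = y.fst.snd)
    (h3 : x.snd.fst = y.snd.fst) (h4 : x.snd.snd = y.snd.snd) : x = y :=
  TrivSqZeroExt.ext (TrivSqZeroExt.ext h1 h2) (TrivSqZeroExt.ext h3 h4)

private theorem tlv_mul (v t b q v' t' b' q' : ℂ) :
    tlvmk v t b q * tlvmk v' t' b' q'
      = tlvmk (v * v') (v * t' + v' * t) (v * b' + v' * b) (v * q' + t * b' + b * t' + q * v') := by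
  apply tlv_ext
  · rfl
  · show v * t' + t * v' = v * t' + v' * t
    ring
  · show v * b' + b * v' = v * b' + v' * b
    ring
  · show (v * q' + t * b') + (b * t' + q * v') = (v * q' + t * b' + b * t' + q * v')
    ring

private theorem tlv_add (v t b q v' t' b' q' : ℂ) :
    tlvmk v t b q + tlvmk v' t' b' q' = tlvmk (v + v') (t + t') (b + b') (q + q') := rfl

private theorem tlv_zero : (0 : TlvR) = tlvmk 0 0 0 0 := rfl

private theorem tlv_one : (1 : TlvR) = tlvmk 1 0 0 0 := rfl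

private theorem tlv_sum {κ : Type*} (s : Finset κ) (v t b q : κ → ℂ) :
    ∑ i ∈ s, tlvmk (v i) (t i) (b i) (q i)
      = tlvmk (∑ i ∈ s, v i) (∑ i ∈ s, t i) (∑ i ∈ s, b i) (∑ i ∈ s, q i) := by
  classical
  induction s using Finset.induction_on with
  | empty => simp [tlv_zero]
  | insert a s ha ih => simp only [Finset.sum_insert ha, ih, tlv_add]

/-- the jet of a function at `z` in the direction `a` -/
private noncomputable def tlvJ (f : E n → ℂ) (z a : E n) : TlvR :=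
  tlvmk (f z) (d10 f z a) (d01 f z a) (d10 (fun y => d01 f y a) z a)

private theorem tlvJ_congr {f g : E n → ℂ} (hU : IsOpen U) (hz : z ∈ U) (a : E n)
    (h : ∀ y ∈ U, f y = g y) : tlvJ f z a = tlvJ g z a := by
  have h1 : ∀ y ∈ U, f =ᶠ[𝓝 y] g := fun y hy => by
    filter_upwards [hU.mem_nhds hy] with x hx using h x hx
  have h2 : (fun y => d01 f y a) =ᶠ[𝓝 z] fun y => d01 g y a := by
    filter_upwards [hU.mem_nhds hz] with y hy using d01_congr (h1 y hy)
  unfold tlvJ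
  rw [h z hz, d10_congr (h1 z hz), d01_congr (h1 z hz), d10_congr h2]

private theorem tlvJ_mul {f g : E n → ℂ} (hU : IsOpen U) (hz : z ∈ U) (a : E n)
    (hf : ContDiffOn ℝ ∞ f U) (hg : ContDiffOn ℝ ∞ g U) :
    tlvJ (fun y => f y * g y) z a = tlvJ f z a * tlvJ g z a := by
  have h2 : (fun y => d01 (fun x => f x * g x) y a)
      =ᶠ[𝓝 z] fun y => d01 f y a * g y + f y * d01 g y a := by
    filter_upwards [hU.mem_nhds hz] with y hy
    exact d01_mul (diffAt_of hU hf hy) (diffAt_of hU hg hy)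
  have hf1 := contDiffOn_d01 hU hf a
  have hg1 := contDiffOn_d01 hU hg a
  have h3 : d10 (fun y => d01 (fun x => f x * g x) y a) z a
      = d10 (fun y => d01 f y a) z a * g z + d01 f z a * d10 g z a
        + (d10 f z a * d01 g z a + f z * d10 (fun y => d01 g y a) z a) := by
    rw [d10_congr h2, d10_add (diffAt_of hU (hf1.mul hg) hz) (diffAt_of hU (hf.mul hg1) hz),
      d10_mul (diffAt_of hU hf1 hz) (diffAt_of hU hg hz),
      d10_mul (diffAt_of hU hf hz) (diffAt_of hU hg1 hz)]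
  unfold tlvJ
  rw [tlv_mul, h3, d10_mul (diffAt_of hU hf hz) (diffAt_of hU hg hz),
    d01_mul (diffAt_of hU hf hz) (diffAt_of hU hg hz)]
  congr 1 <;> ring

private theorem tlvJ_sum {κ : Type*} (s : Finset κ) {F : κ → E n → ℂ} (hU : IsOpen U) (hz : z ∈ U)
    (a : E n) (hF : ∀ i, ContDiffOn ℝ ∞ (F i) U) :
    tlvJ (fun y => ∑ i ∈ s, F i y) z a = ∑ i ∈ s, tlvJ (F i) z a := by
  have h2 : (fun y => d01 (fun x => ∑ i ∈ s, F i x) y a)
      =ᶠ[𝓝 z] fun y => ∑ i ∈ s, d01 (F i) y a := by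
    filter_upwards [hU.mem_nhds hz] with y hy
    exact d01_sum s F fun i _ => diffAt_of hU (hF i) hy
  have h3 : d10 (fun y => d01 (fun x => ∑ i ∈ s, F i x) y a) z a
      = ∑ i ∈ s, d10 (fun y => d01 (F i) y a) z a := by
    rw [d10_congr h2]
    exact d10_sum s (fun i y => d01 (F i) y a)
      fun i _ => diffAt_of hU (contDiffOn_d01 hU (hF i) a) hz
  unfold tlvJ
  rw [h3, d10_sum s F fun i _ => diffAt_of hU (hF i) hz,
    d01_sum s F fun i _ => diffAt_of hU (hF i) hz, tlv_sum]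

private theorem tlv_const (c : ℂ) (a : E n) : tlvJ (fun _ : E n => c) z a = tlvmk c 0 0 0 := by
  unfold tlvJ
  have h : (fun y => d01 (fun _ : E n => c) y a) = fun _ => 0 := by
    funext y; exact d01_const c
  rw [h, d10_const, d01_const, d10_const]

private theorem tlv_smooth_prod {κ : Type*} (s : Finset κ) {F : κ → E n → ℂ}
    (hF : ∀ i, ContDiffOn ℝ ∞ (F i) U) : ContDiffOn ℝ ∞ (fun y => ∏ i ∈ s, F i y) U := by
  classical
  induction s using Finset.induction_on with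
  | empty => simpa using contDiffOn_const
  | insert a s ha ih =>
    simp only [Finset.prod_insert ha]
    exact (hF a).mul ih

private theorem tlv_smooth_sum {κ : Type*} (s : Finset κ) {F : κ → E n → ℂ}
    (hF : ∀ i, ContDiffOn ℝ ∞ (F i) U) : ContDiffOn ℝ ∞ (fun y => ∑ i ∈ s, F i y) U := by
  classical
  induction s using Finset.induction_on with
  | empty => simpa using contDiffOn_const
  | insert a s ha ih =>
    simp only [Finset.sum_insert ha]
    exact (hF a).add ih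

private theorem tlvJ_prod {κ : Type*} (s : Finset κ) {F : κ → E n → ℂ} (hU : IsOpen U)
    (hz : z ∈ U) (a : E n) (hF : ∀ i, ContDiffOn ℝ ∞ (F i) U) :
    tlvJ (fun y => ∏ i ∈ s, F i y) z a = ∏ i ∈ s, tlvJ (F i) z a := by
  classical
  induction s using Finset.induction_on with
  | empty =>
    simp only [Finset.prod_empty]
    rw [tlv_const, tlv_one]
  | insert b s hb ih =>
    simp only [Finset.prod_insert hb]
    rw [tlvJ_mul hU hz a (hF b) (tlv_smooth_prod s hF), ih]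

private theorem tlv_real {f : E n → ℂ} (hf : ContDiffOn ℂ ∞ f U) : ContDiffOn ℝ ∞ f U :=
  hf.restrict_scalars ℝ

private theorem tlv_holo {f : E n → ℂ} (hU : IsOpen U) (hf : ContDiffOn ℂ ∞ f U) {y : E n}
    (hy : y ∈ U) (a : E n) : d01 f y a = 0 :=
  d01_of_diff ((hf.contDiffAt (hU.mem_nhds hy)).differentiableAt (by simp)) a

private theorem tlvJ_hol {f : E n → ℂ} (hU : IsOpen U) (hz : z ∈ U) (hf : ContDiffOn ℂ ∞ f U)
    (a : E n) : tlvJ f z a = tlvmk (f z) (d10 f z a) 0 0 := by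
  have h2 : (fun y => d01 f y a) =ᶠ[𝓝 z] fun _ => 0 := by
    filter_upwards [hU.mem_nhds hz] with y hy using tlv_holo hU hf hy a
  unfold tlvJ
  rw [tlv_holo hU hf hz, d10_congr h2, d10_const]

private theorem tlv_conj_smooth {f : E n → ℂ} (hf : ContDiffOn ℝ ∞ f U) :
    ContDiffOn ℝ ∞ (fun y => conj (f y)) U := by
  have h : ContDiff ℝ ∞ (fun x : ℂ => conj x) := Complex.conjCLE.contDiff
  exact h.comp_contDiffOn hf

private theorem tlvJ_conj_hol {f : E n → ℂ} (hU : IsOpen U) (hz : z ∈ U)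
    (hf : ContDiffOn ℂ ∞ f U) (a : E n) :
    tlvJ (fun y => conj (f y)) z a = tlvmk (conj (f z)) 0 (conj (d10 f z a)) 0 := by
  have hf' := tlv_real hf
  have h2 : (fun y => d01 (fun x => conj (f x)) y a) =ᶠ[𝓝 z] fun y => conj (d10 f y a) := by
    filter_upwards [hU.mem_nhds hz] with y hy using d01_conj (diffAt_of hU hf' hy)
  have h3 : (fun y => d01 f y a) =ᶠ[𝓝 z] fun _ => 0 := by
    filter_upwards [hU.mem_nhds hz] with y hy using tlv_holo hU hf hy a
  have h4 : d10 (fun y => d01 (fun x => conj (f x)) y a) z a = 0 := by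
    rw [d10_congr h2, d10_conj (diffAt_of hU (contDiffOn_d10 hU hf' a) hz),
      ← d10_d01_comm (hf'.contDiffAt (hU.mem_nhds hz)), d10_congr h3, d10_const, map_zero]
  unfold tlvJ
  rw [h4, d10_conj (diffAt_of hU hf' hz), d01_conj (diffAt_of hU hf' hz), tlv_holo hU hf hz,
    map_zero]

private theorem tlv_E_smooth (hw : ContDiffOn ℝ ∞ w U) (m : ℝ) :
    ContDiffOn ℝ ∞ (fun y => cexp (-((m : ℂ) * cx w y))) U :=
  ((contDiffOn_const.mul (contDiffOn_cx hw)).neg).cexp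

private theorem tlv_E (w : E n → ℝ) (m : ℝ) (y : E n) :
    ((Real.exp (-(m * w y)) : ℝ) : ℂ) = cexp (-((m : ℂ) * cx w y)) := by
  unfold cx
  push_cast
  rfl

private theorem tlv_d01_cx (hU : IsOpen U) (hw : ContDiffOn ℝ ∞ w U) {y : E n} (hy : y ∈ U)
    (a : E n) : d01 (cx w) y a = conj (d10 (cx w) y a) := by
  have h := d01_conj (a := a) (diffAt_of hU (contDiffOn_cx hw) hy)
  have h2 : (fun y => conj (cx w y)) = cx w := funext fun y => conj_cx w y
  rw [h2] at h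
  exact h

private theorem tlv_d10_E (hU : IsOpen U) (hw : ContDiffOn ℝ ∞ w U) {y : E n} (hy : y ∈ U) (m : ℝ)
    (a : E n) : d10 (fun y => cexp (-((m : ℂ) * cx w y))) y a
      = cexp (-((m : ℂ) * cx w y)) * (-(m : ℂ) * d10 (cx w) y a) := by
  have h1 := diffAt_of hU (contDiffOn_cx hw) hy
  have h2 : (fun y => -((m : ℂ) * cx w y)) = fun y => (-(m : ℂ)) * cx w y := by
    funext y; ring
  have h3 := d10_exp (a := a) (f := fun y => -((m : ℂ) * cx w y)) (z := y)
    ((differentiableAt_const _).mul h1).neg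
  rw [h3, h2, d10_const_mul h1]

private theorem tlv_d01_E (hU : IsOpen U) (hw : ContDiffOn ℝ ∞ w U) {y : E n} (hy : y ∈ U) (m : ℝ)
    (a : E n) : d01 (fun y => cexp (-((m : ℂ) * cx w y))) y a
      = cexp (-((m : ℂ) * cx w y)) * (-(m : ℂ) * d01 (cx w) y a) := by
  have h1 := diffAt_of hU (contDiffOn_cx hw) hy
  have h2 : (fun y => -((m : ℂ) * cx w y)) = fun y => (-(m : ℂ)) * cx w y := by
    funext y; ring
  have h3 := d01_exp (a := a) (f := fun y => -((m : ℂ) * cx w y)) (z := y)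
    ((differentiableAt_const _).mul h1).neg
  rw [h3, h2, d01_const_mul h1]

private theorem tlvJ_E1 (hU : IsOpen U) (hw : ContDiffOn ℝ ∞ w U) (hz : z ∈ U) (m : ℝ) (a : E n) :
    (tlvJ (fun y => cexp (-((m : ℂ) * cx w y))) z a).fst
      = (tlvmk (cexp (-((m : ℂ) * cx w z))) 0 0 0 * tlvmk 1 (-(m : ℂ) * d10 (cx w) z a) 0 0).fst := by
  unfold tlvJ
  rw [tlv_mul, tlv_d10_E hU hw hz]
  refine TrivSqZeroExt.ext ?_ ?_
  · show cexp (-((m : ℂ) * cx w z)) = cexp (-((m : ℂ) * cx w z)) * 1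
    ring
  · show cexp (-((m : ℂ) * cx w z)) * (-(m : ℂ) * d10 (cx w) z a)
      = cexp (-((m : ℂ) * cx w z)) * (-(m : ℂ) * d10 (cx w) z a) + 1 * 0
    ring

private theorem tlvJ_E (hU : IsOpen U) (hw : ContDiffOn ℝ ∞ w U) (hz : z ∈ U) (m : ℝ) {a : E n}
    (ha : KM w z a) :
    tlvJ (fun y => cexp (-((m : ℂ) * cx w y))) z a
      = tlvmk (cexp (-((m : ℂ) * cx w z))) 0 0 0 * (tlvmk 1 (-(m : ℂ) * d10 (cx w) z a) 0 0
        * tlvmk 1 0 (-(m : ℂ) * conj (d10 (cx w) z a)) 0) := by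
  have hE := tlv_E_smooth hw m
  have hc := contDiffOn_cx hw
  have h1 : (fun y => d01 (fun x => cexp (-((m : ℂ) * cx w x))) y a)
      =ᶠ[𝓝 z] fun y => cexp (-((m : ℂ) * cx w y)) * (-(m : ℂ) * d01 (cx w) y a) := by
    filter_upwards [hU.mem_nhds hz] with y hy using tlv_d01_E hU hw hy m a
  have h2 : d10 (fun y => d01 (cx w) y a) z a = 0 := levi_km hU hw hz ha a
  have h3 : d10 (fun y => d01 (fun x => cexp (-((m : ℂ) * cx w x))) y a) z a
      = cexp (-((m : ℂ) * cx w z)) * (-(m : ℂ) * d10 (cx w) z a)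
        * (-(m : ℂ) * conj (d10 (cx w) z a)) := by
    have h4 : DifferentiableAt ℝ (fun y => -(m : ℂ) * d01 (cx w) y a) z :=
      (differentiableAt_const _).mul (diffAt_of hU (contDiffOn_d01 hU hc a) hz)
    rw [d10_congr h1, d10_mul (diffAt_of hU hE hz) h4, tlv_d10_E hU hw hz, d10_const_mul (diffAt_of hU (contDiffOn_d01 hU hc a) hz), h2,
      tlv_d01_cx hU hw hz]
    ring
  unfold tlvJ
  rw [tlv_mul, tlv_mul, h3, tlv_d10_E hU hw hz, tlv_d01_E hU hw hz, tlv_d01_cx hU hw hz]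
  congr 1 <;> ring

section gram

variable {ρ : Type} [Fintype ρ] {f g : Fin n → ρ → ℂ}

private theorem tlvJ_LM {a : E n} (h : Gram w z a f g) (k l : Fin n) :
    tlvJ (fun y => LM w y k l) z a
      = ∑ s, tlvmk (f k s) (g k s) 0 0 * tlvmk (conj (f l s)) 0 (conj (g l s)) 0 := by
  have h1 : d10 (fun y => LM w y k l) z a = ∑ s, g k s * conj (f l s) := h.t k l
  have h2 : d01 (fun y => LM w y k l) z a = ∑ s, f k s * conj (g l s) := h.b k l
  have h3 : d10 (fun y => d01 (fun x => LM w x k l) y a) z a = ∑ s, g k s * conj (g l s) :=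
    h.tt k l
  unfold tlvJ
  simp only [tlv_mul]
  rw [tlv_sum, h1, h2, h3, h.m k l]
  congr 1 <;> refine Finset.sum_congr rfl fun s _ => ?_ <;> ring

private theorem tlv_FG {κ : Type*} [DecidableEq κ] (s : Finset κ) (u v : κ → ℂ) :
    ∏ q ∈ s, tlvmk (u q) (v q) 0 0
      = tlvmk (∏ q ∈ s, u q) (∑ q ∈ s, v q * ∏ r ∈ s.erase q, u r) 0 0 := by
  induction s using Finset.induction_on with
  | empty => simp [tlv_one]
  | insert b s hb ih =>
    rw [Finset.prod_insert hb, ih, tlv_mul, Finset.prod_insert hb, Finset.sum_insert hb,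
      Finset.erase_insert hb]
    congr 1
    · rw [add_comm, Finset.mul_sum]
      congr 1
      · ring
      · refine Finset.sum_congr rfl fun i hi => ?_
        have hib : b ≠ i := fun e => hb (e ▸ hi)
        rw [Finset.erase_insert_of_ne hib, Finset.prod_insert
          (fun hh => hb (Finset.mem_of_mem_erase hh))]
        ring
    · ring
    · ring

private theorem tlv_FG' {κ : Type*} [DecidableEq κ] (s : Finset κ) (u v : κ → ℂ) :
    ∏ q ∈ s, tlvmk (u q) 0 (v q) 0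
      = tlvmk (∏ q ∈ s, u q) 0 (∑ q ∈ s, v q * ∏ r ∈ s.erase q, u r) 0 := by
  induction s using Finset.induction_on with
  | empty => simp [tlv_one]
  | insert b s hb ih =>
    rw [Finset.prod_insert hb, ih, tlv_mul, Finset.prod_insert hb, Finset.sum_insert hb,
      Finset.erase_insert hb]
    congr 1
    · ring
    · rw [add_comm, Finset.mul_sum]
      congr 1
      · ring
      · refine Finset.sum_congr rfl fun i hi => ?_
        have hib : b ≠ i := fun e => hb (e ▸ hi)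
        rw [Finset.erase_insert_of_ne hib, Finset.prod_insert
          (fun hh => hb (Finset.mem_of_mem_erase hh))]
        ring
    · ring

private theorem tlvJ_X (hU : IsOpen U) (hw : ContDiffOn ℝ ∞ w U) (hz : z ∈ U) {a : E n}
    (h : Gram w z a f g) {p : ℕ} (K L : Fin p → Fin n) :
    tlvJ (fun y => ∏ q, LM w y (K q) (L q)) z a
      = ∑ S : Fin p → ρ, tlvmk (FK f K S) (GK f g K S) 0 0
        * tlvmk (conj (FK f L S)) 0 (conj (GK f g L S)) 0 := by
  classical
  rw [tlvJ_prod Finset.univ hU hz a fun q => contDiffOn_LM hU hw (K q) (L q)]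
  simp only [tlvJ_LM h]
  have hp := Finset.prod_univ_sum (fun _ : Fin p => (Finset.univ : Finset ρ))
    (fun q s => tlvmk (f (K q) s) (g (K q) s) 0 0
      * tlvmk (conj (f (L q) s)) 0 (conj (g (L q) s)) 0)
  rw [Fintype.piFinset_univ] at hp
  refine hp.trans ?_
  refine Finset.sum_congr rfl fun S _ => ?_
  rw [Finset.prod_mul_distrib, tlv_FG, tlv_FG']
  congr 2
  · unfold FK
    rw [map_prod]
  · unfold GK
    rw [map_sum]
    refine Finset.sum_congr rfl fun q _ => ?_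
    rw [map_mul, map_prod]

end gram

private theorem tlv_low_eq (w : E n → ℝ) {p : ℕ} (m : ℝ) (τ : (Fin p → Fin n) → E n → ℂ)
    (L : Fin p → Fin n) :
    low w m τ L = fun y => (∑ K : Fin p → Fin n, (∏ q, LM w y (K q) (L q)) * τ K y)
      * cexp (-((m : ℂ) * cx w y)) := by
  funext y
  unfold low
  rw [tlv_E]
  rfl

private theorem tlv_X_smooth (hU : IsOpen U) (hw : ContDiffOn ℝ ∞ w U) {p : ℕ}
    (K L : Fin p → Fin n) : ContDiffOn ℝ ∞ (fun y => ∏ q, LM w y (K q) (L q)) U :=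
  tlv_smooth_prod Finset.univ fun q => contDiffOn_LM hU hw (K q) (L q)

theorem low_smooth (hU : IsOpen U) (hw : ContDiffOn ℝ ∞ w U) {p : ℕ} (m : ℝ)
    {τ : (Fin p → Fin n) → E n → ℂ} (hτ : ∀ K, ContDiffOn ℂ ∞ (τ K) U) (L : Fin p → Fin n) :
    ContDiffOn ℝ ∞ (low w m τ L) U := by
  rw [tlv_low_eq]
  exact (tlv_smooth_sum Finset.univ fun K =>
    (tlv_X_smooth hU hw K L).mul (tlv_real (hτ K))).mul (tlv_E_smooth hw m)

private noncomputable def tlvS (w : E n → ℝ) {p : ℕ} (m : ℝ) (τ : (Fin p → Fin n) → E n → ℂ)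
    (y : E n) : ℂ := ∑ L : Fin p → Fin n, low w m τ L y * conj (τ L y)

private theorem tlvS_smooth (hU : IsOpen U) (hw : ContDiffOn ℝ ∞ w U) {p : ℕ} (m : ℝ)
    {τ : (Fin p → Fin n) → E n → ℂ} (hτ : ∀ K, ContDiffOn ℂ ∞ (τ K) U) :
    ContDiffOn ℝ ∞ (tlvS w m τ) U :=
  tlv_smooth_sum Finset.univ fun L =>
    (low_smooth hU hw m hτ L).mul (tlv_conj_smooth (tlv_real (hτ L)))

private theorem tlvS_conj (hU : IsOpen U) (hw : ContDiffOn ℝ ∞ w U) {p : ℕ} (m : ℝ)
    (τ : (Fin p → Fin n) → E n → ℂ) {y : E n} (hy : y ∈ U) :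
    conj (tlvS w m τ y) = tlvS w m τ y := by
  have h1 : tlvS w m τ y = ∑ L : Fin p → Fin n, ∑ K : Fin p → Fin n,
      (∏ q, LM w y (K q) (L q)) * τ K y * ((Real.exp (-(m * w y)) : ℝ) : ℂ) * conj (τ L y) := by
    unfold tlvS
    refine Finset.sum_congr rfl fun L _ => ?_
    unfold low
    rw [Finset.sum_mul, Finset.sum_mul]
    rfl
  rw [h1]
  simp only [map_sum]
  rw [Finset.sum_comm]
  refine Finset.sum_congr rfl fun L _ => ?_
  refine Finset.sum_congr rfl fun K _ => ?_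
  rw [map_mul, map_mul, map_mul, map_prod, Complex.conj_conj, Complex.conj_ofReal]
  simp only [LM_conj hU hw hy]
  ring

private theorem tlv_nrm (hU : IsOpen U) (hw : ContDiffOn ℝ ∞ w U) {p : ℕ} (m : ℝ)
    (τ : (Fin p → Fin n) → E n → ℂ) {y : E n} (hy : y ∈ U) :
    cx (nrm w m τ) y = tlvS w m τ y :=
  Complex.conj_eq_iff_re.mp (tlvS_conj hU hw m τ hy)

theorem nrm_smooth (hU : IsOpen U) (hw : ContDiffOn ℝ ∞ w U) {p : ℕ} (m : ℝ)
    {τ : (Fin p → Fin n) → E n → ℂ} (hτ : ∀ K, ContDiffOn ℂ ∞ (τ K) U) :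
    ContDiffOn ℝ ∞ (nrm w m τ) U := by
  have h := tlvS_smooth hU hw m hτ
  exact Complex.reCLM.contDiff.comp_contDiffOn h

private theorem tlvJ_low (hU : IsOpen U) (hw : ContDiffOn ℝ ∞ w U) (hz : z ∈ U) {a : E n}
    {p : ℕ} (m : ℝ) {τ : (Fin p → Fin n) → E n → ℂ} (hτ : ∀ K, ContDiffOn ℂ ∞ (τ K) U)
    {ρ : Type} [Fintype ρ] {f g : Fin n → ρ → ℂ} (h : Gram w z a f g) (L : Fin p → Fin n) :
    tlvJ (low w m τ L) z a
      = (∑ S : Fin p → ρ, (∑ K, tlvmk (FK f K S) (GK f g K S) 0 0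
          * tlvmk (τ K z) (d10 (τ K) z a) 0 0)
        * tlvmk (conj (FK f L S)) 0 (conj (GK f g L S)) 0)
        * tlvJ (fun y => cexp (-((m : ℂ) * cx w y))) z a := by
  rw [tlv_low_eq, tlvJ_mul hU hz a (tlv_smooth_sum Finset.univ fun K =>
    (tlv_X_smooth hU hw K L).mul (tlv_real (hτ K))) (tlv_E_smooth hw m)]
  congr 1
  rw [tlvJ_sum Finset.univ hU hz a fun K => (tlv_X_smooth hU hw K L).mul (tlv_real (hτ K))]
  simp only [Finset.sum_mul]
  rw [Finset.sum_comm]
  refine Finset.sum_congr rfl fun K _ => ?_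
  rw [tlvJ_mul hU hz a (tlv_X_smooth hU hw K L) (tlv_real (hτ K)), tlvJ_X hU hw hz h,
    tlvJ_hol hU hz (hτ K), Finset.sum_mul]
  refine Finset.sum_congr rfl fun S _ => ?_
  ring

theorem tlv1 (hU : IsOpen U) (hw : ContDiffOn ℝ ∞ w U) (hz : z ∈ U) {a : E n} (ha : KM w z a)
    {p : ℕ} (m : ℝ) {τ : (Fin p → Fin n) → E n → ℂ} (hτ : ∀ K, ContDiffOn ℂ ∞ (τ K) U)
    {ρ : Type} [Fintype ρ] {f g : Fin n → ρ → ℂ} (h : Gram w z a f g) :
    levi (nrm w m τ) z a a
      = ((Real.exp (-(m * w z)) * ∑ S : Fin p → ρ, ‖DD w m τ z a f g S‖ ^ 2 : ℝ) : ℂ) := by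
  have h0 : levi (nrm w m τ) z a a = (tlvJ (tlvS w m τ) z a).snd.snd := by
    rw [← tlvJ_congr hU hz a fun y hy => tlv_nrm hU hw m τ hy]
    rfl
  have h1 : tlvJ (tlvS w m τ) z a = ∑ L : Fin p → Fin n,
      tlvJ (low w m τ L) z a * tlvmk (conj (τ L z)) 0 (conj (d10 (τ L) z a)) 0 := by
    have h2 := tlvJ_sum (z := z) (Finset.univ : Finset (Fin p → Fin n)) hU hz a
      (F := fun L y => low w m τ L y * conj (τ L y))
      fun L => (low_smooth hU hw m hτ L).mul (tlv_conj_smooth (tlv_real (hτ L)))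
    show tlvJ (fun y => ∑ L : Fin p → Fin n, low w m τ L y * conj (τ L y)) z a = _
    rw [h2]
    refine Finset.sum_congr rfl fun L _ => ?_
    rw [tlvJ_mul hU hz a (low_smooth hU hw m hτ L) (tlv_conj_smooth (tlv_real (hτ L))),
      tlvJ_conj_hol hU hz (hτ L)]
  have h2 : ∀ S : Fin p → ρ,
      (∑ K, tlvmk (FK f K S) (GK f g K S) 0 0 * tlvmk (τ K z) (d10 (τ K) z a) 0 0)
        * tlvmk 1 (-(m : ℂ) * d10 (cx w) z a) 0 0
      = tlvmk (∑ K, FK f K S * τ K z) (DD w m τ z a f g S) 0 0 := by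
    intro S
    rw [Finset.sum_mul]
    simp only [tlv_mul]
    rw [tlv_sum]
    unfold DD
    congr 1
    · refine Finset.sum_congr rfl fun K _ => ?_
      ring
    · refine Finset.sum_congr rfl fun K _ => ?_
      ring
    · simp
    · simp
  have h3 : ∀ S : Fin p → ρ,
      (∑ L, tlvmk (conj (FK f L S)) 0 (conj (GK f g L S)) 0
          * tlvmk (conj (τ L z)) 0 (conj (d10 (τ L) z a)) 0)
        * tlvmk 1 0 (-(m : ℂ) * conj (d10 (cx w) z a)) 0
      = tlvmk (∑ K, conj (FK f K S * τ K z)) 0 (conj (DD w m τ z a f g S)) 0 := by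
    intro S
    rw [Finset.sum_mul]
    simp only [tlv_mul]
    rw [tlv_sum]
    unfold DD
    rw [map_sum]
    congr 1
    · refine Finset.sum_congr rfl fun K _ => ?_
      rw [map_mul]
      ring
    · simp
    · refine Finset.sum_congr rfl fun K _ => ?_
      simp only [map_add, map_sub, map_mul, Complex.conj_ofReal]
      ring
    · simp
  have h4 : tlvJ (tlvS w m τ) z a = tlvmk (cexp (-((m : ℂ) * cx w z))) 0 0 0
      * ∑ S : Fin p → ρ, tlvmk (∑ K, FK f K S * τ K z) (DD w m τ z a f g S) 0 0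
        * tlvmk (∑ K, conj (FK f K S * τ K z)) 0 (conj (DD w m τ z a f g S)) 0 := by
    rw [h1]
    simp only [tlvJ_low hU hw hz m hτ h, tlvJ_E hU hw hz m ha, ← h2, ← h3]
    simp only [Finset.mul_sum, Finset.sum_mul]
    rw [Finset.sum_comm]
    refine Finset.sum_congr rfl fun S _ => ?_
    refine Finset.sum_congr rfl fun L _ => ?_
    refine Finset.sum_congr rfl fun K _ => ?_
    ring
  rw [h0, h4]
  simp only [tlv_mul]
  rw [tlv_sum, tlv_mul]
  show cexp (-((m : ℂ) * cx w z)) * (∑ S : Fin p → ρ, _) + 0 * _ + 0 * _ + 0 * _ = _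
  rw [← tlv_E]
  push_cast
  simp only [zero_mul, mul_zero, add_zero, zero_add]
  congr 1
  refine Finset.sum_congr rfl fun S _ => ?_
  rw [← Complex.mul_conj']

theorem tlv2 (hU : IsOpen U) (hw : ContDiffOn ℝ ∞ w U) (hz : z ∈ U) {a : E n}
    {p : ℕ} (m : ℝ) {τ : (Fin p → Fin n) → E n → ℂ} (hτ : ∀ K, ContDiffOn ℂ ∞ (τ K) U)
    {ρ : Type} [Fintype ρ] {f g : Fin n → ρ → ℂ} (h : Gram w z a f g) (L : Fin p → Fin n) :
    d10 (low w m τ L) z a
      = (Real.exp (-(m * w z)) : ℂ) * ∑ S : Fin p → ρ, DD w m τ z a f g S * conj (FK f L S) := by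
  have h0 : d10 (low w m τ L) z a = (tlvJ (low w m τ L) z a).fst.snd := rfl
  have h2 : ∀ S : Fin p → ρ,
      (∑ K, tlvmk (FK f K S) (GK f g K S) 0 0 * tlvmk (τ K z) (d10 (τ K) z a) 0 0)
        * tlvmk 1 (-(m : ℂ) * d10 (cx w) z a) 0 0
      = tlvmk (∑ K, FK f K S * τ K z) (DD w m τ z a f g S) 0 0 := by
    intro S
    rw [Finset.sum_mul]
    simp only [tlv_mul]
    rw [tlv_sum]
    unfold DD
    congr 1
    · refine Finset.sum_congr rfl fun K _ => ?_
      ring
    · refine Finset.sum_congr rfl fun K _ => ?_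
      ring
    · simp
    · simp
  have h3 : (tlvJ (low w m τ L) z a).fst
      = (tlvmk (cexp (-((m : ℂ) * cx w z))) 0 0 0
        * ∑ S : Fin p → ρ, tlvmk (∑ K, FK f K S * τ K z) (DD w m τ z a f g S) 0 0
          * tlvmk (conj (FK f L S)) 0 (conj (GK f g L S)) 0).fst := by
    rw [tlvJ_low hU hw hz m hτ h L, TrivSqZeroExt.fst_mul, tlvJ_E1 hU hw hz m a,
      ← TrivSqZeroExt.fst_mul]
    congr 1
    simp only [← h2]
    simp only [Finset.mul_sum, Finset.sum_mul]
    refine Finset.sum_congr rfl fun S _ => ?_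
    refine Finset.sum_congr rfl fun K _ => ?_
    ring
  rw [h0, h3]
  simp only [tlv_mul]
  rw [tlv_sum, tlv_mul, ← tlv_E]
  show ((Real.exp (-(m * w z)) : ℝ) : ℂ) * (∑ S : Fin p → ρ, _) + (∑ S : Fin p → ρ, _) * 0 = _
  rw [mul_zero, add_zero]
  congr 1
  refine Finset.sum_congr rfl fun S _ => ?_
  ring

/-- the derivative of the norm, if the derivative of `low` is zero -/
theorem tlv3 (hU : IsOpen U) (hw : ContDiffOn ℝ ∞ w U) (hz : z ∈ U) {a : E n}
    {p : ℕ} (m : ℝ) {τ : (Fin p → Fin n) → E n → ℂ} (hτ : ∀ K, ContDiffOn ℂ ∞ (τ K) U)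
    (h0 : ∀ L, d10 (low w m τ L) z a = 0) : d10 (cx (nrm w m τ)) z a = 0 := by
  have h1 : cx (nrm w m τ) =ᶠ[𝓝 z] fun y => ∑ L : Fin p → Fin n, low w m τ L y * conj (τ L y) := by
    filter_upwards [hU.mem_nhds hz] with y hy using tlv_nrm hU hw m τ hy
  rw [d10_congr h1, d10_sum Finset.univ (fun L y => low w m τ L y * conj (τ L y)) fun L _ =>
    (diffAt_of hU (low_smooth hU hw m hτ L) hz).mul
      (diffAt_of hU (tlv_conj_smooth (tlv_real (hτ L))) hz)]
  refine Finset.sum_eq_zero fun L _ => ?_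
  rw [d10_mul (diffAt_of hU (low_smooth hU hw m hτ L) hz)
    (diffAt_of hU (tlv_conj_smooth (tlv_real (hτ L))) hz), h0 L,
    d10_conj (diffAt_of hU (tlv_real (hτ L)) hz), tlv_holo hU (hτ L) hz]
  simp

end Pool.Agent.ARK
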