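import Pool.Agent.ARK.Tgl
import Pool.Agent.ARK.Grm
import Pool.Agent.ARK.Pos

/-!
ARK module Tpa (size 3): holomorphic tensors are parallel along the kernel.
PROOF. `tensor_fun`: `u` with `vt A u i = nrm (η.w i) m (τ i)` on the target. For `KM (η.w i) z a`: `gram_exists` (hypothesis `hp`: `hη i`) and `tlv1` give
`levi (vt A u i) z a a = exp (-(m w)) * ∑ S, ‖DD S‖² ≥ 0` (`levi` only depends on the germ: `levi` of functions equal near `z`, `d10_congr`, `d01_congr`). So `princ0` (module Pos): at a point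
with `Full` the number is zero, for any Gram data `∑ S, ‖DD S‖² = 0`, `DD S = 0`. `tlv2`: `d10 (low ..) z a = 0`; `tlv3`: the norm.
-/

open scoped ContDiff ComplexConjugate Topology ComplexOrder
open Complex MeasureTheory Matrix

namespace Pool.Agent.ARK

open Pool.Agent.CYF Pool.Agent.NDC

variable {n : ℕ} {X : Type*} [TopologicalSpace X] {ι : Type*} {A : Mfd n X ι}

private theorem tpa_levi_congr {v v' : E n → ℝ} {z : E n} (h : v =ᶠ[𝓝 z] v') (a b : E n) :
    levi v z a b = levi v' z a b := by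
  unfold levi
  refine d10_congr ?_
  have h1 : ∀ᶠ y in 𝓝 z, v =ᶠ[𝓝 y] v' := eventually_eventually_nhds.2 h
  filter_upwards [h1] with y hy
  refine d01_congr ?_
  filter_upwards [hy] with x hx
  rw [hx]

theorem dd_zero [T2Space X] [CompactSpace X] {η om : Form A} (hη : η.Semipositive) {ν : ℕ}
    (hν : η.RankLE ν) (hom : om.Positive) {p : ℕ} {m : ℝ} {τ : ι → (Fin p → Fin n) → E n → ℂ}
    (hτ : IsTensor η p m τ) {i : ι} {z : E n} (hz : Full η ν i z) {a : E n}
    (ha : KM (η.w i) z a) {ρ : Type} [Fintype ρ] {f g : Fin n → ρ → ℂ}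
    (h : Gram (η.w i) z a f g) (S : Fin p → ρ) : DD (η.w i) m (τ i) z a f g S = 0 := by
  obtain ⟨u, hu, hv⟩ := tensor_fun η hτ
  have hgerm : ∀ i, ∀ z ∈ (A.c i).target, vt A u i =ᶠ[𝓝 z] nrm (η.w i) m (τ i) := by
    intro i z hz
    filter_upwards [(A.c i).open_target.mem_nhds hz] with y hy
    exact hv i y hy
  have hpos : ∀ i, ∀ z ∈ (A.c i).target, ∀ a, KM (η.w i) z a →
      0 ≤ (levi (vt A u i) z a a).re := by
    intro i z hz a ha
    obtain ⟨f, g, h⟩ := gram_exists (A.c i).open_target (η.smooth i) (hη i) hz ha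
    rw [tpa_levi_congr (hgerm i z hz),
      tlv1 (A.c i).open_target (η.smooth i) hz ha m (hτ.hol i) h, Complex.ofReal_re]
    positivity
  have h0 := princ0 hη hν hom hu hpos i z hz a ha
  rw [tpa_levi_congr (hgerm i z hz.1),
    tlv1 (A.c i).open_target (η.smooth i) hz.1 ha m (hτ.hol i) h] at h0
  have h1 : Real.exp (-(m * η.w i z)) * ∑ S : Fin p → ρ, ‖DD (η.w i) m (τ i) z a f g S‖ ^ 2
      = 0 := by exact_mod_cast h0
  have h2 := (mul_eq_zero.1 h1).resolve_left (Real.exp_pos _).ne'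
  have h3 := (Finset.sum_eq_zero_iff_of_nonneg (fun S _ => by positivity)).1 h2 S
    (Finset.mem_univ S)
  exact norm_eq_zero.1 ((pow_eq_zero_iff two_ne_zero).1 h3)

theorem low_zero [T2Space X] [CompactSpace X] {η om : Form A} (hη : η.Semipositive) {ν : ℕ}
    (hν : η.RankLE ν) (hom : om.Positive) {p : ℕ} {m : ℝ} {τ : ι → (Fin p → Fin n) → E n → ℂ}
    (hτ : IsTensor η p m τ) {i : ι} {z : E n} (hz : Full η ν i z) {a : E n}
    (ha : KM (η.w i) z a) (L : Fin p → Fin n) : d10 (low (η.w i) m (τ i) L) z a = 0 := by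
  obtain ⟨f, g, h⟩ := gram_exists (A.c i).open_target (η.smooth i) (hη i) hz.1 ha
  rw [tlv2 (A.c i).open_target (η.smooth i) hz.1 m (hτ.hol i) h L,
    Finset.sum_eq_zero fun S _ => ?_, mul_zero]
  rw [dd_zero hη hν hom hτ hz ha h S, zero_mul]

theorem nrm_zero [T2Space X] [CompactSpace X] {η om : Form A} (hη : η.Semipositive) {ν : ℕ}
    (hν : η.RankLE ν) (hom : om.Positive) {p : ℕ} {m : ℝ} {τ : ι → (Fin p → Fin n) → E n → ℂ}
    (hτ : IsTensor η p m τ) {i : ι} {z : E n} (hz : Full η ν i z) {a : E n}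
    (ha : KM (η.w i) z a) : d10 (cx (nrm (η.w i) m (τ i))) z a = 0 :=
  tlv3 (A.c i).open_target (η.smooth i) hz.1 m (hτ.hol i)
    fun L => low_zero hη hν hom hτ hz ha L

end Pool.Agent.ARK
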