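import Pool.Agent.ARK.Jfn

/-!
ARK: holomorphic transversals.
-/

open scoped ContDiff ComplexConjugate Topology ComplexOrder
open Complex MeasureTheory Matrix

namespace Pool.Agent.ARK

open Pool.Agent.CYF Pool.Agent.NDC

variable {n : ℕ} {z : E n} {ν : ℕ} {U : Set (E n)}

theorem trv_lin {L : E n →L[ℝ] (Fin (2 * ν) → ℝ)} (hL : Function.Surjective L)
    (V : Submodule ℂ (E n)) (hV : ∀ a, a ∈ V ↔ L a = 0) :
    ∃ κ : (Fin ν → ℂ) →L[ℂ] E n,
      Function.Bijective fun s => L (κ s) := by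
  obtain ⟨V', hV'⟩ := Submodule.exists_isCompl V
  have h1 : Module.finrank ℝ (LinearMap.range L.toLinearMap)
      + Module.finrank ℝ (LinearMap.ker L.toLinearMap) = Module.finrank ℝ (E n) :=
    LinearMap.finrank_range_add_finrank_ker L.toLinearMap
  have h2 : LinearMap.range L.toLinearMap = ⊤ := LinearMap.range_eq_top.2 hL
  have h3 : LinearMap.ker L.toLinearMap = V.restrictScalars ℝ := by
    ext a
    rw [LinearMap.mem_ker]
    exact (hV a).symm
  have h4 : Module.finrank ℝ (V.restrictScalars ℝ) = 2 * Module.finrank ℂ V :=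
    finrank_real_of_complex V
  have h5 : Module.finrank ℝ (E n) = 2 * n := by
    rw [finrank_real_of_complex]
    simp [E]
  have h6 : Module.finrank ℝ (Fin (2 * ν) → ℝ) = 2 * ν := by simp
  rw [h2, finrank_top, h3, h4, h5, h6] at h1
  have h7 := Submodule.finrank_add_eq_of_isCompl hV'
  have h8 : Module.finrank ℂ (E n) = n := by simp [E]
  rw [h8] at h7
  have h9 : Module.finrank ℂ (Fin ν → ℂ) = Module.finrank ℂ V' := by
    rw [Module.finrank_fin_fun]
    omega
  let φ : (Fin ν → ℂ) ≃ₗ[ℂ] V' := LinearEquiv.ofFinrankEq _ _ h9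
  let κ₀ : (Fin ν → ℂ) →ₗ[ℂ] E n := V'.subtype.comp φ.toLinearMap
  let κ : (Fin ν → ℂ) →L[ℂ] E n := LinearMap.toContinuousLinearMap κ₀
  have hκ : ∀ s, κ s = (φ s : E n) := fun s => rfl
  let M : (Fin ν → ℂ) →ₗ[ℝ] (Fin (2 * ν) → ℝ) :=
    L.toLinearMap.comp (κ₀.restrictScalars ℝ)
  have hM : ∀ s, M s = L (κ s) := fun s => rfl
  have hinj : Function.Injective M := by
    rw [← LinearMap.ker_eq_bot, LinearMap.ker_eq_bot']
    intro s hs
    have h10 : κ s ∈ V := (hV _).2 hs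
    have h11 : κ s ∈ V' := (φ s).2
    have h12 : κ s = 0 := by
      have := hV'.disjoint.le_bot ⟨h10, h11⟩
      simpa using this
    have h13 : φ s = 0 := Subtype.ext h12
    simpa using h13
  have hfr : Module.finrank ℝ (Fin ν → ℂ) = Module.finrank ℝ (Fin (2 * ν) → ℝ) := by
    rw [finrank_real_of_complex, Module.finrank_fin_fun, h6]
  have hsur : Function.Surjective M :=
    (LinearMap.injective_iff_surjective_of_finrank_eq_finrank hfr).1 hinj
  exact ⟨κ, hinj, hsur⟩

theorem trv (hU : IsOpen U) {u : Fin (2 * ν) → E n → ℝ} (hu : ∀ j, ContDiffOn ℝ ∞ (u j) U)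
    (hz : z ∈ U) (V : Submodule ℂ (E n)) (hV : ∀ a, a ∈ V ↔ ∀ j, fderiv ℝ (u j) z a = 0)
    (hind : LinearIndependent ℝ fun j => fderiv ℝ (u j) z) :
    ∃ (κ : (Fin ν → ℂ) →L[ℂ] E n) (D : Set (Fin (2 * ν) → ℝ))
      (H : (Fin (2 * ν) → ℝ) → (Fin ν → ℂ)), IsOpen D ∧ (fun j => u j z) ∈ D ∧
      (∀ t ∈ D, DifferentiableAt ℝ H t) ∧ H (fun j => u j z) = 0 ∧
      ∀ t ∈ D, z + κ (H t) ∈ U ∧ (∀ j, u j (z + κ (H t)) = t j) ∧
        (∀ s, fderiv ℝ H t (fun j => fderiv ℝ (u j) (z + κ (H t)) (κ s)) = s) ∧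
        ∀ w, (fun j => fderiv ℝ (u j) (z + κ (H t)) (κ (fderiv ℝ H t w))) = w := by
  let F : E n → (Fin (2 * ν) → ℝ) := fun y j => u j y
  have hF : ContDiffOn ℝ ∞ F U := contDiffOn_pi.2 fun j => hu j
  have hFd : ∀ y ∈ U, HasFDerivAt F (fderiv ℝ F y) y := fun y hy =>
    ((hF.contDiffAt (hU.mem_nhds hy)).differentiableAt (by simp)).hasFDerivAt
  have key : ∀ y ∈ U, ∀ v : E n, fderiv ℝ F y v = fun j => fderiv ℝ (u j) y v := by
    intro y hy v
    have hdj : ∀ j, DifferentiableAt ℝ (fun y => u j y) y :=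
      fun j => ((hu j).contDiffAt (hU.mem_nhds hy)).differentiableAt (by simp)
    have h0 : fderiv ℝ F y = ContinuousLinearMap.pi fun j => fderiv ℝ (fun y => u j y) y :=
      fderiv_pi hdj
    rw [h0]
    rfl
  have hs : Function.Surjective (fderiv ℝ F z) := by
    intro b
    obtain ⟨v, hv⟩ := real_surj hind b
    refine ⟨v, ?_⟩
    rw [key _ hz]
    funext j
    exact hv j
  obtain ⟨κ, hκ⟩ := trv_lin hs V fun a => by
    rw [hV, key z hz, funext_iff]
    rfl
  -- the parametrised transversal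
  let σ : (Fin ν → ℂ) → E n := fun s => z + κ s
  have hσd : ∀ s, HasFDerivAt σ (κ.restrictScalars ℝ) s := fun s =>
    ((κ.restrictScalars ℝ).hasFDerivAt).const_add z
  have hσs : ContDiff ℝ ∞ σ := contDiff_const.add (κ.restrictScalars ℝ).contDiff
  let G : (Fin ν → ℂ) → (Fin (2 * ν) → ℝ) := fun s => F (σ s)
  have hσ0 : σ 0 = z := by simp [σ]
  have hG0 : G 0 = F z := by simp [G, hσ0]
  have hGc : ContDiffAt ℝ ∞ G 0 := by
    have h1 : ContDiffAt ℝ ∞ F (σ 0) := by
      rw [hσ0]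
      exact hF.contDiffAt (hU.mem_nhds hz)
    exact h1.comp 0 hσs.contDiffAt
  have hGd : ∀ s, σ s ∈ U → HasFDerivAt G ((fderiv ℝ F (σ s)).comp (κ.restrictScalars ℝ)) s :=
    fun s hs => (hFd _ hs).comp s (hσd s)
  let e : (Fin ν → ℂ) ≃L[ℝ] (Fin (2 * ν) → ℝ) :=
    (LinearEquiv.ofBijective ((fderiv ℝ F z).comp (κ.restrictScalars ℝ)).toLinearMap
      hκ).toContinuousLinearEquiv
  have he : (e : (Fin ν → ℂ) →L[ℝ] (Fin (2 * ν) → ℝ))
      = (fderiv ℝ F z).comp (κ.restrictScalars ℝ) := by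
    ext x
    rfl
  have hd : HasFDerivAt G (e : (Fin ν → ℂ) →L[ℝ] (Fin (2 * ν) → ℝ)) 0 := by
    rw [he]
    have h1 := hGd 0 (by rw [hσ0]; exact hz)
    rwa [hσ0] at h1
  let P := hGc.toOpenPartialHomeomorph G hd (by simp)
  have h0s : (0 : Fin ν → ℂ) ∈ P.source := hGc.mem_toOpenPartialHomeomorph_source hd (by simp)
  have h0t : G 0 ∈ P.target := hGc.image_mem_toOpenPartialHomeomorph_target hd (by simp)
  have hψ0 : P.symm (G 0) = 0 := P.left_inv h0s
  have hψ : ContDiffAt ℝ ∞ P.symm (G 0) := by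
    have := hGc.to_localInverse hd (by simp)
    exact this
  have e2 : ∀ᶠ w in 𝓝 (G 0), DifferentiableAt ℝ P.symm w := by
    have h1 : ContDiffAt ℝ 1 P.symm (G 0) := hψ.of_le (by simp)
    filter_upwards [h1.eventually (by simp)] with w hw
    exact hw.differentiableAt (by simp)
  have e3 : ∀ᶠ w in 𝓝 (G 0), σ (P.symm w) ∈ U := by
    have h1 : ContinuousAt (fun w => σ (P.symm w)) (G 0) :=
      (hσs.continuous.continuousAt).comp hψ.continuousAt
    refine h1 (hU.mem_nhds ?_)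
    show σ (P.symm (G 0)) ∈ U
    rw [hψ0, hσ0]
    exact hz
  obtain ⟨D₀, hD₀, hD₀o, h0D₀⟩ := eventually_nhds_iff.1 (e2.and e3)
  refine ⟨κ, D₀ ∩ P.target, P.symm, hD₀o.inter P.open_target, ?_, fun t ht => (hD₀ t ht.1).1, ?_, ?_⟩
  · have : (fun j => u j z) = G 0 := by rw [hG0]
    rw [this]
    exact ⟨h0D₀, h0t⟩
  · have : (fun j => u j z) = G 0 := by rw [hG0]
    rw [this]
    exact hψ0
  · intro t ht
    have hU' : σ (P.symm t) ∈ U := (hD₀ t ht.1).2
    have hH := (hD₀ t ht.1).1.hasFDerivAt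
    have hGH : G (P.symm t) = t := P.right_inv ht.2
    refine ⟨hU', fun j => congrFun hGH j, ?_, ?_⟩
    · intro s
      have h1 : HasFDerivAt (fun s => P.symm (G s))
          ((fderiv ℝ P.symm t).comp ((fderiv ℝ F (σ (P.symm t))).comp (κ.restrictScalars ℝ)))
          (P.symm t) := by
        have h2 : HasFDerivAt P.symm (fderiv ℝ P.symm t) (G (P.symm t)) := by
          rw [hGH]
          exact hH
        exact h2.comp _ (hGd _ hU')
      have h3 : (fun s => P.symm (G s)) =ᶠ[𝓝 (P.symm t)] fun s => s := by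
        have h4 : P.symm t ∈ P.source := P.map_target ht.2
        filter_upwards [P.open_source.mem_nhds h4] with s hs
        exact P.left_inv hs
      have h5 := (h1.congr_of_eventuallyEq h3.symm).unique (hasFDerivAt_id (P.symm t))
      have h6 := congrArg (fun L => L s) h5
      have h7 : fderiv ℝ P.symm t (fderiv ℝ F (σ (P.symm t)) (κ s)) = s := h6
      rw [key _ hU'] at h7
      exact h7
    · intro w
      have h1 : HasFDerivAt (fun t => G (P.symm t))
          (((fderiv ℝ F (σ (P.symm t))).comp (κ.restrictScalars ℝ)).comp (fderiv ℝ P.symm t)) t :=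
        HasFDerivAt.comp t (hGd _ hU') hH
      have h3 : (fun t => G (P.symm t)) =ᶠ[𝓝 t] fun t => t := by
        filter_upwards [P.open_target.mem_nhds ht.2] with s hs
        exact P.right_inv hs
      have h5 := (h1.congr_of_eventuallyEq h3.symm).unique (hasFDerivAt_id t)
      have h6 := congrArg (fun L => L w) h5
      have h7 : fderiv ℝ F (σ (P.symm t)) (κ (fderiv ℝ P.symm t w)) = w := h6
      rw [key _ hU'] at h7
      exact h7

end Pool.Agent.ARK
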