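import Pool.Agent.ARK.Slk
import Pool.Agent.ARK.Prp

/-!
ARK: near a compact leaf given by `2 ν` functions the kernel is holomorphic.
-/

open scoped ContDiff ComplexConjugate Topology ComplexOrder
open Complex MeasureTheory Matrix

namespace Pool.Agent.ARK

open Pool.Agent.CYF Pool.Agent.NDC

variable {n : ℕ} {X : Type*} [TopologicalSpace X] {ι : Type*} {A : Mfd n X ι} {z : E n}
  {η om : Form A} {ν : ℕ} {N : ℕ}

theorem KerConst.comp {u : Fin N → X → ℝ} (hu : ∀ j, KerConst η ν (u j)) {g : (Fin N → ℝ) → ℝ}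
    (hg : ContDiff ℝ ∞ g) : KerConst η ν fun y => g fun j => u j y := by
  have hs : ∀ i, ContDiffOn ℝ ∞ (fun z => fun j => vt A (u j) i z) (A.c i).target := fun i =>
    contDiffOn_pi.2 fun j => (hu j).sm i
  refine ⟨fun i => hg.comp_contDiffOn (hs i), fun i z hz a ha => ?_⟩
  have hO := (A.c i).open_target
  have hd : HasFDerivAt (fun z => fun j => vt A (u j) i z)
      (ContinuousLinearMap.pi fun j => fderiv ℝ (vt A (u j) i) z) z := by
    refine hasFDerivAt_pi.2 fun j => ?_
    exact ((((hu j).sm i).contDiffAt (hO.mem_nhds hz.1)).differentiableAt (by simp)).hasFDerivAt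
  have h1 := ((hg.differentiable (by simp)) fun j => vt A (u j) i z).hasFDerivAt.comp z hd
  have h2 : HasFDerivAt (cx (vt A (fun y => g fun j => u j y) i)) _ z :=
    Complex.ofRealCLM.hasFDerivAt.comp z h1
  have h3 : ∀ b, Ker η i z b → (ContinuousLinearMap.pi fun j => fderiv ℝ (vt A (u j) i) z) b = 0 := by
    intro b hb
    funext j
    exact (hu j).fderiv_zero hz hb
  have hIa : Ker η i z (I • a) := by
    rw [ker_iff η hz.1] at ha ⊢
    exact km_smul I ha
  show d10 (cx (vt A (fun y => g fun j => u j y) i)) z a = 0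
  unfold d10
  rw [h2.fderiv]
  simp only [ContinuousLinearMap.comp_apply]
  rw [h3 a ha, h3 _ hIa]
  simp

theorem d01_cx_conj {v : E n → ℝ} (hv : DifferentiableAt ℝ (cx v) z) (a : E n) :
    d01 (cx v) z a = conj (d10 (cx v) z a) := by
  have h := d01_conj (a := a) hv
  have h2 : (fun y => conj (cx v y)) = cx v := funext fun y => conj_cx v y
  rwa [h2] at h

theorem KerConst.levi_zero [T2Space X] (hη : η.Semipositive) (hν : η.RankLE ν) {v : X → ℝ}
    (hv : KerConst η ν v) {i : ι} (hz : Full η ν i z) {a : E n} (ha : Ker η i z a) :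
    levi (vt A v i) z a a = 0 := by
  have hU := (A.c i).open_target
  have hw := η.smooth i
  obtain ⟨J, hJ⟩ := exJ (lm_psd hU hw hz.1 (hη i z hz.1)) hz.2
  obtain ⟨O, ξ, hzO, hOs, hF⟩ := kfr hU hw (hν i) hz.1 hJ
  have hO := hF.isOpen
  have hwO := hw.mono hOs
  have ha' := (ker_iff η hz.1 a).1 ha
  have hkf : KF (η.w i) O fun y => ∑ k, a k • ξ k y := by
    refine ⟨fun q => ?_, fun y hy => km_sum _ _ _ fun k _ => hF.ker y hy k⟩
    have h1 : (fun y => (∑ k, a k • ξ k y) q) = fun y => ∑ k, a k * ξ k y q := by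
      funext y
      rw [Finset.sum_apply]
      rfl
    rw [h1]
    exact ContDiffOn.sum fun k _ => contDiffOn_const.mul (hF.smooth k q)
  have h2 : (∑ k, a k • ξ k z) = a := (hF.span z hzO a ha').symm
  have hvs : ContDiffOn ℝ ∞ (cx (vt A v i)) O := contDiffOn_cx ((hv.sm i).mono hOs)
  have h3 := d01_d10_var hO hvs hkf.sm hzO a
  have h4 : d01 (fun y => d10 (cx (vt A v i)) y (∑ k, a k • ξ k y)) z a = 0 := by
    rw [d01_congr (g := fun _ => (0 : ℂ)), d01_const]
    filter_upwards [hO.mem_nhds hzO] with y hy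
    have hf : Full η ν i y := ⟨hOs hy, rank_full (hν i y (hOs hy)) (hF.det_ne y hy)⟩
    exact hv.ker i y hf _ ((ker_iff η (hOs hy) _).2 (hkf.km y hy))
  have h5 : d10 (cx (vt A v i)) z (dxb (fun y => ∑ k, a k • ξ k y) z a) = 0 :=
    hv.ker i z hz _ ((ker_iff η hz.1 _).2 (hkf.dxb_km hO hwO hzO ha'))
  rw [h4, h5, h2, zero_add, ← d10_d01_comm (hvs.contDiffAt (hO.mem_nhds hzO))] at h3
  exact h3.symm

theorem levi_mul_zero {U : Set (E n)} (hU : IsOpen U) {u v : E n → ℝ} (hu : ContDiffOn ℝ ∞ u U)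
    (hv : ContDiffOn ℝ ∞ v U) (hz : z ∈ U) {a : E n} (h0 : d10 (cx u) z a = 0)
    (h1 : levi u z a a = 0) : levi (fun y => u y * v y) z a a = (u z : ℂ) * levi v z a a := by
  have hcu := contDiffOn_cx hu
  have hcv := contDiffOn_cx hv
  have h2 : (fun y => d01 (fun x => ((u x * v x : ℝ) : ℂ)) y a)
      =ᶠ[𝓝 z] fun y => d01 (cx u) y a * cx v y + cx u y * d01 (cx v) y a := by
    filter_upwards [hU.mem_nhds hz] with y hy
    rw [← d01_mul (diffAt_of hU hcu hy) (diffAt_of hU hcv hy)]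
    congr 1
    funext x
    simp [cx]
  have hdu := contDiffOn_d01 hU hcu a
  have hdv := contDiffOn_d01 hU hcv a
  have h3 : d01 (cx u) z a = 0 := by
    rw [d01_cx_conj (diffAt_of hU hcu hz), h0, map_zero]
  have h4 : d10 (fun y => d01 (cx u) y a) z a = 0 := h1
  unfold levi
  rw [d10_congr h2, d10_add (diffAt_of hU (hdu.mul hcv) hz) (diffAt_of hU (hcu.mul hdv) hz),
    d10_mul (diffAt_of hU hdu hz) (diffAt_of hU hcv hz),
    d10_mul (diffAt_of hU hcu hz) (diffAt_of hU hdv hz), h3, h4, h0]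
  simp only [zero_mul, zero_add]
  rfl

end Pool.Agent.ARK
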