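import Pool.Agent.ARK.Prp
import Pool.Agent.ARK.Glf

/-!
ARK module Ufn (size 2): the norm of a horizontal form at a point of rank `ν`.
PROOF. `prp` for `M = lm (η.w i) z` (`lm_psd`, `LM = lm` entries), `hv.alt`, `hor` (`ker_iff`): `v J conj (v L) = c0 det M_JL`; `c = c0 * exp (-(m w))`. `nB = c * nA`: insert in the definition (`ctr` is linear in `Φ`; real parts; `c0` real). `vn_eq`: `‖v J‖² = v J * conj (v J)`, and `det M_JJ` is real (hermitian psd
submatrix: `Matrix.PosSemidef.submatrix`, `Matrix.IsHermitian.det`-real or `Matrix.PosSemidef.det_nonneg`) and not zero: `vn = c = nB / nA` (`nA_pos`). `v_ne`: if `v i J z ≠ 0` then `0 < ‖v J‖² = c0 det M_JJ`, so `c > 0` and `det M_JJ ≠ 0`.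
`det_re`: real and nonnegative, positive if not zero.
-/

open scoped ContDiff ComplexConjugate Topology ComplexOrder
open Complex MeasureTheory Matrix

namespace Pool.Agent.ARK

open Pool.Agent.CYF Pool.Agent.NDC

variable {n : ℕ} {X : Type*} [TopologicalSpace X] {ι : Type*} {A : Mfd n X ι}

theorem det_re {M : Matrix (Fin n) (Fin n) ℂ} (hM : M.PosSemidef) {ν : ℕ} (J : Fin ν → Fin n) :
    0 ≤ (M.submatrix J J).det.re ∧ (M.submatrix J J).det.im = 0 := by
  have h := (hM.submatrix J).det_nonneg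
  rw [Complex.le_def] at h
  exact ⟨h.1, h.2.symm⟩

theorem ufn {η om : Form A} (hη : η.Semipositive) (hom : om.Positive) {ν : ℕ} {m : ℝ}
    {v : ι → (Fin ν → Fin n) → E n → ℂ} (hv : IsForm η ν m v) (hh : Horizontal η ν v) {i : ι}
    {z : E n} (hz : Full η ν i z) :
    ∃ c : ℝ, 0 ≤ c ∧ nB η om m v i z = c * nA η om ν i z ∧
      (∀ J L : Fin ν → Fin n, v i J z * conj (v i L z) * (Real.exp (-(m * η.w i z)) : ℂ)
        = (c : ℂ) * ((lm (η.w i) z).submatrix J L).det) := by
  have hM : (lm (η.w i) z).PosSemidef :=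
    lm_psd (A.c i).open_target (η.smooth i) hz.1 (hη i z hz.1)
  obtain ⟨c, hc, hcv⟩ := prp hM hz.2 (v := fun J => v i J z)
    (fun J σ => hv.alt i J σ z hz.1) (fun a ha J q => by
      refine hh i z hz a ?_ J q
      rw [ker_iff η hz.1]
      intro l
      exact ha l)
  refine ⟨c * Real.exp (-(m * η.w i z)), by positivity, ?_, ?_⟩
  · have h1 : ctr (lm (om.w i) z)⁻¹ (fun K L : Fin ν → Fin n => v i K z * conj (v i L z)) =
        (c : ℂ) * ctr (lm (om.w i) z)⁻¹
          (fun K L : Fin ν → Fin n => ((lm (η.w i) z).submatrix K L).det) := by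
      unfold ctr
      rw [Finset.mul_sum]
      refine Finset.sum_congr rfl fun K _ => ?_
      rw [Finset.mul_sum]
      refine Finset.sum_congr rfl fun L _ => ?_
      beta_reduce
      rw [hcv K L, mul_assoc]
    unfold nB nA
    rw [h1, Complex.re_ofReal_mul]
    ring
  · intro J L
    rw [hcv J L]
    push_cast
    ring

private theorem Ufn_sq {x : ℂ} {e c : ℝ} {d : ℂ} (h : x * conj x * (e : ℂ) = (c : ℂ) * d) :
    ‖x‖ ^ 2 * e = c * d.re := by
  have h1 : x * conj x = ((‖x‖ ^ 2 : ℝ) : ℂ) := by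
    rw [Complex.mul_conj, Complex.normSq_eq_norm_sq]
  rw [h1, ← Complex.ofReal_mul] at h
  have h2 := congrArg Complex.re h
  rw [Complex.ofReal_re, Complex.re_ofReal_mul] at h2
  exact h2

theorem vn_eq {η om : Form A} (hη : η.Semipositive) (hom : om.Positive) {ν : ℕ} {m : ℝ}
    {v : ι → (Fin ν → Fin n) → E n → ℂ} (hv : IsForm η ν m v) (hh : Horizontal η ν v) {i : ι}
    {z : E n} (hz : Full η ν i z) {J : Fin ν → Fin n}
    (hJ : ((lm (η.w i) z).submatrix J J).det ≠ 0) :
    vn (η.w i) m (v i) J z = nB η om m v i z / nA η om ν i z := by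
  have hM : (lm (η.w i) z).PosSemidef :=
    lm_psd (A.c i).open_target (η.smooth i) hz.1 (hη i z hz.1)
  obtain ⟨c, hc, h1, h2⟩ := ufn hη hom hv hh hz
  have h3 := Ufn_sq (h2 J J)
  have h4 := det_re hM J
  have h5 : ((lm (η.w i) z).submatrix J J).det.re ≠ 0 := by
    intro h
    exact hJ (Complex.ext h h4.2)
  have h6 := nA_pos hη hom hz
  unfold vn
  rw [h3, h1, mul_div_assoc, mul_div_assoc, div_self h5, div_self h6.ne']

theorem v_ne {η om : Form A} (hη : η.Semipositive) (hom : om.Positive) {ν : ℕ} {m : ℝ}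
    {v : ι → (Fin ν → Fin n) → E n → ℂ} (hv : IsForm η ν m v) (hh : Horizontal η ν v) {i : ι}
    {z : E n} (hz : Full η ν i z) {J : Fin ν → Fin n} (h : v i J z ≠ 0) :
    ((lm (η.w i) z).submatrix J J).det ≠ 0 ∧ 0 < nB η om m v i z := by
  have hM : (lm (η.w i) z).PosSemidef :=
    lm_psd (A.c i).open_target (η.smooth i) hz.1 (hη i z hz.1)
  obtain ⟨c, hc, h1, h2⟩ := ufn hη hom hv hh hz
  have h3 := Ufn_sq (h2 J J)
  have h4 : 0 < ‖v i J z‖ ^ 2 * Real.exp (-(m * η.w i z)) := by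
    have : 0 < ‖v i J z‖ := norm_pos_iff.2 h
    positivity
  rw [h3] at h4
  have h5 : c ≠ 0 := by
    rintro rfl
    rw [zero_mul] at h4
    exact lt_irrefl _ h4
  have h6 := nA_pos hη hom hz
  refine ⟨?_, ?_⟩
  · intro h7
    rw [h7, Complex.zero_re, mul_zero] at h4
    exact lt_irrefl _ h4
  · rw [h1]
    exact mul_pos (lt_of_le_of_ne hc h5.symm) h6

end Pool.Agent.ARK
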