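import Pool.Agent.ARK.Ufn
import Pool.Agent.ARK.Hok

/-!
ARK module Vfr (size 3): where a horizontal holomorphic form of degree `ν` is not zero the kernel is holomorphic.
PROOF. `w = η.w i`. `v_ne`: `det M_JJ ≠ 0` at `z`; `kfr` gives a frame `ξ` on `O`; shrink `O` (`Frame.mono`) so that `O ⊆ target`, `v i J ≠ 0` on `O` (continuity) and all points of `O` are `Full` (`rank_full`, or `isOpen_full`). For `y ∈ O`, `k`, and `q : Fin ν`: `∑ l, ξ k y l * v i (update J q l) y = 0` (`hh`, `ker_iff`, `Frame.ker`).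
Here `ξ k y l` is zero for `l ∉ range J` unless `l = k` (`off`), and `v i (update J q (J r)) y = 0` for `r ≠ q` (not injective: `alt_zero`), `update J q (J q) = J`. So if `k ∉ range J`: `ξ k y (J q) * v i J y + v i (update J q k) y = 0`, `ξ k y (J q) = - v i (update J q k) y / v i J y`, a holomorphic
function of `y`; if `k ∈ range J` then `ξ k y = 0` (`Frame.uniq`). The other components are constant. So `d01 (ξ k · l) y x = 0` (`d01_of_diff`; `DifferentiableAt ℂ` of a quotient), `dxb (ξ k) y x = 0`, `holKer_of` (module Hok; `KM w y 0`).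
-/

open scoped ContDiff ComplexConjugate Topology ComplexOrder
open Complex MeasureTheory Matrix

namespace Pool.Agent.ARK

open Pool.Agent.CYF Pool.Agent.NDC

variable {n : ℕ} {X : Type*} [TopologicalSpace X] {ι : Type*} {A : Mfd n X ι}

/-- the equation of the frame vectors -/
private theorem Vfr_eq {η om : Form A} (_hom : om.Positive) {ν : ℕ}
    {m : ℝ} {v : ι → (Fin ν → Fin n) → E n → ℂ} (hv : IsForm η ν m v) (hh : Horizontal η ν v)
    {i : ι} {J : Fin ν → Fin n} {O : Set (E n)} {ξ : Fin n → E n → E n}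
    (hF : Frame (η.w i) J O ξ) {y : E n} (hy : y ∈ O) (hf : Full η ν i y) {k : Fin n}
    (hk : k ∉ Set.range J) (q : Fin ν) :
    ξ k y (J q) * v i J y + v i (Function.update J q k) y = 0 := by
  have h1 := hh i y hf (ξ k y) ((ker_iff η hf.1 _).2 (hF.ker y hy k)) J q
  have hne : J q ≠ k := fun h => hk ⟨q, h⟩
  rw [Finset.sum_eq_add (J q) k hne] at h1
  · rw [Function.update_eq_self, hF.off y hy k k hk, if_pos rfl, one_mul] at h1
    exact h1
  · intro l _ hl
    by_cases hr : l ∈ Set.range J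
    · obtain ⟨r, rfl⟩ := hr
      have hrq : r ≠ q := fun h => hl.1 (by rw [h])
      have h2 : v i (Function.update J q (J r)) y = 0 := by
        refine alt_zero (v := fun J => v i J y) (fun J σ => hv.alt i J σ y hf.1) ?_
        intro hinj
        apply hrq
        apply hinj
        rw [Function.update_self, Function.update_of_ne hrq]
      rw [h2, mul_zero]
    · rw [hF.off y hy k l hr, if_neg hl.2, zero_mul]
  · intro h
    exact absurd (Finset.mem_univ _) h
  · intro h
    exact absurd (Finset.mem_univ _) h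

theorem vfr {η om : Form A} (hη : η.Semipositive) (hom : om.Positive) {ν : ℕ} (hν : η.RankLE ν)
    {m : ℝ} {v : ι → (Fin ν → Fin n) → E n → ℂ} (hv : IsForm η ν m v) (hh : Horizontal η ν v)
    {i : ι} {z : E n} (hz : Full η ν i z) {J : Fin ν → Fin n} (h : v i J z ≠ 0) :
    ∃ (O : Set (E n)) (ξ : Fin n → E n → E n), z ∈ O ∧ O ⊆ (A.c i).target ∧
      Frame (η.w i) J O ξ ∧ (∀ y ∈ O, Full η ν i y) ∧ (∀ y ∈ O, v i J y ≠ 0) ∧
      (∀ y ∈ O, ∀ k l x, d01 (fun y' => ξ k y' l) y x = 0) := by
  have hdet := (v_ne hη hom hv hh hz h).1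
  obtain ⟨O, ξ, hzO, hOU, hF⟩ := kfr (A.c i).open_target (η.smooth i) (hν i) hz.1 hdet
  set O' : Set (E n) := O ∩ (v i J) ⁻¹' {0}ᶜ with hO'
  have hsub : O' ⊆ O := Set.inter_subset_left
  have hcont : ContinuousOn (v i J) O := ((hv.hol i J).continuousOn).mono hOU
  have hopen : IsOpen O' := hcont.isOpen_inter_preimage hF.isOpen isOpen_compl_singleton
  have hF' : Frame (η.w i) J O' ξ := hF.mono hopen hsub
  have hfull : ∀ y ∈ O', Full η ν i y := fun y hy =>
    ⟨hOU (hsub hy), rank_full (hν i y (hOU (hsub hy))) (hF'.det_ne y hy)⟩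
  have hvn : ∀ y ∈ O', v i J y ≠ 0 := fun y hy => hy.2
  refine ⟨O', ξ, ⟨hzO, h⟩, hsub.trans hOU, hF', hfull, hvn, ?_⟩
  intro y hy k l x
  have hnh : O' ∈ 𝓝 y := hopen.mem_nhds hy
  by_cases hl : l ∈ Set.range J
  · obtain ⟨q, rfl⟩ := hl
    by_cases hk : k ∈ Set.range J
    · have h1 : (fun y' => ξ k y' (J q)) =ᶠ[𝓝 y] fun _ => (0 : ℂ) := by
        filter_upwards [hnh] with y' hy'
        have h2 : ξ k y' = 0 := by
          refine hF'.uniq y' hy' _ (hF'.ker y' hy' k) ?_
          intro l hl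
          rw [hF'.off y' hy' k l hl, if_neg]
          rintro rfl
          exact hl hk
        rw [h2]
        rfl
      rw [d01_congr h1, d01_const]
    · have h1 : (fun y' => ξ k y' (J q)) =ᶠ[𝓝 y]
          fun y' => -(v i (Function.update J q k) y') * (v i J y')⁻¹ := by
        filter_upwards [hnh] with y' hy'
        have h2 := Vfr_eq hom hv hh hF' hy' (hfull y' hy') hk q
        rw [← div_eq_mul_inv, eq_div_iff (hvn y' hy')]
        linear_combination h2
      rw [d01_congr h1]
      have hd : ∀ K, DifferentiableAt ℂ (v i K) y := fun K =>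
        ((hv.hol i K).contDiffAt ((A.c i).open_target.mem_nhds (hfull y hy).1)).differentiableAt
          (by simp)
      exact d01_of_diff ((hd _).neg.mul ((hd J).inv (hvn y hy))) x
  · have h1 : (fun y' => ξ k y' l) =ᶠ[𝓝 y] fun _ => if l = k then (1 : ℂ) else 0 := by
      filter_upwards [hnh] with y' hy'
      exact hF'.off y' hy' k l hl
    rw [d01_congr h1, d01_const]

theorem vhk {η om : Form A} (hη : η.Semipositive) (hom : om.Positive) {ν : ℕ} (hν : η.RankLE ν)
    {m : ℝ} {v : ι → (Fin ν → Fin n) → E n → ℂ} (hv : IsForm η ν m v) (hh : Horizontal η ν v)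
    {i : ι} {z : E n} (hz : Full η ν i z) {J : Fin ν → Fin n} (h : v i J z ≠ 0) :
    HolKer η i z := by
  obtain ⟨O, ξ, hzO, hOU, hF, hfull, hvn, hd⟩ := vfr hη hom hν hv hh hz h
  refine holKer_of η hF hOU hzO ?_
  intro y hy k x l
  refine Finset.sum_eq_zero ?_
  intro p _
  have h1 : dxb (ξ k) y x p = 0 := hd y hy k p x
  rw [h1, zero_mul]

end Pool.Agent.ARK
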