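import Pool.Agent.ARK.Pxi

/-!
ARK: the Levi form, along the kernel of `i ∂∂̄ w`, of the squared norm of a vector field `e` that is
holomorphic modulo the kernel along the kernel.
-/

open scoped ContDiff ComplexConjugate Topology ComplexOrder
open Complex MeasureTheory Matrix

namespace Pool.Agent.ARK

open Pool.Agent.CYF Pool.Agent.NDC

variable {n : ℕ} {w : E n → ℝ} {O : Set (E n)} {z : E n}

/-- the Levi form as a sum -/
noncomputable def pp (w : E n → ℝ) (z u v : E n) : ℂ := ∑ k, ∑ l, u k * conj (v l) * LM w z k l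

/-- `∂_x` of the Levi form -/
noncomputable def t10 (w : E n → ℝ) (z x u v : E n) : ℂ :=
  ∑ k, ∑ l, u k * conj (v l) * d10 (fun y => LM w y k l) z x

/-- `∂̄_x` of the Levi form -/
noncomputable def t01 (w : E n → ℝ) (z x u v : E n) : ℂ :=
  ∑ k, ∑ l, u k * conj (v l) * d01 (fun y => LM w y k l) z x

theorem pp_add_left (u u' v : E n) : pp w z (u + u') v = pp w z u v + pp w z u' v := by
  unfold pp
  rw [← Finset.sum_add_distrib]
  refine Finset.sum_congr rfl fun k _ => ?_
  rw [← Finset.sum_add_distrib]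
  exact Finset.sum_congr rfl fun l _ => by rw [Pi.add_apply]; ring

theorem pp_sub_left (u u' v : E n) : pp w z (u - u') v = pp w z u v - pp w z u' v := by
  unfold pp
  rw [← Finset.sum_sub_distrib]
  refine Finset.sum_congr rfl fun k _ => ?_
  rw [← Finset.sum_sub_distrib]
  exact Finset.sum_congr rfl fun l _ => by rw [Pi.sub_apply]; ring

theorem pp_add_right (u v v' : E n) : pp w z u (v + v') = pp w z u v + pp w z u v' := by
  unfold pp
  rw [← Finset.sum_add_distrib]
  refine Finset.sum_congr rfl fun k _ => ?_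
  rw [← Finset.sum_add_distrib]
  exact Finset.sum_congr rfl fun l _ => by rw [Pi.add_apply, map_add]; ring

theorem pp_sub_right (u v v' : E n) : pp w z u (v - v') = pp w z u v - pp w z u v' := by
  unfold pp
  rw [← Finset.sum_sub_distrib]
  refine Finset.sum_congr rfl fun k _ => ?_
  rw [← Finset.sum_sub_distrib]
  exact Finset.sum_congr rfl fun l _ => by rw [Pi.sub_apply, map_sub]; ring

theorem pp_km_left {u : E n} (hu : KM w z u) (v : E n) : pp w z u v = 0 := by
  unfold pp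
  rw [Finset.sum_comm]
  refine Finset.sum_eq_zero fun l _ => ?_
  have h : ∑ k, u k * conj (v l) * LM w z k l = conj (v l) * ∑ k, u k * LM w z k l := by
    rw [Finset.mul_sum]
    exact Finset.sum_congr rfl fun k _ => by ring
  rw [h, hu l, mul_zero]

theorem pp_conj (hO : IsOpen O) (hw : ContDiffOn ℝ ∞ w O) (hz : z ∈ O) (u v : E n) :
    conj (pp w z u v) = pp w z v u := by
  unfold pp
  rw [map_sum, Finset.sum_comm]
  simp_rw [map_sum]
  rw [Finset.sum_comm]
  rw [Finset.sum_comm]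
  refine Finset.sum_congr rfl fun k _ => Finset.sum_congr rfl fun l _ => ?_
  rw [map_mul, map_mul, Complex.conj_conj, LM_conj hO hw hz]
  ring

theorem pp_km_right (hO : IsOpen O) (hw : ContDiffOn ℝ ∞ w O) (hz : z ∈ O) (u : E n) {v : E n}
    (hv : KM w z v) : pp w z u v = 0 := by
  rw [← pp_conj hO hw hz, pp_km_left hv, map_zero]

theorem t10_symm (hO : IsOpen O) (hw : ContDiffOn ℝ ∞ w O) (hz : z ∈ O) (x u v : E n) :
    t10 w z x u v = t10 w z u x v := by
  have key : ∀ x u : E n, t10 w z x u v = ∑ l, ∑ k, ∑ p, u k * conj (v l) * (x p *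
      pk p (fun y => LM w y k l) z) := by
    intro x u
    unfold t10
    rw [Finset.sum_comm]
    refine Finset.sum_congr rfl fun l _ => Finset.sum_congr rfl fun k _ => ?_
    rw [d10_eq_sum, Finset.mul_sum]
  rw [key x u, key u x]
  refine Finset.sum_congr rfl fun l _ => ?_
  rw [Finset.sum_comm]
  refine Finset.sum_congr rfl fun p _ => Finset.sum_congr rfl fun k _ => ?_
  rw [pk_LM hO hw hz p k l]
  ring

theorem t01_symm (hO : IsOpen O) (hw : ContDiffOn ℝ ∞ w O) (hz : z ∈ O) (x u v : E n) :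
    t01 w z x u v = t01 w z v u x := by
  have key : ∀ x v : E n, t01 w z x u v = ∑ k, ∑ l, ∑ q, u k * conj (v l) * (conj (x q) *
      pb q (fun y => LM w y k l) z) := by
    intro x v
    unfold t01
    refine Finset.sum_congr rfl fun k _ => Finset.sum_congr rfl fun l _ => ?_
    rw [d01_eq_sum, Finset.mul_sum]
  rw [key x v, key v x]
  refine Finset.sum_congr rfl fun k _ => ?_
  rw [Finset.sum_comm]
  refine Finset.sum_congr rfl fun q _ => Finset.sum_congr rfl fun l _ => ?_
  rw [pb_LM hO hw hz q k l]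
  ring

private theorem Vlf_smLM (hO : IsOpen O) (hw : ContDiffOn ℝ ∞ w O) (k l : Fin n) :
    ContDiffOn ℝ ∞ (fun y => LM w y k l) O :=
  contDiffOn_pk hO (contDiffOn_pb hO (contDiffOn_cx hw) l) k

private theorem Vlf_conj {f : E n → ℂ} (hf : ContDiffOn ℝ ∞ f O) :
    ContDiffOn ℝ ∞ (fun y => conj (f y)) O :=
  Complex.conjCLE.contDiff.comp_contDiffOn hf

theorem pp_smooth (hO : IsOpen O) (hw : ContDiffOn ℝ ∞ w O) {u v : E n → E n}
    (hu : ∀ q, ContDiffOn ℝ ∞ (fun y => u y q) O) (hv : ∀ q, ContDiffOn ℝ ∞ (fun y => v y q) O) :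
    ContDiffOn ℝ ∞ (fun y => pp w y (u y) (v y)) O := by
  unfold pp
  exact ContDiffOn.sum fun k _ => ContDiffOn.sum fun l _ =>
    ((hu k).mul (Vlf_conj (hv l))).mul (Vlf_smLM hO hw k l)

theorem d10_pp (hO : IsOpen O) (hw : ContDiffOn ℝ ∞ w O) {u v : E n → E n}
    (hu : ∀ q, ContDiffOn ℝ ∞ (fun y => u y q) O) (hv : ∀ q, ContDiffOn ℝ ∞ (fun y => v y q) O)
    (hz : z ∈ O) (x : E n) :
    d10 (fun y => pp w y (u y) (v y)) z x
      = pp w z (dx u z x) (v z) + pp w z (u z) (dxb v z x) + t10 w z x (u z) (v z) := by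
  have hL := Vlf_smLM hO hw
  have hs : ∀ k l, ContDiffOn ℝ ∞ (fun y => u y k * conj (v y l) * LM w y k l) O := fun k l =>
    ((hu k).mul (Vlf_conj (hv l))).mul (hL k l)
  unfold pp t10
  rw [d10_sum Finset.univ (fun k y => ∑ l, u y k * conj (v y l) * LM w y k l)
    (fun k _ => diffAt_of hO (ContDiffOn.sum fun l _ => hs k l) hz)]
  rw [← Finset.sum_add_distrib, ← Finset.sum_add_distrib]
  refine Finset.sum_congr rfl fun k _ => ?_
  rw [d10_sum Finset.univ (fun l y => u y k * conj (v y l) * LM w y k l)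
    (fun l _ => diffAt_of hO (hs k l) hz)]
  rw [← Finset.sum_add_distrib, ← Finset.sum_add_distrib]
  refine Finset.sum_congr rfl fun l _ => ?_
  rw [d10_mul (diffAt_of hO ((hu k).mul (Vlf_conj (hv l))) hz) (diffAt_of hO (hL k l) hz),
    d10_mul (diffAt_of hO (hu k) hz) (diffAt_of hO (Vlf_conj (hv l)) hz),
    d10_conj (diffAt_of hO (hv l) hz)]
  unfold dx dxb
  ring

theorem d01_pp (hO : IsOpen O) (hw : ContDiffOn ℝ ∞ w O) {u v : E n → E n}
    (hu : ∀ q, ContDiffOn ℝ ∞ (fun y => u y q) O) (hv : ∀ q, ContDiffOn ℝ ∞ (fun y => v y q) O)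
    (hz : z ∈ O) (x : E n) :
    d01 (fun y => pp w y (u y) (v y)) z x
      = pp w z (dxb u z x) (v z) + pp w z (u z) (dx v z x) + t01 w z x (u z) (v z) := by
  have hL := Vlf_smLM hO hw
  have hs : ∀ k l, ContDiffOn ℝ ∞ (fun y => u y k * conj (v y l) * LM w y k l) O := fun k l =>
    ((hu k).mul (Vlf_conj (hv l))).mul (hL k l)
  unfold pp t01
  rw [d01_sum Finset.univ (fun k y => ∑ l, u y k * conj (v y l) * LM w y k l)
    (fun k _ => diffAt_of hO (ContDiffOn.sum fun l _ => hs k l) hz)]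
  rw [← Finset.sum_add_distrib, ← Finset.sum_add_distrib]
  refine Finset.sum_congr rfl fun k _ => ?_
  rw [d01_sum Finset.univ (fun l y => u y k * conj (v y l) * LM w y k l)
    (fun l _ => diffAt_of hO (hs k l) hz)]
  rw [← Finset.sum_add_distrib, ← Finset.sum_add_distrib]
  refine Finset.sum_congr rfl fun l _ => ?_
  rw [d01_mul (diffAt_of hO ((hu k).mul (Vlf_conj (hv l))) hz) (diffAt_of hO (hL k l) hz),
    d01_mul (diffAt_of hO (hu k) hz) (diffAt_of hO (Vlf_conj (hv l)) hz),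
    d01_conj (diffAt_of hO (hv l) hz)]
  unfold dx dxb
  ring

/-- smooth section of the kernel on `O` -/
structure KF (w : E n → ℝ) (O : Set (E n)) (ξ : E n → E n) : Prop where
  sm : ∀ q, ContDiffOn ℝ ∞ (fun y => ξ y q) O
  km : ∀ y ∈ O, KM w y (ξ y)

theorem sm_const (a : E n) (q : Fin n) : ContDiffOn ℝ ∞ (fun _ : E n => a q) O :=
  contDiffOn_const

theorem dx_const (a z x : E n) : dx (fun _ => a) z x = 0 := by
  funext q
  show d10 (fun _ => a q) z x = 0
  rw [d10_const]

theorem dxb_const (a z x : E n) : dxb (fun _ => a) z x = 0 := by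
  funext q
  show d01 (fun _ => a q) z x = 0
  rw [d01_const]

section
variable {ξ ζ e : E n → E n}

theorem pp_zero_left (v : E n) : pp w z 0 v = 0 := by simp [pp]

theorem pp_zero_right (u : E n) : pp w z u 0 = 0 := by simp [pp]

/-- `t10 x κ v = - pp (∂_x κ) v` -/
theorem KF.t10_left (hξ : KF w O ξ) (hO : IsOpen O) (hw : ContDiffOn ℝ ∞ w O) (hz : z ∈ O)
    (x v : E n) : t10 w z x (ξ z) v = - pp w z (dx ξ z x) v := by
  have h := d10_pp hO hw hξ.sm (sm_const v) hz x
  have h0 : d10 (fun y => pp w y (ξ y) v) z x = 0 := by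
    rw [d10_congr (g := fun _ => (0 : ℂ)), d10_const]
    filter_upwards [hO.mem_nhds hz] with y hy
    exact pp_km_left (hξ.km y hy) v
  rw [h0, dxb_const, pp_zero_right] at h
  linear_combination -h

theorem KF.t10_left' (hξ : KF w O ξ) (hO : IsOpen O) (hw : ContDiffOn ℝ ∞ w O) (hz : z ∈ O)
    (x v : E n) : t10 w z (ξ z) x v = - pp w z (dx ξ z x) v := by
  rw [t10_symm hO hw hz, hξ.t10_left hO hw hz]

theorem KF.t01_left (hξ : KF w O ξ) (hO : IsOpen O) (hw : ContDiffOn ℝ ∞ w O) (hz : z ∈ O)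
    (x v : E n) : t01 w z x (ξ z) v = - pp w z (dxb ξ z x) v := by
  have h := d01_pp hO hw hξ.sm (sm_const v) hz x
  have h0 : d01 (fun y => pp w y (ξ y) v) z x = 0 := by
    rw [d01_congr (g := fun _ => (0 : ℂ)), d01_const]
    filter_upwards [hO.mem_nhds hz] with y hy
    exact pp_km_left (hξ.km y hy) v
  rw [h0, dx_const, pp_zero_right] at h
  linear_combination -h

theorem KF.t01_right (hξ : KF w O ξ) (hO : IsOpen O) (hw : ContDiffOn ℝ ∞ w O) (hz : z ∈ O)
    (x u : E n) : t01 w z x u (ξ z) = - pp w z u (dx ξ z x) := by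
  have h := d01_pp hO hw (sm_const u) hξ.sm hz x
  have h0 : d01 (fun y => pp w y u (ξ y)) z x = 0 := by
    rw [d01_congr (g := fun _ => (0 : ℂ)), d01_const]
    filter_upwards [hO.mem_nhds hz] with y hy
    exact pp_km_right hO hw hy u (hξ.km y hy)
  rw [h0, dxb_const, pp_zero_left] at h
  linear_combination -h

theorem KF.t01_right' (hξ : KF w O ξ) (hO : IsOpen O) (hw : ContDiffOn ℝ ∞ w O) (hz : z ∈ O)
    (x u : E n) : t01 w z (ξ z) u x = - pp w z u (dx ξ z x) := by
  rw [t01_symm hO hw hz, hξ.t01_right hO hw hz]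

/-- brackets of sections of the kernel are in the kernel -/
theorem KF.bracket (hξ : KF w O ξ) (hζ : KF w O ζ) (hO : IsOpen O) (hw : ContDiffOn ℝ ∞ w O)
    (hz : z ∈ O) (u : E n) : pp w z u (dx ζ z (ξ z)) = pp w z u (dx ξ z (ζ z)) := by
  have h1 := hζ.t01_right' hO hw hz (ξ z) u
  have h2 := hξ.t01_right hO hw hz (ζ z) u
  rw [h1] at h2
  exact neg_injective h2

theorem KF.symm3 (hξ : KF w O ξ) (hO : IsOpen O) (hw : ContDiffOn ℝ ∞ w O) (hz : z ∈ O)
    (x y : E n) : pp w z (dxb ξ z x) y = pp w z (dxb ξ z y) x := by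
  have h1 := hξ.t01_left hO hw hz x y
  have h2 := hξ.t01_left hO hw hz y x
  rw [t01_symm hO hw hz, h2] at h1
  exact (neg_injective h1).symm

theorem km_of_pp {u : E n} (h : ∀ v, pp w z u v = 0) : KM w z u := by
  intro l
  have h1 := h (Pool.Agent.CYF.e l)
  unfold pp at h1
  rw [Finset.sum_comm, Finset.sum_eq_single l] at h1
  · simpa [Pool.Agent.CYF.e] using h1
  · intro l' _ hl'
    refine Finset.sum_eq_zero fun k _ => ?_
    simp [Pool.Agent.CYF.e, hl']
  · intro h; exact absurd (Finset.mem_univ _) h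

/-- `∂̄_ξ ξ` is in the kernel -/
theorem KF.dxb_km (hξ : KF w O ξ) (hO : IsOpen O) (hw : ContDiffOn ℝ ∞ w O) (hz : z ∈ O)
    {a : E n} (ha : KM w z a) : KM w z (dxb ξ z a) := by
  refine km_of_pp fun v => ?_
  rw [hξ.symm3 hO hw hz, pp_km_right hO hw hz _ ha]

end

end Pool.Agent.ARK
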