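import Pool.Agent.ARK.Vlf

/-!
ARK: the Levi form, along the kernel of `i ∂∂̄ w`, of the squared norm of a vector field `e` that is
holomorphic modulo the kernel along the kernel: it is a sum of two squared norms.
-/

open scoped ContDiff ComplexConjugate Topology ComplexOrder
open Complex MeasureTheory Matrix

namespace Pool.Agent.ARK

open Pool.Agent.CYF Pool.Agent.NDC

variable {n : ℕ} {w : E n → ℝ} {O : Set (E n)} {z : E n} {ξ ζ e : E n → E n}

private theorem Vlg_conj {f : E n → ℂ} (hf : ContDiffOn ℝ ∞ f O) :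
    ContDiffOn ℝ ∞ (fun y => conj (f y)) O :=
  Complex.conjCLE.contDiff.comp_contDiffOn hf

theorem sm_d10 (hO : IsOpen O) {f : E n → ℂ} (hf : ContDiffOn ℝ ∞ f O) {u : E n → E n}
    (hu : ∀ q, ContDiffOn ℝ ∞ (fun y => u y q) O) : ContDiffOn ℝ ∞ (fun y => d10 f y (u y)) O := by
  simp_rw [d10_eq_sum]
  exact ContDiffOn.sum fun k _ => (hu k).mul (contDiffOn_pk hO hf k)

theorem sm_d01 (hO : IsOpen O) {f : E n → ℂ} (hf : ContDiffOn ℝ ∞ f O) {u : E n → E n}
    (hu : ∀ q, ContDiffOn ℝ ∞ (fun y => u y q) O) : ContDiffOn ℝ ∞ (fun y => d01 f y (u y)) O := by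
  simp_rw [d01_eq_sum]
  exact ContDiffOn.sum fun k _ => (Vlg_conj (hu k)).mul (contDiffOn_pb hO hf k)

/-- derivative of `∂_u f` for a variable field `u` -/
theorem d01_d10_var (hO : IsOpen O) {f : E n → ℂ} (hf : ContDiffOn ℝ ∞ f O) {u : E n → E n}
    (hu : ∀ q, ContDiffOn ℝ ∞ (fun y => u y q) O) (hz : z ∈ O) (x : E n) :
    d01 (fun y => d10 f y (u y)) z x
      = d10 f z (dxb u z x) + d01 (fun y => d10 f y (u z)) z x := by
  have hp := fun k => contDiffOn_pk hO hf k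
  simp_rw [d10_eq_sum]
  rw [d01_sum Finset.univ (fun k y => u y k * pk k f y)
    (fun k _ => diffAt_of hO ((hu k).mul (hp k)) hz),
    d01_sum Finset.univ (fun k y => u z k * pk k f y)
    (fun k _ => diffAt_of hO (contDiffOn_const.mul (hp k)) hz), ← Finset.sum_add_distrib]
  refine Finset.sum_congr rfl fun k _ => ?_
  rw [d01_mul (diffAt_of hO (hu k) hz) (diffAt_of hO (hp k) hz),
    d01_const_mul (diffAt_of hO (hp k) hz)]
  rfl

/-- derivative of `∂̄_v f` for a variable field `v` -/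
theorem d10_d01_var (hO : IsOpen O) {f : E n → ℂ} (hf : ContDiffOn ℝ ∞ f O) {v : E n → E n}
    (hv : ∀ q, ContDiffOn ℝ ∞ (fun y => v y q) O) (hz : z ∈ O) (x : E n) :
    d10 (fun y => d01 f y (v y)) z x
      = d01 f z (dxb v z x) + d10 (fun y => d01 f y (v z)) z x := by
  have hp := fun k => contDiffOn_pb hO hf k
  simp_rw [d01_eq_sum]
  rw [d10_sum Finset.univ (fun k y => conj (v y k) * pb k f y)
    (fun k _ => diffAt_of hO ((Vlg_conj (hv k)).mul (hp k)) hz),
    d10_sum Finset.univ (fun k y => conj (v z k) * pb k f y)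
    (fun k _ => diffAt_of hO (contDiffOn_const.mul (hp k)) hz), ← Finset.sum_add_distrib]
  refine Finset.sum_congr rfl fun k _ => ?_
  rw [d10_mul (diffAt_of hO (Vlg_conj (hv k)) hz) (diffAt_of hO (hp k) hz),
    d10_const_mul (diffAt_of hO (hp k) hz), d10_conj (diffAt_of hO (hv k) hz)]
  rfl

theorem var_comm (hO : IsOpen O) {f : E n → ℂ} (hf : ContDiffOn ℝ ∞ f O) {u v : E n → E n}
    (hu : ∀ q, ContDiffOn ℝ ∞ (fun y => u y q) O) (hv : ∀ q, ContDiffOn ℝ ∞ (fun y => v y q) O)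
    (hz : z ∈ O) :
    d01 (fun y => d10 f y (u y)) z (v z)
      = d10 f z (dxb u z (v z)) + d10 (fun y => d01 f y (v y)) z (u z)
        - d01 f z (dxb v z (u z)) := by
  rw [d01_d10_var hO hf hu hz, d10_d01_var hO hf hv hz,
    d10_d01_comm (hf.contDiffAt (hO.mem_nhds hz))]
  ring

/-- first derivative of the squared norm of `e` along the kernel -/
theorem vlg1 (hO : IsOpen O) (hw : ContDiffOn ℝ ∞ w O) (hζ : KF w O ζ)
    (he : ∀ q, ContDiffOn ℝ ∞ (fun y => e y q) O)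
    (hek : ∀ y ∈ O, ∀ κ, KM w y κ → KM w y (dxb e y κ)) (hz : z ∈ O) :
    d01 (fun y => pp w y (e y) (e y)) z (ζ z)
      = pp w z (e z) (dx e z (ζ z) - dx ζ z (e z)) := by
  rw [d01_pp hO hw he he hz, pp_km_left (hek z hz _ (hζ.km z hz)), hζ.t01_right' hO hw hz,
    pp_sub_right]
  ring

theorem vlg2 (hO : IsOpen O) (hw : ContDiffOn ℝ ∞ w O) (hξ : KF w O ξ)
    (he : ∀ q, ContDiffOn ℝ ∞ (fun y => e y q) O)
    (hek : ∀ y ∈ O, ∀ κ, KM w y κ → KM w y (dxb e y κ)) (hz : z ∈ O) :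
    d10 (fun y => d01 (fun y => pp w y (e y) (e y)) y (ξ z)) z (ξ z)
      = pp w z (dx e z (ξ z) - dx ξ z (e z)) (dx e z (ξ z) - dx ξ z (e z))
        + pp w z (dxb ξ z (e z)) (dxb ξ z (e z)) := by
  set V : E n → E n := fun y => dx e y (ξ y) - dx ξ y (e y) with hV
  set K : E n → E n := fun y => dxb e y (ξ y) with hK
  set C : E n → E n := fun y => dxb ξ y (ξ y) with hC
  have hKs : ∀ q, ContDiffOn ℝ ∞ (fun y => K y q) O := fun q => sm_d01 hO (he q) hξ.sm
  have hCs : ∀ q, ContDiffOn ℝ ∞ (fun y => C y q) O := fun q => sm_d01 hO (hξ.sm q) hξ.sm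
  have hKF : KF w O K := ⟨hKs, fun y hy => hek y hy _ (hξ.km y hy)⟩
  have hCF : KF w O C := ⟨hCs, fun y hy => hξ.dxb_km hO hw hy (hξ.km y hy)⟩
  have hVs : ∀ q, ContDiffOn ℝ ∞ (fun y => V y q) O := fun q =>
    (sm_d10 hO (he q) hξ.sm).sub (sm_d10 hO (hξ.sm q) he)
  have hH := pp_smooth hO hw he he
  -- pass to the variable field
  have h1 := d10_d01_var hO hH hξ.sm hz (ξ z)
  have h2 : d10 (fun y => d01 (fun y => pp w y (e y) (e y)) y (ξ y)) z (ξ z)
      = d10 (fun y => pp w y (e y) (V y)) z (ξ z) := by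
    apply d10_congr
    filter_upwards [hO.mem_nhds hz] with y hy
    exact vlg1 hO hw hξ he hek hy
  have h3 := d10_pp hO hw he hVs hz (ξ z)
  have h4 := hξ.t10_left' hO hw hz (e z) (V z)
  have h5 : pp w z (dx e z (ξ z)) (V z) - pp w z (dx ξ z (e z)) (V z) = pp w z (V z) (V z) :=
    (pp_sub_left _ _ _).symm
  -- the derivative of `V`
  have h6 : dxb V z (ξ z) = (dx e z (C z) - dx C z (e z)) + (dx K z (ξ z) - dx ξ z (K z))
      - dxb e z (C z) + dxb ξ z (dxb ξ z (e z)) := by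
    funext l
    have e1 := var_comm hO (he l) hξ.sm hξ.sm hz
    have e2 := var_comm hO (hξ.sm l) he hξ.sm hz
    have e3 : dxb V z (ξ z) l = d01 (fun y => d10 (fun y => e y l) y (ξ y)) z (ξ z)
        - d01 (fun y => d10 (fun y => ξ y l) y (e y)) z (ξ z) := by
      have e4 : (fun y => V y l) = fun y => d10 (fun y => e y l) y (ξ y)
          + (-1 : ℂ) * d10 (fun y => ξ y l) y (e y) := by
        funext y
        simp only [hV, Pi.sub_apply, dx]
        ring
      show d01 (fun y => V y l) z (ξ z) = _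
      rw [e4, d01_add (diffAt_of hO (sm_d10 hO (he l) hξ.sm) hz)
        (diffAt_of hO (contDiffOn_const.mul (sm_d10 hO (hξ.sm l) he)) hz),
        d01_const_mul (diffAt_of hO (sm_d10 hO (hξ.sm l) he) hz)]
      ring
    rw [e3, e1, e2]
    simp only [Pi.add_apply, Pi.sub_apply, hK, hC, dx, dxb]
    ring
  have h7 : pp w z (e z) (dxb V z (ξ z)) = d01 (fun y => pp w y (e y) (e y)) z (C z)
      + pp w z (dxb ξ z (e z)) (dxb ξ z (e z)) := by
    rw [h6, pp_add_right, pp_sub_right, pp_add_right, ← vlg1 hO hw hCF he hek hz,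
      pp_sub_right, hξ.bracket hKF hO hw hz, pp_km_right hO hw hz _ (hek z hz _ (hCF.km z hz))]
    have e5 : pp w z (e z) (dxb ξ z (dxb ξ z (e z)))
        = pp w z (dxb ξ z (e z)) (dxb ξ z (e z)) := by
      rw [← pp_conj hO hw hz, hξ.symm3 hO hw hz, pp_conj hO hw hz]
    rw [e5]
    ring
  have h8 : d01 (fun y => pp w y (e y) (e y)) z (dxb ξ z (ξ z))
      = d01 (fun y => pp w y (e y) (e y)) z (C z) := rfl
  rw [h2, h3, h4, h7, h8] at h1
  linear_combination -h1 + h5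

end Pool.Agent.ARK
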